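import Pool.Agent.H43R2.Cplx.EMeas

/-!
# Near relations between `1`, `t` and `ξ`, where `t` has irrationality exponent two
-/

set_option autoImplicit false

namespace Pool.Agent.N493.NR

/-- the form `a + b t + c ξ` -/
noncomputable def L (t ξ : ℝ) (v : ℤ × ℤ × ℤ) : ℝ := v.1 + v.2.1 * t + v.2.2 * ξ

/-- the height `max (|b|, |c|)` -/
def ht (v : ℤ × ℤ × ℤ) : ℕ := max v.2.1.natAbs v.2.2.natAbs

/-- `u` and `v` lie on one line through the origin -/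
def Par (u v : ℤ × ℤ × ℤ) : Prop :=
  u.1 * v.2.1 = v.1 * u.2.1 ∧ u.1 * v.2.2 = v.1 * u.2.2 ∧ u.2.1 * v.2.2 = v.2.1 * u.2.2

/-- irrationality exponent two -/
def Two (t : ℝ) : Prop := ∀ ε : ℝ, 0 < ε → ∃ c : ℝ, 0 < c ∧ ∀ Q : ℕ, 1 ≤ Q → ∀ m : ℤ,
  c ≤ (Q : ℝ) ^ (1 + ε) * |Q * t - m|

lemma b_le (v : ℤ × ℤ × ℤ) : |(v.2.1 : ℝ)| ≤ ht v := by
  have h : (v.2.1.natAbs : ℤ) ≤ (ht v : ℤ) := by exact_mod_cast le_max_left _ _
  rw [Int.natCast_natAbs] at h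
  exact_mod_cast h

lemma c_le (v : ℤ × ℤ × ℤ) : |(v.2.2 : ℝ)| ≤ ht v := by
  have h : (v.2.2.natAbs : ℤ) ≤ (ht v : ℤ) := by exact_mod_cast le_max_right _ _
  rw [Int.natCast_natAbs] at h
  exact_mod_cast h

lemma Par.symm {u v : ℤ × ℤ × ℤ} (h : Par u v) : Par v u :=
  ⟨h.1.symm, h.2.1.symm, h.2.2.symm⟩

/-- the weighted sum of the two values -/
noncomputable def S (t ξ : ℝ) (u v : ℤ × ℤ × ℤ) : ℝ :=
  (ht v : ℝ) * |L t ξ u| + ht u * |L t ξ v|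

lemma S_c (t ξ : ℝ) (u v : ℤ × ℤ × ℤ) :
    |(v.2.2 : ℝ) * L t ξ u - u.2.2 * L t ξ v| ≤ S t ξ u v := by
  refine (abs_sub _ _).trans ?_
  rw [abs_mul, abs_mul]
  exact add_le_add (mul_le_mul_of_nonneg_right (c_le v) (abs_nonneg _))
    (mul_le_mul_of_nonneg_right (c_le u) (abs_nonneg _))

lemma S_b (t ξ : ℝ) (u v : ℤ × ℤ × ℤ) :
    |(v.2.1 : ℝ) * L t ξ u - u.2.1 * L t ξ v| ≤ S t ξ u v := by
  refine (abs_sub _ _).trans ?_
  rw [abs_mul, abs_mul]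
  exact add_le_add (mul_le_mul_of_nonneg_right (b_le v) (abs_nonneg _))
    (mul_le_mul_of_nonneg_right (b_le u) (abs_nonneg _))

/-- the coefficient of `t` after elimination of `ξ` -/
def q (u v : ℤ × ℤ × ℤ) : ℤ := u.2.1 * v.2.2 - v.2.1 * u.2.2

lemma int_zero (x : ℤ) (h : |(x : ℝ)| < 1) : x = 0 := by
  have h1 : |x| < 1 := by exact_mod_cast h
  exact Int.abs_lt_one_iff.1 h1

lemma q_ne (t ξ : ℝ) (u v : ℤ × ℤ × ℤ) (hp : ¬ Par u v) (hS : S t ξ u v < 1) : q u v ≠ 0 := by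
  intro hq
  apply hp
  have hqR : (u.2.1 : ℝ) * v.2.2 - v.2.1 * u.2.2 = 0 := by
    have : ((q u v : ℤ) : ℝ) = 0 := by rw [hq]; simp
    unfold q at this
    push_cast at this
    exact this
  have h1 := S_c t ξ u v
  have h2 := S_b t ξ u v
  have e1 : (v.2.2 : ℝ) * L t ξ u - u.2.2 * L t ξ v = ((u.1 * v.2.2 - v.1 * u.2.2 : ℤ) : ℝ) := by
    unfold L
    push_cast
    linear_combination t * hqR
  have e2 : (v.2.1 : ℝ) * L t ξ u - u.2.1 * L t ξ v = ((u.1 * v.2.1 - v.1 * u.2.1 : ℤ) : ℝ) := by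
    unfold L
    push_cast
    linear_combination (-ξ) * hqR
  rw [e1] at h1
  rw [e2] at h2
  have h3 := int_zero _ (h1.trans_lt hS)
  have h4 := int_zero _ (h2.trans_lt hS)
  refine ⟨by linarith, by linarith, ?_⟩
  unfold q at hq
  linarith

lemma q_le (u v : ℤ × ℤ × ℤ) : |(q u v : ℝ)| ≤ 2 * ht u * ht v := by
  unfold q
  push_cast
  refine (abs_sub _ _).trans ?_
  rw [abs_mul, abs_mul]
  have h1 := mul_le_mul (b_le u) (c_le v) (abs_nonneg _) (Nat.cast_nonneg _)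
  have h2 := mul_le_mul (b_le v) (c_le u) (abs_nonneg _) (Nat.cast_nonneg _)
  nlinarith

/-- the basic inequality -/
lemma cross (t : ℝ) (ht2 : Two t) (ε : ℝ) (hε : 0 < ε) : ∃ c : ℝ, 0 < c ∧
    ∀ (ξ : ℝ) (u v : ℤ × ℤ × ℤ), ¬ Par u v → S t ξ u v < 1 →
      c ≤ (2 * (ht u : ℝ) * ht v) ^ (1 + ε) * S t ξ u v := by
  obtain ⟨c, hc0, hc⟩ := ht2 ε hε
  refine ⟨c, hc0, fun ξ u v hp hS => ?_⟩
  have hq := q_ne t ξ u v hp hS
  have hQ : 1 ≤ (q u v).natAbs := Int.natAbs_pos.2 hq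
  obtain ⟨p, hpp⟩ : ∃ p : ℤ, p = -(u.1 * v.2.2 - v.1 * u.2.2) := ⟨_, rfl⟩
  have e1 : (q u v : ℝ) * t - p = (v.2.2 : ℝ) * L t ξ u - u.2.2 * L t ξ v := by
    rw [hpp]
    unfold q L
    push_cast
    ring
  obtain ⟨m, hm⟩ : ∃ m : ℤ, |((q u v).natAbs : ℝ) * t - m| = |(q u v : ℝ) * t - p| := by
    have hn : ((q u v).natAbs : ℝ) = |(q u v : ℝ)| := by
      rw [Nat.cast_natAbs, Int.cast_abs]
    rcases abs_cases (q u v : ℝ) with ⟨h1, _⟩ | ⟨h1, _⟩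
    · exact ⟨p, by rw [hn, h1]⟩
    · refine ⟨-p, ?_⟩
      rw [hn, h1, ← abs_neg]
      congr 1
      push_cast
      ring
  have h1 := hc _ hQ m
  rw [hm, e1] at h1
  have h2 : (((q u v).natAbs : ℕ) : ℝ) ≤ 2 * ht u * ht v := by
    rw [Nat.cast_natAbs, Int.cast_abs]
    exact q_le u v
  have h3 := S_c t ξ u v
  have h4 : (((q u v).natAbs : ℕ) : ℝ) ^ (1 + ε) ≤ (2 * (ht u : ℝ) * ht v) ^ (1 + ε) :=
    Real.rpow_le_rpow (Nat.cast_nonneg _) h2 (by linarith)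
  exact h1.trans (mul_le_mul h4 h3 (abs_nonneg _) (by positivity))

/-- (A) near relations at one scale -/
theorem line (t : ℝ) (ht2 : Two t) (ε : ℝ) (hε : 0 < ε) : ∃ c : ℝ, 0 < c ∧
    ∀ (ξ X : ℝ), 1 ≤ X → ∀ u v : ℤ × ℤ × ℤ, (ht u : ℝ) ≤ X → (ht v : ℝ) ≤ X →
      |L t ξ u| ≤ c * X ^ (-3 - ε) → |L t ξ v| ≤ c * X ^ (-3 - ε) → Par u v := by
  obtain ⟨c, hc0, hc⟩ := cross t ht2 (ε / 2) (by linarith)
  obtain ⟨K, hK⟩ : ∃ K : ℝ, K = (2 : ℝ) ^ (1 + ε / 2) := ⟨_, rfl⟩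
  have hK0 : 0 < K := by rw [hK]; positivity
  refine ⟨min (1 / 4) (c / (4 * K)), by positivity, ?_⟩
  intro ξ X hX u v hu hv h1 h2
  by_contra hp
  obtain ⟨c', hc'⟩ : ∃ c' : ℝ, c' = min (1 / 4) (c / (4 * K)) := ⟨_, rfl⟩
  rw [← hc'] at h1 h2
  have hc'0 : 0 < c' := by rw [hc']; positivity
  have hc'1 : c' ≤ 1 / 4 := by rw [hc']; exact min_le_left _ _
  have hc'2 : c' * (4 * K) ≤ c := by
    rw [← le_div_iff₀ (by positivity), hc']; exact min_le_right _ _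
  have hX0 : 0 < X := by linarith
  have e1 : X * X ^ (-3 - ε) = X ^ (-2 - ε) := by
    nth_rewrite 1 [← Real.rpow_one X]
    rw [← Real.rpow_add hX0]; congr 1; ring
  have hS : S t ξ u v ≤ 2 * c' * X ^ (-2 - ε) := by
    unfold S
    have a1 : (ht v : ℝ) * |L t ξ u| ≤ X * (c' * X ^ (-3 - ε)) :=
      mul_le_mul hv h1 (abs_nonneg _) hX0.le
    have a2 : (ht u : ℝ) * |L t ξ v| ≤ X * (c' * X ^ (-3 - ε)) :=
      mul_le_mul hu h2 (abs_nonneg _) hX0.le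
    have e2 : X * (c' * X ^ (-3 - ε)) = c' * X ^ (-2 - ε) := by rw [← e1]; ring
    rw [e2] at a1 a2
    linarith
  have hX1 : X ^ (-2 - ε) ≤ 1 := Real.rpow_le_one_of_one_le_of_nonpos hX (by linarith)
  have hXp : 0 < X ^ (-2 - ε) := by positivity
  have hS1 : S t ξ u v < 1 := by nlinarith
  have h3 := hc ξ u v hp hS1
  have hS0 : 0 ≤ S t ξ u v := by unfold S; positivity
  have h4 : (2 * (ht u : ℝ) * ht v) ^ (1 + ε / 2) ≤ K * X ^ (2 + ε) := by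
    have a1 : 2 * (ht u : ℝ) * ht v ≤ 2 * (X * X) := by
      have := mul_le_mul hu hv (Nat.cast_nonneg _) hX0.le
      linarith
    have a2 := Real.rpow_le_rpow (by positivity) a1 (show (0 : ℝ) ≤ 1 + ε / 2 by linarith)
    refine a2.trans (le_of_eq ?_)
    rw [Real.mul_rpow (by norm_num) (by positivity), hK]
    congr 1
    have : X * X = X ^ (2 : ℝ) := by
      rw [← Real.rpow_one X, ← Real.rpow_add (by positivity)]
      norm_num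
    rw [this, ← Real.rpow_mul hX0.le]
    congr 1
    ring
  have h5 : c ≤ K * X ^ (2 + ε) * (2 * c' * X ^ (-2 - ε)) :=
    h3.trans (mul_le_mul h4 hS hS0 (by positivity))
  have e3 : X ^ (2 + ε) * X ^ (-2 - ε) = 1 := by
    rw [← Real.rpow_add hX0]
    have : 2 + ε + (-2 - ε) = 0 := by ring
    rw [this, Real.rpow_zero]
  have e4 : K * X ^ (2 + ε) * (2 * c' * X ^ (-2 - ε)) = 2 * (c' * K) := by
    linear_combination (2 * c' * K) * e3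
  rw [e4] at h5
  nlinarith [mul_pos hc'0 hK0]

end Pool.Agent.N493.NR
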