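import Pool.Agent.N493.NRBase

/-!
# Near relations: the exponent three is sharp; number of the lines of near relations
-/

set_option autoImplicit false

namespace Pool.Agent.N493.NR

/-- the exponent three is best possible -/
theorem sharp (t : ℝ) (ht2 : Two t) (X0 : ℝ) : ∃ X : ℝ, X0 ≤ X ∧ 1 ≤ X ∧
    ∃ (ξ : ℝ) (u v : ℤ × ℤ × ℤ), (ht u : ℝ) ≤ X ∧ (ht v : ℝ) ≤ X ∧
      |L t ξ u| ≤ 16 * X ^ (-3 : ℝ) ∧ |L t ξ v| ≤ 16 * X ^ (-3 : ℝ) ∧ ¬ Par u v := by
  obtain ⟨c, hc0, hc⟩ := ht2 1 one_pos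
  obtain ⟨n, hn⟩ := exists_nat_gt ((|X0| + 1) ^ 4 / c)
  have hn1 : 0 < n := by
    have h1 : 0 ≤ (|X0| + 1) ^ 4 / c := by positivity
    have : (0 : ℝ) < n := h1.trans_lt hn
    exact_mod_cast this
  obtain ⟨j, k, hk0, hkn, hjk⟩ := Real.exists_int_int_abs_mul_sub_le t hn1
  obtain ⟨K, rfl⟩ : ∃ K : ℕ, k = (K : ℤ) := ⟨k.toNat, by omega⟩
  have hK1 : 1 ≤ K := by omega
  have hKn : K ≤ n := by omega
  have hKR : (1 : ℝ) ≤ K := by exact_mod_cast hK1
  have hKnR : (K : ℝ) ≤ n := by exact_mod_cast hKn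
  have hjk' : |(K : ℝ) * t - j| ≤ 1 / ((n : ℝ) + 1) := by exact_mod_cast hjk
  have h1 := hc K hK1 j
  have hK2 : (K : ℝ) ^ (1 + 1 : ℝ) = (K : ℝ) ^ 2 := by
    rw [← Real.rpow_natCast]; norm_num
  rw [hK2] at h1
  have h2 : c ≤ (K : ℝ) ^ 2 * (1 / ((n : ℝ) + 1)) :=
    h1.trans (mul_le_mul_of_nonneg_left hjk' (by positivity))
  have h3 : (|X0| + 1) ^ 4 < (K : ℝ) ^ 2 := by
    rw [mul_one_div, le_div_iff₀ (by positivity)] at h2
    rw [div_lt_iff₀ hc0] at hn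
    nlinarith
  have hroot : (|X0| + 1) ^ 2 < (K : ℝ) := by
    have : ((|X0| + 1) ^ 2) ^ 2 < (K : ℝ) ^ 2 := by rw [← pow_mul]; exact h3
    exact lt_of_pow_lt_pow_left₀ 2 (by positivity) this
  have hjK : |(K : ℝ) * t - j| ≤ 1 / K := by
    refine hjk'.trans ?_
    apply one_div_le_one_div_of_le (by linarith)
    linarith
  obtain ⟨s, hs⟩ : ∃ s : ℕ, s = Nat.sqrt K := ⟨_, rfl⟩
  have hs1 : s * s ≤ K := by rw [hs]; exact Nat.sqrt_le K
  have hs2 : K < (s + 1) * (s + 1) := by rw [hs]; exact Nat.lt_succ_sqrt K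
  have hs0 : 1 ≤ s := by
    by_contra hlt
    have : s = 0 := by omega
    rw [this] at hs2
    omega
  obtain ⟨r, hr⟩ : ∃ r : ℕ, K = s * s + r := ⟨K - s * s, by omega⟩
  have hr2 : r ≤ 2 * s := by nlinarith
  have hsR : (1 : ℝ) ≤ s := by exact_mod_cast hs0
  have hKR' : (K : ℝ) = s * s + r := by exact_mod_cast hr
  obtain ⟨w, hw⟩ : ∃ w : ℝ, w = Real.sqrt K := ⟨_, rfl⟩
  have hw2 : w * w = K := by rw [hw]; exact Real.mul_self_sqrt (by positivity)
  have hw0 : 0 < w := by rw [hw]; exact Real.sqrt_pos.2 (by linarith)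
  have hsw : (s : ℝ) ≤ w := by
    rw [hw]
    apply Real.le_sqrt_of_sq_le
    have : (s : ℝ) * s ≤ K := by exact_mod_cast hs1
    rw [sq]; exact this
  have hws : w ≤ 2 * s := by
    have h4 : w < s + 1 := by
      have h5 : (K : ℝ) < (s + 1) * (s + 1) := by exact_mod_cast hs2
      rw [← hw2] at h5
      nlinarith
    linarith
  have hXw : |X0| + 1 < w := by
    have : (|X0| + 1) ^ 2 < w ^ 2 := by rw [sq w, hw2]; exact hroot
    exact lt_of_pow_lt_pow_left₀ 2 hw0.le this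
  have hX00 := le_abs_self X0
  have hX01 := abs_nonneg X0
  obtain ⟨T, hT⟩ : ∃ T : ℝ, T = ((K : ℝ) * t - j) / s := ⟨_, rfl⟩
  have hTs : T * s = (K : ℝ) * t - j := by rw [hT]; field_simp
  refine ⟨2 * w, by linarith, by linarith, -s * t + T, (0, (s : ℤ), 1), (j, -(r : ℤ), (s : ℤ)),
    ?_, ?_, ?_, ?_, ?_⟩
  · have : ht (0, (s : ℤ), 1) = max s 1 := by simp [ht]
    rw [this, max_eq_left hs0]
    linarith
  · have : ht (j, -(r : ℤ), (s : ℤ)) = max r s := by simp [ht]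
    rw [this]
    have h5 : max r s ≤ 2 * s := max_le hr2 (by omega)
    have h6 : ((max r s : ℕ) : ℝ) ≤ 2 * s := by exact_mod_cast h5
    linarith
  · have e1 : L t (-s * t + T) (0, (s : ℤ), 1) = T := by
      unfold L
      push_cast
      ring
    rw [e1, Real.rpow_neg (by positivity)]
    have e2 : (2 * w) ^ (3 : ℝ) = 8 * (w * K) := by
      have : (2 * w) ^ (3 : ℝ) = (2 * w) ^ (3 : ℕ) := by
        rw [← Real.rpow_natCast]; norm_num
      rw [this, ← hw2]; ring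
    rw [e2, hT, abs_div, abs_of_pos (show (0 : ℝ) < s by linarith), div_le_iff₀ (by linarith)]
    refine hjK.trans ?_
    rw [div_le_iff₀ (by linarith)]
    have e3 : 16 * (8 * (w * (K : ℝ)))⁻¹ * s * K = 2 * s / w := by
      field_simp
      ring
    rw [e3, le_div_iff₀ hw0]
    linarith
  · have e1 : L t (-s * t + T) (j, -(r : ℤ), (s : ℤ)) = 0 := by
      unfold L
      push_cast
      linear_combination hTs + t * hKR'
    rw [e1, abs_zero]
    positivity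
  · rintro ⟨-, -, h3⟩
    simp only at h3
    have : (s : ℤ) * s + r = 0 := by linarith
    have h5 : (K : ℤ) = s * s + r := by exact_mod_cast hr
    omega

/-- two near relations on different lines have very different heights -/
theorem gap (t : ℝ) (ht2 : Two t) (τ θ : ℝ) (hθ1 : 1 < θ) (hθ : θ < (τ - 1) / 2) :
    ∃ H : ℕ, 3 ≤ H ∧ ∀ (ξ : ℝ) (u v : ℤ × ℤ × ℤ), ¬ Par u v → H ≤ ht u → ht u ≤ ht v →
      |L t ξ u| ≤ (ht u : ℝ) ^ (-τ) → |L t ξ v| ≤ (ht v : ℝ) ^ (-τ) → (ht u : ℝ) ^ θ ≤ ht v := by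
  obtain ⟨κ, hκ⟩ : ∃ κ : ℝ, κ = (τ - 1 - 2 * θ) / 2 := ⟨_, rfl⟩
  have hκ0 : 0 < κ := by rw [hκ]; linarith
  obtain ⟨ε, hε⟩ : ∃ ε : ℝ, ε = κ / (1 + θ) := ⟨_, rfl⟩
  have hε0 : 0 < ε := by rw [hε]; positivity
  have hεκ : ε * (1 + θ) = κ := by rw [hε]; field_simp
  obtain ⟨c, hc0, hc⟩ := cross t ht2 ε hε0
  have htend := (tendsto_rpow_neg_atTop hκ0).comp tendsto_natCast_atTop_atTop (α := ℕ)
  have hev : ∀ᶠ n : ℕ in Filter.atTop, ((n : ℝ)) ^ (-κ) < c / (2 * 2 ^ (1 + ε)) :=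
    htend.eventually_lt_const (by positivity)
  obtain ⟨H, hH⟩ := Filter.eventually_atTop.1 hev
  refine ⟨max H 3, le_max_right _ _, ?_⟩
  intro ξ u v hp hHu huv h1 h2
  by_contra hlt
  push Not at hlt
  have hHH : H ≤ ht u := (le_max_left _ _).trans hHu
  have h3u : 3 ≤ ht u := (le_max_right _ _).trans hHu
  obtain ⟨h, hh⟩ : ∃ h : ℝ, h = (ht u : ℝ) := ⟨_, rfl⟩
  obtain ⟨k, hk⟩ : ∃ k : ℝ, k = (ht v : ℝ) := ⟨_, rfl⟩
  have hh3 : 3 ≤ h := by rw [hh]; exact_mod_cast h3u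
  have hhk : h ≤ k := by rw [hh, hk]; exact_mod_cast huv
  have hh0 : 0 < h := by linarith
  have hk0 : 0 < k := by linarith
  have hτ3 : 3 < τ := by linarith
  rw [← hh] at h1
  rw [← hk] at h2
  rw [← hh, ← hk] at hlt
  have hS : S t ξ u v ≤ 2 * h ^ (θ - τ) := by
    unfold S
    rw [← hh, ← hk]
    have a1 : k * |L t ξ u| ≤ h ^ θ * h ^ (-τ) := mul_le_mul hlt.le h1 (abs_nonneg _) (by positivity)
    have a2 : h * |L t ξ v| ≤ h ^ θ * h ^ (-τ) := by
      have b1 : h ≤ h ^ θ := by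
        nth_rewrite 1 [← Real.rpow_one h]
        exact Real.rpow_le_rpow_of_exponent_le (by linarith) hθ1.le
      have b2 : k ^ (-τ) ≤ h ^ (-τ) := Real.rpow_le_rpow_of_nonpos hh0 hhk (by linarith)
      exact mul_le_mul b1 (h2.trans b2) (abs_nonneg _) (by positivity)
    have e : h ^ θ * h ^ (-τ) = h ^ (θ - τ) := by rw [← Real.rpow_add hh0]; congr 1
    rw [e] at a1 a2
    linarith
  have hS1 : S t ξ u v < 1 := by
    have b1 : h ^ (θ - τ) ≤ h ^ (-1 : ℝ) :=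
      Real.rpow_le_rpow_of_exponent_le (by linarith) (by linarith)
    have b2 : h ^ (-1 : ℝ) ≤ 1 / 3 := by
      rw [Real.rpow_neg_one, inv_eq_one_div]
      exact one_div_le_one_div_of_le (by norm_num) hh3
    linarith
  have h3 := hc ξ u v hp hS1
  rw [← hh, ← hk] at h3
  have hS0 : 0 ≤ S t ξ u v := by unfold S; positivity
  have h4 : (2 * h * k) ^ (1 + ε) ≤ 2 ^ (1 + ε) * h ^ ((1 + θ) * (1 + ε)) := by
    have a1 : 2 * h * k ≤ 2 * h ^ (1 + θ) := by
      rw [Real.rpow_add hh0, Real.rpow_one]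
      have := mul_le_mul_of_nonneg_left hlt.le hh0.le
      linarith
    refine (Real.rpow_le_rpow (by positivity) a1 (by linarith)).trans (le_of_eq ?_)
    rw [Real.mul_rpow (by norm_num) (by positivity), ← Real.rpow_mul hh0.le]
  have h5 := h3.trans (mul_le_mul h4 hS hS0 (by positivity))
  have e3 : 2 ^ (1 + ε) * h ^ ((1 + θ) * (1 + ε)) * (2 * h ^ (θ - τ)) =
      (2 * 2 ^ (1 + ε)) * h ^ (-κ) := by
    have : h ^ ((1 + θ) * (1 + ε)) * h ^ (θ - τ) = h ^ (-κ) := by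
      rw [← Real.rpow_add hh0]
      congr 1
      have : (1 + θ) * (1 + ε) = 1 + θ + κ := by rw [← hεκ]; ring
      rw [this, hκ]
      ring
    rw [← this]; ring
  rw [e3] at h5
  have h6 := hH (ht u) hHH
  rw [← hh, lt_div_iff₀ (by positivity)] at h6
  linarith

/-- chains of near relations on different lines -/
theorem chain (t ξ τ θ : ℝ) (H : ℕ) (h3 : 3 ≤ H) (hθ1 : 1 < θ)
    (hgap : ∀ u v : ℤ × ℤ × ℤ, ¬ Par u v → H ≤ ht u → ht u ≤ ht v →
      |L t ξ u| ≤ (ht u : ℝ) ^ (-τ) → |L t ξ v| ≤ (ht v : ℝ) ^ (-τ) → (ht u : ℝ) ^ θ ≤ ht v) :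
    ∀ (n : ℕ) (F : Finset (ℤ × ℤ × ℤ)), n + 1 ≤ F.card →
      (F : Set (ℤ × ℤ × ℤ)).Pairwise (fun u v => ¬ Par u v) →
      (∀ v ∈ F, H ≤ ht v ∧ |L t ξ v| ≤ (ht v : ℝ) ^ (-τ)) →
      ∃ v ∈ F, θ ^ n ≤ Real.log (ht v) := by
  classical
  intro n
  induction n with
  | zero =>
    intro F hF _ hF2
    obtain ⟨v, hv⟩ := Finset.card_pos.1 (by omega : 0 < F.card)
    refine ⟨v, hv, ?_⟩
    rw [pow_zero]
    have h1 : (3 : ℝ) ≤ ht v := by exact_mod_cast h3.trans (hF2 v hv).1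
    rw [Real.le_log_iff_exp_le (by linarith)]
    have := Real.exp_one_lt_d9
    linarith
  | succ n ih =>
    intro F hF hF1 hF2
    obtain ⟨w, hw, hmax⟩ := F.exists_max_image ht (Finset.card_pos.1 (by omega))
    obtain ⟨u, hu, hun⟩ := ih (F.erase w) (by rw [Finset.card_erase_of_mem hw]; omega)
      (hF1.mono (by exact_mod_cast Finset.erase_subset w F))
      (fun v hv => hF2 v (Finset.mem_of_mem_erase hv))
    refine ⟨w, hw, ?_⟩
    have huF := Finset.mem_of_mem_erase hu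
    have hne := Finset.ne_of_mem_erase hu
    have hnp : ¬ Par u w := hF1 (by exact_mod_cast huF) (by exact_mod_cast hw) hne
    have h4 := hgap u w hnp (hF2 u huF).1 (hmax u huF) (hF2 u huF).2 (hF2 w hw).2
    have h5 : (3 : ℝ) ≤ ht u := by exact_mod_cast h3.trans (hF2 u huF).1
    have h6 := Real.log_le_log (by positivity) h4
    rw [Real.log_rpow (by linarith)] at h6
    rw [pow_succ']
    exact (mul_le_mul_of_nonneg_left hun (by linarith)).trans h6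

/-- the number of small near relations -/
theorem small (t ξ : ℝ) (H : ℕ) (F : Finset (ℤ × ℤ × ℤ))
    (hF : ∀ v ∈ F, ht v ≤ H ∧ |L t ξ v| ≤ 1) : F.card ≤ (2 * H + 1) * ((2 * H + 1) * 4) := by
  classical
  have h1 : F.card ≤ ((Finset.Icc (-(H : ℤ)) H) ×ˢ ((Finset.Icc (-(H : ℤ)) H) ×ˢ
      (Finset.Icc (-2 : ℤ) 1))).card := by
    apply Finset.card_le_card_of_injOn
      (fun v => (v.2.1, v.2.2, v.1 + ⌊(v.2.1 : ℝ) * t + v.2.2 * ξ⌋))
    · intro v hv
      obtain ⟨hv1, hv2⟩ := hF v (by exact_mod_cast hv)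
      simp only [Finset.coe_product, Finset.coe_Icc, Set.mem_prod, Set.mem_Icc]
      have h2 : v.2.1.natAbs ≤ H := (le_max_left _ _).trans hv1
      have h3 : v.2.2.natAbs ≤ H := (le_max_right _ _).trans hv1
      have h4 := Int.floor_le ((v.2.1 : ℝ) * t + v.2.2 * ξ)
      have h5 := Int.lt_floor_add_one ((v.2.1 : ℝ) * t + v.2.2 * ξ)
      obtain ⟨f, hf⟩ : ∃ f : ℤ, f = ⌊(v.2.1 : ℝ) * t + v.2.2 * ξ⌋ := ⟨_, rfl⟩
      rw [← hf] at h4 h5 ⊢
      unfold L at hv2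
      have h6 := abs_le.1 hv2
      have h7 : (-2 : ℝ) < ((v.1 + f : ℤ) : ℝ) := by push_cast; linarith [h6.1]
      have h8 : ((v.1 + f : ℤ) : ℝ) < 2 := by push_cast; linarith [h6.2]
      have h9 : -2 < v.1 + f := by exact_mod_cast h7
      have h10 : v.1 + f < 2 := by exact_mod_cast h8
      refine ⟨⟨by omega, by omega⟩, ⟨by omega, by omega⟩, by omega, by omega⟩
    · rintro ⟨a, b, c⟩ _ ⟨a', b', c'⟩ _ h
      simp only [Prod.mk.injEq] at h
      obtain ⟨rfl, rfl, h3⟩ := h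
      simp only [Prod.mk.injEq, and_true]
      omega
  refine h1.trans (le_of_eq ?_)
  rw [Finset.card_product, Finset.card_product, Int.card_Icc, Int.card_Icc]
  have e1 : ((H : ℤ) + 1 - -(H : ℤ)).toNat = 2 * H + 1 := by omega
  rw [e1]
  rfl

/-- (B) the number of lines of near relations up to `X` -/
theorem count (t : ℝ) (ht2 : Two t) (τ θ : ℝ) (hθ1 : 1 < θ) (hθ : θ < (τ - 1) / 2) :
    ∃ C : ℝ, ∀ (ξ X : ℝ), 3 ≤ X → ∀ F : Finset (ℤ × ℤ × ℤ),
      (F : Set (ℤ × ℤ × ℤ)).Pairwise (fun u v => ¬ Par u v) →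
      (∀ v ∈ F, 1 ≤ ht v ∧ (ht v : ℝ) ≤ X ∧ |L t ξ v| ≤ (ht v : ℝ) ^ (-τ)) →
      (F.card : ℝ) ≤ Real.log (Real.log X) / Real.log θ + C := by
  classical
  obtain ⟨H, h3, hgap⟩ := gap t ht2 τ θ hθ1 hθ
  refine ⟨1 + (2 * H + 1) * ((2 * H + 1) * 4), ?_⟩
  intro ξ X hX F hF hF2
  have hl : 0 < Real.log θ := Real.log_pos hθ1
  have hX1 : 1 ≤ Real.log X := by
    rw [Real.le_log_iff_exp_le (by linarith)]
    have := Real.exp_one_lt_d9
    linarith
  have hsplit : F.card = (F.filter fun v => H ≤ ht v).card + (F.filter fun v => ¬ H ≤ ht v).card :=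
    (Finset.card_filter_add_card_filter_not _).symm
  have hsm : (F.filter fun v => ¬ H ≤ ht v).card ≤ (2 * H + 1) * ((2 * H + 1) * 4) := by
    apply small t ξ H
    intro v hv
    rw [Finset.mem_filter] at hv
    refine ⟨by omega, (hF2 v hv.1).2.2.trans ?_⟩
    apply Real.rpow_le_one_of_one_le_of_nonpos
    · exact_mod_cast (hF2 v hv.1).1
    · linarith
  have hsmR : ((F.filter fun v => ¬ H ≤ ht v).card : ℝ) ≤ (2 * H + 1) * ((2 * H + 1) * 4) := by
    exact_mod_cast hsm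
  have hll : 0 ≤ Real.log (Real.log X) / Real.log θ := div_nonneg (Real.log_nonneg hX1) hl.le
  have hbig : ((F.filter fun v => H ≤ ht v).card : ℝ) ≤ Real.log (Real.log X) / Real.log θ + 1 := by
    rcases Nat.eq_zero_or_pos (F.filter fun v => H ≤ ht v).card with h0 | h0
    · rw [h0, Nat.cast_zero]; linarith
    obtain ⟨n, hn⟩ : ∃ n : ℕ, (F.filter fun v => H ≤ ht v).card = n + 1 :=
      ⟨(F.filter fun v => H ≤ ht v).card - 1, by omega⟩
    obtain ⟨v, hv, hvn⟩ := chain t ξ τ θ H h3 hθ1 (hgap ξ) n (F.filter fun v => H ≤ ht v)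
      (by omega) (hF.mono (by exact_mod_cast Finset.filter_subset _ F))
      (fun v hv => ⟨(Finset.mem_filter.1 hv).2, (hF2 v (Finset.mem_filter.1 hv).1).2.2⟩)
    rw [Finset.mem_filter] at hv
    have h4 : θ ^ n ≤ Real.log X := by
      refine hvn.trans (Real.log_le_log ?_ (hF2 v hv.1).2.1)
      have : 1 ≤ ht v := (hF2 v hv.1).1
      exact_mod_cast this
    have h5 := Real.log_le_log (by positivity) h4
    rw [Real.log_pow] at h5
    rw [hn]
    push_cast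
    have : (n : ℝ) ≤ Real.log (Real.log X) / Real.log θ := by rwa [le_div_iff₀ hl]
    linarith
  rw [hsplit]
  push_cast
  linarith

end Pool.Agent.N493.NR
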