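import Pool.Agent.N493.NRSharp2

/-!
# Many near relations below the exponent three, with different slopes
-/

set_option autoImplicit false

namespace Pool.Agent.N493.NR

open Filter Topology

/-- below the exponent three there can be many lines of near relations -/
theorem manyR (t : ℝ) (ht2 : Two t) (τ : ℝ) (hτ0 : 0 < τ) (hτ : τ < 3) (X0 : ℝ) :
    ∃ X : ℝ, X0 ≤ X ∧ 1 ≤ X ∧ ∃ (ξ : ℝ) (F : Finset (ℤ × ℤ × ℤ)),
      (F : Set (ℤ × ℤ × ℤ)).Pairwise (fun u v => u.2.1 * v.2.2 ≠ v.2.1 * u.2.2) ∧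
      (∀ v ∈ F, 0 < v.2.2 ∧ (ht v : ℝ) ≤ X ∧ |L t ξ v| ≤ (ht v : ℝ) ^ (-τ)) ∧
      X ^ (1 - τ / 3) / 4 ≤ F.card := by
  classical
  -- the size of `K`
  have htend : Tendsto (fun K : ℝ => K ^ (3 / (2 * τ) - 1 / 2)) atTop atTop := by
    apply tendsto_rpow_atTop
    rw [sub_pos, div_lt_div_iff₀ (by norm_num) (by linarith)]
    linarith
  have hev : ∀ᶠ K : ℝ in atTop, 3 * 2 ^ (1 / τ) < K ^ (3 / (2 * τ) - 1 / 2) :=
    htend.eventually_gt_atTop _
  obtain ⟨B0, hB0⟩ := eventually_atTop.1 hev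
  obtain ⟨K, hK1, hKB, j, hj⟩ := exists_K t ht2 (max B0 (X0 ^ 2))
  have hKR : (1 : ℝ) ≤ K := by exact_mod_cast hK1
  have hKB0 : B0 ≤ K := (le_max_left _ _).trans hKB
  have hKX : X0 ^ 2 ≤ K := (le_max_right _ _).trans hKB
  have hbig := hB0 K hKB0
  obtain ⟨s, r', T, hs0, hKs, hr, hsw, hws, hT⟩ := constr t K hK1 j
  have hsR : (1 : ℝ) ≤ s := by exact_mod_cast hs0
  obtain ⟨w, hw⟩ : ∃ w : ℝ, w = Real.sqrt K := ⟨_, rfl⟩
  have hw2 : w * w = K := by rw [hw]; exact Real.mul_self_sqrt (by positivity)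
  have hw0 : 0 < w := by rw [hw]; exact Real.sqrt_pos.2 (by linarith)
  rw [← hw] at hsw hws
  have hw1 : 1 ≤ w := by linarith
  have hXw : X0 ≤ w := by
    by_contra hlt
    push Not at hlt
    have : w * w < X0 ^ 2 := by rw [sq]; exact mul_self_lt_mul_self hw0.le hlt
    linarith
  have hK2 : (K : ℝ) = w ^ (2 : ℝ) := by
    rw [show (2 : ℝ) = ((2 : ℕ) : ℝ) by norm_num, Real.rpow_natCast, ← hw2]; ring
  -- the size of `X`
  obtain ⟨X, hX⟩ : ∃ X : ℝ, X = (w ^ (3 : ℝ) / 2) ^ (1 / τ) := ⟨_, rfl⟩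
  have hXpos : 0 < X := by rw [hX]; positivity
  have hXτ : X ^ τ = w ^ (3 : ℝ) / 2 := by
    rw [hX, ← Real.rpow_mul (by positivity), one_div_mul_cancel hτ0.ne', Real.rpow_one]
  have h3w : 3 * w ≤ X := by
    rw [hX, Real.div_rpow (by positivity) (by norm_num), le_div_iff₀ (by positivity),
      ← Real.rpow_mul hw0.le]
    have h1 : (K : ℝ) ^ (3 / (2 * τ) - 1 / 2) * w = w ^ (3 * (1 / τ)) := by
      rw [hK2, ← Real.rpow_mul hw0.le]
      nth_rewrite 2 [← Real.rpow_one w]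
      rw [← Real.rpow_add hw0]
      congr 1
      field_simp
      ring
    rw [← h1]
    nlinarith
  obtain ⟨A, hA⟩ : ∃ A : ℕ, A = ⌊X / (3 * w)⌋₊ := ⟨_, rfl⟩
  have hA1 : (A : ℝ) ≤ X / (3 * w) := by rw [hA]; exact Nat.floor_le (by positivity)
  have hA2 : X / (3 * w) < A + 1 := by rw [hA]; exact Nat.lt_floor_add_one _
  rw [le_div_iff₀ (by positivity)] at hA1
  -- the vectors
  obtain ⟨f, hf⟩ : ∃ f : ℕ → ℤ × ℤ × ℤ, f = fun (y : ℕ) =>
    ((y : ℤ) * j, (s : ℤ) - y * r', 1 + (y : ℤ) * s) := ⟨_, rfl⟩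
  have hval : ∀ y, L t (-s * t + T) (f y) = T := by
    intro y
    have hKR' : (K : ℝ) = s * s + r' := by exact_mod_cast hKs
    rw [hf]
    unfold L
    push_cast
    linear_combination (y : ℝ) * hT + y * t * hKR'
  have hht : ∀ y, y ≤ A → (ht (f y) : ℝ) ≤ X := by
    intro y hy
    have h1 : ht (f y) ≤ s + 2 * s * A := by
      rw [hf]
      unfold ht
      simp only
      apply max_le
      · have h2 : y * r' ≤ A * (2 * s) := Nat.mul_le_mul hy hr
        have h3 : ((s : ℤ) - y * r').natAbs ≤ s + y * r' := by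
          have := Int.natAbs_sub_le (s : ℤ) (y * r')
          rw [Int.natAbs_mul] at this
          simpa using this
        have h4 : A * (2 * s) = 2 * s * A := by ring
        omega
      · have h2 : y * s ≤ A * s := Nat.mul_le_mul hy le_rfl
        have h3 : (1 + (y : ℤ) * s).natAbs = 1 + y * s := by
          have : (1 + (y : ℤ) * s) = ((1 + y * s : ℕ) : ℤ) := by push_cast; rfl
          rw [this, Int.natAbs_natCast]
        rw [h3]
        nlinarith
    have h2 : (ht (f y) : ℝ) ≤ s + 2 * s * A := by exact_mod_cast h1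
    have h3 : (s : ℝ) * A ≤ w * A := mul_le_mul_of_nonneg_right hsw (Nat.cast_nonneg _)
    nlinarith
  have hht1 : ∀ y, 1 ≤ ht (f y) := by
    intro y
    rw [hf]
    unfold ht
    simp only
    refine le_trans ?_ (le_max_right _ _)
    have h3 : (1 + (y : ℤ) * s).natAbs = 1 + y * s := by
      have : (1 + (y : ℤ) * s) = ((1 + y * s : ℕ) : ℤ) := by push_cast; rfl
      rw [this, Int.natAbs_natCast]
    rw [h3]
    omega
  have hTle : |T| ≤ X ^ (-τ) := by
    rw [Real.rpow_neg hXpos.le, hXτ]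
    have h1 : |T| * s ≤ 1 / K := by
      rw [← abs_of_pos (show (0 : ℝ) < s by linarith), ← abs_mul, hT]
      exact hj
    have h2 : w ^ (3 : ℝ) = w * K := by
      rw [hK2]
      nth_rewrite 2 [← Real.rpow_one w]
      rw [← Real.rpow_add hw0]
      norm_num
    rw [h2, inv_div, le_div_iff₀ (by positivity)]
    rw [le_div_iff₀ (by linarith)] at h1
    have h3 : |T| * (w * K) ≤ |T| * (2 * s * K) := by
      apply mul_le_mul_of_nonneg_left _ (abs_nonneg _)
      exact mul_le_mul_of_nonneg_right hws (by linarith)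
    nlinarith
  have hpar : ∀ y z : ℕ, y ≠ z → (f y).2.1 * (f z).2.2 ≠ (f z).2.1 * (f y).2.2 := by
    intro y z hyz h3
    rw [hf] at h3
    simp only at h3
    have h4 : ((z : ℤ) - y) * (s * s + r') = 0 := by linear_combination h3
    have h5 : (K : ℤ) = s * s + r' := by exact_mod_cast hKs
    rw [← h5] at h4
    rcases mul_eq_zero.1 h4 with h | h <;> omega
  have hinj : Function.Injective f := by
    intro y z hyz
    by_contra hne
    apply hpar y z hne
    rw [hyz]
  refine ⟨X, by linarith, by linarith, -s * t + T, (Finset.range (A + 1)).image f, ?_, ?_, ?_⟩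
  · intro u hu v hv huv
    rw [Finset.mem_coe, Finset.mem_image] at hu hv
    obtain ⟨y, -, rfl⟩ := hu
    obtain ⟨z, -, rfl⟩ := hv
    exact hpar y z fun h => huv (by rw [h])
  · intro v hv
    rw [Finset.mem_image] at hv
    obtain ⟨y, hy, rfl⟩ := hv
    rw [Finset.mem_range] at hy
    have h1 := hht y (by omega)
    have h2 : (1 : ℝ) ≤ ht (f y) := by exact_mod_cast hht1 y
    refine ⟨?_, h1, ?_⟩
    · rw [hf]
      simp only
      positivity
    rw [hval]
    exact hTle.trans (Real.rpow_le_rpow_of_nonpos (by linarith) h1 (by linarith))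
  · rw [Finset.card_image_of_injective _ hinj, Finset.card_range]
    push_cast
    have h1 : X ^ (1 - τ / 3) = X / (w ^ (3 : ℝ) / 2) ^ (1 / 3 : ℝ) := by
      rw [Real.rpow_sub hXpos, Real.rpow_one]
      congr 1
      rw [← hXτ, ← Real.rpow_mul hXpos.le]
      congr 1
      ring
    have h2 : (w ^ (3 : ℝ) / 2) ^ (1 / 3 : ℝ) = w / 2 ^ (1 / 3 : ℝ) := by
      rw [Real.div_rpow (by positivity) (by norm_num), ← Real.rpow_mul hw0.le]
      norm_num
    rw [h1, h2]
    have h3 : (2 : ℝ) ^ (1 / 3 : ℝ) ≤ 4 / 3 := by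
      have h4 : ((2 : ℝ)) ≤ (4 / 3) ^ (3 : ℝ) := by
        rw [show (3 : ℝ) = ((3 : ℕ) : ℝ) by norm_num, Real.rpow_natCast]; norm_num
      have h5 := Real.rpow_le_rpow (by norm_num) h4 (show (0 : ℝ) ≤ 1 / 3 by norm_num)
      rw [← Real.rpow_mul (by norm_num)] at h5
      norm_num at h5 ⊢
      exact h5
    have h6 : (0 : ℝ) < 2 ^ (1 / 3 : ℝ) := by positivity
    rw [div_div_eq_mul_div, div_div, div_le_iff₀ (by positivity)]
    rw [div_lt_iff₀ (by positivity)] at hA2
    nlinarith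

end Pool.Agent.N493.NR
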