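import Pool.Agent.N493.NRNu
import Pool.Agent.TH456.TM.Inst

/-!
# Near relations with a number of given irrationality measure: exact relations, gaps
-/

set_option autoImplicit false

namespace Pool.Agent.N493.NRNu

open Filter Topology Pool.Agent.N493.NR Polynomial

/-- there is a nonzero `v = (a, b, c)` with `|b|, |c| ≤ H` and `|a + b t + c ξ| ≤ δ` -/
def Near (t ξ H δ : ℝ) : Prop := ∃ v : ℤ × ℤ × ℤ, v ≠ 0 ∧ (ht v : ℝ) ≤ H ∧ |L t ξ v| ≤ δ

/-- near relations at all large scales come from an exact relation -/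
theorem exact_nu (t ν c : ℝ) (hν : 0 < ν) (hc0 : 0 < c) (hc : Nu t ν c) (w κ : ℝ)
    (hw1 : 1 + ν < w) (hw : ν < (w - 1) * (w - 1 - ν)) (hκ1 : 1 ≤ κ) (hκ : ν < κ * (w - 1 - ν)) :
    ∃ Y0 : ℝ, 1 ≤ Y0 ∧ ∀ ξ Y : ℝ, Y0 ≤ Y → (∀ X : ℝ, Y ≤ X → Near t ξ X (X ^ (-w))) →
      Near t ξ (Y ^ κ) 0 := by
  obtain ⟨Y0, hY0, h⟩ := local_nu t ν c hν hc0 hc w κ hw1 hw hκ1 hκ
  refine ⟨Y0, hY0, fun ξ Y hY hU => ?_⟩
  have hY1 : 1 ≤ Y := hY0.trans hY
  obtain ⟨v, hv0, hvh, hvmin⟩ := exists_min t ξ ⌊Y ^ κ⌋₊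
  have hYκ : 0 ≤ Y ^ κ := by positivity
  refine ⟨v, hv0, ?_, ?_⟩
  · have h1 : (ht v : ℝ) ≤ (⌊Y ^ κ⌋₊ : ℝ) := by exact_mod_cast hvh
    exact h1.trans (Nat.floor_le hYκ)
  · by_contra hlt
    push Not at hlt
    have htend := tendsto_rpow_neg_atTop (show (0 : ℝ) < w by linarith)
    obtain ⟨Z, hZ1, hZ2⟩ := ((htend.eventually_lt_const hlt).and
      (Filter.eventually_ge_atTop Y)).exists
    obtain ⟨u, hu0, hu1, hu2⟩ := h ξ Y Z hY hZ2 fun X hX _ => hU X hX
    have hu3 : ht u ≤ ⌊Y ^ κ⌋₊ := Nat.le_floor hu1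
    have h4 := hvmin u hu0 hu3
    linarith

/-- `ξ₁` and `ξ₂` have no near relations at the same scale -/
def Sep (t ξ₁ ξ₂ m c : ℝ) : Prop := ∀ X : ℝ, 1 ≤ X → ∀ u v : ℤ × ℤ × ℤ, u ≠ 0 → v ≠ 0 →
  (ht u : ℝ) ≤ X → (ht v : ℝ) ≤ X → c * X ^ (-m) ≤ max |L t ξ₁ u| |L t ξ₂ v|

theorem gap (t ν c : ℝ) (hν : 0 < ν) (hc0 : 0 < c) (hc : Nu t ν c) (w κ : ℝ)
    (hw1 : 1 + ν < w) (hw : ν < (w - 1) * (w - 1 - ν)) (hκ1 : 1 ≤ κ) (hκ : ν < κ * (w - 1 - ν))
    (ξ₁ ξ₂ m c' : ℝ) (hc' : 0 < c') (hS : Sep t ξ₁ ξ₂ m c') (M : ℝ) (hM1 : 1 ≤ M)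
    (hM : m * κ < M * w) :
    ∃ Y1 : ℝ, ∀ Y : ℝ, Y1 ≤ Y → ∃ X : ℝ, Y ≤ X ∧ X ≤ Y ^ M ∧
      (¬ Near t ξ₁ X (X ^ (-w)) ∨ ¬ Near t ξ₂ X (X ^ (-w))) := by
  obtain ⟨Y0, hY0, h⟩ := local_nu t ν c hν hc0 hc w κ hw1 hw hκ1 hκ
  have htend := tendsto_rpow_neg_atTop (show (0 : ℝ) < M * w - m * κ by linarith)
  obtain ⟨Y1, hY1⟩ := eventually_atTop.1 (htend.eventually_lt_const hc')
  refine ⟨max Y0 Y1, fun Y hY => ?_⟩
  have hYY0 := (le_max_left _ _).trans hY
  have hY1' : 1 ≤ Y := hY0.trans hYY0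
  have hYp : 0 < Y := by linarith
  by_contra hI
  push Not at hI
  have hYM : Y ≤ Y ^ M := by
    nth_rewrite 1 [← Real.rpow_one Y]
    exact Real.rpow_le_rpow_of_exponent_le hY1' hM1
  obtain ⟨u, hu0, hu1, hu2⟩ := h ξ₁ Y (Y ^ M) hYY0 hYM fun X h1 h2 => (hI X h1 h2).1
  obtain ⟨v, hv0, hv1, hv2⟩ := h ξ₂ Y (Y ^ M) hYY0 hYM fun X h1 h2 => (hI X h1 h2).2
  have h1 := hS (Y ^ κ) (Real.one_le_rpow hY1' (by linarith)) u v hu0 hv0 hu1 hv1
  have h2 := h1.trans (max_le hu2 hv2)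
  rw [← Real.rpow_mul hYp.le, ← Real.rpow_mul hYp.le] at h2
  have h3 := hY1 Y ((le_max_right _ _).trans hY)
  have e1 : Y ^ (-(M * w - m * κ)) = Y ^ (M * -w) * Y ^ (m * κ) := by
    rw [← Real.rpow_add hYp]
    congr 1
    ring
  have e2 : Y ^ (κ * -m) * Y ^ (m * κ) = 1 := by
    rw [← Real.rpow_add hYp, show κ * -m + m * κ = 0 by ring, Real.rpow_zero]
  rw [e1] at h3
  have h4 := mul_le_mul_of_nonneg_right h2 (Real.rpow_nonneg hYp.le (m * κ))
  rw [mul_assoc, e2, mul_one] at h4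
  linarith

lemma a_le (t ξ X : ℝ) (v : ℤ × ℤ × ℤ) (hv : (ht v : ℝ) ≤ X) (hX : 1 ≤ X) (h1 : |L t ξ v| ≤ 1) :
    |(v.1 : ℝ)| ≤ (1 + |t| + |ξ|) * X := by
  have e : (v.1 : ℝ) = L t ξ v - v.2.1 * t - v.2.2 * ξ := by unfold L; ring
  rw [e]
  refine (abs_sub _ _).trans ?_
  have h2 := abs_sub (L t ξ v) ((v.2.1 : ℝ) * t)
  rw [abs_mul] at h2 ⊢
  have h3 := mul_le_mul_of_nonneg_right ((b_le v).trans hv) (abs_nonneg t)
  have h4 := mul_le_mul_of_nonneg_right ((c_le v).trans hv) (abs_nonneg ξ)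
  nlinarith

/-- powers of `π` -/
theorem sep_pi (t ν c : ℝ) (hν : 0 < ν) (hc0 : 0 < c) (hc : Nu t ν c)
    (hpi : Pool.Agent.TH456.TM.MeasT (Real.pi : ℂ)) (j k : ℕ) (hj : 1 ≤ j) (hk : 1 ≤ k) (hjk : j ≠ k) :
    ∃ m c' : ℝ, 0 < m ∧ 0 < c' ∧ Sep t (Real.pi ^ j) (Real.pi ^ k) m c' := by
  obtain ⟨μ, c₁, hμ, hc₁, hP⟩ := hpi (max j k)
  obtain ⟨T, hT⟩ : ∃ T : ℝ, T = 1 + |t| + (|Real.pi ^ j| + |Real.pi ^ k|) := ⟨_, rfl⟩
  have hT1 : 1 ≤ T := by
    rw [hT]
    linarith [abs_nonneg t, abs_nonneg (Real.pi ^ j), abs_nonneg (Real.pi ^ k)]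
  have hT0 : 0 < T := by linarith
  obtain ⟨m, hm⟩ : ∃ m : ℝ, m = 2 * μ + ν + 1 := ⟨_, rfl⟩
  obtain ⟨c', hc'⟩ : ∃ c' : ℝ, c' = min 1 (min c (c₁ / (2 * (2 * T) ^ μ))) := ⟨_, rfl⟩
  have hc'0 : 0 < c' := by rw [hc']; positivity
  have hc'1 : c' ≤ 1 := by rw [hc']; exact min_le_left _ _
  have hc'2 : c' ≤ c := by rw [hc']; exact (min_le_right _ _).trans (min_le_left _ _)
  have hc'3 : c' * (2 * (2 * T) ^ μ) ≤ c₁ := by
    rw [← le_div_iff₀ (by positivity), hc']; exact (min_le_right _ _).trans (min_le_right _ _)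
  refine ⟨m, c', by rw [hm]; positivity, hc'0, ?_⟩
  intro X hX u v hu0 hv0 hu hv
  by_contra hlt
  push Not at hlt
  have hX0 : 0 < X := by linarith
  have hXm : X ^ (-m) ≤ 1 := Real.rpow_le_one_of_one_le_of_nonpos hX (by rw [hm]; linarith)
  have hXmp : 0 < X ^ (-m) := by positivity
  obtain ⟨l, hl⟩ : ∃ l : ℝ, l = c' * X ^ (-m) := ⟨_, rfl⟩
  rw [← hl] at hlt
  have hl1 : l ≤ 1 := by rw [hl]; nlinarith
  have hlu : |L t (Real.pi ^ j) u| < l := (le_max_left _ _).trans_lt hlt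
  have hlv : |L t (Real.pi ^ k) v| < l := (le_max_right _ _).trans_lt hlt
  have hl0 : 0 < l := (abs_nonneg _).trans_lt hlu
  have hau : |(u.1 : ℝ)| ≤ T * X := by
    refine (a_le t (Real.pi ^ j) X u hu hX (hlu.le.trans hl1)).trans ?_
    refine mul_le_mul_of_nonneg_right ?_ hX0.le
    rw [hT]
    linarith [abs_nonneg (Real.pi ^ k)]
  have hav : |(v.1 : ℝ)| ≤ T * X := by
    refine (a_le t (Real.pi ^ k) X v hv hX (hlv.le.trans hl1)).trans ?_
    refine mul_le_mul_of_nonneg_right ?_ hX0.le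
    rw [hT]
    linarith [abs_nonneg (Real.pi ^ j)]
  have hbu := (b_le u).trans hu
  have hcu := (c_le u).trans hu
  have hbv := (b_le v).trans hv
  have hcv := (c_le v).trans hv
  have hTX : X ≤ T * X := by nlinarith
  -- evaluation of small polynomials at `π`
  have key : ∀ (P : ℤ[X]) (H y : ℝ), P ≠ 0 → P.natDegree ≤ max j k → 1 ≤ H → H ≤ 2 * T * X ^ 2 →
      (∀ i, |(P.coeff i : ℝ)| ≤ H) → ‖aeval (Real.pi : ℂ) P‖ ≤ y → y < 2 * X * l → False := by
    intro P H y hP0 hdeg hH1 hH2 hco hy hy2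
    have h1 := hP P hP0 hdeg H hH1 hco
    have h2 : H ^ μ ≤ (2 * T) ^ μ * X ^ (2 * μ) := by
      refine (Real.rpow_le_rpow (by linarith) hH2 hμ).trans (le_of_eq ?_)
      rw [Real.mul_rpow (by positivity) (by positivity), Real.rpow_mul hX0.le]
      norm_num
    have h3 : c₁ < (2 * T) ^ μ * X ^ (2 * μ) * (2 * X * l) := by
      refine h1.trans_lt ?_
      refine (mul_le_mul h2 hy (norm_nonneg _) (by positivity)).trans_lt ?_
      exact mul_lt_mul_of_pos_left hy2 (by positivity)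
    have e : (2 * T) ^ μ * X ^ (2 * μ) * (2 * X * l) =
        c' * (2 * (2 * T) ^ μ) * (X ^ (2 * μ) * X * X ^ (-m)) := by
      rw [hl]; ring
    have e2 : X ^ (2 * μ) * X * X ^ (-m) = X ^ (-ν) := by
      nth_rewrite 2 [← Real.rpow_one X]
      rw [← Real.rpow_add hX0, ← Real.rpow_add hX0]
      congr 1
      rw [hm]; ring
    have h4 : X ^ (-ν) ≤ 1 := Real.rpow_le_one_of_one_le_of_nonpos hX (by linarith)
    rw [e, e2] at h3
    have h5 : c' * (2 * (2 * T) ^ μ) * X ^ (-ν) ≤ c' * (2 * (2 * T) ^ μ) * 1 :=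
      mul_le_mul_of_nonneg_left h4 (by positivity)
    linarith
  -- relations without `ξ`
  have keyt : ∀ (a b : ℤ), b ≠ 0 → |(b : ℝ)| ≤ X → |(a : ℝ) + b * t| < l → False := by
    intro a b hb hbX h1
    obtain ⟨n, hn⟩ : ∃ n : ℤ, |((b.natAbs : ℕ) : ℝ) * t - n| = |(a : ℝ) + b * t| := by
      have hn : ((b.natAbs : ℕ) : ℝ) = |(b : ℝ)| := by
        rw [Nat.cast_natAbs, Int.cast_abs]
      rcases abs_cases (b : ℝ) with ⟨h1, _⟩ | ⟨h1, _⟩
      · exact ⟨-a, by rw [hn, h1]; congr 1; push_cast; ring⟩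
      · refine ⟨a, ?_⟩
        rw [hn, h1, ← abs_neg]
        congr 1
        ring
    have h2 := hc b.natAbs (Int.natAbs_pos.2 hb) n
    rw [hn] at h2
    have h3 : (((b.natAbs : ℕ)) : ℝ) ^ ν ≤ X ^ ν := by
      refine Real.rpow_le_rpow (Nat.cast_nonneg _) ?_ hν.le
      rw [Nat.cast_natAbs, Int.cast_abs]
      exact hbX
    have h4 : c < X ^ ν * l := by
      refine h2.trans_lt ?_
      refine (mul_le_mul_of_nonneg_right h3 (abs_nonneg _)).trans_lt ?_
      exact mul_lt_mul_of_pos_left h1 (by positivity)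
    have e : X ^ ν * l = c' * X ^ (ν - m) := by
      rw [hl, sub_eq_add_neg, Real.rpow_add hX0]; ring
    have h5 : X ^ (ν - m) ≤ 1 := Real.rpow_le_one_of_one_le_of_nonpos hX (by rw [hm]; linarith)
    rw [e] at h4
    nlinarith
  have hcast : ∀ (n : ℕ) (x y : ℤ), aeval (Real.pi : ℂ) (C x + C y * Polynomial.X ^ n : ℤ[X]) =
      (((x : ℝ) + y * Real.pi ^ n : ℝ) : ℂ) := by
    intro n x y
    simp
  by_cases hPz : (C (v.2.1 * u.1 - u.2.1 * v.1) + C (v.2.1 * u.2.2) * Polynomial.X ^ j -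
      C (u.2.1 * v.2.2) * Polynomial.X ^ k : ℤ[X]) = 0
  · have hcoe : ∀ i, (C (v.2.1 * u.1 - u.2.1 * v.1) + C (v.2.1 * u.2.2) * Polynomial.X ^ j -
      C (u.2.1 * v.2.2) * Polynomial.X ^ k : ℤ[X]).coeff i = 0 := by intro i; rw [hPz]; simp
    have c0 := hcoe 0
    have cj := hcoe j
    have ck := hcoe k
    rw [coeff_sub, coeff_add, coeff_C_mul, coeff_C_mul, coeff_X_pow, coeff_X_pow, coeff_C] at c0 cj ck
    rw [if_pos rfl, if_neg (by omega), if_neg (by omega)] at c0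
    rw [if_neg (by omega), if_pos rfl, if_neg hjk] at cj
    rw [if_neg (by omega), if_neg (Ne.symm hjk), if_pos rfl] at ck
    have d0 : v.2.1 * u.1 = u.2.1 * v.1 := by linarith
    have dj : v.2.1 * u.2.2 = 0 := by linarith
    have dk : u.2.1 * v.2.2 = 0 := by linarith
    by_cases hb : u.2.1 = 0
    · by_cases hb' : v.2.1 = 0
      · -- a polynomial in `π`
        have hP0 : (C u.1 + C u.2.2 * Polynomial.X ^ j : ℤ[X]) ≠ 0 := by
          intro h0
          apply hu0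
          have c1 : (C u.1 + C u.2.2 * Polynomial.X ^ j : ℤ[X]).coeff 0 = 0 := by rw [h0]; simp
          have c2 : (C u.1 + C u.2.2 * Polynomial.X ^ j : ℤ[X]).coeff j = 0 := by rw [h0]; simp
          rw [coeff_add, coeff_C_mul, coeff_X_pow, coeff_C] at c1 c2
          rw [if_pos rfl, if_neg (by omega)] at c1
          rw [if_neg (by omega), if_pos rfl] at c2
          refine Prod.ext ?_ (Prod.ext hb ?_)
          · simpa using c1
          · simpa using c2
        refine key _ (T * X) _ hP0 ?_ (by nlinarith) (by nlinarith) ?_ le_rfl ?_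
        · refine (natDegree_add_le _ _).trans ?_
          refine max_le (by simp) ?_
          exact (natDegree_C_mul_X_pow_le _ _).trans (le_max_left _ _)
        · intro i
          rw [coeff_add, coeff_C_mul, coeff_X_pow, coeff_C]
          by_cases hi : i = 0
          · rw [if_pos hi, if_neg (by omega)]
            simpa using hau
          · rw [if_neg hi]
            by_cases hij : i = j
            · rw [if_pos hij]
              push_cast
              rw [zero_add, mul_one]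
              exact hcu.trans hTX
            · rw [if_neg hij]
              simp only [mul_zero, add_zero, Int.cast_zero, abs_zero]
              positivity
        · rw [hcast, Complex.norm_real, Real.norm_eq_abs]
          have e : (u.1 : ℝ) + u.2.2 * Real.pi ^ j = L t (Real.pi ^ j) u := by
            unfold L; rw [hb]; push_cast; ring
          rw [e]
          nlinarith
      · rcases mul_eq_zero.1 dj with h | h
        · exact hb' h
        · apply hu0
          rw [hb, zero_mul] at d0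
          rcases mul_eq_zero.1 d0 with h' | h'
          · exact absurd h' hb'
          · exact Prod.ext h' (Prod.ext hb h)
    · have hc2 : v.2.2 = 0 := by
        rcases mul_eq_zero.1 dk with h | h
        · exact absurd h hb
        · exact h
      by_cases hb' : v.2.1 = 0
      · apply hv0
        rw [hb', zero_mul] at d0
        rcases mul_eq_zero.1 d0.symm with h' | h'
        · exact absurd h' hb
        · exact Prod.ext h' (Prod.ext hb' hc2)
      · have hc1 : u.2.2 = 0 := by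
          rcases mul_eq_zero.1 dj with h | h
          · exact absurd h hb'
          · exact h
        refine keyt u.1 u.2.1 hb hbu ?_
        have e : (u.1 : ℝ) + u.2.1 * t = L t (Real.pi ^ j) u := by
          unfold L; rw [hc1]; push_cast; ring
        rw [e]
        exact hlu
  · refine key _ (2 * T * X ^ 2) _ hPz ?_ (by nlinarith) le_rfl ?_ le_rfl ?_
    · refine (natDegree_sub_le _ _).trans ?_
      refine max_le ?_ ?_
      · refine (natDegree_add_le _ _).trans ?_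
        refine max_le ?_ ?_
        · rw [natDegree_C]; omega
        · exact (natDegree_C_mul_X_pow_le _ _).trans (le_max_left _ _)
      · exact (natDegree_C_mul_X_pow_le _ _).trans (le_max_right _ _)
    · intro i
      have hbnd : ∀ x y : ℝ, |x| ≤ X → |y| ≤ T * X → |x * y| ≤ T * X ^ 2 := by
        intro x y hx hy
        rw [abs_mul]
        have := mul_le_mul hx hy (abs_nonneg _) hX0.le
        nlinarith
      have hTX2 : 0 ≤ T * X ^ 2 := by positivity
      rw [coeff_sub, coeff_add, coeff_C_mul, coeff_C_mul, coeff_X_pow, coeff_X_pow, coeff_C]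
      by_cases hi : i = 0
      · rw [if_pos hi, if_neg (by omega), if_neg (by omega)]
        push_cast
        rw [mul_zero, mul_zero, add_zero, sub_zero]
        refine (abs_sub _ _).trans ?_
        have h1 := hbnd _ _ hbv hau
        have h2 := hbnd _ _ hbu hav
        linarith
      · rw [if_neg hi]
        by_cases hij : i = j
        · rw [if_pos hij, if_neg (by omega)]
          push_cast
          rw [mul_one, mul_zero, zero_add, sub_zero]
          have h1 := hbnd _ _ hbv (hcu.trans hTX)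
          linarith
        · rw [if_neg hij]
          by_cases hik : i = k
          · rw [if_pos hik]
            push_cast
            rw [mul_one, mul_zero, zero_add, zero_sub, abs_neg]
            have h1 := hbnd _ _ hbu (hcv.trans hTX)
            linarith
          · rw [if_neg hik]
            simp only [mul_zero, add_zero, sub_zero, Int.cast_zero, abs_zero]
            positivity
    · have e : aeval (Real.pi : ℂ) (C (v.2.1 * u.1 - u.2.1 * v.1) +
          C (v.2.1 * u.2.2) * Polynomial.X ^ j - C (u.2.1 * v.2.2) * Polynomial.X ^ k : ℤ[X]) =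
          (((v.2.1 : ℝ) * L t (Real.pi ^ j) u - u.2.1 * L t (Real.pi ^ k) v : ℝ) : ℂ) := by
        unfold L
        simp only [map_sub, map_add, map_mul, aeval_C, aeval_X, map_pow]
        simp only [algebraMap_int_eq, eq_intCast]
        push_cast
        ring
      rw [e, Complex.norm_real, Real.norm_eq_abs]
      refine (abs_sub _ _).trans_lt ?_
      rw [abs_mul, abs_mul]
      have h1 : |(v.2.1 : ℝ)| * |L t (Real.pi ^ j) u| ≤ X * |L t (Real.pi ^ j) u| :=
        mul_le_mul_of_nonneg_right hbv (abs_nonneg _)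
      have h2 : |(u.2.1 : ℝ)| * |L t (Real.pi ^ k) v| ≤ X * |L t (Real.pi ^ k) v| :=
        mul_le_mul_of_nonneg_right hbu (abs_nonneg _)
      nlinarith

end Pool.Agent.N493.NRNu
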