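import Pool.Agent.N493.NRNu2

/-!
# Separation of two numbers from a measure of linear independence of rank three
-/

set_option autoImplicit false

namespace Pool.Agent.N493.NRNu

open Filter Topology Pool.Agent.N493.NR

/-- a measure for forms without `ξ` -/
lemma nu_form (t ν c : ℝ) (hν : 0 < ν) (hc : Nu t ν c) (X : ℝ) (a b : ℤ)
    (hb : b ≠ 0) (hbX : |(b : ℝ)| ≤ X) : c ≤ X ^ ν * |(a : ℝ) + b * t| := by
  obtain ⟨n, hn⟩ : ∃ n : ℤ, |((b.natAbs : ℕ) : ℝ) * t - n| = |(a : ℝ) + b * t| := by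
    have hn : ((b.natAbs : ℕ) : ℝ) = |(b : ℝ)| := by
      rw [Nat.cast_natAbs, Int.cast_abs]
    rcases abs_cases (b : ℝ) with ⟨h1, _⟩ | ⟨h1, _⟩
    · exact ⟨-a, by rw [hn, h1]; congr 1; push_cast; ring⟩
    · refine ⟨a, ?_⟩
      rw [hn, h1, ← abs_neg]
      congr 1
      ring
  have h2 := hc b.natAbs (Int.natAbs_pos.2 hb) n
  rw [hn] at h2
  refine h2.trans (mul_le_mul_of_nonneg_right ?_ (abs_nonneg _))
  refine Real.rpow_le_rpow (Nat.cast_nonneg _) ?_ hν.le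
  rw [Nat.cast_natAbs, Int.cast_abs]
  exact hbX

lemma indep_two (a b c a' b' c' : ℤ) (hu : (a, b, c) ≠ (0, 0, 0)) (hv : (a', b', c') ≠ (0, 0, 0))
    (h : ¬ (c = 0 ∧ c' = 0)) : LinearIndependent ℤ ![![a, b, c, 0], ![a', b', 0, c']] := by
  rw [LinearIndependent.pair_iff]
  intro x y hxy
  have e0 := congrFun hxy 0
  have e1 := congrFun hxy 1
  have e2 := congrFun hxy 2
  have e3 := congrFun hxy 3
  simp only [Pi.add_apply, Pi.smul_apply, Matrix.cons_val_zero, Matrix.cons_val_one,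
    Matrix.cons_val, smul_eq_mul, Pi.zero_apply, mul_zero, add_zero, zero_add] at e0 e1 e2 e3
  have hu' : a ≠ 0 ∨ b ≠ 0 ∨ c ≠ 0 := by
    by_contra hcon
    push Not at hcon
    apply hu
    rw [hcon.1, hcon.2.1, hcon.2.2]
  have hv' : a' ≠ 0 ∨ b' ≠ 0 ∨ c' ≠ 0 := by
    by_contra hcon
    push Not at hcon
    apply hv
    rw [hcon.1, hcon.2.1, hcon.2.2]
  by_cases hc : c = 0
  · have hc' : c' ≠ 0 := fun h0 => h ⟨hc, h0⟩
    have hy : y = 0 := by
      rcases mul_eq_zero.1 e3 with h1 | h1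
      · exact h1
      · exact absurd h1 hc'
    rw [hy, zero_mul, add_zero] at e0 e1
    refine ⟨?_, hy⟩
    rcases hu' with h1 | h1 | h1
    · exact (mul_eq_zero.1 e0).resolve_right h1
    · exact (mul_eq_zero.1 e1).resolve_right h1
    · exact absurd hc h1
  · have hx : x = 0 := by
      rcases mul_eq_zero.1 e2 with h1 | h1
      · exact h1
      · exact absurd h1 hc
    rw [hx, zero_mul, zero_add] at e0 e1
    refine ⟨hx, ?_⟩
    rcases hv' with h1 | h1 | h1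
    · exact (mul_eq_zero.1 e0).resolve_right h1
    · exact (mul_eq_zero.1 e1).resolve_right h1
    · exact (mul_eq_zero.1 e3).resolve_right h1

/-- separation from a measure of linear independence of rank three -/
theorem sep_four (t ξ₁ ξ₂ ν c m c₀ : ℝ) (hν : 0 < ν) (hc0 : 0 < c) (hc : Nu t ν c) (hm : ν ≤ m)
    (h0 : 0 < c₀) (h : ∀ X : ℝ, 1 ≤ X → ∀ v : Fin 2 → (Fin 4 → ℤ), LinearIndependent ℤ v →
      (∀ k, ‖v k‖ ≤ X) → ∃ k, c₀ * X ^ (-m) ≤
        |(v k 0 : ℝ) + v k 1 * t + v k 2 * ξ₁ + v k 3 * ξ₂|) :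
    ∃ c' : ℝ, 0 < c' ∧ Sep t ξ₁ ξ₂ m c' := by
  obtain ⟨T, hT⟩ : ∃ T : ℝ, T = 1 + |t| + |ξ₁| + |ξ₂| := ⟨_, rfl⟩
  have ht0 := abs_nonneg t
  have hx1 := abs_nonneg ξ₁
  have hx2 := abs_nonneg ξ₂
  have hT1 : 1 ≤ T := by rw [hT]; linarith
  have hT0 : 0 < T := by linarith
  have hm0 : 0 < m := hν.trans_le hm
  obtain ⟨c', hc'⟩ : ∃ c' : ℝ, c' = min (1 / 2) (min (c / 2) (c₀ * T ^ (-m) / 2)) := ⟨_, rfl⟩
  have hc'0 : 0 < c' := by rw [hc']; positivity
  have hc'1 : c' ≤ 1 / 2 := by rw [hc']; exact min_le_left _ _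
  have hc'2 : c' ≤ c / 2 := by rw [hc']; exact (min_le_right _ _).trans (min_le_left _ _)
  have hc'3 : c' ≤ c₀ * T ^ (-m) / 2 := by
    rw [hc']; exact (min_le_right _ _).trans (min_le_right _ _)
  refine ⟨c', hc'0, ?_⟩
  intro X hX u v hu0 hv0 hu hv
  by_contra hlt
  push Not at hlt
  have hX0 : 0 < X := by linarith
  have hXm : X ^ (-m) ≤ 1 := Real.rpow_le_one_of_one_le_of_nonpos hX (by linarith)
  have hXmp : 0 < X ^ (-m) := by positivity
  have hlu : |L t ξ₁ u| < c' * X ^ (-m) := (le_max_left _ _).trans_lt hlt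
  have hlv : |L t ξ₂ v| < c' * X ^ (-m) := (le_max_right _ _).trans_lt hlt
  have hl1 : c' * X ^ (-m) ≤ 1 / 2 := by nlinarith
  have hau : |(u.1 : ℝ)| ≤ T * X := by
    refine (a_le t ξ₁ X u hu hX (by linarith)).trans ?_
    refine mul_le_mul_of_nonneg_right ?_ hX0.le
    rw [hT]
    linarith
  have hav : |(v.1 : ℝ)| ≤ T * X := by
    refine (a_le t ξ₂ X v hv hX (by linarith)).trans ?_
    refine mul_le_mul_of_nonneg_right ?_ hX0.le
    rw [hT]
    linarith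
  have hTX : X ≤ T * X := by nlinarith
  have hbu := (b_le u).trans hu
  have hcu := (c_le u).trans hu
  have hbv := (b_le v).trans hv
  have hcv := (c_le v).trans hv
  by_cases hcc : u.2.2 = 0 ∧ v.2.2 = 0
  · -- a form in `1, t`
    have e : L t ξ₁ u = (u.1 : ℝ) + u.2.1 * t := by
      unfold L; rw [hcc.1]; push_cast; ring
    rw [e] at hlu
    by_cases hb : u.2.1 = 0
    · rw [hb] at hlu
      have ha : u.1 ≠ 0 := by
        intro ha
        exact hu0 (Prod.ext ha (Prod.ext hb hcc.1))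
      have h1 : (1 : ℝ) ≤ |(u.1 : ℝ)| := by exact_mod_cast Int.one_le_abs ha
      rw [Int.cast_zero, zero_mul, add_zero] at hlu
      linarith
    · have h1 := nu_form t ν c hν hc X u.1 u.2.1 hb hbu
      have h2 : X ^ ν * |(u.1 : ℝ) + u.2.1 * t| ≤ X ^ ν * (c' * X ^ (-m)) :=
        mul_le_mul_of_nonneg_left hlu.le (by positivity)
      have h3 : X ^ ν * (c' * X ^ (-m)) = c' * X ^ (ν - m) := by
        rw [sub_eq_add_neg, Real.rpow_add hX0]; ring
      have h4 : X ^ (ν - m) ≤ 1 := Real.rpow_le_one_of_one_le_of_nonpos hX (by linarith)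
      rw [h3] at h2
      nlinarith
  · have hi := indep_two u.1 u.2.1 u.2.2 v.1 v.2.1 v.2.2 hu0 hv0 hcc
    have hTX1 : 1 ≤ T * X := by nlinarith
    obtain ⟨k, hk⟩ := h (T * X) hTX1 _ hi (by
      intro k
      rw [pi_norm_le_iff_of_nonneg (by linarith)]
      intro i
      have n1 : ‖(0 : ℤ)‖ ≤ T * X := by rw [norm_zero]; linarith
      have n2 : ∀ z : ℤ, |(z : ℝ)| ≤ T * X → ‖z‖ ≤ T * X := fun z hz => by
        rw [Int.norm_eq_abs]; exact hz
      fin_cases k <;> fin_cases i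
      · exact n2 _ hau
      · exact n2 _ (hbu.trans hTX)
      · exact n2 _ (hcu.trans hTX)
      · exact n1
      · exact n2 _ hav
      · exact n2 _ (hbv.trans hTX)
      · exact n1
      · exact n2 _ (hcv.trans hTX))
    have e3 : c₀ * (T * X) ^ (-m) = (c₀ * T ^ (-m)) * X ^ (-m) := by
      rw [Real.mul_rpow hT0.le hX0.le]; ring
    rw [e3] at hk
    have h5 : 2 * c' * X ^ (-m) ≤ (c₀ * T ^ (-m)) * X ^ (-m) :=
      mul_le_mul_of_nonneg_right (by linarith) hXmp.le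
    fin_cases k
    · have e : |((u.1 : ℤ) : ℝ) + u.2.1 * t + u.2.2 * ξ₁ + ((0 : ℤ) : ℝ) * ξ₂| = |L t ξ₁ u| := by
        unfold L; congr 1; push_cast; ring
      have hk' : (c₀ * T ^ (-m)) * X ^ (-m) ≤ |L t ξ₁ u| := by
        rw [← e]; exact hk
      nlinarith
    · have e : |((v.1 : ℤ) : ℝ) + v.2.1 * t + ((0 : ℤ) : ℝ) * ξ₁ + v.2.2 * ξ₂| = |L t ξ₂ v| := by
        unfold L; congr 1; push_cast; ring
      have hk' : (c₀ * T ^ (-m)) * X ^ (-m) ≤ |L t ξ₂ v| := by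
        rw [← e]; exact hk
      nlinarith

end Pool.Agent.N493.NRNu
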