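import Pool.Agent.N493.NRCount

/-!
# The exact threshold for near relations of `1`, `e`, `ξ`
-/

set_option autoImplicit false

namespace Pool.Agent.N493.NR

open Filter Topology
open Pool.Agent.H43R2.Cplx.EMeas (I I_eq I_pos I_le q_pos q_mono q_growth det r)

open Pool.Agent.H43R2.Cplx.EMeas renaming q → qe

lemma fact_le (n : ℕ) : n.factorial ≤ qe (n + 1) := by
  induction n with
  | zero => simp [Pool.Agent.H43R2.Cplx.EMeas.q]
  | succ n ih =>
    rw [show n + 1 + 1 = n + 2 by ring, Nat.factorial_succ]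
    simp only [Pool.Agent.H43R2.Cplx.EMeas.q]
    nlinarith [(q_pos n).1]

/-- `e` is badly approximable up to the factor `n`, where `(n - 1)! < 4 Q` -/
theorem lowerF (Q : ℕ) (hQ : 1 ≤ Q) (m : ℤ) : ∃ n : ℕ, 1 ≤ n ∧ (n - 1).factorial < 4 * Q ∧
    1 / (8 * (4 * n + 3) * Q : ℝ) ≤ |Q * Real.exp 1 - m| := by
  classical
  have hex : ∃ n, 4 * Q ≤ qe (n + 1) := by
    refine ⟨4 * Q, ?_⟩
    have h1 := q_growth (4 * Q)
    have h2 : 4 * Q < 2 ^ (4 * Q) := Nat.lt_two_pow_self
    omega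
  obtain ⟨n, hn1, hnmin⟩ : ∃ n, 4 * Q ≤ qe (n + 1) ∧ ∀ m < n, ¬ 4 * Q ≤ qe (m + 1) :=
    ⟨Nat.find hex, Nat.find_spec hex, fun m hm => Nat.find_min hex hm⟩
  have hn0 : 1 ≤ n := by
    by_contra h
    have h0 : n = 0 := by omega
    rw [h0] at hn1
    simp [Pool.Agent.H43R2.Cplx.EMeas.q] at hn1
    omega
  have hn2 : qe n < 4 * Q := by
    have := hnmin (n - 1) (by omega)
    rw [show n - 1 + 1 = n by omega] at this
    omega
  refine ⟨n, hn0, ?_, ?_⟩
  · have h1 := fact_le (n - 1)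
    rw [show n - 1 + 1 = n by omega] at h1
    omega
  · have hq1 : (qe (n + 1) : ℝ) ≤ (4 * n + 3) * (4 * Q) := by
      obtain ⟨k, hk⟩ : ∃ k, n = k + 1 := ⟨n - 1, by omega⟩
      have h1 : qe (n + 1) = (4 * k + 6) * qe n + qe k := by rw [hk]; rfl
      have h2 : qe k ≤ qe n := q_mono (by omega)
      have h3 : qe (n + 1) ≤ (4 * n + 3) * (4 * Q) := by
        rw [h1]
        calc (4 * k + 6) * qe n + qe k ≤ (4 * k + 6) * qe n + qe n := by omega
          _ = (4 * k + 7) * qe n := by ring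
          _ ≤ (4 * k + 7) * (4 * Q) := Nat.mul_le_mul_left _ hn2.le
          _ = (4 * n + 3) * (4 * Q) := by rw [hk]; ring
      exact_mod_cast h3
    have hQpos : (0 : ℝ) < Q := by exact_mod_cast hQ
    have key : ∀ l, n ≤ l → l ≤ n + 1 → (qe l : ℤ) * m - r l * Q ≠ 0 →
        1 / (2 * qe (n + 1) : ℝ) ≤ |Q * Real.exp 1 - m| := by
      intro l hl1 hl2 hne
      have h1 : (1 : ℝ) ≤ |(qe l : ℝ) * m - r l * Q| := by
        have : (1 : ℤ) ≤ |(qe l : ℤ) * m - r l * Q| := Int.one_le_abs hne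
        exact_mod_cast this
      have h2 : |(qe l : ℝ) * Real.exp 1 - r l| = I l := by
        have h3 := (I_eq l).1
        have h4 := I_pos l
        rw [← abs_of_pos h4, h3, abs_mul, abs_pow, abs_neg, abs_one, one_pow, one_mul]
      have h3 : (qe l : ℝ) * m - r l * Q =
          -(qe l * (Q * Real.exp 1 - m)) + Q * (qe l * Real.exp 1 - r l) := by
        ring
      have h4 : |(qe l : ℝ) * m - r l * Q| ≤ qe l * |Q * Real.exp 1 - m| + Q * I l := by
        rw [h3]
        refine (abs_add_le _ _).trans ?_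
        rw [abs_neg, abs_mul, abs_mul, h2, Nat.abs_cast, Nat.abs_cast]
      have h5 : (qe l : ℝ) ≤ qe (n + 1) := by exact_mod_cast q_mono hl2
      have h6 : (qe (n + 1) : ℝ) ≤ qe (l + 1) := by exact_mod_cast q_mono (by omega)
      have h7 : (4 * Q : ℝ) ≤ qe (n + 1) := by exact_mod_cast hn1
      have h8 : (Q : ℝ) * I l ≤ 1 / 2 := by
        have h9 := I_le l
        have h10 : 2 / (qe (l + 1) : ℝ) ≤ 2 / (4 * Q) := by
          apply div_le_div_of_nonneg_left (by norm_num) (by positivity) (h7.trans h6)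
        calc (Q : ℝ) * I l ≤ Q * (2 / (4 * Q)) := by
              apply mul_le_mul_of_nonneg_left (h9.trans h10) hQpos.le
          _ = 1 / 2 := by field_simp; norm_num
      have h9 : (1 : ℝ) / 2 ≤ qe (n + 1) * |Q * Real.exp 1 - m| := by
        have : (qe l : ℝ) * |Q * Real.exp 1 - m| ≤ qe (n + 1) * |Q * Real.exp 1 - m| :=
          mul_le_mul_of_nonneg_right h5 (abs_nonneg _)
        linarith
      have h10 : (0 : ℝ) < qe (n + 1) := by linarith
      rw [div_le_iff₀ (by positivity)]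
      linarith
    have hex2 : ∃ l, n ≤ l ∧ l ≤ n + 1 ∧ (qe l : ℤ) * m - r l * Q ≠ 0 := by
      by_contra hcon
      push Not at hcon
      have e1 := hcon n le_rfl (by omega)
      have e2 := hcon (n + 1) (by omega) le_rfl
      have e3 := det n
      have e4 : ((r n : ℤ) * qe (n + 1) - r (n + 1) * qe n) * Q = 0 := by
        linear_combination (-(qe (n + 1) : ℤ)) * e1 + (qe n : ℤ) * e2
      rw [e3] at e4
      have : (Q : ℤ) ≠ 0 := by
        have : (1 : ℤ) ≤ Q := by exact_mod_cast hQ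
        omega
      have h2 : (2 * (-1 : ℤ) ^ (n + 1)) ≠ 0 := by
        apply mul_ne_zero (by norm_num)
        exact pow_ne_zero _ (by norm_num)
      exact mul_ne_zero h2 this e4
    obtain ⟨l, hl1, hl2, hl3⟩ := hex2
    refine le_trans ?_ (key l hl1 hl2 hl3)
    have h10 : (0 : ℝ) < qe (n + 1) := by exact_mod_cast (q_pos n).2
    apply one_div_le_one_div_of_le (by positivity)
    linarith

/-- if `n! ≤ 4 Y` then `n` is at most about `log Y / log log Y` -/
lemma fact_bound (n : ℕ) (Y : ℝ) (hY : 3 ≤ Y) (hn : (n.factorial : ℝ) ≤ 4 * Y) :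
    (n : ℝ) ≤ 16 * Real.log Y / Real.log (Real.log Y) := by
  have hl3 : 1 < Real.log Y := by
    rw [Real.lt_log_iff_exp_lt (by linarith)]
    linarith [Real.exp_one_lt_d9]
  obtain ⟨l, hl⟩ : ∃ l : ℝ, l = Real.log Y := ⟨_, rfl⟩
  rw [← hl] at hl3 ⊢
  have hll : 0 < Real.log l := Real.log_pos hl3
  rw [le_div_iff₀ hll]
  have hlog4 : Real.log 4 ≤ 1.4 := by
    have h1 := Real.log_two_lt_d9
    have : Real.log 4 = 2 * Real.log 2 := by
      rw [show (4 : ℝ) = 2 ^ 2 by norm_num, Real.log_pow]; norm_num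
    rw [this]; linarith
  have hn0 : (0 : ℝ) ≤ n := Nat.cast_nonneg n
  -- `log n! ≤ 1.4 + l`
  have hlogn : Real.log (n.factorial : ℝ) ≤ 1.4 + l := by
    have h1 := Real.log_le_log (by exact_mod_cast n.factorial_pos) hn
    rw [Real.log_mul (by norm_num) (by linarith), ← hl] at h1
    linarith
  -- `n log n - n ≤ log n!`
  have hst : (n : ℝ) * Real.log n - n ≤ Real.log (n.factorial : ℝ) := by
    have h1 : (n : ℝ) ^ n / n.factorial ≤ Real.exp n := Real.pow_div_factorial_le_exp n hn0 n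
    rcases Nat.eq_zero_or_pos n with h0 | h0
    · rw [h0]; simp
    have hnR : (0 : ℝ) < n := by exact_mod_cast h0
    have hfR : (0 : ℝ) < n.factorial := by exact_mod_cast n.factorial_pos
    have h2 := Real.log_le_log (by positivity) h1
    rw [Real.log_exp, Real.log_div (by positivity) (by positivity), Real.log_pow] at h2
    linarith
  have h1 : (n : ℝ) * (Real.log n - 1) ≤ 1.4 + l := by linarith
  -- `log l ≤ l / 2 `
  rcases le_or_gt (n : ℝ) (Real.exp 1 * Real.sqrt l * Real.exp 1) with h2 | h2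
  · -- small `n`
    have hs : Real.log l ≤ 2 * (Real.sqrt l - 1) := by
      have h3 := Real.log_le_sub_one_of_pos (Real.sqrt_pos.2 (by linarith : (0 : ℝ) < l))
      rw [Real.log_sqrt (by linarith)] at h3
      linarith
    have hsq : Real.sqrt l * Real.sqrt l = l := Real.mul_self_sqrt (by linarith)
    have hs1 : 1 ≤ Real.sqrt l := Real.one_le_sqrt.2 hl3.le
    have he : Real.exp 1 < 2.7183 := by linarith [Real.exp_one_lt_d9]
    have he0 := Real.exp_pos 1
    have h4 : Real.exp 1 * Real.sqrt l * Real.exp 1 ≤ 7.39 * Real.sqrt l := by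
      have : Real.exp 1 * Real.exp 1 ≤ 7.39 := by nlinarith
      nlinarith
    calc (n : ℝ) * Real.log l ≤ (7.39 * Real.sqrt l) * (2 * (Real.sqrt l - 1)) :=
          mul_le_mul (h2.trans h4) hs hll.le (by positivity)
      _ ≤ 16 * l := by nlinarith
  · have hs0 : 0 < Real.sqrt l := Real.sqrt_pos.2 (by linarith)
    have h3 : 2 + Real.log l / 2 ≤ Real.log n := by
      have h4 := Real.log_le_log (by positivity) h2.le
      rw [Real.log_mul (by positivity) (by positivity), Real.log_mul (by positivity)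
        (by positivity), Real.log_exp, Real.log_sqrt (by linarith)] at h4
      linarith
    have h5 : (n : ℝ) * (1 + Real.log l / 2) ≤ 1.4 + l :=
      (mul_le_mul_of_nonneg_left (by linarith) hn0).trans h1
    nlinarith

/-- the measure of irrationality of `e` of Davis' type, lower bound -/
theorem davis : ∃ c : ℝ, 0 < c ∧ ∀ (Q : ℕ) (m : ℤ) (Y : ℝ), 1 ≤ Q → (Q : ℝ) ≤ Y → 3 ≤ Y →
    c * Real.log (Real.log Y) / (Y * Real.log Y) ≤ |Q * Real.exp 1 - m| := by
  refine ⟨1 / 1000, by norm_num, fun Q m Y hQ hQY hY => ?_⟩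
  obtain ⟨n, hn1, hn2, hn3⟩ := lowerF Q hQ m
  refine le_trans ?_ hn3
  have hQR : (1 : ℝ) ≤ Q := by exact_mod_cast hQ
  have hl3 : 1 < Real.log Y := by
    rw [Real.lt_log_iff_exp_lt (by linarith)]
    linarith [Real.exp_one_lt_d9]
  have hll : 0 < Real.log (Real.log Y) := Real.log_pos hl3
  have h1 : ((n - 1).factorial : ℝ) ≤ 4 * Y := by
    have : ((n - 1).factorial : ℝ) ≤ 4 * Q := by exact_mod_cast hn2.le
    linarith
  have h2 := fact_bound (n - 1) Y hY h1
  rw [Nat.cast_sub hn1, Nat.cast_one] at h2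
  have h3 : Real.log (Real.log Y) ≤ Real.log Y := by
    have := Real.log_le_sub_one_of_pos (show (0 : ℝ) < Real.log Y by linarith)
    linarith
  rw [le_div_iff₀ hll] at h2
  have h4 : (4 * (n : ℝ) + 3) * Real.log (Real.log Y) ≤ 71 * Real.log Y := by nlinarith
  have hn0 : (0 : ℝ) ≤ n := Nat.cast_nonneg n
  rw [div_le_div_iff₀ (by positivity) (by positivity)]
  have h5 : 8 * ((4 * (n : ℝ) + 3) * Real.log (Real.log Y)) * Q ≤ 8 * (71 * Real.log Y) * Y :=
    mul_le_mul (by linarith) hQY (by linarith) (by nlinarith)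
  have h6 : 0 ≤ Real.log Y * Y := by nlinarith
  nlinarith

/-- (A) near relations at one scale lie on a line, exact threshold -/
theorem line_e : ∃ c : ℝ, 0 < c ∧ ∀ (ξ X : ℝ), 3 ≤ X → ∀ u v : ℤ × ℤ × ℤ,
    (ht u : ℝ) ≤ X → (ht v : ℝ) ≤ X →
    |L (Real.exp 1) ξ u| ≤ c * Real.log (Real.log X) / (X ^ 3 * Real.log X) →
    |L (Real.exp 1) ξ v| ≤ c * Real.log (Real.log X) / (X ^ 3 * Real.log X) → Par u v := by
  obtain ⟨c, hc0, hc⟩ := davis
  refine ⟨min (1 / 4) (c / 13), by positivity, ?_⟩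
  intro ξ X hX u v hu hv h1 h2
  by_contra hp
  obtain ⟨c', hc'⟩ : ∃ c' : ℝ, c' = min (1 / 4) (c / 13) := ⟨_, rfl⟩
  rw [← hc'] at h1 h2
  have hc'0 : 0 < c' := by rw [hc']; positivity
  have hc'1 : c' ≤ 1 / 4 := by rw [hc']; exact min_le_left _ _
  have hc'2 : c' ≤ c / 13 := by rw [hc']; exact min_le_right _ _
  have hX0 : 0 < X := by linarith
  have hl3 : 1 < Real.log X := by
    rw [Real.lt_log_iff_exp_lt (by linarith)]
    linarith [Real.exp_one_lt_d9]
  have hll : 0 < Real.log (Real.log X) := Real.log_pos hl3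
  have hll2 : Real.log (Real.log X) ≤ Real.log X := by
    have := Real.log_le_sub_one_of_pos (show (0 : ℝ) < Real.log X by linarith)
    linarith
  obtain ⟨ρ, hρ⟩ : ∃ ρ : ℝ, ρ = Real.log (Real.log X) / Real.log X := ⟨_, rfl⟩
  have hρ0 : 0 < ρ := by rw [hρ]; positivity
  have hρ1 : ρ ≤ 1 := by rw [hρ, div_le_one (by linarith)]; exact hll2
  have e0 : c' * Real.log (Real.log X) / (X ^ 3 * Real.log X) = c' * ρ / X ^ 3 := by
    rw [hρ]; field_simp
  rw [e0] at h1 h2
  have hS : S (Real.exp 1) ξ u v ≤ 2 * (c' * ρ / X ^ 2) := by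
    unfold S
    have a1 : (ht v : ℝ) * |L (Real.exp 1) ξ u| ≤ X * (c' * ρ / X ^ 3) :=
      mul_le_mul hv h1 (abs_nonneg _) hX0.le
    have a2 : (ht u : ℝ) * |L (Real.exp 1) ξ v| ≤ X * (c' * ρ / X ^ 3) :=
      mul_le_mul hu h2 (abs_nonneg _) hX0.le
    have e2 : X * (c' * ρ / X ^ 3) = c' * ρ / X ^ 2 := by field_simp
    rw [e2] at a1 a2
    linarith
  have hS1 : S (Real.exp 1) ξ u v < 1 := by
    have h3 : c' * ρ / X ^ 2 ≤ 1 / 4 := by
      rw [div_le_iff₀ (by positivity)]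
      nlinarith
    linarith
  have hq := q_ne (Real.exp 1) ξ u v hp hS1
  have hQ : 1 ≤ (q u v).natAbs := Int.natAbs_pos.2 hq
  obtain ⟨p, hpp⟩ : ∃ p : ℤ, p = -(u.1 * v.2.2 - v.1 * u.2.2) := ⟨_, rfl⟩
  have e1 : (q u v : ℝ) * Real.exp 1 - p =
      (v.2.2 : ℝ) * L (Real.exp 1) ξ u - u.2.2 * L (Real.exp 1) ξ v := by
    rw [hpp]
    unfold q L
    push_cast
    ring
  obtain ⟨m, hm⟩ : ∃ m : ℤ, |((q u v).natAbs : ℝ) * Real.exp 1 - m| =
      |(q u v : ℝ) * Real.exp 1 - p| := by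
    have hn : ((q u v).natAbs : ℝ) = |(q u v : ℝ)| := by
      rw [Nat.cast_natAbs, Int.cast_abs]
    rcases abs_cases (q u v : ℝ) with ⟨h1, _⟩ | ⟨h1, _⟩
    · exact ⟨p, by rw [hn, h1]⟩
    · refine ⟨-p, ?_⟩
      rw [hn, h1, ← abs_neg]
      congr 1
      push_cast
      ring
  have hQ2 : (((q u v).natAbs : ℕ) : ℝ) ≤ 2 * X ^ 2 := by
    rw [Nat.cast_natAbs, Int.cast_abs]
    refine (q_le u v).trans ?_
    have := mul_le_mul hu hv (Nat.cast_nonneg _) hX0.le
    nlinarith
  have h4 := hc _ m (2 * X ^ 2) hQ hQ2 (by nlinarith)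
  rw [hm, e1] at h4
  have h5 := (h4.trans (S_c (Real.exp 1) ξ u v)).trans hS
  have hY1 : Real.log (2 * X ^ 2) ≤ 3 * Real.log X := by
    rw [Real.log_mul (by norm_num) (by positivity), Real.log_pow]
    have := Real.log_le_log (by norm_num) (show (2 : ℝ) ≤ X by linarith)
    push_cast
    linarith
  have hY2 : Real.log X ≤ Real.log (2 * X ^ 2) := Real.log_le_log hX0 (by nlinarith)
  have hY3 : Real.log (Real.log X) ≤ Real.log (Real.log (2 * X ^ 2)) :=
    Real.log_le_log (by linarith) hY2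
  have h6 : c * ρ / (6 * X ^ 2) ≤
      c * Real.log (Real.log (2 * X ^ 2)) / (2 * X ^ 2 * Real.log (2 * X ^ 2)) := by
    have e : c * ρ / (6 * X ^ 2) = c * Real.log (Real.log X) / (2 * X ^ 2 * (3 * Real.log X)) := by
      rw [hρ]; field_simp; norm_num
    rw [e]
    apply div_le_div₀ (mul_nonneg hc0.le (hll.le.trans hY3))
      (mul_le_mul_of_nonneg_left hY3 hc0.le)
    · have : 0 < Real.log (2 * X ^ 2) := by linarith
      positivity
    · exact mul_le_mul_of_nonneg_left hY1 (by positivity)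
  have h7 := h6.trans h5
  rw [div_le_iff₀ (by positivity)] at h7
  have e3 : 2 * (c' * ρ / X ^ 2) * (6 * X ^ 2) = 12 * (c' * ρ) := by
    field_simp
    norm_num
  rw [e3] at h7
  have h8 : c' * ρ ≤ c / 13 * ρ := mul_le_mul_of_nonneg_right hc'2 hρ0.le
  have h9 : 0 < c * ρ := by positivity
  nlinarith

end Pool.Agent.N493.NR
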