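import Pool.Agent.N493.NRSharp

/-!
# Sharpness of the threshold, and many near relations below the exponent three
-/

set_option autoImplicit false

namespace Pool.Agent.N493.NR

open Filter Topology
open Pool.Agent.H43R2.Cplx.EMeas (I I_eq I_pos I_le q_pos q_mono q_growth det r)

open Pool.Agent.H43R2.Cplx.EMeas renaming q → qe

/-- two short relations -/
lemma constr (t : ℝ) (K : ℕ) (hK : 1 ≤ K) (j : ℤ) : ∃ (s r : ℕ) (T : ℝ), 1 ≤ s ∧ K = s * s + r ∧
    r ≤ 2 * s ∧ (s : ℝ) ≤ Real.sqrt K ∧ Real.sqrt K ≤ 2 * s ∧ T * s = K * t - j := by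
  have hKR : (1 : ℝ) ≤ K := by exact_mod_cast hK
  obtain ⟨s, hs⟩ : ∃ s : ℕ, s = Nat.sqrt K := ⟨_, rfl⟩
  have hs1 : s * s ≤ K := by rw [hs]; exact Nat.sqrt_le K
  have hs2 : K < (s + 1) * (s + 1) := by rw [hs]; exact Nat.lt_succ_sqrt K
  have hs0 : 1 ≤ s := by
    by_contra hlt
    have : s = 0 := by omega
    rw [this] at hs2
    omega
  have hsR : (1 : ℝ) ≤ s := by exact_mod_cast hs0
  obtain ⟨w, hw⟩ : ∃ w : ℝ, w = Real.sqrt K := ⟨_, rfl⟩
  have hw2 : w * w = K := by rw [hw]; exact Real.mul_self_sqrt (by positivity)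
  have hw0 : 0 < w := by rw [hw]; exact Real.sqrt_pos.2 (by linarith)
  refine ⟨s, K - s * s, ((K : ℝ) * t - j) / s, hs0, by omega, ?_, ?_, ?_, ?_⟩
  · have : (s + 1) * (s + 1) = s * s + 2 * s + 1 := by ring
    omega
  · apply Real.le_sqrt_of_sq_le
    have : (s : ℝ) * s ≤ K := by exact_mod_cast hs1
    rw [sq]; exact this
  · rw [← hw]
    have h4 : w < s + 1 := by
      have h5 : (K : ℝ) < (s + 1) * (s + 1) := by exact_mod_cast hs2
      rw [← hw2] at h5
      nlinarith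
    linarith
  · field_simp

lemma qe_le (n : ℕ) (hn : 1 ≤ n) : qe n ≤ (4 * n) ^ n ∧ (4 * n + 2) * qe n ≤ qe (n + 1) := by
  induction n, hn using Nat.le_induction with
  | base => simp [Pool.Agent.H43R2.Cplx.EMeas.q]
  | succ n hn ih =>
    obtain ⟨k, rfl⟩ : ∃ k, n = k + 1 := ⟨n - 1, by omega⟩
    have h1 : qe (k + 1 + 1) = (4 * k + 6) * qe (k + 1) + qe k := rfl
    have h2 : qe (k + 1 + 1 + 1) = (4 * (k + 1) + 6) * qe (k + 1 + 1) + qe (k + 1) := rfl
    have h3 : qe k ≤ qe (k + 1) := q_mono (by omega)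
    constructor
    · calc qe (k + 1 + 1) ≤ (4 * (k + 1 + 1)) * qe (k + 1) := by
            rw [h1]
            have : (4 * (k + 1 + 1)) * qe (k + 1) = (4 * k + 6) * qe (k + 1) + qe (k + 1) +
              qe (k + 1) := by ring
            omega
        _ ≤ (4 * (k + 1 + 1)) * (4 * (k + 1)) ^ (k + 1) := Nat.mul_le_mul_left _ ih.1
        _ ≤ (4 * (k + 1 + 1)) * (4 * (k + 1 + 1)) ^ (k + 1) :=
            Nat.mul_le_mul_left _ (Nat.pow_le_pow_left (by omega) _)
        _ = (4 * (k + 1 + 1)) ^ (k + 1 + 1) := by rw [← pow_succ']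
    · rw [h2]
      have : (4 * (k + 1 + 1) + 2) * qe (k + 1 + 1) = (4 * (k + 1) + 6) * qe (k + 1 + 1) := by ring
      omega

/-- the threshold is sharp up to the constant -/
theorem sharp_e (X0 : ℝ) : ∃ X : ℝ, X0 ≤ X ∧ 3 ≤ X ∧
    ∃ (ξ : ℝ) (u v : ℤ × ℤ × ℤ), (ht u : ℝ) ≤ X ∧ (ht v : ℝ) ≤ X ∧
      |L (Real.exp 1) ξ u| ≤ 16 * Real.log (Real.log X) / (X ^ 3 * Real.log X) ∧
      |L (Real.exp 1) ξ v| ≤ 16 * Real.log (Real.log X) / (X ^ 3 * Real.log X) ∧ ¬ Par u v := by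
  obtain ⟨n0, hn0⟩ := exists_nat_gt (max (X0 ^ 2) 50)
  obtain ⟨n, hn⟩ : ∃ n : ℕ, n = n0 + 1 := ⟨_, rfl⟩
  have hn50 : 50 < n := by
    have : (50 : ℝ) < n0 := (le_max_right _ _).trans_lt hn0
    have : 50 < n0 := by exact_mod_cast this
    omega
  have hnX : X0 ^ 2 < n := by
    have : X0 ^ 2 < n0 := (le_max_left _ _).trans_lt hn0
    rw [hn]; push_cast; linarith
  obtain ⟨K, hK⟩ : ∃ K : ℕ, K = qe n := ⟨_, rfl⟩
  have hK1 : 1 ≤ K := by rw [hK]; exact (q_pos n).1
  have hKR : (1 : ℝ) ≤ K := by exact_mod_cast hK1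
  obtain ⟨hq1, hq2⟩ := qe_le n (by omega)
  rw [← hK] at hq1 hq2
  have hKg : 2 ^ (n - 1) ≤ K := by
    have := q_growth (n - 1)
    rw [show n - 1 + 1 = n by omega] at this
    rw [hK]; exact this
  obtain ⟨s, r', T, hs0, hKs, hr, hsw, hws, hT⟩ := constr (Real.exp 1) K hK1 (r n)
  have hsR : (1 : ℝ) ≤ s := by exact_mod_cast hs0
  obtain ⟨w, hw⟩ : ∃ w : ℝ, w = Real.sqrt K := ⟨_, rfl⟩
  have hw2 : w * w = K := by rw [hw]; exact Real.mul_self_sqrt (by positivity)
  have hw0 : 0 < w := by rw [hw]; exact Real.sqrt_pos.2 (by linarith)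
  rw [← hw] at hsw hws
  have hnR : (50 : ℝ) < n := by exact_mod_cast hn50
  have hnK : n ≤ K := by
    have : n - 1 < 2 ^ (n - 1) := Nat.lt_two_pow_self
    omega
  have hnKR : (n : ℝ) ≤ K := by exact_mod_cast hnK
  have hXw : X0 ≤ w := by
    by_contra hlt
    push Not at hlt
    have : w * w < X0 ^ 2 := by rw [sq]; exact mul_self_lt_mul_self hw0.le hlt
    linarith
  have hw3 : 3 ≤ w := by
    by_contra hlt
    push Not at hlt
    nlinarith
  obtain ⟨X, hX⟩ : ∃ X : ℝ, X = 2 * w := ⟨_, rfl⟩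
  have hX0 : 0 < X := by linarith
  have hX3 : 3 ≤ X := by linarith
  obtain ⟨l, hl⟩ : ∃ l : ℝ, l = Real.log X := ⟨_, rfl⟩
  have hl2 : l = Real.log 2 + Real.log K / 2 := by
    rw [hl, hX, Real.log_mul (by norm_num) hw0.ne', hw, Real.log_sqrt (by linarith)]
  have hlog2 := Real.log_two_gt_d9
  have hlog2' := Real.log_two_lt_d9
  have hlow : 0.34 * ((n : ℝ) - 1) ≤ l := by
    have h1 : ((2 : ℝ) ^ (n - 1)) ≤ K := by exact_mod_cast hKg
    have h2 := Real.log_le_log (by positivity) h1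
    rw [Real.log_pow, Nat.cast_sub (by omega), Nat.cast_one] at h2
    rw [hl2]
    nlinarith
  have hup : l ≤ n * Real.log (4 * n) := by
    have h1 : (K : ℝ) ≤ (4 * n) ^ n := by exact_mod_cast hq1
    have h2 := Real.log_le_log (by linarith) h1
    rw [Real.log_pow] at h2
    have h3 : Real.log 2 ≤ Real.log (4 * n) := Real.log_le_log (by norm_num) (by linarith)
    rw [hl2]
    nlinarith
  have hl1 : 16 < l := by linarith
  have hll : Real.log (4 * n) ≤ 2 * Real.log l := by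
    have h1 : 4 * (n : ℝ) ≤ l ^ 2 := by nlinarith
    have h2 := Real.log_le_log (by linarith) h1
    rw [Real.log_pow] at h2
    exact_mod_cast h2
  have hll0 : 0 < Real.log l := Real.log_pos (by linarith)
  have hll' : Real.log (Real.log X) = Real.log l := by rw [hl]
  have hmain : 2 * l ≤ (4 * n + 2) * Real.log l := by
    have h1 : l ≤ n * (2 * Real.log l) := hup.trans (mul_le_mul_of_nonneg_left hll (by linarith))
    nlinarith
  refine ⟨X, by linarith, hX3, -s * Real.exp 1 + T, (0, (s : ℤ), 1), (r n, -(r' : ℤ), (s : ℤ)),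
    ?_, ?_, ?_, ?_, ?_⟩
  · have : ht (0, (s : ℤ), 1) = max s 1 := by simp [ht]
    rw [this, max_eq_left hs0]
    linarith
  · have : ht ((r n : ℤ), -(r' : ℤ), (s : ℤ)) = max r' s := by simp [ht]
    rw [this]
    have h5 : max r' s ≤ 2 * s := max_le hr (by omega)
    have h6 : ((max r' s : ℕ) : ℝ) ≤ 2 * s := by exact_mod_cast h5
    linarith
  · have e1 : L (Real.exp 1) (-s * Real.exp 1 + T) (0, (s : ℤ), 1) = T := by
      unfold L
      push_cast
      ring
    rw [e1, hll', ← hl]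
    have h1 : |T| * s ≤ 2 / ((4 * n + 2) * K) := by
      have h2 : |T| * s = I n := by
        have h3 := (I_eq n).1
        have h4 := I_pos n
        rw [← abs_of_pos h4, h3, abs_mul, abs_pow, abs_neg, abs_one, one_pow, one_mul, ← hK]
        have h5 : (K : ℝ) * Real.exp 1 - (r n : ℕ) = T * s := by
          rw [hT]; push_cast; rfl
        rw [h5, abs_mul, abs_of_pos (show (0 : ℝ) < s by linarith)]
      rw [h2]
      refine (I_le n).trans ?_
      apply div_le_div_of_nonneg_left (by norm_num) (by positivity)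
      exact_mod_cast hq2
    have h2 : |T| ≤ 4 / ((4 * n + 2) * K * w) := by
      rw [le_div_iff₀ (by positivity)]
      rw [le_div_iff₀ (by positivity)] at h1
      have h3 : |T| * ((4 * n + 2) * K * w) ≤ |T| * ((4 * n + 2) * K * (2 * s)) := by
        apply mul_le_mul_of_nonneg_left _ (abs_nonneg _)
        exact mul_le_mul_of_nonneg_left hws (by positivity)
      nlinarith
    refine h2.trans ?_
    have e2 : (X : ℝ) ^ 3 = 8 * (K * w) := by rw [hX, ← hw2]; ring
    rw [e2, div_le_div_iff₀ (by positivity) (by positivity)]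
    have h3 : 0 < (K : ℝ) * w := by positivity
    have h4 := mul_le_mul_of_nonneg_left hmain h3.le
    have e3 : 4 * (8 * ((K : ℝ) * w) * l) = 16 * (K * w * (2 * l)) := by ring
    have e4 : 16 * Real.log l * ((4 * n + 2) * K * w) =
        16 * (K * w * ((4 * n + 2) * Real.log l)) := by ring
    rw [e3, e4]
    linarith
  · have e1 : L (Real.exp 1) (-s * Real.exp 1 + T) (r n, -(r' : ℤ), (s : ℤ)) = 0 := by
      have hKR' : (K : ℝ) = s * s + r' := by exact_mod_cast hKs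
      unfold L
      push_cast
      push_cast at hT
      linear_combination hT + Real.exp 1 * hKR'
    rw [e1, abs_zero, hll', ← hl]
    positivity
  · rintro ⟨-, -, h3⟩
    simp only at h3
    have : (s : ℤ) * s + r' = 0 := by linarith
    have h5 : (K : ℤ) = s * s + r' := by exact_mod_cast hKs
    omega

/-- good approximations with large denominators -/
lemma exists_K (t : ℝ) (ht2 : Two t) (B : ℝ) : ∃ K : ℕ, 1 ≤ K ∧ B ≤ K ∧ ∃ j : ℤ,
    |(K : ℝ) * t - j| ≤ 1 / K := by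
  obtain ⟨c, hc0, hc⟩ := ht2 1 one_pos
  obtain ⟨n, hn⟩ := exists_nat_gt ((|B| + 1) ^ 2 / c)
  have hn1 : 0 < n := by
    have h1 : 0 ≤ (|B| + 1) ^ 2 / c := by positivity
    have : (0 : ℝ) < n := h1.trans_lt hn
    exact_mod_cast this
  obtain ⟨j, k, hk0, hkn, hjk⟩ := Real.exists_int_int_abs_mul_sub_le t hn1
  obtain ⟨K, rfl⟩ : ∃ K : ℕ, k = (K : ℤ) := ⟨k.toNat, by omega⟩
  have hK1 : 1 ≤ K := by omega
  have hKn : K ≤ n := by omega
  have hKR : (1 : ℝ) ≤ K := by exact_mod_cast hK1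
  have hKnR : (K : ℝ) ≤ n := by exact_mod_cast hKn
  have hjk' : |(K : ℝ) * t - j| ≤ 1 / ((n : ℝ) + 1) := by exact_mod_cast hjk
  have h1 := hc K hK1 j
  have hK2 : (K : ℝ) ^ (1 + 1 : ℝ) = (K : ℝ) ^ 2 := by
    rw [← Real.rpow_natCast]; norm_num
  rw [hK2] at h1
  have h2 : c ≤ (K : ℝ) ^ 2 * (1 / ((n : ℝ) + 1)) :=
    h1.trans (mul_le_mul_of_nonneg_left hjk' (by positivity))
  have h3 : (|B| + 1) ^ 2 < (K : ℝ) ^ 2 := by
    rw [mul_one_div, le_div_iff₀ (by positivity)] at h2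
    rw [div_lt_iff₀ hc0] at hn
    nlinarith
  have h4 : |B| + 1 < (K : ℝ) := lt_of_pow_lt_pow_left₀ 2 (by positivity) h3
  refine ⟨K, hK1, by linarith [le_abs_self B], j, hjk'.trans ?_⟩
  apply one_div_le_one_div_of_le (by linarith)
  linarith

/-- below the exponent three there can be many lines of near relations -/
theorem many (t : ℝ) (ht2 : Two t) (τ : ℝ) (hτ0 : 0 < τ) (hτ : τ < 3) (X0 : ℝ) :
    ∃ X : ℝ, X0 ≤ X ∧ 1 ≤ X ∧ ∃ (ξ : ℝ) (F : Finset (ℤ × ℤ × ℤ)),
      (F : Set (ℤ × ℤ × ℤ)).Pairwise (fun u v => ¬ Par u v) ∧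
      (∀ v ∈ F, 1 ≤ ht v ∧ (ht v : ℝ) ≤ X ∧ |L t ξ v| ≤ (ht v : ℝ) ^ (-τ)) ∧
      X ^ (1 - τ / 3) / 4 ≤ F.card := by
  classical
  -- the size of `K`
  have htend : Tendsto (fun K : ℝ => K ^ (3 / (2 * τ) - 1 / 2)) atTop atTop := by
    apply tendsto_rpow_atTop
    rw [sub_pos, div_lt_div_iff₀ (by norm_num) (by linarith)]
    linarith
  have hev : ∀ᶠ K : ℝ in atTop, 3 * 2 ^ (1 / τ) < K ^ (3 / (2 * τ) - 1 / 2) :=
    htend.eventually_gt_atTop _
  obtain ⟨B0, hB0⟩ := eventually_atTop.1 hev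
  obtain ⟨K, hK1, hKB, j, hj⟩ := exists_K t ht2 (max B0 (X0 ^ 2))
  have hKR : (1 : ℝ) ≤ K := by exact_mod_cast hK1
  have hKB0 : B0 ≤ K := (le_max_left _ _).trans hKB
  have hKX : X0 ^ 2 ≤ K := (le_max_right _ _).trans hKB
  have hbig := hB0 K hKB0
  obtain ⟨s, r', T, hs0, hKs, hr, hsw, hws, hT⟩ := constr t K hK1 j
  have hsR : (1 : ℝ) ≤ s := by exact_mod_cast hs0
  obtain ⟨w, hw⟩ : ∃ w : ℝ, w = Real.sqrt K := ⟨_, rfl⟩
  have hw2 : w * w = K := by rw [hw]; exact Real.mul_self_sqrt (by positivity)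
  have hw0 : 0 < w := by rw [hw]; exact Real.sqrt_pos.2 (by linarith)
  rw [← hw] at hsw hws
  have hw1 : 1 ≤ w := by linarith
  have hXw : X0 ≤ w := by
    by_contra hlt
    push Not at hlt
    have : w * w < X0 ^ 2 := by rw [sq]; exact mul_self_lt_mul_self hw0.le hlt
    linarith
  have hK2 : (K : ℝ) = w ^ (2 : ℝ) := by
    rw [show (2 : ℝ) = ((2 : ℕ) : ℝ) by norm_num, Real.rpow_natCast, ← hw2]; ring
  -- the size of `X`
  obtain ⟨X, hX⟩ : ∃ X : ℝ, X = (w ^ (3 : ℝ) / 2) ^ (1 / τ) := ⟨_, rfl⟩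
  have hXpos : 0 < X := by rw [hX]; positivity
  have hXτ : X ^ τ = w ^ (3 : ℝ) / 2 := by
    rw [hX, ← Real.rpow_mul (by positivity), one_div_mul_cancel hτ0.ne', Real.rpow_one]
  have h3w : 3 * w ≤ X := by
    rw [hX, Real.div_rpow (by positivity) (by norm_num), le_div_iff₀ (by positivity),
      ← Real.rpow_mul hw0.le]
    have h1 : (K : ℝ) ^ (3 / (2 * τ) - 1 / 2) * w = w ^ (3 * (1 / τ)) := by
      rw [hK2, ← Real.rpow_mul hw0.le]
      nth_rewrite 2 [← Real.rpow_one w]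
      rw [← Real.rpow_add hw0]
      congr 1
      field_simp
      ring
    rw [← h1]
    nlinarith
  obtain ⟨A, hA⟩ : ∃ A : ℕ, A = ⌊X / (3 * w)⌋₊ := ⟨_, rfl⟩
  have hA1 : (A : ℝ) ≤ X / (3 * w) := by rw [hA]; exact Nat.floor_le (by positivity)
  have hA2 : X / (3 * w) < A + 1 := by rw [hA]; exact Nat.lt_floor_add_one _
  rw [le_div_iff₀ (by positivity)] at hA1
  -- the vectors
  obtain ⟨f, hf⟩ : ∃ f : ℕ → ℤ × ℤ × ℤ, f = fun (y : ℕ) =>
    ((y : ℤ) * j, (s : ℤ) - y * r', 1 + (y : ℤ) * s) := ⟨_, rfl⟩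
  have hval : ∀ y, L t (-s * t + T) (f y) = T := by
    intro y
    have hKR' : (K : ℝ) = s * s + r' := by exact_mod_cast hKs
    rw [hf]
    unfold L
    push_cast
    linear_combination (y : ℝ) * hT + y * t * hKR'
  have hht : ∀ y, y ≤ A → (ht (f y) : ℝ) ≤ X := by
    intro y hy
    have h1 : ht (f y) ≤ s + 2 * s * A := by
      rw [hf]
      unfold ht
      simp only
      apply max_le
      · have h2 : y * r' ≤ A * (2 * s) := Nat.mul_le_mul hy hr
        have h3 : ((s : ℤ) - y * r').natAbs ≤ s + y * r' := by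
          have := Int.natAbs_sub_le (s : ℤ) (y * r')
          rw [Int.natAbs_mul] at this
          simpa using this
        have h4 : A * (2 * s) = 2 * s * A := by ring
        omega
      · have h2 : y * s ≤ A * s := Nat.mul_le_mul hy le_rfl
        have h3 : (1 + (y : ℤ) * s).natAbs = 1 + y * s := by
          have : (1 + (y : ℤ) * s) = ((1 + y * s : ℕ) : ℤ) := by push_cast; rfl
          rw [this, Int.natAbs_natCast]
        rw [h3]
        nlinarith
    have h2 : (ht (f y) : ℝ) ≤ s + 2 * s * A := by exact_mod_cast h1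
    have h3 : (s : ℝ) * A ≤ w * A := mul_le_mul_of_nonneg_right hsw (Nat.cast_nonneg _)
    nlinarith
  have hht1 : ∀ y, 1 ≤ ht (f y) := by
    intro y
    rw [hf]
    unfold ht
    simp only
    refine le_trans ?_ (le_max_right _ _)
    have h3 : (1 + (y : ℤ) * s).natAbs = 1 + y * s := by
      have : (1 + (y : ℤ) * s) = ((1 + y * s : ℕ) : ℤ) := by push_cast; rfl
      rw [this, Int.natAbs_natCast]
    rw [h3]
    omega
  have hTle : |T| ≤ X ^ (-τ) := by
    rw [Real.rpow_neg hXpos.le, hXτ]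
    have h1 : |T| * s ≤ 1 / K := by
      rw [← abs_of_pos (show (0 : ℝ) < s by linarith), ← abs_mul, hT]
      exact hj
    have h2 : w ^ (3 : ℝ) = w * K := by
      rw [hK2]
      nth_rewrite 2 [← Real.rpow_one w]
      rw [← Real.rpow_add hw0]
      norm_num
    rw [h2, inv_div, le_div_iff₀ (by positivity)]
    rw [le_div_iff₀ (by linarith)] at h1
    have h3 : |T| * (w * K) ≤ |T| * (2 * s * K) := by
      apply mul_le_mul_of_nonneg_left _ (abs_nonneg _)
      exact mul_le_mul_of_nonneg_right hws (by linarith)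
    nlinarith
  have hpar : ∀ y z : ℕ, y ≠ z → ¬ Par (f y) (f z) := by
    rintro y z hyz ⟨-, -, h3⟩
    rw [hf] at h3
    simp only at h3
    have h4 : ((z : ℤ) - y) * (s * s + r') = 0 := by linear_combination h3
    have h5 : (K : ℤ) = s * s + r' := by exact_mod_cast hKs
    rw [← h5] at h4
    rcases mul_eq_zero.1 h4 with h | h <;> omega
  have hinj : Function.Injective f := by
    intro y z hyz
    by_contra hne
    apply hpar y z hne
    rw [hyz]
    exact ⟨rfl, rfl, rfl⟩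
  refine ⟨X, by linarith, by linarith, -s * t + T, (Finset.range (A + 1)).image f, ?_, ?_, ?_⟩
  · intro u hu v hv huv
    rw [Finset.mem_coe, Finset.mem_image] at hu hv
    obtain ⟨y, -, rfl⟩ := hu
    obtain ⟨z, -, rfl⟩ := hv
    exact hpar y z fun h => huv (by rw [h])
  · intro v hv
    rw [Finset.mem_image] at hv
    obtain ⟨y, hy, rfl⟩ := hv
    rw [Finset.mem_range] at hy
    have h1 := hht y (by omega)
    have h2 : (1 : ℝ) ≤ ht (f y) := by exact_mod_cast hht1 y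
    refine ⟨hht1 y, h1, ?_⟩
    rw [hval]
    exact hTle.trans (Real.rpow_le_rpow_of_nonpos (by linarith) h1 (by linarith))
  · rw [Finset.card_image_of_injective _ hinj, Finset.card_range]
    push_cast
    have h1 : X ^ (1 - τ / 3) = X / (w ^ (3 : ℝ) / 2) ^ (1 / 3 : ℝ) := by
      rw [Real.rpow_sub hXpos, Real.rpow_one]
      congr 1
      rw [← hXτ, ← Real.rpow_mul hXpos.le]
      congr 1
      ring
    have h2 : (w ^ (3 : ℝ) / 2) ^ (1 / 3 : ℝ) = w / 2 ^ (1 / 3 : ℝ) := by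
      rw [Real.div_rpow (by positivity) (by norm_num), ← Real.rpow_mul hw0.le]
      norm_num
    rw [h1, h2]
    have h3 : (2 : ℝ) ^ (1 / 3 : ℝ) ≤ 4 / 3 := by
      have h4 : ((2 : ℝ)) ≤ (4 / 3) ^ (3 : ℝ) := by
        rw [show (3 : ℝ) = ((3 : ℕ) : ℝ) by norm_num, Real.rpow_natCast]; norm_num
      have h5 := Real.rpow_le_rpow (by norm_num) h4 (show (0 : ℝ) ≤ 1 / 3 by norm_num)
      rw [← Real.rpow_mul (by norm_num)] at h5
      norm_num at h5 ⊢
      exact h5
    have h6 : (0 : ℝ) < 2 ^ (1 / 3 : ℝ) := by positivity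
    rw [div_div_eq_mul_div, div_div, div_le_iff₀ (by positivity)]
    rw [div_lt_iff₀ (by positivity)] at hA2
    nlinarith

end Pool.Agent.N493.NR
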