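import Pool.Agent.N493.NRCount

/-!
# Near relations at all scales: the gap of the uniform exponent
-/

set_option autoImplicit false

namespace Pool.Agent.N493.NR

open Filter Topology

/-- the best relation up to a given height -/
lemma exists_min (t ξ : ℝ) (N : ℕ) : ∃ v : ℤ × ℤ × ℤ, v ≠ 0 ∧ ht v ≤ N ∧
    ∀ u : ℤ × ℤ × ℤ, u ≠ 0 → ht u ≤ N → |L t ξ v| ≤ |L t ξ u| := by
  classical
  obtain ⟨G, hG⟩ : ∃ G : Finset (ℤ × ℤ × ℤ), G = (((Finset.Icc (-(N : ℤ)) N) ×ˢ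
      ((Finset.Icc (-(N : ℤ)) N) ×ˢ (Finset.Icc (-2 : ℤ) 1))).image
      (fun z => (z.2.2 - ⌊(z.1 : ℝ) * t + z.2.1 * ξ⌋, z.1, z.2.1))).filter
      (fun v => v ≠ 0 ∧ ht v ≤ N) := ⟨_, rfl⟩
  have hmem : ∀ v : ℤ × ℤ × ℤ, v ≠ 0 → ht v ≤ N → |L t ξ v| ≤ 1 → v ∈ G := by
    intro v hv0 hv1 hv2
    rw [hG, Finset.mem_filter]
    refine ⟨?_, hv0, hv1⟩
    rw [Finset.mem_image]
    have h2 : v.2.1.natAbs ≤ N := (le_max_left _ _).trans hv1
    have h3 : v.2.2.natAbs ≤ N := (le_max_right _ _).trans hv1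
    have h4 := Int.floor_le ((v.2.1 : ℝ) * t + v.2.2 * ξ)
    have h5 := Int.lt_floor_add_one ((v.2.1 : ℝ) * t + v.2.2 * ξ)
    obtain ⟨f, hf⟩ : ∃ f : ℤ, f = ⌊(v.2.1 : ℝ) * t + v.2.2 * ξ⌋ := ⟨_, rfl⟩
    refine ⟨(v.2.1, v.2.2, v.1 + f), ?_, ?_⟩
    · rw [← hf] at h4 h5
      unfold L at hv2
      have h6 := abs_le.1 hv2
      have h7 : (-2 : ℝ) < ((v.1 + f : ℤ) : ℝ) := by push_cast; linarith [h6.1]
      have h8 : ((v.1 + f : ℤ) : ℝ) < 2 := by push_cast; linarith [h6.2]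
      have h9 : -2 < v.1 + f := by exact_mod_cast h7
      have h10 : v.1 + f < 2 := by exact_mod_cast h8
      simp only [Finset.mem_product, Finset.mem_Icc]
      refine ⟨⟨by omega, by omega⟩, ⟨by omega, by omega⟩, by omega, by omega⟩
    · simp only
      rw [← hf]
      ext
      · simp
      · simp
      · simp
  have h1 : ((1, 0, 0) : ℤ × ℤ × ℤ) ∈ G := by
    apply hmem
    · simp
    · simp [ht]
    · simp [L]
  obtain ⟨v, hv, hmin⟩ := G.exists_min_image (fun v => |L t ξ v|) ⟨_, h1⟩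
  have hvG := hv
  rw [hG, Finset.mem_filter] at hv
  refine ⟨v, hv.2.1, hv.2.2, fun u hu0 hu1 => ?_⟩
  by_cases hu : |L t ξ u| ≤ 1
  · exact hmin u (hmem u hu0 hu1 hu)
  · have h2 := hmin _ h1
    have h3 : |L t ξ (1, 0, 0)| = 1 := by simp [L]
    rw [h3] at h2
    push Not at hu
    linarith

/-- the determinant -/
def det3 (u v w : ℤ × ℤ × ℤ) : ℤ :=
  u.1 * (v.2.1 * w.2.2 - v.2.2 * w.2.1) - u.2.1 * (v.1 * w.2.2 - v.2.2 * w.1) +
    u.2.2 * (v.1 * w.2.1 - v.2.1 * w.1)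

/-- the numerator belonging to `q u v` -/
def p (u v : ℤ × ℤ × ℤ) : ℤ := -(u.1 * v.2.2 - v.1 * u.2.2)

lemma qp (t ξ : ℝ) (u v : ℤ × ℤ × ℤ) :
    (q u v : ℝ) * t - p u v = (v.2.2 : ℝ) * L t ξ u - u.2.2 * L t ξ v := by
  unfold q L p
  push_cast
  ring

lemma pq_det (u v w : ℤ × ℤ × ℤ) : p u v * q v w - p v w * q u v = -(v.2.2 * det3 u v w) := by
  unfold p q det3
  ring

lemma det_eq (t ξ : ℝ) (u v w : ℤ × ℤ × ℤ) :
    (det3 u v w : ℝ) = L t ξ u * q v w - L t ξ v * q u w + L t ξ w * q u v := by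
  unfold det3 L q
  push_cast
  ring

/-- proportional vectors: the one with the smaller value has the smaller height -/
lemma par_ht (t ξ : ℝ) (u v : ℤ × ℤ × ℤ) (hp : Par u v) (hv : |L t ξ v| < |L t ξ u|) :
    ht v ≤ ht u := by
  obtain ⟨h1, h2, h3⟩ := hp
  have h1R : (u.1 : ℝ) * v.2.1 = v.1 * u.2.1 := by exact_mod_cast h1
  have h2R : (u.1 : ℝ) * v.2.2 = v.1 * u.2.2 := by exact_mod_cast h2
  have h3R : (u.2.1 : ℝ) * v.2.2 = v.2.1 * u.2.2 := by exact_mod_cast h3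
  have e1 : L t ξ u * v.2.1 = L t ξ v * u.2.1 := by
    unfold L
    linear_combination h1R - ξ * h3R
  have e2 : L t ξ u * v.2.2 = L t ξ v * u.2.2 := by
    unfold L
    linear_combination h2R + t * h3R
  have key : ∀ x y : ℤ, L t ξ u * x = L t ξ v * y → x.natAbs ≤ y.natAbs := by
    intro x y h
    have h4 : |L t ξ u| * |(x : ℝ)| = |L t ξ v| * |(y : ℝ)| := by
      rw [← abs_mul, ← abs_mul, h]
    have h5 : |(x : ℝ)| ≤ |(y : ℝ)| := by
      by_contra hlt
      push Not at hlt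
      have h6 := abs_nonneg (y : ℝ)
      have h7 := abs_nonneg (L t ξ v)
      nlinarith
    have h6 : |x| ≤ |y| := by exact_mod_cast h5
    rw [Int.abs_eq_natAbs, Int.abs_eq_natAbs] at h6
    exact_mod_cast h6
  exact max_le_max (key _ _ e1) (key _ _ e2)

/-- (C) near relations at all scales with an exponent above `(3 + √5) / 2` -/
theorem uniform (t : ℝ) (ht2 : Two t) (ξ w : ℝ) (hw : (3 + Real.sqrt 5) / 2 < w) (X0 : ℝ)
    (hU : ∀ X : ℝ, X0 ≤ X → ∃ v : ℤ × ℤ × ℤ, v ≠ 0 ∧ (ht v : ℝ) ≤ X ∧ |L t ξ v| ≤ X ^ (-w)) :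
    ∃ v : ℤ × ℤ × ℤ, v ≠ 0 ∧ L t ξ v = 0 := by
  by_contra hI
  push Not at hI
  have h5 : Real.sqrt 5 * Real.sqrt 5 = 5 := Real.mul_self_sqrt (by norm_num)
  have h50 : 0 ≤ Real.sqrt 5 := Real.sqrt_nonneg 5
  have h52 : 2.2 ≤ Real.sqrt 5 := Real.le_sqrt_of_sq_le (by norm_num)
  have hw2 : 2.6 < w := by linarith
  have hquad : 0 < w ^ 2 - 3 * w + 1 := by
    have e : w ^ 2 - 3 * w + 1 = (w - (3 + Real.sqrt 5) / 2) * (w - (3 - Real.sqrt 5) / 2) := by
      linear_combination (1 / 4 : ℝ) * h5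
    rw [e]
    apply mul_pos <;> linarith
  choose V hV0 hVh hVmin using exists_min t ξ
  obtain ⟨g, hg⟩ : ∃ g : ℕ → ℝ, g = fun N => |L t ξ (V N)| := ⟨_, rfl⟩
  have hgpos : ∀ N, 0 < g N := fun N => by rw [hg]; exact abs_pos.2 (hI _ (hV0 N))
  have hganti : ∀ M N, M ≤ N → g N ≤ g M := by
    intro M N hMN
    rw [hg]
    exact hVmin N (V M) (hV0 M) ((hVh M).trans hMN)
  obtain ⟨N0, hN0⟩ := exists_nat_ge (max X0 1)
  have hgU : ∀ N : ℕ, N0 ≤ N → g N ≤ (N : ℝ) ^ (-w) := by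
    intro N hN
    have hN' : (N0 : ℝ) ≤ N := by exact_mod_cast hN
    obtain ⟨v, hv0, hv1, hv2⟩ := hU N ((le_max_left _ _).trans (hN0.trans hN'))
    rw [hg]
    exact (hVmin N v hv0 (by exact_mod_cast hv1)).trans hv2
  have hN01 : 1 ≤ N0 := by
    have : (1 : ℝ) ≤ N0 := (le_max_right _ _).trans hN0
    exact_mod_cast this
  have hnext : ∀ N : ℕ, ∃ M : ℕ, N < M ∧ g M < g N := by
    intro N
    have htend := (tendsto_rpow_neg_atTop (show (0 : ℝ) < w by linarith)).comp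
      tendsto_natCast_atTop_atTop (α := ℕ)
    have hev : ∀ᶠ n : ℕ in atTop, ((n : ℝ)) ^ (-w) < g N := htend.eventually_lt_const (hgpos N)
    obtain ⟨M, hM1, hM2⟩ := (hev.and (eventually_ge_atTop (max N0 (N + 1)))).exists
    exact ⟨M, (by have := (le_max_right _ _).trans hM2; omega),
      (hgU M ((le_max_left _ _).trans hM2)).trans_lt hM1⟩
  obtain ⟨nx, hnx⟩ : ∃ nx : ℕ → ℕ, ∀ N, N < nx N ∧ g (nx N) < g N ∧ ∀ M, M < nx N → g N ≤ g M := by
    classical
    refine ⟨fun N => Nat.find (hnext N), fun N => ⟨(Nat.find_spec (hnext N)).1,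
      (Nat.find_spec (hnext N)).2, fun M hM => ?_⟩⟩
    by_cases hMN : M ≤ N
    · exact hganti M N hMN
    · have := Nat.find_min (hnext N) hM
      push Not at this
      exact this (by omega)
  obtain ⟨n, hn0, hns⟩ : ∃ n : ℕ → ℕ, n 0 = N0 + 1 ∧ ∀ k, n (k + 1) = nx (n k) :=
    ⟨fun k => Nat.rec (N0 + 1) (fun _ x => nx x) k, rfl, fun k => rfl⟩
  have hnlt : ∀ k, n k < n (k + 1) := fun k => by rw [hns]; exact (hnx (n k)).1
  have hnk : ∀ k, N0 + 1 + k ≤ n k := by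
    intro k
    induction k with
    | zero => rw [hn0]
    | succ k ih => have := hnlt k; omega
  obtain ⟨x, hx⟩ : ∃ x : ℕ → ℝ, x = fun k => (n k : ℝ) := ⟨_, rfl⟩
  obtain ⟨v, hv⟩ : ∃ v : ℕ → ℤ × ℤ × ℤ, v = fun k => V (n k) := ⟨_, rfl⟩
  have hx2 : ∀ k, 2 ≤ x k := by
    intro k
    rw [hx]
    have h1 := hnk k
    simp only
    exact_mod_cast (by omega : 2 ≤ n k)
  have hxlt : ∀ k, x k < x (k + 1) := fun k => by rw [hx]; simp only; exact_mod_cast hnlt k
  have hxk : ∀ k : ℕ, (k : ℝ) ≤ x k := by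
    intro k
    rw [hx]
    have h1 := hnk k
    simp only
    exact_mod_cast (by omega : k ≤ n k)
  have hvx : ∀ k, (ht (v k) : ℝ) ≤ x k := fun k => by rw [hv, hx]; simp only; exact_mod_cast hVh (n k)
  have hvg : ∀ k, |L t ξ (v k)| = g (n k) := fun k => by rw [hv, hg]
  have hvdec : ∀ k, |L t ξ (v (k + 1))| < |L t ξ (v k)| := by
    intro k
    rw [hvg, hvg, hns]
    exact (hnx (n k)).2.1
  obtain ⟨K, hK⟩ : ∃ K : ℝ, K = (2 : ℝ) ^ w := ⟨_, rfl⟩
  have hK0 : 0 < K := by rw [hK]; positivity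
  -- the size of the value
  have hval : ∀ k, |L t ξ (v k)| ≤ K * x (k + 1) ^ (-w) := by
    intro k
    have h1 := hnk (k + 1)
    have h2 : g (n k) ≤ g (n (k + 1) - 1) := by
      apply (hnx (n k)).2.2
      rw [← hns]
      omega
    have h3 := hgU (n (k + 1) - 1) (by omega)
    rw [hvg]
    refine (h2.trans h3).trans ?_
    have h4 : ((n (k + 1) - 1 : ℕ) : ℝ) = x (k + 1) - 1 := by
      rw [hx, Nat.cast_sub (by omega)]
      simp
    rw [h4]
    have h5 := hx2 (k + 1)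
    have h6 : x (k + 1) / 2 ≤ x (k + 1) - 1 := by linarith
    have h7 : (x (k + 1) - 1) ^ (-w) ≤ (x (k + 1) / 2) ^ (-w) :=
      Real.rpow_le_rpow_of_nonpos (by linarith) h6 (by linarith)
    refine h7.trans (le_of_eq ?_)
    rw [Real.div_rpow (by linarith) (by norm_num), hK, Real.rpow_neg (by norm_num : (0:ℝ) ≤ 2)]
    field_simp
  have hnp : ∀ k, ¬ Par (v k) (v (k + 1)) := by
    intro k hp
    have h1 := par_ht t ξ _ _ hp (hvdec k)
    have h2 : ht (v (k + 1)) ≤ n k := h1.trans (by rw [hv]; exact hVh (n k))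
    have h3 := hVmin (n k) (v (k + 1)) (by rw [hv]; exact hV0 _) h2
    have h4 := hvdec k
    have h5 : |L t ξ (V (n k))| = |L t ξ (v k)| := by rw [hv]
    rw [h5] at h3
    linarith
  have hSle : ∀ k, S t ξ (v k) (v (k + 1)) ≤ 2 * K * x (k + 1) ^ (1 - w) := by
    intro k
    have h0 := hx2 (k + 1)
    have h00 := hx2 k
    have e : x (k + 1) * x (k + 1) ^ (-w) = x (k + 1) ^ (1 - w) := by
      nth_rewrite 1 [← Real.rpow_one (x (k + 1))]
      rw [← Real.rpow_add (by linarith)]; congr 1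
    unfold S
    have a1 : (ht (v (k + 1)) : ℝ) * |L t ξ (v k)| ≤ x (k + 1) * (K * x (k + 1) ^ (-w)) :=
      mul_le_mul (hvx (k + 1)) (hval k) (abs_nonneg _) (by linarith)
    have a2 : (ht (v k) : ℝ) * |L t ξ (v (k + 1))| ≤ x (k + 1) * (K * x (k + 1) ^ (-w)) :=
      mul_le_mul ((hvx k).trans (hxlt k).le) ((hvdec k).le.trans (hval k)) (abs_nonneg _)
        (by linarith)
    have e2 : x (k + 1) * (K * x (k + 1) ^ (-w)) = K * x (k + 1) ^ (1 - w) := by rw [← e]; ring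
    rw [e2] at a1 a2
    linarith
  have hxtop : Tendsto x atTop atTop := tendsto_atTop_mono hxk tendsto_natCast_atTop_atTop
  have hStend : Tendsto (fun k => 2 * K * x (k + 1) ^ (1 - w)) atTop (𝓝 0) := by
    have h1 := ((tendsto_rpow_neg_atTop (show (0 : ℝ) < w - 1 by linarith)).comp
      (hxtop.comp (tendsto_add_atTop_nat 1))).const_mul (2 * K)
    rw [mul_zero] at h1
    refine h1.congr fun k => ?_
    simp only [Function.comp]
    congr 2
    ring
  obtain ⟨k1, hk1⟩ := eventually_atTop.1 (hStend.eventually_lt_const one_pos)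
  have hq : ∀ k, k1 ≤ k → q (v k) (v (k + 1)) ≠ 0 := fun k hk =>
    q_ne t ξ _ _ (hnp k) ((hSle k).trans_lt (hk1 k hk))
  -- infinitely many independent triples
  have hinf : ∀ k0, k1 ≤ k0 → ∃ k, k0 ≤ k ∧ det3 (v k) (v (k + 1)) (v (k + 2)) ≠ 0 := by
    intro k0 hk0
    by_contra hcon
    push Not at hcon
    obtain ⟨ρ, hρ⟩ : ∃ ρ : ℕ → ℝ, ρ = fun k =>
      (p (v k) (v (k + 1)) : ℝ) / (q (v k) (v (k + 1)) : ℝ) := ⟨_, rfl⟩
    have hqR : ∀ k, k1 ≤ k → (q (v k) (v (k + 1)) : ℝ) ≠ 0 := fun k hk => by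
      exact_mod_cast hq k hk
    have hρs : ∀ k, k0 ≤ k → ρ (k + 1) = ρ k := by
      intro k hk
      have h1 := pq_det (v k) (v (k + 1)) (v (k + 2))
      rw [hcon k hk, mul_zero, neg_zero] at h1
      have h2 : (p (v k) (v (k + 1)) : ℝ) * q (v (k + 1)) (v (k + 2)) =
          p (v (k + 1)) (v (k + 2)) * q (v k) (v (k + 1)) := by
        have : p (v k) (v (k + 1)) * q (v (k + 1)) (v (k + 2)) =
          p (v (k + 1)) (v (k + 2)) * q (v k) (v (k + 1)) := by linarith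
        exact_mod_cast this
      rw [hρ]
      simp only
      rw [div_eq_div_iff (hqR (k + 1) (by omega)) (hqR k (by omega))]
      rw [show k + 1 + 1 = k + 2 by ring]
      linarith
    have hρc : ∀ k, k0 ≤ k → ρ k = ρ k0 := by
      intro k hk
      induction k, hk using Nat.le_induction with
      | base => rfl
      | succ k hk ih => rw [hρs k hk, ih]
    have hne : 0 < |t - ρ k0| := by
      obtain ⟨c, hc0, hc⟩ := ht2 1 one_pos
      rw [abs_pos]
      intro h0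
      have h1 := hc (q (v k0) (v (k0 + 1))).natAbs (Int.natAbs_pos.2 (hq k0 hk0))
      have h2 : (q (v k0) (v (k0 + 1)) : ℝ) * t - p (v k0) (v (k0 + 1)) = 0 := by
        have h3 : t = (p (v k0) (v (k0 + 1)) : ℝ) / (q (v k0) (v (k0 + 1)) : ℝ) := by
          have : t = ρ k0 := by linarith
          rw [this, hρ]
        rw [h3, mul_div_cancel₀ _ (hqR k0 hk0)]
        ring
      obtain ⟨m, hm⟩ : ∃ m : ℤ, |((q (v k0) (v (k0 + 1))).natAbs : ℝ) * t - m| = 0 := by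
        have hn : ((q (v k0) (v (k0 + 1))).natAbs : ℝ) = |(q (v k0) (v (k0 + 1)) : ℝ)| := by
          rw [Nat.cast_natAbs, Int.cast_abs]
        rcases abs_cases (q (v k0) (v (k0 + 1)) : ℝ) with ⟨h1, _⟩ | ⟨h1, _⟩
        · exact ⟨p (v k0) (v (k0 + 1)), by rw [hn, h1, h2, abs_zero]⟩
        · refine ⟨-p (v k0) (v (k0 + 1)), ?_⟩
          rw [hn, h1, abs_eq_zero]
          push_cast
          linarith
      have h4 := h1 m
      rw [hm, mul_zero] at h4
      linarith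
    obtain ⟨k, hk, hkk⟩ := ((hStend.eventually_lt_const hne).and
      (eventually_ge_atTop (max k0 k1))).exists
    have hkk0 : k0 ≤ k := (le_max_left _ _).trans hkk
    have hkk1 : k1 ≤ k := (le_max_right _ _).trans hkk
    have h6 : |(q (v k) (v (k + 1)) : ℝ) * t - p (v k) (v (k + 1))| ≤ 2 * K * x (k + 1) ^ (1 - w) := by
      rw [qp t ξ]
      exact (S_c t ξ _ _).trans (hSle k)
    have h7 : (q (v k) (v (k + 1)) : ℝ) * t - p (v k) (v (k + 1)) =
        q (v k) (v (k + 1)) * (t - ρ k0) := by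
      rw [← hρc k hkk0, hρ]
      simp only
      rw [mul_sub, mul_div_cancel₀ _ (hqR k hkk1)]
    rw [h7, abs_mul] at h6
    have h8 : (1 : ℝ) ≤ |(q (v k) (v (k + 1)) : ℝ)| := by
      have : 1 ≤ |q (v k) (v (k + 1))| := Int.one_le_abs (hq k hkk1)
      exact_mod_cast this
    nlinarith
  -- the exponents
  obtain ⟨ε, hε⟩ : ∃ ε : ℝ, ε = (w ^ 2 - 3 * w + 1) / (2 * w) := ⟨_, rfl⟩
  have hε0 : 0 < ε := by rw [hε]; apply div_pos hquad; linarith
  have hεw : 2 * (ε * w) = w ^ 2 - 3 * w + 1 := by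
    rw [hε]
    have : w ≠ 0 := by linarith
    field_simp
  obtain ⟨c, hc0, hc⟩ := cross t ht2 ε hε0
  obtain ⟨δ, hδ⟩ : ∃ δ : ℝ, δ = w - 2 - ε := ⟨_, rfl⟩
  have hδ1 : (w - 1) * δ - (1 + ε) = ε * w := by
    rw [hδ]
    linear_combination (-1 : ℝ) * hεw
  have hδ0 : 0 < δ := by
    by_contra hlt
    push Not at hlt
    have h1 : (w - 1) * δ ≤ 0 := mul_nonpos_of_nonneg_of_nonpos (by linarith) hlt
    have h2 : 0 < ε * w := mul_pos hε0 (by linarith)
    linarith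
  -- constants
  obtain ⟨A1, hA1⟩ : ∃ A1 : ℝ, A1 = Real.log (2 ^ (1 + ε) * (2 * K)) - Real.log c := ⟨_, rfl⟩
  obtain ⟨A2, hA2⟩ : ∃ A2 : ℝ, A2 = Real.log (6 * K) := ⟨_, rfl⟩
  obtain ⟨Y, hY⟩ : ∃ Y : ℝ, Y = (A1 + δ * A2) / (ε * w) := ⟨_, rfl⟩
  have hlogtop : Tendsto (fun k => Real.log (x k)) atTop atTop := Real.tendsto_log_atTop.comp hxtop
  obtain ⟨k2, hk2⟩ := eventually_atTop.1 (hlogtop.eventually_gt_atTop Y)
  obtain ⟨k, hk, hdet⟩ := hinf (max k1 k2) (le_max_left _ _)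
  have hkk1 : k1 ≤ k := (le_max_left _ _).trans hk
  have hkk2 : k2 ≤ k := (le_max_right _ _).trans hk
  obtain ⟨a, ha⟩ : ∃ a : ℝ, a = Real.log (x (k + 1)) := ⟨_, rfl⟩
  obtain ⟨b, hb⟩ : ∃ b : ℝ, b = Real.log (x (k + 2)) := ⟨_, rfl⟩
  have hxk1 : 0 < x (k + 1) := by linarith [hx2 (k + 1)]
  have hxk2 : 0 < x (k + 2) := by linarith [hx2 (k + 2)]
  have hlt12 : x (k + 1) < x (k + 2) := hxlt (k + 1)
  have haY : Y < a := by rw [ha]; exact hk2 (k + 1) (by omega)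
  -- first inequality
  have I1 : δ * b ≤ (1 + ε) * a + A1 := by
    have h1 := hc ξ (v (k + 1)) (v (k + 2)) (hnp (k + 1))
      ((hSle (k + 1)).trans_lt (hk1 (k + 1) (by omega)))
    have h2 : (2 * (ht (v (k + 1)) : ℝ) * ht (v (k + 2))) ^ (1 + ε) ≤
        (2 * (x (k + 1) * x (k + 2))) ^ (1 + ε) := by
      apply Real.rpow_le_rpow (by positivity) _ (by linarith)
      have := mul_le_mul (hvx (k + 1)) (hvx (k + 2)) (Nat.cast_nonneg _) hxk1.le
      linarith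
    have h3 := h1.trans (mul_le_mul h2 (hSle (k + 1)) (by unfold S; positivity) (by positivity))
    rw [show k + 1 + 1 = k + 2 by ring] at h3
    have h4 := Real.log_le_log hc0 h3
    rw [Real.mul_rpow (by norm_num) (by positivity), Real.mul_rpow hxk1.le hxk2.le] at h4
    have e : Real.log (2 ^ (1 + ε) * (x (k + 1) ^ (1 + ε) * x (k + 2) ^ (1 + ε)) *
        (2 * K * x (k + 2) ^ (1 - w))) = Real.log (2 ^ (1 + ε) * (2 * K)) +
        (1 + ε) * a + (1 + ε) * b + (1 - w) * b := by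
      have e1 : 2 ^ (1 + ε) * (x (k + 1) ^ (1 + ε) * x (k + 2) ^ (1 + ε)) *
        (2 * K * x (k + 2) ^ (1 - w)) = (2 ^ (1 + ε) * (2 * K)) * x (k + 1) ^ (1 + ε) *
        x (k + 2) ^ (1 + ε) * x (k + 2) ^ (1 - w) := by ring
      rw [e1, Real.log_mul (by positivity) (by positivity), Real.log_mul (by positivity)
        (by positivity), Real.log_mul (by positivity) (by positivity), Real.log_rpow hxk1,
        Real.log_rpow hxk2, Real.log_rpow hxk2, ha, hb]
    rw [e] at h4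
    have e5 : δ * b = -((1 + ε) * b + (1 - w) * b) := by rw [hδ]; ring
    rw [e5, hA1]
    linarith
  -- second inequality
  have I2 : (w - 1) * a ≤ b + A2 := by
    have hxk0 : 0 < x k := by linarith [hx2 k]
    have h1 : (1 : ℝ) ≤ |(det3 (v k) (v (k + 1)) (v (k + 2)) : ℝ)| := by
      have : 1 ≤ |det3 (v k) (v (k + 1)) (v (k + 2))| := Int.one_le_abs hdet
      exact_mod_cast this
    rw [det_eq t ξ] at h1
    obtain ⟨l, hl⟩ : ∃ l : ℝ, l = |L t ξ (v k)| := ⟨_, rfl⟩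
    have hl0 : 0 ≤ l := by rw [hl]; exact abs_nonneg _
    have hl1 : |L t ξ (v (k + 1))| ≤ l := by rw [hl]; exact (hvdec k).le
    have hl2 : |L t ξ (v (k + 2))| ≤ l := (hvdec (k + 1)).le.trans hl1
    have hQ : ∀ i j : ℕ, i ≤ k + 2 → j ≤ k + 1 → |(q (v j) (v i) : ℝ)| ≤ 2 * (x (k + 1) * x (k + 2)) := by
      intro i j hi hj
      have hmono : Monotone x := monotone_nat_of_le_succ fun m => (hxlt m).le
      refine (q_le _ _).trans ?_
      have h2 := mul_le_mul ((hvx j).trans (hmono hj)) ((hvx i).trans (hmono hi)) (Nat.cast_nonneg _)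
        hxk1.le
      linarith
    have h2 : |L t ξ (v k) * q (v (k + 1)) (v (k + 2)) - L t ξ (v (k + 1)) * q (v k) (v (k + 2)) +
        L t ξ (v (k + 2)) * q (v k) (v (k + 1))| ≤ 3 * (l * (2 * (x (k + 1) * x (k + 2)))) := by
      refine (abs_add_le _ _).trans ?_
      have b1 := abs_sub (L t ξ (v k) * (q (v (k + 1)) (v (k + 2)) : ℝ))
        (L t ξ (v (k + 1)) * (q (v k) (v (k + 2)) : ℝ))
      rw [abs_mul, abs_mul] at b1
      rw [abs_mul (L t ξ (v (k + 2)))]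
      have c1 := mul_le_mul (le_of_eq hl.symm) (hQ (k + 2) (k + 1) le_rfl le_rfl) (abs_nonneg _) hl0
      have c2 := mul_le_mul hl1 (hQ (k + 2) k le_rfl (by omega)) (abs_nonneg _) hl0
      have c3 := mul_le_mul hl2 (hQ (k + 1) k (by omega) (by omega)) (abs_nonneg _) hl0
      linarith
    have h3 : l ≤ K * x (k + 1) ^ (-w) := by rw [hl]; exact hval k
    have h4 : (1 : ℝ) ≤ 6 * K * (x (k + 1) ^ (1 - w) * x (k + 2)) := by
      refine (h1.trans h2).trans ?_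
      have e : 6 * K * (x (k + 1) ^ (1 - w) * x (k + 2)) =
          3 * (K * x (k + 1) ^ (-w) * (2 * (x (k + 1) * x (k + 2)))) := by
        have : x (k + 1) ^ (1 - w) = x (k + 1) * x (k + 1) ^ (-w) := by
          rw [show 1 - w = 1 + -w by ring, Real.rpow_add hxk1, Real.rpow_one]
        rw [this]; ring
      rw [e]
      have := mul_le_mul_of_nonneg_right h3 (show 0 ≤ 2 * (x (k + 1) * x (k + 2)) by positivity)
      linarith
    have h5 := Real.log_le_log one_pos h4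
    have e6 : Real.log (6 * K * (x (k + 1) ^ (1 - w) * x (k + 2))) =
        A2 + ((1 - w) * a + b) := by
      rw [Real.log_mul (show 6 * K ≠ 0 by positivity) (by positivity),
        Real.log_mul (show x (k + 1) ^ (1 - w) ≠ 0 by positivity) hxk2.ne', Real.log_rpow hxk1,
        ← ha, ← hb, ← hA2]
    rw [Real.log_one, e6] at h5
    linarith
  have I3 : δ * ((w - 1) * a) ≤ δ * (b + A2) := mul_le_mul_of_nonneg_left I2 hδ0.le
  have I4 : ε * w * a ≤ A1 + δ * A2 := by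
    have e1 : ε * w * a = δ * ((w - 1) * a) - (1 + ε) * a := by rw [← hδ1]; ring
    have e2 : δ * (b + A2) = δ * b + δ * A2 := by ring
    rw [e1]
    linarith
  have hew : 0 < ε * w := mul_pos hε0 (by linarith)
  have I5 : a ≤ Y := by
    rw [hY, le_div_iff₀ hew]
    linarith
  linarith

end Pool.Agent.N493.NR
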