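import Mathlib

set_option autoImplicit false

/-!
# Mahler operators `∑ a_m(X) (X → X ^ m)` over `F_2[X]`
-/

namespace Pool.Agent.N493.PA

open PowerSeries

abbrev S := PowerSeries (ZMod 2)

abbrev F := Polynomial (ZMod 2)

/-- inclusion of the polynomials -/
noncomputable def io : F →+* S := Polynomial.coeToPowerSeries.ringHom

/-- `X → X ^ m` for series -/
noncomputable def dl (m : ℕ+) : S →ₐ[ZMod 2] S := PowerSeries.expand (m : ℕ) m.ne_zero

/-- `X → X ^ m` for polynomials -/
noncomputable def xp (m : ℕ+) : F →ₐ[ZMod 2] F := Polynomial.expand (ZMod 2) (m : ℕ)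

theorem io_C (a : ZMod 2) : io (Polynomial.C a) = algebraMap (ZMod 2) S a := by
  show ((Polynomial.C a : F) : S) = _
  rw [Polynomial.coe_C]
  rfl

theorem io_X : io Polynomial.X = X := Polynomial.coe_X

theorem coeff_io (n : ℕ) (f : F) : coeff n (io f) = f.coeff n := Polynomial.coeff_coe f n

theorem dl_X (m : ℕ+) : dl m X = X ^ (m : ℕ) := PowerSeries.expand_X _ _

theorem dl_io (m : ℕ+) (f : F) : dl m (io f) = io (xp m f) := by
  induction f using Polynomial.induction_on with
  | C a => rw [xp, Polynomial.expand_C, io_C, AlgHom.commutes]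
  | add p q hp hq => rw [map_add, map_add, map_add, map_add, hp, hq]
  | monomial n a _ =>
    simp only [map_mul, map_pow, io_X, io_C, dl_X, xp, Polynomial.expand_C, Polynomial.expand_X,
      AlgHom.commutes]

theorem coeff_dl_mul (m : ℕ+) (y : S) (n : ℕ) : coeff ((m : ℕ) * n) (dl m y) = coeff n y := by
  unfold dl
  rw [PowerSeries.coeff_expand_mul]

theorem coeff_dl (m : ℕ+) (y : S) (n : ℕ) :
    coeff n (dl m y) = if (m : ℕ) ∣ n then coeff (n / m) y else 0 := by
  unfold dl
  rw [PowerSeries.coeff_expand]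

theorem dl_dl (p q : ℕ+) (y : S) : dl p (dl q y) = dl (p * q) y := by
  ext n
  rw [coeff_dl, coeff_dl, coeff_dl]
  have hp' : 0 < (p : ℕ) := p.pos
  have hq' : 0 < (q : ℕ) := q.pos
  rw [PNat.mul_coe]
  by_cases h3 : (p : ℕ) ∣ n
  · obtain ⟨k, rfl⟩ := h3
    rw [if_pos (Dvd.intro k rfl), Nat.mul_div_cancel_left k hp']
    by_cases h4 : (q : ℕ) ∣ k
    · obtain ⟨l, rfl⟩ := h4
      have h5 : (p : ℕ) * (q * l) = p * q * l := by ring
      rw [h5, if_pos (Dvd.intro l rfl), if_pos (Dvd.intro l rfl),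
        Nat.mul_div_cancel_left l (by positivity), Nat.mul_div_cancel_left l (by positivity)]
    · rw [if_neg h4, if_neg]
      rintro ⟨l, hl⟩
      apply h4
      refine ⟨l, ?_⟩
      have : (p : ℕ) * k = p * (q * l) := by rw [hl]; ring
      exact Nat.eq_of_mul_eq_mul_left hp' this
  · rw [if_neg h3, if_neg]
    rintro ⟨l, hl⟩
    exact h3 ⟨q * l, by rw [hl]; ring⟩

theorem dl_one (y : S) : dl 1 y = y := by
  ext n
  rw [coeff_dl]
  simp

theorem dl_inj (m : ℕ+) : Function.Injective (dl m) := by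
  intro f g h
  ext n
  have h1 := congrArg (coeff ((m : ℕ) * n)) h
  rwa [coeff_dl_mul, coeff_dl_mul] at h1

theorem natDegree_xp (m : ℕ+) (f : F) : (xp m f).natDegree = f.natDegree * m :=
  Polynomial.natDegree_expand _ _

theorem xp_ne_zero (m : ℕ+) {f : F} (hf : f ≠ 0) : xp m f ≠ 0 := by
  intro h
  exact hf ((Polynomial.expand_eq_zero m.pos).1 h)

theorem xp_zero (m : ℕ+) : xp m (0 : F) = 0 := map_zero _

theorem io_inj : Function.Injective io := by
  intro f g h
  ext n
  have := congrArg (coeff n) h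
  rwa [coeff_io, coeff_io] at this

theorem dl_dvd (m : ℕ+) {N : ℕ} {y : S} (h : (X : S) ^ N ∣ y) : (X : S) ^ N ∣ dl m y := by
  obtain ⟨z, rfl⟩ := h
  rw [map_mul, map_pow, dl_X, ← pow_mul]
  have h1 : (X : S) ^ N ∣ X ^ ((m : ℕ) * N) := by
    apply pow_dvd_pow
    exact Nat.le_mul_of_pos_left N m.pos
  exact h1.mul_right _

/-- the operator `∑ a_m(X) (X → X ^ m)` -/
noncomputable def app (a : ℕ+ →₀ F) (y : S) : S := a.sum fun m f => io f * dl m y

theorem app_add_left (a b : ℕ+ →₀ F) (y : S) : app (a + b) y = app a y + app b y := by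
  unfold app
  rw [Finsupp.sum_add_index']
  · intro i
    rw [map_zero, zero_mul]
  · intro i f g
    rw [map_add, add_mul]

theorem app_zero_left (y : S) : app 0 y = 0 := Finsupp.sum_zero_index

theorem app_sum_left {ι : Type} (A : Finset ι) (a : ι → ℕ+ →₀ F) (y : S) :
    app (∑ i ∈ A, a i) y = ∑ i ∈ A, app (a i) y := by
  classical
  induction A using Finset.induction_on with
  | empty => simp [app_zero_left]
  | insert i A hi ih => rw [Finset.sum_insert hi, Finset.sum_insert hi, app_add_left, ih]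

theorem app_single (m : ℕ+) (f : F) (y : S) : app (Finsupp.single m f) y = io f * dl m y := by
  unfold app
  rw [Finsupp.sum_single_index]
  rw [map_zero, zero_mul]

theorem app_add (a : ℕ+ →₀ F) (y z : S) : app a (y + z) = app a y + app a z := by
  unfold app Finsupp.sum
  rw [← Finset.sum_add_distrib]
  refine Finset.sum_congr rfl fun m _ => ?_
  beta_reduce
  rw [map_add, mul_add]

theorem app_zero (a : ℕ+ →₀ F) : app a 0 = 0 := by
  unfold app Finsupp.sum
  refine Finset.sum_eq_zero fun m _ => ?_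
  beta_reduce
  rw [map_zero, mul_zero]

theorem app_sum {ι : Type} (A : Finset ι) (a : ℕ+ →₀ F) (y : ι → S) :
    app a (∑ i ∈ A, y i) = ∑ i ∈ A, app a (y i) := by
  classical
  induction A using Finset.induction_on with
  | empty => simp [app_zero]
  | insert i A hi ih => rw [Finset.sum_insert hi, Finset.sum_insert hi, app_add, ih]

theorem app_dvd (a : ℕ+ →₀ F) {N : ℕ} {y : S} (h : (X : S) ^ N ∣ y) : (X : S) ^ N ∣ app a y := by
  unfold app Finsupp.sum
  exact Finset.dvd_sum fun m _ => (dl_dvd m h).mul_left _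

/-- composition of operators -/
noncomputable def comp (b a : ℕ+ →₀ F) : ℕ+ →₀ F :=
  ∑ i ∈ b.support, ∑ m ∈ a.support, Finsupp.single (i * m) (b i * xp i (a m))

theorem app_comp (b a : ℕ+ →₀ F) (y : S) : app (comp b a) y = app b (app a y) := by
  unfold comp
  rw [app_sum_left]
  conv_rhs => unfold app Finsupp.sum
  refine Finset.sum_congr rfl fun i _ => ?_
  beta_reduce
  rw [app_sum_left, map_sum, Finset.mul_sum]
  refine Finset.sum_congr rfl fun m _ => ?_
  rw [app_single, map_mul, map_mul, dl_io, dl_dl, mul_assoc]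

theorem comp_apply (b a : ℕ+ →₀ F) (n : ℕ+) : comp b a n =
    ∑ i ∈ b.support, ∑ m ∈ a.support, if i * m = n then b i * xp i (a m) else 0 := by
  unfold comp
  rw [Finsupp.finsetSum_apply]
  refine Finset.sum_congr rfl fun i _ => ?_
  rw [Finsupp.finsetSum_apply]
  refine Finset.sum_congr rfl fun m _ => ?_
  rw [Finsupp.single_apply]

theorem comp_ne_zero {b a : ℕ+ →₀ F} (hb : b ≠ 0) (ha : a ≠ 0) : comp b a ≠ 0 := by
  have hbs : b.support.Nonempty := Finsupp.support_nonempty_iff.2 hb
  have has : a.support.Nonempty := Finsupp.support_nonempty_iff.2 ha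
  set i0 := b.support.max' hbs with hi0
  set m0 := a.support.max' has with hm0
  intro h0
  have h1 : comp b a (i0 * m0) = 0 := by rw [h0]; rfl
  rw [comp_apply, Finset.sum_eq_single i0, Finset.sum_eq_single m0, if_pos rfl] at h1
  · have h2 : b i0 ≠ 0 := Finsupp.mem_support_iff.1 (Finset.max'_mem _ hbs)
    have h3 : a m0 ≠ 0 := Finsupp.mem_support_iff.1 (Finset.max'_mem _ has)
    exact mul_ne_zero h2 (xp_ne_zero _ h3) h1
  · intro m _ hm
    rw [if_neg]
    intro h4
    exact hm (mul_left_cancel h4)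
  · intro h4
    exact absurd (Finset.max'_mem _ has) h4
  · intro i hi hne
    refine Finset.sum_eq_zero fun m hm => ?_
    rw [if_neg]
    intro h4
    have h5 : i ≤ i0 := Finset.le_max' _ _ hi
    have h6 : m ≤ m0 := Finset.le_max' _ _ hm
    have h7 : i < i0 := lt_of_le_of_ne h5 hne
    have h8 : i * m < i0 * m0 := mul_lt_mul_of_lt_of_le h7 h6
    exact absurd h4 h8.ne
  · intro h4
    exact absurd (Finset.max'_mem _ hbs) h4

theorem comp_support (b a : ℕ+ →₀ F) {A B : Finset ℕ+} (hb : b.support ⊆ B) (ha : a.support ⊆ A) :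
    (comp b a).support ⊆ (B ×ˢ A).image fun p => p.1 * p.2 := by
  intro n hn
  rw [Finsupp.mem_support_iff, comp_apply] at hn
  obtain ⟨i, hi, h1⟩ := Finset.exists_ne_zero_of_sum_ne_zero hn
  obtain ⟨m, hm, h2⟩ := Finset.exists_ne_zero_of_sum_ne_zero h1
  rw [Finset.mem_image]
  refine ⟨(i, m), Finset.mem_product.2 ⟨hb hi, ha hm⟩, ?_⟩
  by_contra h3
  exact h2 (if_neg h3)

theorem comp_deg (b a : ℕ+ →₀ F) {hb ha R : ℕ} (h1 : ∀ m, (b m).natDegree ≤ hb)
    (h2 : ∀ m, (a m).natDegree ≤ ha) (hR : ∀ i ∈ b.support, (i : ℕ) ≤ R) (n : ℕ+) :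
    (comp b a n).natDegree ≤ hb + ha * R := by
  rw [comp_apply]
  refine Polynomial.natDegree_sum_le_of_forall_le _ _ fun i hi => ?_
  refine Polynomial.natDegree_sum_le_of_forall_le _ _ fun m _ => ?_
  split_ifs
  · refine Polynomial.natDegree_mul_le.trans ?_
    rw [natDegree_xp]
    exact Nat.add_le_add (h1 i) (Nat.mul_le_mul (h2 m) (hR i hi))
  · simp

end Pool.Agent.N493.PA
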