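import Pool.Agent.N493.PA1

set_option autoImplicit false

/-!
# Elimination for one base
-/

namespace Pool.Agent.N493.PA

open PowerSeries

/-- a homogeneous linear system over `F_2[X]` with one more unknown than equations -/
theorem siegel {V : Type} [Fintype V] (e : ℕ) (he : Fintype.card V = e) (T : Fin (e + 1) → V → F)
    (δ : ℕ) (hT : ∀ i v, (T i v).natDegree ≤ δ) :
    ∃ b : Fin (e + 1) → F, b ≠ 0 ∧ (∀ i, (b i).natDegree ≤ e * δ) ∧
      ∀ v, ∑ i, b i * T i v = 0 := by
  classical
  set D := e * δ with hD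
  let pol : (Fin (e + 1) × Fin (D + 1) → ZMod 2) → Fin (e + 1) → F := fun x i =>
    ∑ j : Fin (D + 1), Polynomial.monomial (j : ℕ) (x (i, j))
  have hpol_add : ∀ x y i, pol (x + y) i = pol x i + pol y i := by
    intro x y i
    simp only [pol, Pi.add_apply, map_add, Finset.sum_add_distrib]
  have hpol_smul : ∀ (c : ZMod 2) x i, pol (c • x) i = Polynomial.C c * pol x i := by
    intro c x i
    simp only [pol, Pi.smul_apply, smul_eq_mul, Finset.mul_sum, Polynomial.C_mul_monomial]
  let φ : (Fin (e + 1) × Fin (D + 1) → ZMod 2) →ₗ[ZMod 2] (V × Fin (D + δ + 1) → ZMod 2) :=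
    { toFun := fun x p => (∑ i, pol x i * T i p.1).coeff p.2
      map_add' := by
        intro x y
        funext p
        simp only [hpol_add, add_mul, Finset.sum_add_distrib, Polynomial.coeff_add, Pi.add_apply]
      map_smul' := by
        intro c x
        funext p
        simp only [hpol_smul, mul_assoc, ← Finset.mul_sum, Polynomial.coeff_C_mul, Pi.smul_apply,
          smul_eq_mul, RingHom.id_apply] }
  have hlt : Module.finrank (ZMod 2) (V × Fin (D + δ + 1) → ZMod 2) <
      Module.finrank (ZMod 2) (Fin (e + 1) × Fin (D + 1) → ZMod 2) := by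
    rw [Module.finrank_fintype_fun_eq_card, Module.finrank_fintype_fun_eq_card,
      Fintype.card_prod, Fintype.card_prod, Fintype.card_fin, Fintype.card_fin, Fintype.card_fin,
      he]
    have h1 : e * (D + δ + 1) = e * D + D + e := by rw [hD]; ring
    have h2 : (e + 1) * (D + 1) = e * D + D + e + 1 := by ring
    omega
  have hker := LinearMap.ker_ne_bot_of_finrank_lt hlt (f := φ)
  obtain ⟨x, hx, hx0⟩ := Submodule.exists_mem_ne_zero_of_ne_bot hker
  rw [LinearMap.mem_ker] at hx
  refine ⟨pol x, ?_, fun i => ?_, fun v => ?_⟩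
  · intro h0
    apply hx0
    funext p
    obtain ⟨i, j⟩ := p
    have h1 := congrArg (fun q : F => q.coeff (j : ℕ)) (congrFun h0 i)
    simp only [pol, Polynomial.finsetSum_coeff, Polynomial.coeff_monomial, Pi.zero_apply,
      Polynomial.coeff_zero] at h1
    rw [Finset.sum_eq_single j] at h1
    · rw [if_pos rfl] at h1
      exact h1
    · intro j' _ hj'
      rw [if_neg]
      intro h2
      exact hj' (Fin.ext h2)
    · intro h2
      exact absurd (Finset.mem_univ _) h2
  · refine Polynomial.natDegree_sum_le_of_forall_le _ _ fun j _ => ?_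
    refine (Polynomial.natDegree_monomial_le _).trans ?_
    have := j.2
    omega
  · have hdeg : (∑ i, pol x i * T i v).natDegree ≤ D + δ := by
      refine Polynomial.natDegree_sum_le_of_forall_le _ _ fun i _ => ?_
      refine Polynomial.natDegree_mul_le.trans (Nat.add_le_add ?_ (hT i v))
      refine Polynomial.natDegree_sum_le_of_forall_le _ _ fun j _ => ?_
      refine (Polynomial.natDegree_monomial_le _).trans ?_
      have := j.2
      omega
    ext k
    rw [Polynomial.coeff_zero]
    by_cases hk : k < D + δ + 1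
    · exact congrFun hx (v, ⟨k, hk⟩)
    · exact Polynomial.coeff_eq_zero_of_natDegree_lt (by omega)

/-- a finite family of series which is closed in base `g` -/
def Closed (g : ℕ+) {V : Type} [Fintype V] (s : V → S) : Prop :=
  ∀ v, ∃ p : V → F, s v = ∑ w, io (p w) * dl g (s w)

theorem closed_iter {g : ℕ+} {V : Type} [Fintype V] {s : V → S} (hs : Closed g s) (k : ℕ) :
    ∀ v, ∃ p : V → F, s v = ∑ w, io (p w) * dl (g ^ k) (s w) := by
  classical
  induction k with
  | zero =>
    intro v
    refine ⟨fun w => if w = v then 1 else 0, ?_⟩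
    rw [Finset.sum_eq_single v]
    · beta_reduce
      rw [if_pos rfl, map_one, one_mul, pow_zero, dl_one]
    · intro w _ hw
      beta_reduce
      rw [if_neg hw, map_zero, zero_mul]
    · intro h
      exact absurd (Finset.mem_univ _) h
  | succ k ih =>
    intro v
    obtain ⟨p, hp⟩ := ih v
    choose q hq using hs
    refine ⟨fun u => ∑ w, p w * xp (g ^ k) (q w u), ?_⟩
    have h1 : ∀ w, dl (g ^ k) (s w) = ∑ u, io (xp (g ^ k) (q w u)) * dl (g ^ (k + 1)) (s u) := by
      intro w
      conv_lhs => rw [hq w]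
      rw [map_sum]
      refine Finset.sum_congr rfl fun u _ => ?_
      rw [map_mul, dl_io, dl_dl, ← pow_succ]
    rw [hp, Finset.sum_congr rfl fun w _ => by rw [h1 w]]
    simp only [Finset.mul_sum, map_sum, map_mul, Finset.sum_mul]
    rw [Finset.sum_comm]
    refine Finset.sum_congr rfl fun u _ => Finset.sum_congr rfl fun w _ => ?_
    rw [mul_assoc]

/-- elimination for one base -/
theorem elim1 {g : ℕ+} (hg : 1 < g) {V : Type} [Fintype V] (s : V → S) (hs : Closed g s) :
    ∃ (B : Finset ℕ+) (C : ℕ), ∀ (h : ℕ) (Γ : V → F), (∀ v, (Γ v).natDegree ≤ h) →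
      ∃ b : ℕ+ →₀ F, b ≠ 0 ∧ b.support ⊆ B ∧ (∀ m, (b m).natDegree ≤ C * (h + 1)) ∧
        app b (∑ v, io (Γ v) * s v) = 0 := by
  classical
  set e := Fintype.card V with he
  have hcl : ∀ (i : Fin (e + 1)) (v : V), ∃ p : V → F,
      s v = ∑ w, io (p w) * dl (g ^ (e - (i : ℕ))) (s w) :=
    fun i v => closed_iter hs (e - (i : ℕ)) v
  choose P hP using hcl
  set Pm : ℕ := Finset.univ.sup fun x : Fin (e + 1) × V × V => (P x.1 x.2.1 x.2.2).natDegree
    with hPm
  have hPle : ∀ i v w, (P i v w).natDegree ≤ Pm := fun i v w =>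
    Finset.le_sup (f := fun x : Fin (e + 1) × V × V => (P x.1 x.2.1 x.2.2).natDegree)
      (Finset.mem_univ (i, v, w))
  set R : ℕ := (g : ℕ) ^ e with hR
  have hgpos : 1 ≤ (g : ℕ) := g.pos
  have hinj : ∀ i j : ℕ, g ^ i = g ^ j → i = j := by
    intro i j h
    have h1 : ((g : ℕ)) ^ i = (g : ℕ) ^ j := by
      rw [← PNat.pow_coe, ← PNat.pow_coe, h]
    exact Nat.pow_right_injective (show 2 ≤ (g : ℕ) from hg) h1
  refine ⟨Finset.univ.image fun i : Fin (e + 1) => g ^ (i : ℕ), e * (Pm + 1) * R,
    fun h Γ hΓ => ?_⟩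
  set T : Fin (e + 1) → V → F := fun i w =>
    ∑ v, xp (g ^ (i : ℕ)) (Γ v) * xp (g ^ (i : ℕ)) (P i v w) with hT
  set δ := (h + Pm) * R with hδ
  have hTd : ∀ i w, (T i w).natDegree ≤ δ := by
    intro i w
    refine Polynomial.natDegree_sum_le_of_forall_le _ _ fun v _ => ?_
    refine Polynomial.natDegree_mul_le.trans ?_
    rw [natDegree_xp, natDegree_xp, ← add_mul]
    refine Nat.mul_le_mul (Nat.add_le_add (hΓ v) (hPle i v w)) ?_
    rw [PNat.pow_coe]
    refine Nat.pow_le_pow_right hgpos ?_
    have := i.2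
    omega
  obtain ⟨b', hb0, hbd, hbT⟩ := siegel e he.symm T δ hTd
  refine ⟨∑ i : Fin (e + 1), Finsupp.single (g ^ (i : ℕ)) (b' i), ?_, ?_, ?_, ?_⟩
  · obtain ⟨i0, hi0⟩ := Function.ne_iff.1 hb0
    intro h0
    have h1 := DFunLike.congr_fun h0 (g ^ (i0 : ℕ))
    rw [Finsupp.finsetSum_apply, Finset.sum_eq_single i0, Finsupp.single_eq_same] at h1
    · exact hi0 h1
    · intro i _ hi
      rw [Finsupp.single_apply, if_neg]
      intro h2
      exact hi (Fin.ext (hinj _ _ h2))
    · intro h2
      exact absurd (Finset.mem_univ _) h2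
  · intro m hm
    rw [Finsupp.mem_support_iff, Finsupp.finsetSum_apply] at hm
    obtain ⟨i, _, hi⟩ := Finset.exists_ne_zero_of_sum_ne_zero hm
    rw [Finset.mem_image]
    refine ⟨i, Finset.mem_univ _, ?_⟩
    by_contra h2
    rw [Finsupp.single_apply, if_neg h2] at hi
    exact hi rfl
  · intro m
    rw [Finsupp.finsetSum_apply]
    refine Polynomial.natDegree_sum_le_of_forall_le _ _ fun i _ => ?_
    rw [Finsupp.single_apply]
    split_ifs
    · refine (hbd i).trans ?_
      rw [hδ]
      have h3 : e * ((h + Pm) * R) ≤ e * (((Pm + 1) * (h + 1)) * R) := by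
        refine Nat.mul_le_mul_left _ (Nat.mul_le_mul_right _ ?_)
        nlinarith [Nat.zero_le (Pm * h)]
      refine h3.trans (le_of_eq ?_)
      ring
    · simp
  · rw [app_sum_left]
    have h1 : ∀ i : Fin (e + 1), app (Finsupp.single (g ^ (i : ℕ)) (b' i)) (∑ v, io (Γ v) * s v) =
        ∑ w, io (b' i * T i w) * dl (g ^ e) (s w) := by
      intro i
      have h3 : g ^ (i : ℕ) * g ^ (e - (i : ℕ)) = g ^ e := by
        rw [← pow_add]
        congr 1
        have := i.2
        omega
      rw [app_single, map_sum]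
      have h2 : ∀ v, dl (g ^ (i : ℕ)) (io (Γ v) * s v) =
          ∑ w, io (xp (g ^ (i : ℕ)) (Γ v) * xp (g ^ (i : ℕ)) (P i v w)) * dl (g ^ e) (s w) := by
        intro v
        rw [map_mul]
        conv_lhs => rw [hP i v]
        rw [map_sum, Finset.mul_sum]
        refine Finset.sum_congr rfl fun w _ => ?_
        rw [map_mul (dl _), dl_io, dl_io, dl_dl, h3, map_mul io, mul_assoc]
      rw [Finset.sum_congr rfl fun v _ => h2 v, Finset.sum_comm, Finset.mul_sum]
      refine Finset.sum_congr rfl fun w _ => ?_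
      rw [← Finset.sum_mul, ← map_sum, ← mul_assoc, ← map_mul]
    rw [Finset.sum_congr rfl fun i _ => h1 i, Finset.sum_comm]
    refine Finset.sum_eq_zero fun w _ => ?_
    rw [← Finset.sum_mul, ← map_sum, hbT w, map_zero, zero_mul]

end Pool.Agent.N493.PA
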