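import Pool.Agent.N493.PA2

set_option autoImplicit false

/-!
# Section operators and relations whose first coefficient is not zero
-/

namespace Pool.Agent.N493.PA

open PowerSeries

/-- sections of series -/
noncomputable def lamS (g r : ℕ) (y : S) : S := PowerSeries.mk fun n => coeff (g * n + r) y

/-- sections of polynomials -/
noncomputable def lamF (g r : ℕ) (f : F) : F :=
  ∑ n ∈ Finset.range (f.natDegree + 1), Polynomial.monomial n (f.coeff (g * n + r))

theorem coeff_lamF {g r : ℕ} (hg : 0 < g) (f : F) (n : ℕ) :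
    (lamF g r f).coeff n = f.coeff (g * n + r) := by
  unfold lamF
  rw [Polynomial.finsetSum_coeff]
  by_cases hn : n < f.natDegree + 1
  · rw [Finset.sum_eq_single n]
    · rw [Polynomial.coeff_monomial, if_pos rfl]
    · intro k _ hk
      rw [Polynomial.coeff_monomial, if_neg hk]
    · intro h
      exact absurd (Finset.mem_range.2 hn) h
  · rw [Finset.sum_eq_zero, Polynomial.coeff_eq_zero_of_natDegree_lt]
    · have := Nat.le_mul_of_pos_left n hg
      omega
    · intro k hk
      rw [Finset.mem_range] at hk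
      rw [Polynomial.coeff_monomial, if_neg]
      omega

theorem natDegree_lamF (g r : ℕ) (f : F) : (lamF g r f).natDegree ≤ f.natDegree := by
  unfold lamF
  refine Polynomial.natDegree_sum_le_of_forall_le _ _ fun n hn => ?_
  refine (Polynomial.natDegree_monomial_le _).trans ?_
  rw [Finset.mem_range] at hn
  omega

theorem lamS_mul (g : ℕ+) {r : ℕ} (hr : r < g) (b : F) (z : S) :
    lamS g r (io b * dl g z) = io (lamF g r b) * z := by
  ext n
  unfold lamS
  rw [coeff_mk, PowerSeries.coeff_mul, PowerSeries.coeff_mul]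
  symm
  refine Finset.sum_of_injOn (fun p => ((g : ℕ) * p.1 + r, (g : ℕ) * p.2)) ?_ ?_ ?_ ?_
  · rintro ⟨i, j⟩ _ ⟨i', j'⟩ _ h
    simp only [Prod.mk.injEq, add_left_inj, mul_eq_mul_left_iff] at h
    have hg : (g : ℕ) ≠ 0 := g.ne_zero
    obtain ⟨h1, h2⟩ := h
    exact Prod.ext (h1.resolve_right hg) (h2.resolve_right hg)
  · rintro ⟨i, j⟩ h
    rw [Finset.mem_coe, Finset.HasAntidiagonal.mem_antidiagonal] at h ⊢
    simp only at h ⊢
    rw [← h]
    ring
  · rintro ⟨i, j⟩ h h2
    rw [Finset.HasAntidiagonal.mem_antidiagonal] at h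
    simp only at h ⊢
    rw [coeff_dl]
    split_ifs with h3
    · exfalso
      apply h2
      obtain ⟨k, rfl⟩ := h3
      have hle : k ≤ n := by
        by_contra hcon
        have h4 : (g : ℕ) * (n + 1) ≤ g * k := Nat.mul_le_mul_left _ (by omega)
        rw [mul_add, mul_one] at h4
        omega
      obtain ⟨l, rfl⟩ := Nat.exists_eq_add_of_le hle
      refine ⟨(l, k), ?_, ?_⟩
      · rw [Finset.mem_coe, Finset.HasAntidiagonal.mem_antidiagonal]
        simp only
        omega
      · simp only [Prod.mk.injEq, and_true]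
        rw [mul_add] at h
        omega
    · rw [mul_zero]
  · rintro ⟨i, j⟩ _
    simp only
    rw [coeff_dl_mul, coeff_io, coeff_io, coeff_lamF g.pos]

theorem lamS_zero (g r : ℕ) : lamS g r 0 = 0 := by
  ext n
  rw [lamS, coeff_mk, map_zero, map_zero]

theorem lamS_sum (g r : ℕ) {ι : Type} (A : Finset ι) (y : ι → S) :
    lamS g r (∑ i ∈ A, y i) = ∑ i ∈ A, lamS g r (y i) := by
  ext n
  rw [lamS, coeff_mk, map_sum, map_sum]
  refine Finset.sum_congr rfl fun i _ => ?_
  rw [lamS, coeff_mk]

/-- some section of a nonzero polynomial is nonzero -/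
theorem exists_lamF (g : ℕ+) {f : F} (hf : f ≠ 0) : ∃ r < (g : ℕ), lamF g r f ≠ 0 := by
  obtain ⟨n, hn⟩ : ∃ n, f.coeff n ≠ 0 := by
    by_contra hcon
    push Not at hcon
    exact hf (Polynomial.ext fun n => by rw [hcon n, Polynomial.coeff_zero])
  refine ⟨n % g, Nat.mod_lt _ g.pos, fun h => hn ?_⟩
  have h1 := congrArg (fun q : F => q.coeff (n / g)) h
  simp only [Polynomial.coeff_zero] at h1
  rw [coeff_lamF g.pos, Nat.div_add_mod] at h1
  exact h1

/-- a relation can be reduced to one whose first coefficient is not zero -/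
theorem shift_down (g : ℕ+) (y : S) (n D : ℕ) : ∀ (k : ℕ) (b : ℕ → F),
    (∀ i, n ≤ i → b i = 0) → (∀ i, (b i).natDegree ≤ D) → (∀ i < k, b i = 0) → b k ≠ 0 →
    ∑ i ∈ Finset.range n, io (b i) * dl (g ^ i) y = 0 →
    ∃ b' : ℕ → F, (∀ i, n ≤ i → b' i = 0) ∧ (∀ i, (b' i).natDegree ≤ D) ∧ b' 0 ≠ 0 ∧
      ∑ i ∈ Finset.range n, io (b' i) * dl (g ^ i) y = 0 := by
  intro k
  induction k with
  | zero =>
    intro b h1 h2 _ h4 h5
    exact ⟨b, h1, h2, h4, h5⟩
  | succ k ih =>
    intro b h1 h2 h3 h4 h5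
    obtain ⟨r, hr, hne⟩ := exists_lamF g h4
    refine ih (fun i => lamF g r (b (i + 1))) ?_ ?_ ?_ hne ?_
    · intro i hi
      rw [h1 (i + 1) (by omega)]
      apply Polynomial.ext
      intro j
      rw [coeff_lamF g.pos, Polynomial.coeff_zero, Polynomial.coeff_zero]
    · intro i
      exact (natDegree_lamF _ _ _).trans (h2 _)
    · intro i hi
      rw [h3 (i + 1) (by omega)]
      apply Polynomial.ext
      intro j
      rw [coeff_lamF g.pos, Polynomial.coeff_zero, Polynomial.coeff_zero]
    · have h6 : ∑ i ∈ Finset.range (n + 1), io (b i) * dl (g ^ i) y = 0 := by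
        rw [Finset.sum_range_succ, h5, h1 n le_rfl, map_zero, zero_mul, add_zero]
      rw [Finset.sum_range_succ', h3 0 (by omega), map_zero, zero_mul, add_zero] at h6
      have h7 := congrArg (lamS g r) h6
      rw [lamS_sum, lamS_zero] at h7
      rw [← h7]
      refine Finset.sum_congr rfl fun i _ => ?_
      rw [pow_succ', ← dl_dl, lamS_mul g hr]

end Pool.Agent.N493.PA
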