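import Pool.Agent.N493.PB1

set_option autoImplicit false

/-!
# Elimination for one base and for several bases, with first coefficient not zero
-/

namespace Pool.Agent.N493.PA

open PowerSeries

/-- a finite family of series which is closed in base `g`, up to a common denominator -/
def ClosedD (g : ℕ+) {V : Type} [Fintype V] (s : V → S) : Prop :=
  ∃ d : F, d ≠ 0 ∧ ∀ v, ∃ p : V → F, io d * s v = ∑ w, io (p w) * dl g (s w)

theorem closedD_iter {g : ℕ+} {V : Type} [Fintype V] {s : V → S} (hs : ClosedD g s) (k : ℕ) :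
    ∃ d : F, d ≠ 0 ∧ ∀ v, ∃ p : V → F, io d * s v = ∑ w, io (p w) * dl (g ^ k) (s w) := by
  classical
  induction k with
  | zero =>
    refine ⟨1, one_ne_zero, fun v => ⟨fun w => if w = v then 1 else 0, ?_⟩⟩
    rw [Finset.sum_eq_single v]
    · beta_reduce
      rw [if_pos rfl, map_one, pow_zero, dl_one]
    · intro w _ hw
      beta_reduce
      rw [if_neg hw, map_zero, zero_mul]
    · intro h
      exact absurd (Finset.mem_univ _) h
  | succ k ih =>
    obtain ⟨d, hd0, hd⟩ := ih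
    obtain ⟨d1, hd1, hq⟩ := hs
    choose q hq using hq
    refine ⟨xp (g ^ k) d1 * d, mul_ne_zero (xp_ne_zero _ hd1) hd0, fun v => ?_⟩
    obtain ⟨p, hp⟩ := hd v
    refine ⟨fun u => ∑ w, p w * xp (g ^ k) (q w u), ?_⟩
    have h1 : ∀ w, io (xp (g ^ k) d1) * dl (g ^ k) (s w) =
        ∑ u, io (xp (g ^ k) (q w u)) * dl (g ^ (k + 1)) (s u) := by
      intro w
      rw [← dl_io, ← map_mul, hq w, map_sum]
      refine Finset.sum_congr rfl fun u _ => ?_
      rw [map_mul, dl_io, dl_dl, ← pow_succ]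
    rw [map_mul, mul_assoc, hp, Finset.mul_sum]
    have h2 : ∀ w, io (xp (g ^ k) d1) * (io (p w) * dl (g ^ k) (s w)) =
        io (p w) * ∑ u, io (xp (g ^ k) (q w u)) * dl (g ^ (k + 1)) (s u) := by
      intro w
      rw [← h1]
      ring
    rw [Finset.sum_congr rfl fun w _ => h2 w]
    simp only [Finset.mul_sum, map_sum, map_mul, Finset.sum_mul]
    rw [Finset.sum_comm]
    refine Finset.sum_congr rfl fun u _ => Finset.sum_congr rfl fun w _ => ?_
    rw [mul_assoc]

theorem elim0 {g : ℕ+} {V : Type} [Fintype V] (s : V → S) (hs : ClosedD g s) :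
    ∃ (e C : ℕ), ∀ (h : ℕ) (Γ : V → F), (∀ v, (Γ v).natDegree ≤ h) →
      ∃ b : ℕ → F, (∀ i, e ≤ i → b i = 0) ∧ (∀ i, (b i).natDegree ≤ C * (h + 1)) ∧ b 0 ≠ 0 ∧
        ∑ i ∈ Finset.range e, io (b i) * dl (g ^ i) (∑ v, io (Γ v) * s v) = 0 := by
  classical
  set e := Fintype.card V with he
  have hcl : ∀ (i : Fin (e + 1)), ∃ d : F, d ≠ 0 ∧ ∀ v, ∃ p : V → F,
      io d * s v = ∑ w, io (p w) * dl (g ^ (e - (i : ℕ))) (s w) :=
    fun i => closedD_iter hs (e - (i : ℕ))
  choose D hD0 P hP using hcl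
  set Pm : ℕ := Finset.univ.sup fun x : Fin (e + 1) × V × V => (P x.1 x.2.1 x.2.2).natDegree
    with hPm
  have hPle : ∀ i v w, (P i v w).natDegree ≤ Pm := fun i v w =>
    Finset.le_sup (f := fun x : Fin (e + 1) × V × V => (P x.1 x.2.1 x.2.2).natDegree)
      (Finset.mem_univ (i, v, w))
  set Dm : ℕ := Finset.univ.sup fun i : Fin (e + 1) => (xp (g ^ (i : ℕ)) (D i)).natDegree with hDm
  have hDle : ∀ i : Fin (e + 1), (xp (g ^ (i : ℕ)) (D i)).natDegree ≤ Dm := fun i =>
    Finset.le_sup (f := fun i : Fin (e + 1) => (xp (g ^ (i : ℕ)) (D i)).natDegree)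
      (Finset.mem_univ i)
  set R : ℕ := (g : ℕ) ^ e with hR
  have hgpos : 1 ≤ (g : ℕ) := g.pos
  refine ⟨e + 1, e * (Pm + 1) * R + Dm, fun h Γ hΓ => ?_⟩
  set T : Fin (e + 1) → V → F := fun i w =>
    ∑ v, xp (g ^ (i : ℕ)) (Γ v) * xp (g ^ (i : ℕ)) (P i v w) with hT
  set δ := (h + Pm) * R with hδ
  have hTd : ∀ i w, (T i w).natDegree ≤ δ := by
    intro i w
    refine Polynomial.natDegree_sum_le_of_forall_le _ _ fun v _ => ?_
    refine Polynomial.natDegree_mul_le.trans ?_
    rw [natDegree_xp, natDegree_xp, ← add_mul]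
    refine Nat.mul_le_mul (Nat.add_le_add (hΓ v) (hPle i v w)) ?_
    rw [PNat.pow_coe]
    refine Nat.pow_le_pow_right hgpos ?_
    have := i.2
    omega
  obtain ⟨b', hb0, hbd, hbT⟩ := siegel e he.symm T δ hTd
  set y : S := ∑ v, io (Γ v) * s v with hy
  set b1 : ℕ → F := fun i => if hi : i < e + 1 then
    b' ⟨i, hi⟩ * xp (g ^ i) (D ⟨i, hi⟩) else 0 with hb1
  have hb1F : ∀ i : Fin (e + 1), b1 i = b' i * xp (g ^ (i : ℕ)) (D i) := by
    intro i
    simp only [hb1, i.2, dif_pos]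
  have hdeg : ∀ i, (b1 i).natDegree ≤ (e * (Pm + 1) * R + Dm) * (h + 1) := by
    intro i
    simp only [hb1]
    split_ifs with hi
    · refine Polynomial.natDegree_mul_le.trans ?_
      refine (Nat.add_le_add (hbd _) (hDle ⟨i, hi⟩)).trans ?_
      rw [hδ]
      have h3 : e * ((h + Pm) * R) ≤ e * (((Pm + 1) * (h + 1)) * R) := by
        refine Nat.mul_le_mul_left _ (Nat.mul_le_mul_right _ ?_)
        nlinarith [Nat.zero_le (Pm * h)]
      have h4 : Dm ≤ Dm * (h + 1) := Nat.le_mul_of_pos_right _ (by omega)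
      refine (Nat.add_le_add h3 h4).trans (le_of_eq ?_)
      ring
    · simp
  have hrel : ∑ i ∈ Finset.range (e + 1), io (b1 i) * dl (g ^ i) y = 0 := by
    rw [Finset.sum_range]
    have h1 : ∀ i : Fin (e + 1), io (b1 i) * dl (g ^ (i : ℕ)) y =
        ∑ w, io (b' i * T i w) * dl (g ^ e) (s w) := by
      intro i
      have h3 : g ^ (i : ℕ) * g ^ (e - (i : ℕ)) = g ^ e := by
        rw [← pow_add]
        congr 1
        have := i.2
        omega
      rw [hb1F, hy, map_sum, map_mul, mul_assoc, Finset.mul_sum]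
      have h2 : ∀ v, io (xp (g ^ (i : ℕ)) (D i)) * dl (g ^ (i : ℕ)) (io (Γ v) * s v) =
          ∑ w, io (xp (g ^ (i : ℕ)) (Γ v) * xp (g ^ (i : ℕ)) (P i v w)) * dl (g ^ e) (s w) := by
        intro v
        have h4 : io (xp (g ^ (i : ℕ)) (D i)) * dl (g ^ (i : ℕ)) (io (Γ v) * s v) =
            dl (g ^ (i : ℕ)) (io (Γ v)) * dl (g ^ (i : ℕ)) (io (D i) * s v) := by
          rw [← dl_io, map_mul, map_mul]
          ring
        rw [h4, hP i v, map_sum, Finset.mul_sum]
        refine Finset.sum_congr rfl fun w _ => ?_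
        rw [map_mul (dl _), dl_io, dl_io, dl_dl, h3, map_mul io, mul_assoc]
      rw [Finset.sum_congr rfl fun v _ => h2 v, Finset.sum_comm, Finset.mul_sum]
      refine Finset.sum_congr rfl fun w _ => ?_
      rw [← Finset.sum_mul, ← map_sum, ← mul_assoc, ← map_mul]
    rw [Finset.sum_congr rfl fun i _ => h1 i, Finset.sum_comm]
    refine Finset.sum_eq_zero fun w _ => ?_
    rw [← Finset.sum_mul, ← map_sum, hbT w, map_zero, zero_mul]
  have hex : ∃ k, b1 k ≠ 0 := by
    obtain ⟨i0, hi0⟩ := Function.ne_iff.1 hb0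
    exact ⟨i0, by rw [hb1F]; exact mul_ne_zero hi0 (xp_ne_zero _ (hD0 _))⟩
  exact shift_down g y (e + 1) _ (Nat.find hex) b1 (fun i hi => by
    simp only [hb1]
    rw [dif_neg (by omega)]) hdeg (fun i hi => by
      by_contra hcon
      exact Nat.find_min hex hi hcon) (Nat.find_spec hex) hrel

/-- elimination for one base -/
theorem elim2 {g : ℕ+} (hg : 1 < g) {V : Type} [Fintype V] (s : V → S) (hs : ClosedD g s) :
    ∃ (B : Finset ℕ+) (C : ℕ), ∀ (h : ℕ) (Γ : V → F), (∀ v, (Γ v).natDegree ≤ h) →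
      ∃ b : ℕ+ →₀ F, b 1 ≠ 0 ∧ b.support ⊆ B ∧ (∀ m, (b m).natDegree ≤ C * (h + 1)) ∧
        app b (∑ v, io (Γ v) * s v) = 0 := by
  classical
  obtain ⟨e, C, hC⟩ := elim0 s hs
  have hinj : ∀ i j : ℕ, g ^ i = g ^ j → i = j := by
    intro i j h
    have h1 : ((g : ℕ)) ^ i = (g : ℕ) ^ j := by
      rw [← PNat.pow_coe, ← PNat.pow_coe, h]
    exact Nat.pow_right_injective (show 2 ≤ (g : ℕ) from hg) h1
  refine ⟨(Finset.range e).image fun i => g ^ i, C, fun h Γ hΓ => ?_⟩
  obtain ⟨b, hbe, hbd, hb0, hrel⟩ := hC h Γ hΓ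
  refine ⟨∑ i ∈ Finset.range e, Finsupp.single (g ^ i) (b i), ?_, ?_, ?_, ?_⟩
  · have he : 0 < e := by
      by_contra hcon
      exact hb0 (hbe 0 (by omega))
    rw [Finsupp.finsetSum_apply, Finset.sum_eq_single 0]
    · rw [pow_zero, Finsupp.single_eq_same]
      exact hb0
    · intro i _ hi
      rw [Finsupp.single_apply, if_neg]
      intro h2
      exact hi (hinj _ _ (h2.trans (pow_zero g).symm))
    · intro h2
      exact absurd (Finset.mem_range.2 he) h2
  · intro m hm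
    rw [Finsupp.mem_support_iff, Finsupp.finsetSum_apply] at hm
    obtain ⟨i, hi', hi⟩ := Finset.exists_ne_zero_of_sum_ne_zero hm
    rw [Finset.mem_image]
    refine ⟨i, hi', ?_⟩
    by_contra h2
    rw [Finsupp.single_apply, if_neg h2] at hi
    exact hi rfl
  · intro m
    rw [Finsupp.finsetSum_apply]
    refine Polynomial.natDegree_sum_le_of_forall_le _ _ fun i _ => ?_
    rw [Finsupp.single_apply]
    split_ifs
    · exact hbd i
    · simp
  · rw [app_sum_left]
    rw [← hrel]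
    refine Finset.sum_congr rfl fun i _ => ?_
    rw [app_single]

theorem comp_one (b a : ℕ+ →₀ F) : comp b a 1 = b 1 * a 1 := by
  rw [comp_apply]
  have h1 : ∀ i m : ℕ+, i * m = 1 → i = 1 ∧ m = 1 := by
    intro i m h
    have h2 : (i : ℕ) * (m : ℕ) = 1 := by rw [← PNat.mul_coe, h, PNat.one_coe]
    exact ⟨PNat.coe_eq_one_iff.1 (Nat.eq_one_of_mul_eq_one_right h2),
      PNat.coe_eq_one_iff.1 (Nat.eq_one_of_mul_eq_one_left h2)⟩
  have hx : ∀ f : F, xp 1 f = f := by
    intro f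
    apply io_inj
    rw [← dl_io, dl_one]
  rw [Finset.sum_eq_single 1]
  · rw [Finset.sum_eq_single 1]
    · rw [if_pos (one_mul 1), hx]
    · intro m _ hm
      rw [if_neg]
      intro h
      exact hm (h1 _ _ h).2
    · intro h
      rw [if_pos (one_mul 1), Finsupp.notMem_support_iff.1 h, hx, mul_zero]
  · intro i _ hi
    refine Finset.sum_eq_zero fun m _ => ?_
    rw [if_neg]
    intro h
    exact hi (h1 _ _ h).1
  · intro h
    refine Finset.sum_eq_zero fun m _ => ?_
    rw [Finsupp.notMem_support_iff.1 h, zero_mul, ite_self]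

/-- all combinations of the family with polynomial coefficients are annihilated by operators of
bounded support and of degree linear in the degrees of the coefficients, with coefficient of the
identity not zero -/
def Kill {I : Type} [Fintype I] (f : I → S) : Prop :=
  ∃ (B : Finset ℕ+) (C : ℕ), ∀ (h : ℕ) (Δ : I → F), (∀ i, (Δ i).natDegree ≤ h) →
    ∃ a : ℕ+ →₀ F, a 1 ≠ 0 ∧ a.support ⊆ B ∧ (∀ m, (a m).natDegree ≤ C * (h + 1)) ∧
      app a (∑ i, io (Δ i) * f i) = 0

theorem kill_empty {I : Type} [Fintype I] [IsEmpty I] (f : I → S) : Kill f := by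
  refine ⟨{1}, 0, fun h Δ _ => ⟨Finsupp.single 1 1, ?_, Finsupp.support_single_subset, ?_, ?_⟩⟩
  · rw [Finsupp.single_eq_same]
    exact one_ne_zero
  · intro m
    rw [Finsupp.single_apply]
    split_ifs <;> simp
  · rw [Finset.univ_eq_empty, Finset.sum_empty, app_zero]

theorem closedD_dl {g : ℕ+} {V : Type} [Fintype V] {s : V → S} (hs : ClosedD g s)
    {J : Type} [Fintype J] (m : J → ℕ+) : ClosedD g (fun x : J × V => dl (m x.1) (s x.2)) := by
  classical
  obtain ⟨d, hd0, hd⟩ := hs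
  refine ⟨∏ j, xp (m j) d, Finset.prod_ne_zero_iff.2 fun j _ => xp_ne_zero _ hd0, ?_⟩
  rintro ⟨j, v⟩
  obtain ⟨p, hp⟩ := hd v
  refine ⟨fun x => if x.1 = j then
    (∏ i ∈ Finset.univ.erase j, xp (m i) d) * xp (m j) (p x.2) else 0, ?_⟩
  rw [Fintype.sum_prod_type, Finset.sum_eq_single j]
  · beta_reduce
    simp only [if_true]
    rw [← Finset.mul_prod_erase Finset.univ _ (Finset.mem_univ j), mul_comm (xp (m j) d),
      map_mul io, mul_assoc, ← dl_io, ← map_mul (dl _), hp, map_sum, Finset.mul_sum]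
    refine Finset.sum_congr rfl fun w _ => ?_
    rw [map_mul (dl _), dl_io, dl_dl, dl_dl, mul_comm g, map_mul io, mul_assoc]
  · intro j' _ hj'
    refine Finset.sum_eq_zero fun w _ => ?_
    beta_reduce
    rw [if_neg hj', map_zero, zero_mul]
  · intro h
    exact absurd (Finset.mem_univ _) h

theorem kill_add {I V : Type} [Fintype I] [Fintype V] {f : I → S} (hf : Kill f) {g : ℕ+}
    (hg : 1 < g) {s : V → S} (hs : ClosedD g s) : Kill (Sum.elim f s) := by
  classical
  obtain ⟨B, C, hB⟩ := hf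
  obtain ⟨B', C', hB'⟩ := elim2 hg _ (closedD_dl hs (fun m : B => (m : ℕ+)))
  obtain ⟨R, hR⟩ : ∃ R : ℕ, ∀ m ∈ B, (m : ℕ) ≤ R := by
    refine ⟨B.sup fun m => (m : ℕ), fun m hm => Finset.le_sup (f := fun m : ℕ+ => (m : ℕ)) hm⟩
  obtain ⟨R', hR'⟩ : ∃ R : ℕ, ∀ m ∈ B', (m : ℕ) ≤ R := by
    refine ⟨B'.sup fun m => (m : ℕ), fun m hm => Finset.le_sup (f := fun m : ℕ+ => (m : ℕ)) hm⟩
  refine ⟨(B' ×ˢ B).image fun p => p.1 * p.2, C' * (C + R + 1) + C * R', fun h Δ hΔ => ?_⟩
  obtain ⟨a, ha0, hac, had, haa⟩ := hB h (fun i => Δ (Sum.inl i)) fun i => hΔ _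
  set h' := C * (h + 1) + h * R with hh'
  obtain ⟨b, hb0, hbc, hbd, hbb⟩ := hB' h' (fun x => a x.1 * xp (x.1 : ℕ+) (Δ (Sum.inr x.2)))
    (fun x => by
      refine Polynomial.natDegree_mul_le.trans ?_
      rw [natDegree_xp]
      exact Nat.add_le_add (had _) (Nat.mul_le_mul (hΔ _) (hR _ x.1.2)))
  refine ⟨comp b a, ?_, comp_support b a hbc hac, fun m => ?_, ?_⟩
  · rw [comp_one]
    exact mul_ne_zero hb0 ha0
  · refine (comp_deg b a hbd had (fun i hi => hR' i (hbc hi)) m).trans ?_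
    have h1 : h' + 1 ≤ (C + R + 1) * (h + 1) := by
      rw [hh']
      nlinarith [Nat.zero_le R]
    have h2 : C' * (h' + 1) ≤ C' * ((C + R + 1) * (h + 1)) := Nat.mul_le_mul_left _ h1
    calc C' * (h' + 1) + C * (h + 1) * R' ≤ C' * ((C + R + 1) * (h + 1)) + C * (h + 1) * R' :=
          Nat.add_le_add_right h2 _
      _ = (C' * (C + R + 1) + C * R') * (h + 1) := by ring
  · rw [app_comp, Fintype.sum_sum_type]
    simp only [Sum.elim_inl, Sum.elim_inr]
    rw [app_add, haa, zero_add]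
    rw [← hbb]
    congr 1
    unfold app Finsupp.sum
    rw [Finset.sum_subset hac (fun m _ hm => by
      beta_reduce
      rw [Finsupp.notMem_support_iff.1 hm, map_zero, zero_mul])]
    rw [← Finset.sum_coe_sort B, Fintype.sum_prod_type]
    refine Finset.sum_congr rfl fun m _ => ?_
    beta_reduce
    rw [map_sum, Finset.mul_sum]
    refine Finset.sum_congr rfl fun v _ => ?_
    rw [map_mul (dl _), dl_io, map_mul io, mul_assoc]

theorem kill_of_subfamily {I J : Type} [Fintype I] [Fintype J] {f : I → S} (hf : Kill f)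
    {f' : J → S} (ψ : J → I) (h : ∀ j, f' j = f (ψ j)) : Kill f' := by
  classical
  obtain ⟨B, C, hB⟩ := hf
  refine ⟨B, C, fun h0 Δ hΔ => ?_⟩
  obtain ⟨a, ha0, hac, had, haa⟩ := hB h0 (fun i => ∑ j, if ψ j = i then Δ j else 0) (fun i => by
    refine Polynomial.natDegree_sum_le_of_forall_le _ _ fun j _ => ?_
    split_ifs
    · exact hΔ j
    · simp)
  refine ⟨a, ha0, hac, had, ?_⟩
  rw [← haa]
  congr 1
  simp only [map_sum, Finset.sum_mul]
  rw [Finset.sum_comm]
  refine Finset.sum_congr rfl fun j _ => ?_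
  rw [Finset.sum_eq_single (ψ j)]
  · rw [if_pos rfl, h]
  · intro i _ hi
    rw [if_neg (Ne.symm hi), map_zero, zero_mul]
  · intro h1
    exact absurd (Finset.mem_univ _) h1

/-- finitely many closed families -/
theorem kill_list (k : ℕ) (g : Fin k → ℕ+) (hg : ∀ j, 1 < g j) (V : Fin k → Type)
    [∀ j, Fintype (V j)] (s : ∀ j, V j → S) (hs : ∀ j, ClosedD (g j) (s j)) :
    Kill (fun x : (j : Fin k) × V j => s x.1 x.2) := by
  classical
  induction k with
  | zero =>
    have : IsEmpty ((j : Fin 0) × V j) := ⟨fun x => Fin.elim0 x.1⟩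
    exact kill_empty _
  | succ k ih =>
    have h1 := ih (fun j => g j.castSucc) (fun j => hg _) (fun j => V j.castSucc)
      (fun j => s j.castSucc) (fun j => hs _)
    have h2 := kill_add h1 (hg (Fin.last k)) (hs (Fin.last k))
    refine kill_of_subfamily h2 (fun x => ?_) ?_
    · exact if h : (x.1 : ℕ) < k then
        Sum.inl ⟨⟨x.1, h⟩, cast (by congr 1) x.2⟩
      else Sum.inr (cast (by
        congr 1
        apply Fin.ext
        have := x.1.2
        simp only [Fin.val_last]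
        omega) x.2)
    · rintro ⟨j, v⟩
      refine Fin.lastCases (fun v => ?_) (fun j v => ?_) j v
      · simp
      · simp

end Pool.Agent.N493.PA
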