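import Pool.Agent.N493.PB2
import Pool.Agent.TH693.QQ.Stm

set_option autoImplicit false

/-!
# Mahler functions over `F_2(X)`
-/

namespace Pool.Agent.N493.PA

open PowerSeries
open Pool.Agent.TH693.QQ (proj)

/-- every nonzero polynomial divides a nonzero polynomial in `X ^ M` -/
theorem exists_xp (M : ℕ+) {a : F} (ha : a ≠ 0) : ∃ e c : F, c ≠ 0 ∧ e * a = xp M c := by
  classical
  have hmon : a.Monic := by
    have h1 : ∀ x : ZMod 2, x ≠ 0 → x = 1 := by decide
    exact h1 _ (Polynomial.leadingCoeff_ne_zero.2 ha)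
  set D := a.natDegree with hD
  let pol : (Fin (D + 1) → ZMod 2) →ₗ[ZMod 2] F :=
    { toFun := fun x => ∑ j : Fin (D + 1), Polynomial.monomial (j : ℕ) (x j)
      map_add' := by
        intro x y
        simp only [Pi.add_apply, map_add, Finset.sum_add_distrib]
      map_smul' := by
        intro c x
        simp only [Pi.smul_apply, smul_eq_mul, RingHom.id_apply, Finset.smul_sum,
          Polynomial.smul_monomial] }
  let cf : F →ₗ[ZMod 2] (Fin D → ZMod 2) :=
    { toFun := fun f k => (f %ₘ a).coeff k
      map_add' := by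
        intro x y
        funext k
        simp only [Polynomial.add_modByMonic, Polynomial.coeff_add, Pi.add_apply]
      map_smul' := by
        intro c x
        funext k
        simp only [Polynomial.smul_modByMonic, Polynomial.coeff_smul, Pi.smul_apply,
          RingHom.id_apply] }
  have hlt : Module.finrank (ZMod 2) (Fin D → ZMod 2) <
      Module.finrank (ZMod 2) (Fin (D + 1) → ZMod 2) := by
    rw [Module.finrank_fintype_fun_eq_card, Module.finrank_fintype_fun_eq_card, Fintype.card_fin,
      Fintype.card_fin]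
    omega
  have hker := LinearMap.ker_ne_bot_of_finrank_lt hlt
    (f := cf.comp ((xp M).toLinearMap.comp pol))
  obtain ⟨x, hx, hx0⟩ := Submodule.exists_mem_ne_zero_of_ne_bot hker
  rw [LinearMap.mem_ker] at hx
  have hc : pol x ≠ 0 := by
    intro h0
    apply hx0
    funext j
    have h1 := congrArg (fun q : F => q.coeff (j : ℕ)) h0
    simp only [pol, LinearMap.coe_mk, AddHom.coe_mk, Polynomial.finsetSum_coeff,
      Polynomial.coeff_monomial, Polynomial.coeff_zero] at h1
    rw [Finset.sum_eq_single j] at h1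
    · rw [if_pos rfl] at h1
      exact h1
    · intro j' _ hj'
      rw [if_neg]
      intro h2
      exact hj' (Fin.ext h2)
    · intro h2
      exact absurd (Finset.mem_univ _) h2
  have hmod : xp M (pol x) %ₘ a = 0 := by
    ext k
    rw [Polynomial.coeff_zero]
    by_cases hk : k < D
    · exact congrFun hx ⟨k, hk⟩
    · by_cases hD0 : a = 1
      · rw [hD0, Polynomial.modByMonic_one, Polynomial.coeff_zero]
      · refine Polynomial.coeff_eq_zero_of_natDegree_lt ?_
        have h1 := Polynomial.natDegree_modByMonic_lt (xp M (pol x)) hmon hD0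
        omega
  obtain ⟨e, he⟩ := (Polynomial.modByMonic_eq_zero_iff_dvd hmon).1 hmod
  exact ⟨e, pol x, hc, by rw [he, mul_comm]⟩

/-- sections of a product whose second factor is supported in one class -/
theorem proj_mul (M r t : ℕ) (p y : S) (hy : ∀ j, coeff j y ≠ 0 → j % M = t % M) :
    proj M r (p * y) = (PowerSeries.mk fun i => if (i + t) % M = r % M then coeff i p else 0) * y := by
  ext n
  rw [proj, coeff_mk, PowerSeries.coeff_mul, PowerSeries.coeff_mul]
  have key : ∀ x ∈ Finset.HasAntidiagonal.antidiagonal n,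
      coeff x.1 (PowerSeries.mk fun i => if (i + t) % M = r % M then coeff i p else 0) *
        coeff x.2 y = if n % M = r % M then coeff x.1 p * coeff x.2 y else 0 := by
    intro x hx
    rw [Finset.HasAntidiagonal.mem_antidiagonal] at hx
    rw [coeff_mk]
    by_cases h : coeff x.2 y = 0
    · rw [h, mul_zero, mul_zero, ite_self]
    · have h1 : n % M = (x.1 + t) % M := by
        rw [← hx, Nat.add_mod, hy _ h, ← Nat.add_mod]
      rw [h1]
      split_ifs
      · rfl
      · rw [zero_mul]
  rw [Finset.sum_congr rfl key]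
  split_ifs
  · rfl
  · rw [Finset.sum_const_zero]

theorem proj_supp {M r : ℕ} {y : S} {j : ℕ} (h : coeff j (proj M r y) ≠ 0) : j % M = r % M := by
  by_contra hcon
  apply h
  rw [proj, coeff_mk, if_neg hcon]

theorem proj_xp (M : ℕ+) (r : ℕ) (c : F) (z : S) :
    proj M r (io (xp M c) * z) = io (xp M c) * proj M r z := by
  rw [mul_comm, ← dl_io, proj_mul M r 0, mul_comm]
  · rfl
  · intro j hj
    rw [coeff_dl] at hj
    by_contra hcon
    apply hj
    rw [if_neg]
    intro h
    apply hcon
    rw [Nat.zero_mod]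
    exact Nat.mod_eq_zero_of_dvd h

theorem sum_proj (M : ℕ+) (z : S) : z = ∑ r : Fin M, proj M r z := by
  ext n
  rw [map_sum, Finset.sum_eq_single (⟨n % M, Nat.mod_lt _ M.pos⟩ : Fin M)]
  · rw [proj, coeff_mk, if_pos]
    rw [Nat.mod_mod]
  · intro r _ hr
    rw [proj, coeff_mk, if_neg]
    intro h
    apply hr
    apply Fin.ext
    simp only
    rw [h, Nat.mod_eq_of_lt r.2]
  · intro h
    exact absurd (Finset.mem_univ _) h

/-- sections of polynomials, as polynomials -/
noncomputable def pF (M r t : ℕ) (q : F) : F :=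
  ∑ i ∈ Finset.range (q.natDegree + 1),
    if (i + t) % M = r % M then Polynomial.monomial i (q.coeff i) else 0

theorem io_pF (M r t : ℕ) (q : F) :
    io (pF M r t q) = PowerSeries.mk fun i => if (i + t) % M = r % M then coeff i (io q) else 0 := by
  ext n
  rw [coeff_io, coeff_mk, coeff_io, pF, Polynomial.finsetSum_coeff]
  have h1 : ∀ i, (if (i + t) % M = r % M then Polynomial.monomial i (q.coeff i) else (0 : F)).coeff n
      = if i = n then (if (n + t) % M = r % M then q.coeff n else 0) else 0 := by
    intro i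
    by_cases hi : i = n
    · subst hi
      rw [if_pos rfl]
      split_ifs
      · rw [Polynomial.coeff_monomial, if_pos rfl]
      · rw [Polynomial.coeff_zero]
    · rw [if_neg hi]
      split_ifs
      · rw [Polynomial.coeff_monomial, if_neg hi]
      · rw [Polynomial.coeff_zero]
  rw [Finset.sum_congr rfl fun i _ => h1 i, Finset.sum_ite_eq']
  simp only [Finset.mem_range]
  split_ifs with h2 h3 h3
  · rfl
  · rfl
  · rw [Polynomial.coeff_eq_zero_of_natDegree_lt (by omega)]
  · rfl

theorem proj_dl (M g : ℕ+) (r : ℕ) (q : F) (z : S) : proj M r (io q * dl g z) =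
    ∑ r' : Fin M, io (pF M r ((g : ℕ) * r') q) * dl g (proj M r' z) := by
  conv_lhs => rw [sum_proj M z, map_sum, Finset.mul_sum]
  have h1 : ∀ (A : Finset (Fin M)) (y : Fin M → S), proj M r (∑ i ∈ A, y i) =
      ∑ i ∈ A, proj M r (y i) := by
    intro A y
    ext n
    rw [proj, coeff_mk, map_sum, map_sum]
    split_ifs with h
    · refine Finset.sum_congr rfl fun i _ => ?_
      rw [proj, coeff_mk, if_pos h]
    · rw [Finset.sum_eq_zero]
      intro i _
      rw [proj, coeff_mk, if_neg h]
  rw [h1]
  refine Finset.sum_congr rfl fun r' _ => ?_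
  rw [proj_mul M r ((g : ℕ) * r'), io_pF]
  intro j hj
  rw [coeff_dl] at hj
  split_ifs at hj with h2
  · obtain ⟨k, rfl⟩ := h2
    rw [Nat.mul_div_cancel_left _ g.pos] at hj
    have h3 := proj_supp hj
    rw [Nat.mul_mod, h3, ← Nat.mul_mod]
  · exact absurd rfl hj

theorem closedD_proj {g : ℕ+} {V : Type} [Fintype V] {s : V → S} (hs : ClosedD g s) (M : ℕ+) :
    ClosedD g (fun x : V × Fin M => proj M x.2 (s x.1)) := by
  classical
  obtain ⟨d, hd0, hd⟩ := hs
  obtain ⟨e, c, hc0, hc⟩ := exists_xp M hd0
  refine ⟨xp M c, xp_ne_zero _ hc0, ?_⟩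
  rintro ⟨v, r⟩
  obtain ⟨p, hp⟩ := hd v
  refine ⟨fun x => pF M r ((g : ℕ) * x.2) (e * p x.1), ?_⟩
  simp only
  rw [← proj_xp, ← hc, map_mul, mul_assoc, hp, Finset.mul_sum, Fintype.sum_prod_type]
  have h1 : ∀ (A : Finset V) (y : V → S), proj M r (∑ i ∈ A, y i) =
      ∑ i ∈ A, proj M r (y i) := by
    intro A y
    ext n
    rw [proj, coeff_mk, map_sum, map_sum]
    split_ifs with h
    · refine Finset.sum_congr rfl fun i _ => ?_
      rw [proj, coeff_mk, if_pos h]
    · rw [Finset.sum_eq_zero]
      intro i _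
      rw [proj, coeff_mk, if_neg h]
  rw [h1]
  refine Finset.sum_congr rfl fun w _ => ?_
  rw [← mul_assoc, ← map_mul, proj_dl]

/-- `u` belongs to a finite family closed in some base -/
def Mahler (u : S) : Prop :=
  ∃ g : ℕ+, 1 < g ∧ ∃ (N : ℕ) (s : Fin N → S) (i : Fin N), ClosedD g s ∧ s i = u

theorem mahler_intro {g : ℕ+} (hg : 1 < g) {V : Type} [Fintype V] {s : V → S} (hs : ClosedD g s)
    (v : V) : Mahler (s v) := by
  classical
  refine ⟨g, hg, Fintype.card V, fun i => s ((Fintype.equivFin V).symm i), Fintype.equivFin V v, ?_,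
    by simp⟩
  obtain ⟨d, hd0, hd⟩ := hs
  refine ⟨d, hd0, fun i => ?_⟩
  obtain ⟨p, hp⟩ := hd ((Fintype.equivFin V).symm i)
  refine ⟨fun j => p ((Fintype.equivFin V).symm j), ?_⟩
  rw [hp]
  exact ((Fintype.equivFin V).symm.sum_comp fun w => io (p w) * dl g (s w)).symm

theorem mahler_proj {u : S} (hu : Mahler u) (M : ℕ+) (r : ℕ) : Mahler (proj M r u) := by
  obtain ⟨g, hg, N, s, i, hs, rfl⟩ := hu
  have h1 : proj M r (s i) = proj M (⟨r % M, Nat.mod_lt _ M.pos⟩ : Fin M) (s i) := by
    unfold proj
    simp only [Nat.mod_mod]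
  rw [h1]
  exact mahler_intro hg (closedD_proj hs M) (i, ⟨r % M, Nat.mod_lt _ M.pos⟩)

theorem mahler_dl {u : S} (hu : Mahler u) (m : ℕ+) : Mahler (dl m u) := by
  obtain ⟨g, hg, N, s, i, hs, rfl⟩ := hu
  exact mahler_intro hg (closedD_dl hs (fun _ : Unit => m)) ((), i)

theorem mahler_kill {Z : Type} [Fintype Z] (u : Z → S) (hu : ∀ z, Mahler (u z)) : Kill u := by
  classical
  choose g hg N s i hs hi using hu
  have h1 := kill_list (Fintype.card Z) (fun j => g ((Fintype.equivFin Z).symm j)) (fun j => hg _)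
    (fun j => Fin (N ((Fintype.equivFin Z).symm j))) (fun j => s ((Fintype.equivFin Z).symm j))
    (fun j => hs _)
  refine kill_of_subfamily h1
    (fun z => ⟨Fintype.equivFin Z z, cast (by rw [Equiv.symm_apply_apply]) (i z)⟩) ?_
  intro z
  simp only
  have h2 : ∀ z' (h : z' = z), s z' (cast (by rw [h]) (i z)) = u z := by
    rintro _ rfl
    exact hi _
  exact (h2 _ (Equiv.symm_apply_apply _ _)).symm

/-- solutions of Mahler equations -/
theorem mahler_of_eq {g : ℕ+} (hg : 1 < g) (y : S) (n : ℕ) (b : ℕ → F)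
    (hb : ∃ i < n, b i ≠ 0) (hrel : ∑ i ∈ Finset.range n, io (b i) * dl (g ^ i) y = 0) :
    Mahler y := by
  classical
  set b1 : ℕ → F := fun i => if i < n then b i else 0 with hb1
  have hex : ∃ k, b1 k ≠ 0 := by
    obtain ⟨i, hi, hne⟩ := hb
    exact ⟨i, by simp only [hb1]; rw [if_pos hi]; exact hne⟩
  obtain ⟨b2, h1, -, h3, h4⟩ := shift_down g y n (∑ i ∈ Finset.range n, (b1 i).natDegree)
    (Nat.find hex) b1 (fun i hi => by
      simp only [hb1]
      rw [if_neg (by omega)]) (fun i => by
      by_cases hi : i < n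
      · exact Finset.single_le_sum (f := fun i => (b1 i).natDegree) (fun _ _ => Nat.zero_le _)
          (Finset.mem_range.2 hi)
      · simp only [hb1]
        rw [if_neg hi]
        simp) (fun i hi => by
      by_contra hcon
      exact Nat.find_min hex hi hcon) (Nat.find_spec hex) (by
      rw [← hrel]
      refine Finset.sum_congr rfl fun i hi => ?_
      simp only [hb1]
      rw [if_pos (Finset.mem_range.1 hi)])
  have hn : 0 < n := by
    by_contra hcon
    exact h3 (h1 0 (by omega))
  have hcl : ClosedD g (fun i : Fin n => dl (g ^ (i : ℕ)) y) := by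
    refine ⟨b2 0, h3, ?_⟩
    rintro ⟨i, hi⟩
    cases i with
    | zero =>
      refine ⟨fun w => b2 (w + 1), ?_⟩
      simp only [pow_zero, dl_one]
      rw [← Finset.sum_range (fun w => io (b2 (w + 1)) * dl g (dl (g ^ w) y))]
      have h5 : ∑ i ∈ Finset.range (n + 1), io (b2 i) * dl (g ^ i) y = 0 := by
        rw [Finset.sum_range_succ, h4, h1 n le_rfl, map_zero, zero_mul, add_zero]
      rw [Finset.sum_range_succ', pow_zero, dl_one] at h5
      have h6 : ∑ w ∈ Finset.range n, io (b2 (w + 1)) * dl g (dl (g ^ w) y) =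
          ∑ i ∈ Finset.range n, io (b2 (i + 1)) * dl (g ^ (i + 1)) y := by
        refine Finset.sum_congr rfl fun w _ => ?_
        rw [dl_dl, pow_succ']
      rw [h6]
      have h7 : ∀ p q : S, p + q = 0 → q = p := by
        intro p q h
        have h8 : p + p = 0 := by
          ext k
          rw [map_add, map_zero]
          exact (by decide : ∀ a : ZMod 2, a + a = 0) _
        calc q = (p + q) + p - (p + p) := by ring
          _ = p := by rw [h, h8]; ring
      exact h7 _ _ h5
    | succ i =>
      refine ⟨fun w => if (w : ℕ) = i then b2 0 else 0, ?_⟩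
      rw [Finset.sum_eq_single (⟨i, by omega⟩ : Fin n)]
      · simp only [if_true]
        rw [dl_dl, pow_succ']
      · intro w _ hw
        simp only
        rw [if_neg, map_zero, zero_mul]
        intro h
        exact hw (Fin.ext h)
      · intro h
        exact absurd (Finset.mem_univ _) h
  have h5 := mahler_intro hg hcl ⟨0, hn⟩
  simpa only [pow_zero, dl_one] using h5

end Pool.Agent.N493.PA
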