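import Pool.Agent.N493.PB5

set_option autoImplicit false

/-!
# Sequences computed by finite automata reading the digits in some base
-/

namespace Pool.Agent.N493.PA

open PowerSeries

theorem closed_of_dec (g : ℕ+) {V : Type} [Fintype V] (a : V → ℕ → ZMod 2) (dec : V → ℕ → V)
    (h : ∀ v, ∀ b < (g : ℕ), ∀ n, a v (g * n + b) = a (dec v b) n) :
    ClosedD g (fun v => (PowerSeries.mk (a v) : S)) := by
  classical
  refine ⟨1, one_ne_zero, fun v => ⟨fun w => ∑ b ∈ Finset.range g,
    if dec v b = w then Polynomial.X ^ b else 0, ?_⟩⟩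
  rw [map_one, one_mul]
  have h1 : ∑ w, io (∑ b ∈ Finset.range (g : ℕ), if dec v b = w then Polynomial.X ^ b else 0) *
      dl g (PowerSeries.mk (a w) : S) =
      ∑ b ∈ Finset.range (g : ℕ), X ^ b * dl g (PowerSeries.mk (a (dec v b)) : S) := by
    simp only [map_sum, Finset.sum_mul]
    rw [Finset.sum_comm]
    refine Finset.sum_congr rfl fun b _ => ?_
    rw [Finset.sum_eq_single (dec v b)]
    · rw [if_pos rfl, map_pow, io_X]
    · intro w _ hw
      rw [if_neg (Ne.symm hw), map_zero, zero_mul]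
    · intro h2
      exact absurd (Finset.mem_univ _) h2
  rw [h1]
  ext n
  rw [coeff_mk, map_sum, Finset.sum_eq_single (n % g)]
  · have hdm := Nat.div_add_mod n g
    rw [PowerSeries.coeff_X_pow_mul', if_pos (Nat.mod_le _ _)]
    have h2 : n - n % g = (g : ℕ) * (n / g) := by omega
    rw [h2, coeff_dl_mul, coeff_mk, ← h v (n % g) (Nat.mod_lt _ g.pos), hdm]
  · intro b hb hne
    rw [Finset.mem_range] at hb
    rw [PowerSeries.coeff_X_pow_mul']
    split_ifs with h2
    · rw [coeff_dl, if_neg]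
      rintro ⟨k, hk⟩
      apply hne
      have h3 : n = b + g * k := by omega
      rw [h3, Nat.add_mul_mod_self_left, Nat.mod_eq_of_lt hb]
    · rfl
  · intro h2
    exact absurd (Finset.mem_range.2 (Nat.mod_lt _ g.pos)) h2

/-- the transition function on natural numbers -/
def tr {g s : ℕ} (δ : Fin s → Fin g → Fin s) (q : Fin s) (d : ℕ) : Fin s :=
  if h : d < g then δ q ⟨d, h⟩ else q

theorem digits_dec {g : ℕ} (hg : 1 < g) {n b : ℕ} (hn : n ≠ 0) (hb : b < g) :
    Nat.digits g (g * n + b) = b :: Nat.digits g n := by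
  rw [add_comm]
  exact Nat.digits_add g hg b n hb (Or.inr hn)

theorem mahler_lsd {g : ℕ} (hg : 1 < g) {s : ℕ} (δ : Fin s → ℕ → Fin s) (q : Fin s)
    (h : Fin s → ZMod 2) : Mahler (PowerSeries.mk fun n => h ((Nat.digits g n).foldl δ q)) := by
  have hg' : (1 : ℕ+) < (⟨g, by omega⟩ : ℕ+) := hg
  have h1 := closed_of_dec ⟨g, by omega⟩
    (fun (p : Fin s × ZMod 2) n => if n = 0 then p.2 else h ((Nat.digits g n).foldl δ p.1))
    (fun p b => (δ p.1 b, if b = 0 then p.2 else h ((Nat.digits g b).foldl δ p.1))) (by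
      rintro ⟨p, c⟩ b hb n
      rw [PNat.mk_coe] at hb ⊢
      simp only
      by_cases hn : n = 0
      · subst hn
        rw [if_pos rfl, mul_zero, zero_add]
      · rw [if_neg hn, if_neg, digits_dec hg hn hb]
        · rfl
        · have : 0 < g * n := Nat.mul_pos (by omega) (Nat.pos_of_ne_zero hn)
          omega)
  have h2 := mahler_intro hg' h1 (q, h q)
  convert h2 using 2
  funext n
  simp only
  by_cases hn : n = 0
  · subst hn
    rw [if_pos rfl, Nat.digits_zero]
    rfl
  · rw [if_neg hn]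

theorem mahler_msd {g : ℕ} (hg : 1 < g) {s : ℕ} (δ : Fin s → ℕ → Fin s) (q : Fin s)
    (h : Fin s → ZMod 2) :
    Mahler (PowerSeries.mk fun n => h ((Nat.digits g n).reverse.foldl δ q)) := by
  have hg' : (1 : ℕ+) < (⟨g, by omega⟩ : ℕ+) := hg
  have h1 := closed_of_dec ⟨g, by omega⟩
    (fun (p : (Fin s → ZMod 2) × ZMod 2) n =>
      if n = 0 then p.2 else p.1 ((Nat.digits g n).reverse.foldl δ q))
    (fun p b => (fun x => p.1 (δ x b),
      if b = 0 then p.2 else p.1 ((Nat.digits g b).reverse.foldl δ q))) (by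
      rintro ⟨p, c⟩ b hb n
      rw [PNat.mk_coe] at hb ⊢
      simp only
      by_cases hn : n = 0
      · subst hn
        rw [if_pos rfl, mul_zero, zero_add]
      · rw [if_neg hn, if_neg, digits_dec hg hn hb, List.reverse_cons, List.foldl_append]
        · rfl
        · have : 0 < g * n := Nat.mul_pos (by omega) (Nat.pos_of_ne_zero hn)
          omega)
  have h2 := mahler_intro hg' h1 (h, h q)
  convert h2 using 2
  funext n
  simp only
  by_cases hn : n = 0
  · subst hn
    rw [if_pos rfl, Nat.digits_zero]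
    rfl
  · rw [if_neg hn]

/-- codes of automata with at most `Q` states reading digits in base `g` -/
abbrev Code (g Q : ℕ) : Type := (s : Fin (Q + 1)) ×
  (Bool × (Fin (s : ℕ) → Fin g → Fin (s : ℕ)) × Fin (s : ℕ) × (Fin (s : ℕ) → ZMod 2))

/-- the output -/
def run {g Q : ℕ} (c : Code g Q) (n : ℕ) : ZMod 2 :=
  if c.2.1 then c.2.2.2.2 ((Nat.digits g n).reverse.foldl (tr c.2.2.1) c.2.2.2.1)
    else c.2.2.2.2 ((Nat.digits g n).foldl (tr c.2.2.1) c.2.2.2.1)

theorem mahler_run {g Q : ℕ} (hg : 1 < g) (c : Code g Q) : Mahler (PowerSeries.mk (run c)) := by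
  obtain ⟨s, b, δ, q, h⟩ := c
  cases b
  · exact mahler_lsd hg (tr δ) q h
  · exact mahler_msd hg (tr δ) q h

/-- `u` is computed by a finite automaton with at most `Q` states which reads the digits of `n` in
base `g`, starting from the least significant one or starting from the most significant one -/
def Automatic (g Q : ℕ) (u : ℕ → ZMod 2) : Prop :=
  ∃ (s : ℕ) (δ : Fin s → ℕ → Fin s) (q : Fin s) (h : Fin s → ZMod 2), s ≤ Q ∧
    ((∀ n, u n = h ((Nat.digits g n).foldl δ q)) ∨
      (∀ n, u n = h ((Nat.digits g n).reverse.foldl δ q)))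

theorem foldl_tr {g s : ℕ} (δ : Fin s → ℕ → Fin s) (l : List ℕ) (hl : ∀ d ∈ l, d < g) (q : Fin s) :
    l.foldl (tr fun x (d : Fin g) => δ x d) q = l.foldl δ q := by
  induction l generalizing q with
  | nil => rfl
  | cons d l ih =>
    rw [List.foldl_cons, List.foldl_cons, ih (fun x hx => hl x (List.mem_cons_of_mem _ hx))]
    congr 1
    rw [tr, dif_pos (hl d List.mem_cons_self)]

theorem exists_code {g Q : ℕ} (hg : 1 < g) {u : ℕ → ZMod 2} (hu : Automatic g Q u) :
    ∃ c : Code g Q, ∀ n, u n = run c n := by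
  obtain ⟨s, δ, q, h, hs, hor⟩ := hu
  have hd : ∀ n, ∀ d ∈ Nat.digits g n, d < g := fun n d hd => Nat.digits_lt_base hg hd
  rcases hor with h1 | h1
  · refine ⟨⟨⟨s, by omega⟩, false, fun x d => δ x d, q, h⟩, fun n => ?_⟩
    rw [h1]
    exact congrArg h (foldl_tr δ _ (hd n) q).symm
  · refine ⟨⟨⟨s, by omega⟩, true, fun x d => δ x d, q, h⟩, fun n => ?_⟩
    rw [h1]
    exact congrArg h (foldl_tr δ _ (fun d hdd => hd n d (List.mem_reverse.1 hdd)) q).symm

end Pool.Agent.N493.PA
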