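import Pool.Agent.N493.PB6
import Pool.Agent.R498.AU.A4

set_option autoImplicit false

/-!
# Operators do not annihilate combinations of modular functions with distinct exact orders
-/

namespace Pool.Agent.N493.PB

open PowerSeries Pool.Agent.N493.PA

/-- nonvanishing; `A` is the set of the indices that occur -/
theorem nv {J : Type} [Fintype J] (H : J → S) (σ : J → ℤ) (B : ℕ+)
    (hH : ∀ j, Pool.Agent.Y627.PT.AZ (Pool.Agent.TH693.QQ.T5.jj (dl B (H j))) (σ j))
    (A : J → Prop) (V : J → F) (hAV : ∀ j, A j ↔ V j ≠ 0 ∧ H j ≠ 0)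
    (act : J → Prop) (U : ℕ+ → Prop) (h1 : U 1)
    (hU : ∀ (m0 : ℕ+) (j0 : J), U m0 → act j0 → A j0 → ∀ (m : ℕ+) (j : J), A j →
      (24 * B : ℤ) ∣ (m : ℕ) * σ j - (m0 : ℕ) * σ j0 → act j ∧ U m)
    (n : J → ℕ) (v : J → S) (hv : ∀ j, H j ≠ 0 → constantCoeff (v j) ≠ 0 ∧ H j = X ^ n j * v j)
    (hw0 : ∀ j, act j → A j → (24 * B : ℤ) * n j - σ j ≠ 0)
    (hwd : ∀ j j', act j → act j' → A j → A j' →
      (24 * B : ℤ) * n j - σ j = 24 * B * n j' - σ j' → j = j')
    (T : Finset ℕ+) (a : ℕ+ →₀ F) (ha : a.support ⊆ T) (ha1 : a 1 ≠ 0)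
    (hV : ∃ j, act j ∧ A j) (b : F) :
    ∑ x : T × J, io (a x.1 * xp x.1 (V x.2)) * dl x.1 (H x.2) + io b ≠ 0 := by
  classical
  intro hrel
  set w : J → ℤ := fun j => (24 * B : ℤ) * n j - σ j with hw
  set alive : Finset J := Finset.univ.filter fun j => act j ∧ A j with halive
  obtain ⟨j0, hj0, hmin⟩ := alive.exists_min_image w (by
    obtain ⟨j, hj⟩ := hV
    exact ⟨j, Finset.mem_filter.2 ⟨Finset.mem_univ _, hj⟩⟩)
  have hj0' := (Finset.mem_filter.1 hj0).2
  have hj0V := (hAV j0).1 hj0'.2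
  set sup' : Finset ℕ+ := T.filter fun m => U m ∧ a m ≠ 0 with hsup
  obtain ⟨m0, hm0, hmin'⟩ := sup'.exists_min_image (fun m => (m : ℤ) * w j0)
    ⟨1, Finset.mem_filter.2 ⟨ha (Finsupp.mem_support_iff.2 ha1), h1, ha1⟩⟩
  obtain ⟨hm0B, hm0U, hm0a⟩ := Finset.mem_filter.1 hm0
  have hwj0 : w j0 ≠ 0 := hw0 j0 hj0'.1 hj0'.2
  have hpos : ∀ m : ℕ+, (0 : ℤ) < (m : ℤ) := fun m => by exact_mod_cast m.pos
  -- strict minimality
  have hstrict : ∀ m ∈ sup', ∀ j ∈ alive, ¬ (m = m0 ∧ j = j0) →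
      (m0 : ℤ) * w j0 < (m : ℤ) * w j := by
    intro m hm j hj hne
    have e1 : (m0 : ℤ) * w j0 ≤ (m : ℤ) * w j0 := hmin' m hm
    by_cases hjj : j = j0
    · subst hjj
      have hmne : m ≠ m0 := fun h => hne ⟨h, rfl⟩
      refine lt_of_le_of_ne e1 fun h => hmne ?_
      have h3 := mul_right_cancel₀ hwj0 h
      exact (PNat.coe_injective (by exact_mod_cast h3)).symm
    · refine lt_of_le_of_lt e1 (mul_lt_mul_of_pos_left ?_ (hpos m))
      refine lt_of_le_of_ne (hmin j hj) fun h => hjj ?_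
      have hja := (Finset.mem_filter.1 hj).2
      exact hwd j j0 hja.1 hj0'.1 hja.2 hj0'.2 h.symm
  -- a common shift
  obtain ⟨K0, hK0⟩ : ∃ K0 : ℕ, ∀ m ∈ T, ∀ j, 0 ≤ 24 * (K0 : ℤ) + (m : ℕ) * σ j := by
    refine ⟨∑ m ∈ T, ∑ j, ((m : ℕ) * σ j).natAbs, fun m hm j => ?_⟩
    have e1 : ((m : ℕ) * σ j).natAbs ≤ ∑ j, ((m : ℕ) * σ j).natAbs :=
      Finset.single_le_sum (f := fun j => ((m : ℕ) * σ j).natAbs) (fun _ _ => Nat.zero_le _)
        (Finset.mem_univ j)
    have e2 : ∑ j, ((m : ℕ) * σ j).natAbs ≤ ∑ m ∈ T, ∑ j, ((m : ℕ) * σ j).natAbs :=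
      Finset.single_le_sum (f := fun m : ℕ+ => ∑ j, ((m : ℕ) * σ j).natAbs)
        (fun _ _ => Nat.zero_le _) hm
    omega
  set s : T × J → ℕ := fun x => (24 * (K0 : ℤ) + ((x.1 : ℕ+) : ℕ) * σ x.2).toNat with hs
  have hsz : ∀ x : T × J, (s x : ℤ) = 24 * K0 + ((x.1 : ℕ+) : ℕ) * σ x.2 := fun x =>
    Int.toNat_of_nonneg (hK0 _ x.1.2 _)
  -- the dilated relation
  have hrel2 : ∑ x : T × J, io (xp B (a x.1 * xp x.1 (V x.2))) *
      (X ^ K0 * dl x.1 (dl B (H x.2))) + io (Polynomial.X ^ K0 * xp B b) = 0 := by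
    have e1 := congrArg (fun y : S => X ^ K0 * dl B y) hrel
    beta_reduce at e1
    rw [map_add, map_sum, map_zero, mul_zero, mul_add, Finset.mul_sum] at e1
    rw [← e1, map_mul io, map_pow, io_X, dl_io]
    congr 1
    refine Finset.sum_congr rfl fun x _ => ?_
    rw [map_mul (dl B), dl_io, dl_dl, dl_dl, mul_comm B]
    ring
  -- the exponent
  have hA0 : a m0 * xp m0 (V j0) ≠ 0 := mul_ne_zero hm0a (xp_ne_zero _ hj0V.1)
  obtain ⟨q0, hq0⟩ : ∃ q, (a m0 * xp m0 (V j0)).coeff q ≠ 0 := by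
    by_contra hcon
    push Not at hcon
    exact hA0 (Polynomial.ext fun n => by rw [hcon n, Polynomial.coeff_zero])
  set x0 : T × J := (⟨m0, hm0B⟩, j0) with hx0
  set E : ℕ := 24 * (B * q0) + s x0 with hE
  have h6 : (∑ x : T × J, (if s x ≤ E ∧ 24 ∣ E - s x then
        io (Polynomial.monomial ((E - s x) / 24)
          ((xp B (a x.1 * xp x.1 (V x.2))).coeff ((E - s x) / 24))) *
          (X ^ K0 * dl x.1 (dl B (H x.2))) else 0)) +
      (if 24 ∣ E then io (Polynomial.monomial (E / 24)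
        ((Polynomial.X ^ K0 * xp B b).coeff (E / 24))) else 0) = (0 : S) :=
    Pool.Agent.Y627.PT.lin0 Pool.Agent.TH693.QQ.QC.qc (T × J)
      (fun x => X ^ K0 * dl x.1 (dl B (H x.2))) s
      (fun x => by
        apply Pool.Agent.Y627.PT.alx_of_az
        rw [hsz, map_mul, map_pow]
        exact Pool.Agent.Y627.PT.az_mul (Pool.Agent.Y627.PT.az_x K0)
          (Pool.Agent.Y627.PT.az_ex (x.1 : ℕ+).ne_zero (hH x.2)))
      (fun x => xp B (a x.1 * xp x.1 (V x.2))) (Polynomial.X ^ K0 * xp B b) hrel2 E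
  -- coefficients of a term
  have hterm : ∀ (m : ℕ+) (j : J) (q : ℕ) (c : ZMod 2) (k : ℕ), H j ≠ 0 →
      coeff k (io (Polynomial.monomial q c) * (X ^ K0 * dl m (dl B (H j)))) =
        if q + K0 + (m : ℕ) * (B * n j) ≤ k then
          c * coeff (k - (q + K0 + (m : ℕ) * (B * n j))) (dl m (dl B (v j))) else 0 := by
    intro m j q c k hgj
    have e1 : io (Polynomial.monomial q c) * (X ^ K0 * dl m (dl B (H j))) =
        c • (X ^ (q + K0 + (m : ℕ) * (B * n j)) * dl m (dl B (v j))) := by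
      conv_lhs => rw [(hv j hgj).2]
      rw [map_mul (dl B), map_pow, dl_X, ← pow_mul, map_mul (dl m), map_pow, dl_X, ← pow_mul,
        ← Polynomial.C_mul_X_pow_eq_monomial,
        map_mul io, map_pow, io_X, io_C, Algebra.smul_def, pow_add, pow_add]
      ring
    rw [e1, map_smul, smul_eq_mul, PowerSeries.coeff_X_pow_mul']
    split_ifs
    · rfl
    · rw [mul_zero]
  set n0 : ℕ := B * q0 + K0 + (m0 : ℕ) * (B * n j0) with hn0
  have hEz0 : (E : ℤ) = 24 * (B * q0) + (24 * K0 + (m0 : ℕ) * σ j0) := by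
    rw [hE]
    push_cast
    rw [hsz]
  have hn0E : (24 : ℤ) * n0 = E + (m0 : ℕ) * w j0 := by
    rw [hn0, hEz0, hw]
    push_cast
    ring
  have hBz : (B : ℤ) ≠ 0 := (hpos B).ne'
  have hcoef : ∀ (f : F) (q : ℕ), (xp B f).coeff q ≠ 0 → ∃ q', q = B * q' ∧ f.coeff q' ≠ 0 := by
    intro f q hq
    rw [xp, Polynomial.coeff_expand B.pos] at hq
    split_ifs at hq with h
    · obtain ⟨q', rfl⟩ := h
      rw [Nat.mul_div_cancel_left _ B.pos] at hq
      exact ⟨q', rfl, hq⟩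
    · exact absurd rfl hq
  have h7 := congrArg (coeff n0) h6
  rw [map_add, map_sum, map_zero, Finset.sum_eq_single x0] at h7
  · -- the main term
    rw [if_pos ⟨Nat.le_add_left _ _, by
      rw [hE, Nat.add_sub_cancel]
      exact Dvd.intro _ rfl⟩] at h7
    have e1 : (E - s x0) / 24 = B * q0 := by
      rw [hE, Nat.add_sub_cancel, Nat.mul_div_cancel_left _ (by norm_num)]
    have e4 : (xp B (a m0 * xp m0 (V j0))).coeff (B * q0) = (a m0 * xp m0 (V j0)).coeff q0 := by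
      rw [xp, mul_comm (B : ℕ), Polynomial.coeff_expand_mul B.pos]
    rw [e1, hx0] at h7
    simp only at h7
    rw [hterm m0 j0 _ _ n0 hj0V.2, if_pos le_rfl, Nat.sub_self, e4] at h7
    have e2 : coeff 0 (dl m0 (dl B (v j0))) = constantCoeff (v j0) := by
      rw [coeff_dl, if_pos (dvd_zero _), Nat.zero_div, coeff_dl, if_pos (dvd_zero _),
        Nat.zero_div, coeff_zero_eq_constantCoeff_apply]
    have e3 : coeff n0 (if 24 ∣ E then io (Polynomial.monomial (E / 24)
        ((Polynomial.X ^ K0 * xp B b).coeff (E / 24))) else (0 : S)) = 0 := by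
      split_ifs with h24
      · rw [coeff_io, Polynomial.coeff_monomial, if_neg]
        intro h8
        have h9 : 24 * (E / 24) = E := Nat.mul_div_cancel' h24
        rw [h8] at h9
        have h10 : (24 : ℤ) * n0 = E := by exact_mod_cast h9
        rw [hn0E] at h10
        have h11 : ((m0 : ℕ) : ℤ) * w j0 = 0 := by linarith
        rcases mul_eq_zero.1 h11 with h12 | h12
        · exact (hpos m0).ne' h12
        · exact hwj0 h12
      · rw [map_zero]
    rw [e2, e3, add_zero] at h7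
    exact mul_ne_zero hq0 (hv j0 hj0V.2).1 h7
  · rintro ⟨⟨m, hmB⟩, j⟩ _ hne
    simp only
    split_ifs with hcond
    · obtain ⟨hle, q, hq⟩ := hcond
      rw [hq, Nat.mul_div_cancel_left _ (by norm_num : 0 < 24)]
      by_cases hgj : H j = 0
      · rw [hgj, map_zero, map_zero, mul_zero, mul_zero, map_zero]
      by_cases hc : (xp B (a m * xp m (V j))).coeff q = 0
      · rw [hc, Polynomial.monomial_zero_right, map_zero, zero_mul, map_zero]
      obtain ⟨q', hq', hc'⟩ := hcoef _ _ hc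
      have hAne : a m * xp m (V j) ≠ 0 := by
        intro h
        rw [h, Polynomial.coeff_zero] at hc'
        exact hc' rfl
      have ham : a m ≠ 0 := left_ne_zero_of_mul hAne
      have hVj : V j ≠ 0 := by
        intro h
        apply right_ne_zero_of_mul hAne
        rw [h, xp_zero]
      have hAj : A j := (hAV j).2 ⟨hVj, hgj⟩
      have hEz : (E : ℤ) = 24 * (B * q') + (24 * K0 + (m : ℕ) * σ j) := by
        have e1 : E = 24 * (B * q') + s (⟨m, hmB⟩, j) := by omega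
        rw [e1]
        push_cast
        rw [hsz]
      obtain ⟨hact, hUm⟩ := hU m0 j0 hm0U hj0'.1 hj0'.2 m j hAj
        ⟨q0 - q', by linear_combination hEz0 - hEz⟩
      have hs' := hstrict m (Finset.mem_filter.2 ⟨hmB, hUm, ham⟩) j
        (Finset.mem_filter.2 ⟨Finset.mem_univ _, hact, hAj⟩) (by
          rintro ⟨rfl, rfl⟩
          exact hne rfl)
      rw [hterm m j q _ n0 hgj, if_neg]
      intro h8
      have h9 : ((q : ℤ) + K0 + (m : ℕ) * (B * n j)) ≤ n0 := by exact_mod_cast h8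
      have h10 : (24 : ℤ) * (q + K0 + (m : ℕ) * (B * n j)) = E + (m : ℕ) * w j := by
        rw [hEz, hw, hq']
        push_cast
        ring
      have h11 : (m0 : ℤ) = ((m0 : ℕ) : ℤ) := rfl
      have h12 : (m : ℤ) = ((m : ℕ) : ℤ) := rfl
      rw [h11, h12] at hs'
      linarith
    · rw [map_zero]
  · intro h
    exact absurd (Finset.mem_univ _) h

end Pool.Agent.N493.PB
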