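import Pool.Agent.N493.PB7

set_option autoImplicit false

/-!
# The measure theorem for linear forms in modular functions and Mahler functions
-/

namespace Pool.Agent.N493.PB

open PowerSeries Pool.Agent.N493.PA
open Pool.Agent.TH693.QQ (proj)

theorem app_io {a : ℕ+ →₀ F} {B : Finset ℕ+} (ha : a.support ⊆ B) (b : F) :
    app a (io b) = io (∑ m : B, a m * xp m b) := by
  unfold app Finsupp.sum
  rw [Finset.sum_subset ha (fun m _ hm => by
    beta_reduce
    rw [Finsupp.notMem_support_iff.1 hm, map_zero, zero_mul])]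
  rw [map_sum, ← Finset.sum_coe_sort B]
  refine Finset.sum_congr rfl fun m _ => ?_
  beta_reduce
  rw [dl_io, map_mul]

theorem app_lin {J : Type} [Fintype J] {a : ℕ+ →₀ F} {B : Finset ℕ+} (ha : a.support ⊆ B)
    (V : J → F) (g : J → S) : app a (∑ j, io (V j) * g j) =
      ∑ x : B × J, io (a x.1 * xp x.1 (V x.2)) * dl x.1 (g x.2) := by
  unfold app Finsupp.sum
  rw [Finset.sum_subset ha (fun m _ hm => by
    beta_reduce
    rw [Finsupp.notMem_support_iff.1 hm, map_zero, zero_mul])]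
  rw [← Finset.sum_coe_sort B, Fintype.sum_prod_type]
  refine Finset.sum_congr rfl fun m _ => ?_
  beta_reduce
  rw [map_sum, Finset.mul_sum]
  refine Finset.sum_congr rfl fun v _ => ?_
  rw [map_mul (dl _), dl_io, map_mul io, mul_assoc]

/-- the choice of the terms of the operator and of the modular functions -/
def Sel {J : Type} (σ : J → ℤ) (B : ℕ+) (n : J → ℕ) (A : J → Prop) : Prop :=
  ∃ (act : J → Prop) (U : ℕ+ → Prop), U 1 ∧ (∃ j, act j ∧ A j) ∧
    (∀ (m0 : ℕ+) (j0 : J), U m0 → act j0 → A j0 → ∀ (m : ℕ+) (j : J), A j →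
      (24 * B : ℤ) ∣ (m : ℕ) * σ j - (m0 : ℕ) * σ j0 → act j ∧ U m) ∧
    (∀ j, act j → A j → (24 * B : ℤ) * n j - σ j ≠ 0) ∧
    (∀ j j', act j → act j' → A j → A j' →
      (24 * B : ℤ) * n j - σ j = 24 * B * n j' - σ j' → j = j')

/-- the measure -/
theorem mt {J I : Type} [Fintype J] [Fintype I] (H : J → S) (σ : J → ℤ) (B : ℕ+)
    (hH : ∀ j, Pool.Agent.Y627.PT.AZ (Pool.Agent.TH693.QQ.T5.jj (dl B (H j))) (σ j))
    (good : J → Prop)
    (n : J → ℕ) (hn : ∀ j, H j ≠ 0 → coeff (n j) (H j) ≠ 0 ∧ ∀ k < n j, coeff k (H j) = 0)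
    (hsel : ∀ A : J → Prop, (∀ j, A j → H j ≠ 0) → (∃ j, good j ∧ A j) → Sel σ B n A)
    (f : I → S) (hf : Kill f) :
    ∃ C : ℕ, ∀ (h : ℕ) (V : J → F) (D : I → F) (b : F), (∀ j, (V j).natDegree ≤ h) →
      (∀ i, (D i).natDegree ≤ h) → b.natDegree ≤ h → (∃ j, good j ∧ V j ≠ 0 ∧ H j ≠ 0) →
      ∀ N, (X : S) ^ N ∣ ∑ j, io (V j) * H j + ∑ i, io (D i) * f i + io b → N ≤ C * (h + 1) := by
  classical
  obtain ⟨B0, C0, hB⟩ := hf
  obtain ⟨R, hR⟩ : ∃ R : ℕ, ∀ m ∈ B0, (m : ℕ) ≤ R := by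
    refine ⟨B0.sup fun m => (m : ℕ), fun m hm => Finset.le_sup (f := fun m : ℕ+ => (m : ℕ)) hm⟩
  obtain ⟨C1, hC1⟩ := Pool.Agent.R498.AU.lfor_ex (fun x : B0 × J => dl x.1 (H x.2)) B B.ne_zero
    (fun x => by
      apply Pool.Agent.TH693.QQ.T5.algOver_of_mem
      apply Pool.Agent.Y627.PT.mem_of_az (s := ((x.1 : ℕ+) : ℕ) * σ x.2)
      have h1 : Pool.Agent.Y627.PT.ex B B.ne_zero (dl x.1 (H x.2)) =
          Pool.Agent.Y627.PT.ex (x.1 : ℕ+) (x.1 : ℕ+).ne_zero (dl B (H x.2)) := by
        change dl B (dl x.1 (H x.2)) = dl x.1 (dl B (H x.2))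
        rw [dl_dl, dl_dl, mul_comm]
      rw [h1]
      exact Pool.Agent.Y627.PT.az_ex (x.1 : ℕ+).ne_zero (hH x.2))
  have hv : ∀ j, ∃ v : S, H j ≠ 0 → constantCoeff v ≠ 0 ∧ H j = X ^ n j * v := by
    intro j
    by_cases hgj : H j = 0
    · exact ⟨0, fun h => absurd hgj h⟩
    · obtain ⟨h2, h3⟩ := hn j hgj
      obtain ⟨v, hv⟩ := (PowerSeries.X_pow_dvd_iff (n := n j) (φ := H j)).2 h3
      refine ⟨v, fun _ => ⟨?_, hv⟩⟩
      rw [hv] at h2
      have h4 := PowerSeries.coeff_X_pow_mul v (n j) 0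
      rw [zero_add] at h4
      rwa [h4, coeff_zero_eq_constantCoeff_apply] at h2
  choose v hv using hv
  refine ⟨C1 * (C0 + R + 1), fun h V D b hVd hDd hbd hex N hN => ?_⟩
  obtain ⟨a, ha1, has, had, haa⟩ := hB h D hDd
  have h2 : app a (∑ j, io (V j) * H j + ∑ i, io (D i) * f i + io b) =
      ∑ x : B0 × J, io (a x.1 * xp x.1 (V x.2)) * dl x.1 (H x.2) +
        io (∑ m : B0, a m * xp m b) := by
    rw [app_add, app_add, haa, add_zero, app_lin has, app_io has]
  obtain ⟨act, U, u1, u2, u3, u4, u5⟩ := hsel (fun j => V j ≠ 0 ∧ H j ≠ 0) (fun j hj => hj.2) hex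
  have h3 := nv H σ B hH (fun j => V j ≠ 0 ∧ H j ≠ 0) V (fun j => Iff.rfl) act U u1 u3 n v hv u4 u5
    B0 a has ha1 u2 (∑ m : B0, a m * xp m b)
  have hN' := app_dvd a hN
  rw [h2] at hN'
  set h' := C0 * (h + 1) + h * R with hh'
  have hdeg : ∀ (m : B0) (p : F), p.natDegree ≤ h → (a m * xp m p).natDegree ≤ h' := by
    intro m p hp
    refine Polynomial.natDegree_mul_le.trans ?_
    rw [natDegree_xp]
    exact Nat.add_le_add (had _) (Nat.mul_le_mul hp (hR _ m.2))
  have h4 := hC1 h' (fun x => a x.1 * xp x.1 (V x.2)) (∑ m : B0, a m * xp m b)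
    (fun x => hdeg x.1 _ (hVd _))
    (Polynomial.natDegree_sum_le_of_forall_le _ _ fun m _ => hdeg m _ hbd) h3 N hN'
  refine h4.trans ?_
  rw [mul_assoc]
  refine Nat.mul_le_mul_left _ ?_
  rw [hh']
  nlinarith [Nat.zero_le R, Nat.zero_le h]

/-- the property of a family used in the pattern lemma -/
def MeasF {J : Type} [Fintype J] (good : J → Prop) (g : J → S) : Prop :=
  ∃ C : ℕ, ∀ (h : ℕ) (a : J → F) (b : F), (∀ j, (a j).natDegree ≤ h) → b.natDegree ≤ h →
    (∃ j, good j ∧ a j ≠ 0 ∧ g j ≠ 0) → ∀ N, (X : S) ^ N ∣ ∑ j, io (a j) * g j + io b →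
      N ≤ C * (h + 1)

/-- the pattern lemma -/
theorem pat {J : Type} [Fintype J] (good : J → Prop) (f : J → S) (M : ℕ) (hM : 0 < M)
    (hMF : MeasF (fun j : J × Fin M => good j.1) (fun j : J × Fin M => proj M j.2 (f j.1))) :
    ∃ C : ℕ, ∀ (L : ℕ) (c : J → Fin (L + 1) → ZMod 2) (ρ : ℕ),
      (∃ t i, good t ∧ c t i ≠ 0 ∧ proj M (ρ + i) (f t) ≠ 0) → ∀ (κ : ZMod 2) (A : ℕ),
      ∃ n, A ≤ n ∧ n ≤ C * (A + L + 1) ∧ n % M = ρ % M ∧
        ∑ t, ∑ i : Fin (L + 1), c t i * coeff (n + i) (f t) = κ := by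
  classical
  obtain ⟨C, hC⟩ := hMF
  refine ⟨C * (M + 1), fun L c ρ hc κ A => ?_⟩
  by_contra hcon
  push Not at hcon
  have h1 : ∀ a b : ZMod 2, a ≠ b → a = b + 1 := by decide
  set B := C * (M + 1) * (A + L + 1) with hB
  have hrun : ∀ n, A ≤ n → n ≤ B → n % M = ρ % M →
      ∑ t, ∑ i : Fin (L + 1), c t i * coeff (n + i) (f t) = κ + 1 :=
    fun n h2 h3 h4 => h1 _ _ (hcon n h2 h3 h4)
  -- the coefficients
  set a : J × Fin M → F := fun j => ∑ i : Fin (L + 1), if (ρ + i) % M = j.2 then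
    Polynomial.C (c j.1 i) * Polynomial.X ^ (L - i) else 0 with ha
  set l0 : S := ∑ j : J × Fin M, io (a j) * proj M j.2 (f j.1) with hl0
  have hco : ∀ n, coeff (n + L) l0 = if n % M = ρ % M then
      ∑ t, ∑ i : Fin (L + 1), c t i * coeff (n + i) (f t) else 0 := by
    intro n
    have e1 : ∀ j : J × Fin M, coeff (n + L) (io (a j) * proj M j.2 (f j.1)) =
        ∑ i : Fin (L + 1), if (ρ + i) % M = j.2 then
          c j.1 i * coeff (n + i) (proj M j.2 (f j.1)) else 0 := by
      intro j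
      rw [ha]
      simp only [map_sum, Finset.sum_mul]
      refine Finset.sum_congr rfl fun i _ => ?_
      split_ifs with h2
      · have h4 : io (Polynomial.C (c j.1 i) * Polynomial.X ^ (L - (i : ℕ))) =
            algebraMap (ZMod 2) S (c j.1 i) * X ^ (L - (i : ℕ)) := by
          rw [map_mul, map_pow, io_X, io_C]
        have h3 : n + L = (n + i) + (L - i) := by have := i.2; omega
        rw [h4, mul_assoc, h3, ← Algebra.smul_def, map_smul, PowerSeries.coeff_X_pow_mul,
          smul_eq_mul]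
      · rw [map_zero, zero_mul, map_zero]
    rw [hl0, map_sum, Finset.sum_congr rfl fun j _ => e1 j, Fintype.sum_prod_type]
    have e2 : ∀ t : J, ∑ r : Fin M, ∑ i : Fin (L + 1), (if (ρ + i) % M = (r : ℕ) then
        c t i * coeff (n + i) (proj M r (f t)) else 0) =
        ∑ i : Fin (L + 1), if n % M = ρ % M then c t i * coeff (n + i) (f t) else 0 := by
      intro t
      rw [Finset.sum_comm]
      refine Finset.sum_congr rfl fun i _ => ?_
      have hlt : (ρ + i) % M < M := Nat.mod_lt _ hM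
      rw [Finset.sum_eq_single (⟨(ρ + i) % M, hlt⟩ : Fin M)]
      · rw [if_pos rfl]
        unfold proj
        rw [coeff_mk]
        simp only [Nat.mod_mod]
        by_cases h2 : n % M = ρ % M
        · have h3 : (n + (i : ℕ)) % M = (ρ + i) % M := Nat.ModEq.add_right _ h2
          rw [if_pos h2, if_pos h3]
        · have h3 : ¬ (n + (i : ℕ)) % M = (ρ + i) % M := fun h3 =>
            h2 (Nat.ModEq.add_right_cancel' _ h3)
          rw [if_neg h2, if_neg h3, mul_zero]
      · intro r _ hr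
        rw [if_neg]
        intro h2
        exact hr (Fin.ext h2.symm)
      · intro h2
        exact absurd (Finset.mem_univ _) h2
    rw [Finset.sum_congr rfl fun t _ => e2 t]
    split_ifs
    · rfl
    · simp
  set U : F := 1 + Polynomial.X ^ M with hU
  have hU0 : U ≠ 0 := by
    intro h0
    have h1 := congrArg (fun g : F => g.coeff 0) h0
    simp only [hU, Polynomial.coeff_add, Polynomial.coeff_one, Polynomial.coeff_X_pow, hM.ne,
      if_true, if_false, add_zero, Polynomial.coeff_zero] at h1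
    exact one_ne_zero h1
  have hUd : U.natDegree ≤ M := by
    refine (Polynomial.natDegree_add_le _ _).trans (max_le (by simp) ?_)
    exact (Polynomial.natDegree_X_pow_le M)
  set g : S := io U * l0 with hg
  set b : F := PowerSeries.trunc (A + M + L) g with hb
  set a' : J × Fin M → F := fun j => U * a j with ha'
  have hlam : ∑ j : J × Fin M, io (a' j) * proj M j.2 (f j.1) + io b = g + io b := by
    rw [hg, hl0, Finset.mul_sum]
    congr 1
    refine Finset.sum_congr rfl fun j _ => ?_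
    rw [ha', map_mul, mul_assoc]
  have had : ∀ j, (a j).natDegree ≤ L := by
    intro j
    refine Polynomial.natDegree_sum_le_of_forall_le _ _ fun i _ => ?_
    split_ifs
    · refine (Polynomial.natDegree_C_mul_X_pow_le _ _).trans (Nat.sub_le _ _)
    · simp
  have ha'd : ∀ j, (a' j).natDegree ≤ A + M + L := by
    intro j
    refine Polynomial.natDegree_mul_le.trans ?_
    have := had j
    omega
  have hbd : b.natDegree ≤ A + M + L := by
    obtain ⟨q, hq⟩ : ∃ q, A + M + L = q + 1 := ⟨A + M + L - 1, by omega⟩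
    rw [hb, hq]
    exact (PowerSeries.natDegree_trunc_lt g q).le
  have hne : ∃ j : J × Fin M, good j.1 ∧ a' j ≠ 0 ∧ proj M j.2 (f j.1) ≠ 0 := by
    obtain ⟨t, i, hgt, hci, hpi⟩ := hc
    have hlt : (ρ + i) % M < M := Nat.mod_lt _ hM
    have hpe : proj M (ρ + i) (f t) = proj M ((ρ + i) % M) (f t) := by
      unfold proj
      simp only [Nat.mod_mod]
    refine ⟨(t, ⟨(ρ + i) % M, hlt⟩), hgt, ?_, by
      rw [hpe] at hpi
      exact hpi⟩
    intro h2
    have h3 : a (t, ⟨(ρ + i) % M, hlt⟩) = 0 := (mul_eq_zero.1 h2).resolve_left hU0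
    have h4 := congrArg (fun q : F => q.coeff (L - i)) h3
    simp only [ha, Polynomial.finsetSum_coeff, Polynomial.coeff_zero] at h4
    rw [Finset.sum_eq_single i] at h4
    · rw [if_pos rfl, Polynomial.coeff_C_mul, Polynomial.coeff_X_pow, if_pos rfl, mul_one] at h4
      exact hci h4
    · intro i' _ hi'
      split_ifs
      · rw [Polynomial.coeff_C_mul, Polynomial.coeff_X_pow, if_neg, mul_zero]
        intro h5
        apply hi'
        have q1 := i.2
        have q2 := i'.2
        exact Fin.ext (by omega)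
      · rw [Polynomial.coeff_zero]
    · intro h5
      exact absurd (Finset.mem_univ _) h5
  have hdvd : (X : S) ^ (B + L + 1) ∣ ∑ j : J × Fin M, io (a' j) * proj M j.2 (f j.1) + io b := by
    rw [hlam, PowerSeries.X_pow_dvd_iff]
    intro m hm
    rw [map_add, show coeff m (io b) = coeff m (b : S) from rfl, Polynomial.coeff_coe, hb,
      PowerSeries.coeff_trunc]
    split_ifs with h2
    · exact (by decide : ∀ a : ZMod 2, a + a = 0) _
    · rw [add_zero]
      obtain ⟨n, rfl⟩ : ∃ n, m = n + M + L := ⟨m - M - L, by omega⟩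
      have e : g = l0 + X ^ M * l0 := by
        rw [hg, hU, map_add, map_one, map_pow, io_X]
        ring
      have e3 : n + M + L = (n + L) + M := by ring
      rw [e, map_add]
      conv_lhs =>
        congr
        · rw [hco]
        · rw [e3, PowerSeries.coeff_X_pow_mul, hco]
      rw [Nat.add_mod_right]
      split_ifs with h5
      · rw [hrun n (by omega) (by omega) h5, hrun (n + M) (by omega) (by omega)
          (by rw [Nat.add_mod_right]; exact h5)]
        exact (by decide : ∀ a : ZMod 2, a + a = 0) _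
      · rw [add_zero]
  have h3 := hC (A + M + L) a' b ha'd hbd hne _ hdvd
  have h4 : C * (A + M + L + 1) ≤ C * (M + 1) * (A + L + 1) := by
    rw [mul_assoc]
    refine Nat.mul_le_mul_left _ ?_
    nlinarith [Nat.zero_le (M * A), Nat.zero_le (M * L)]
  omega

end Pool.Agent.N493.PB
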