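import Pool.Agent.N493.PB8

set_option autoImplicit false

/-!
# The main theorem for dilates and progressions
-/

namespace Pool.Agent.N493.PB

open PowerSeries Pool.Agent.N493.PA
open Pool.Agent.TH693.QQ (proj)
open Pool.Agent.Y627.PT (AZ Sec fn fn_rel)

/-- the order of a series -/
noncomputable def ordn (f : S) : ℕ := by
  classical
  exact if h : ∃ n, coeff n f ≠ 0 then Nat.find h else 0

theorem ordn_spec {f : S} (hf : f ≠ 0) : coeff (ordn f) f ≠ 0 ∧ ∀ k < ordn f, coeff k f = 0 := by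
  classical
  have h : ∃ n, coeff n f ≠ 0 := by
    by_contra hcon
    push Not at hcon
    exact hf (PowerSeries.ext fun n => by rw [hcon n, map_zero])
  have h1 : ordn f = Nat.find h := by
    unfold ordn
    rw [dif_pos h]
  rw [h1]
  refine ⟨Nat.find_spec h, fun k hk => ?_⟩
  by_contra hcon
  exact Nat.find_min h hk hcon

/-- the indices of the modular functions -/
abbrev Ix {Y : Type} (m : Y → ℕ) (M : ℕ) : Type := ((x : Y) × Fin (m x)) × Fin M

/-- the modular functions -/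
noncomputable def Hf {Y : Type} (G : Y → S) (m : Y → ℕ) (M : ℕ) (j : Ix m M) : S :=
  proj M j.2 (fn (G j.1.1) (m j.1.1) j.1.2)

/-- their exponents -/
def sg {Y : Type} (τ : Y → ℤ) (m : Y → ℕ) (M : ℕ) (B : ℕ) (j : Ix m M) : ℤ :=
  (B / m j.1.1 : ℕ) * (τ j.1.1 - 24 * (j.1.2 : ℕ))

/-- the first index with nonzero coefficient in the class -/
noncomputable def idx {Y : Type} (G : Y → S) (m : Y → ℕ) (M : ℕ) (j : Ix m M) : ℕ :=
  m j.1.1 * ordn (Hf G m M j) + j.1.2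

theorem ord_mod {Y : Type} (G : Y → S) (m : Y → ℕ) (M : ℕ) (j : Ix m M) (hj : Hf G m M j ≠ 0) :
    ordn (Hf G m M j) % M = j.2 := by
  have h1 := (ordn_spec hj).1
  have h2 := proj_supp (y := fn (G j.1.1) (m j.1.1) j.1.2) (M := M) (r := j.2) h1
  rw [h2, Nat.mod_eq_of_lt j.2.2]

theorem idx_inj {Y : Type} (G : Y → S) (m : Y → ℕ) (M : ℕ) (j j' : Ix m M)
    (hj : Hf G m M j ≠ 0) (hj' : Hf G m M j' ≠ 0) (hx : j.1.1 = j'.1.1)
    (h : idx G m M j = idx G m M j') : j = j' := by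
  obtain ⟨⟨x, i⟩, r⟩ := j
  obtain ⟨⟨x', i'⟩, r'⟩ := j'
  simp only at hx
  subst hx
  have h1 := ord_mod G m M _ hj
  have h2 := ord_mod G m M _ hj'
  unfold idx at h
  simp only at h h1 h2
  set o := ordn (Hf G m M (⟨x, i⟩, r)) with ho
  set o' := ordn (Hf G m M (⟨x, i'⟩, r')) with ho'
  have h3 : (i : ℕ) = i' := by
    have h4 := congrArg (fun z => z % m x) h
    simp only [Nat.mul_add_mod, Nat.mod_eq_of_lt i.2, Nat.mod_eq_of_lt i'.2] at h4
    exact h4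
  have h5 : o = o' := by
    have hm : 0 < m x := by have := i.2; omega
    apply Nat.eq_of_mul_eq_mul_left hm
    omega
  rw [h5] at h1
  have h6 : (r : ℕ) = r' := by rw [← h1, ← h2]
  rw [Fin.ext h3, Fin.ext h6]

theorem w_eq {Y : Type} (G : Y → S) (τ : Y → ℤ) (m : Y → ℕ) (M : ℕ) (B : ℕ)
    (hB : ∀ x, m x ∣ B) (j : Ix m M) :
    (24 * B : ℤ) * ordn (Hf G m M j) - sg τ m M B j =
      (B / m j.1.1 : ℕ) * (24 * (idx G m M j : ℤ) - τ j.1.1) := by
  unfold sg idx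
  have h1 : (B : ℤ) = (m j.1.1 : ℕ) * (B / m j.1.1 : ℕ) := by
    have h2 := Nat.mul_div_cancel' (hB j.1.1)
    exact_mod_cast h2.symm
  generalize hE : ((B / m j.1.1 : ℕ) : ℤ) = e at *
  rw [h1]
  push_cast
  ring

theorem az_shift {f : Pool.Agent.TH693.QQ.Lk} {k : ℕ} {s : ℤ}
    (h : AZ (Pool.Agent.Y627.PT.xx ^ k * f) (24 * k + s)) : AZ f s := by
  unfold AZ at h ⊢
  convert h using 1
  rw [mul_pow, neg_add, zpow_add₀ Pool.Agent.Y627.PT.xx_ne]
  have h1 : (Pool.Agent.Y627.PT.xx ^ k) ^ 24 * Pool.Agent.Y627.PT.xx ^ (-(24 * (k : ℤ))) = 1 := by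
    rw [← pow_mul, ← zpow_natCast, ← zpow_add₀ Pool.Agent.Y627.PT.xx_ne]
    have : ((k * 24 : ℕ) : ℤ) + -(24 * (k : ℤ)) = 0 := by push_cast; ring
    rw [this, zpow_zero]
  calc f ^ 24 * Pool.Agent.Y627.PT.xx ^ (-s) = ((Pool.Agent.Y627.PT.xx ^ k) ^ 24 *
        Pool.Agent.Y627.PT.xx ^ (-(24 * (k : ℤ)))) * (f ^ 24 * Pool.Agent.Y627.PT.xx ^ (-s)) := by
        rw [h1, one_mul]
    _ = _ := by ring

theorem az_Hf {Y : Type} (G : Y → S) (τ : Y → ℤ) (hG : ∀ x, Sec (G x) (τ x)) (m : Y → ℕ)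
    (M : ℕ) (hM : 0 < M) (B : ℕ+) (hB : ∀ x, m x ∣ B) (j : Ix m M) :
    AZ (Pool.Agent.TH693.QQ.T5.jj (dl B (Hf G m M j))) (sg τ m M B j) := by
  obtain ⟨e, he⟩ := hB j.1.1
  have hm : 0 < m j.1.1 := by have := j.1.2.2; omega
  have he0 : e ≠ 0 := by
    rintro rfl
    rw [mul_zero] at he
    exact B.ne_zero he
  have hdiv : (B : ℕ) / m j.1.1 = e := by rw [he, Nat.mul_div_cancel_left _ hm]
  have h2 := fn_rel (G j.1.1) (m j.1.1) j.1.2 e j.2 M B (by rw [he]; ring) B.ne_zero he0 j.1.2.2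
  have h3 := Pool.Agent.Y627.PT.az_ex he0 (hG j.1.1 (m j.1.1 * M) (m j.1.1 * j.2 + j.1.2)
    (Nat.mul_pos hm hM))
  rw [← h2, map_mul, map_pow] at h3
  apply az_shift (k := (j.1.2 : ℕ) * e)
  unfold sg
  rw [hdiv]
  have h4 : (24 * (((j.1.2 : ℕ) * e : ℕ) : ℤ) + (e : ℤ) * (τ j.1.1 - 24 * ((j.1.2 : ℕ) : ℤ))) =
      (e : ℤ) * τ j.1.1 := by
    push_cast
    ring
  rw [h4]
  exact h3

/-- **the main theorem** -/
theorem main {Y Z : Type} [Fintype Y] [Fintype Z] (G : Y → S) (τ : Y → ℤ)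
    (hG : ∀ x, Sec (G x) (τ x)) (m : Y → ℕ) (hm : ∀ x, 0 < m x) (M : ℕ) (hM : 0 < M)
    (good : Y → Prop) (B : ℕ+) (hB : ∀ x, m x ∣ B)
    (hsel : ∀ A : Ix m M → Prop, (∀ j, A j → Hf G m M j ≠ 0) → (∃ j, good j.1.1 ∧ A j) →
      Sel (sg τ m M B) B (fun j => ordn (Hf G m M j)) A)
    (u : Z → S) (hu : ∀ z, Mahler (u z)) :
    ∃ C : ℕ, ∀ (K : ℕ) (c : Y → ℕ → ZMod 2) (d : Z → ℕ → ZMod 2) (ρ : ℕ),
      (∃ x, good x ∧ ∃ i < K, c x i ≠ 0 ∧ proj (m x * M) (m x * ρ + i) (G x) ≠ 0) →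
      ∀ (κ : ZMod 2) (A : ℕ), ∃ n, A ≤ n ∧ n ≤ C * (A + K) ∧ n % M = ρ % M ∧
        ∑ x, ∑ i ∈ Finset.range K, c x i * coeff (m x * n + i) (G x) +
          ∑ z, ∑ i ∈ Finset.range K, d z i * coeff (n + i) (u z) = κ := by
  classical
  set f : ((x : Y) × Fin (m x)) ⊕ Z → S :=
    Sum.elim (fun j => fn (G j.1) (m j.1) j.2) u with hf
  set good' : ((x : Y) × Fin (m x)) ⊕ Z → Prop :=
    Sum.elim (fun j => good j.1) (fun _ => False) with hgood
  have hMF : MeasF (fun j : (((x : Y) × Fin (m x)) ⊕ Z) × Fin M => good' j.1)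
      (fun j : (((x : Y) × Fin (m x)) ⊕ Z) × Fin M => proj M j.2 (f j.1)) := by
    have hkill : Kill (fun x : Z × Fin M => proj M x.2 (u x.1)) :=
      mahler_kill _ fun x => mahler_proj (hu x.1) ⟨M, hM⟩ x.2
    obtain ⟨C, hC⟩ := mt (Hf G m M) (sg τ m M B) B (az_Hf G τ hG m M hM B hB)
      (fun j => good j.1.1) (fun j => ordn (Hf G m M j)) (fun j hj => ordn_spec hj) hsel _ hkill
    refine ⟨C, fun h a b ha hb hex N hN => ?_⟩
    refine hC h (fun j => a (Sum.inl j.1, j.2)) (fun x => a (Sum.inr x.1, x.2)) b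
      (fun j => ha _) (fun x => ha _) hb ?_ N ?_
    · obtain ⟨⟨j | z, r⟩, h1, h2, h3⟩ := hex
      · exact ⟨(j, r), h1, h2, h3⟩
      · exact absurd h1 id
    · convert hN using 2
      rw [Fintype.sum_prod_type, Fintype.sum_prod_type, Fintype.sum_prod_type,
        Fintype.sum_sum_type]
      rfl
  obtain ⟨C, hC⟩ := pat good' f M hM hMF
  refine ⟨2 * C, fun K c d ρ hc κ A => ?_⟩
  set c' : ((x : Y) × Fin (m x)) ⊕ Z → Fin (K + 1) → ZMod 2 := Sum.elim (fun j l =>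
    if m j.1 * l + j.2 < K then c j.1 (m j.1 * l + j.2) else 0)
    (fun z l => if (l : ℕ) < K then d z l else 0) with hc'
  have hK : 0 < K := by
    obtain ⟨_, _, i0, hi0, -⟩ := hc
    omega
  obtain ⟨n, h1, h2, h4, h5⟩ := hC K c' ρ (by
    obtain ⟨x, g1, i0, hi0, hne, hpr⟩ := hc
    have hlt := Nat.mod_lt i0 (hm x)
    have hdm := Nat.div_add_mod i0 (m x)
    have hle := Nat.div_le_self i0 (m x)
    refine ⟨Sum.inl ⟨x, ⟨i0 % m x, hlt⟩⟩, ⟨i0 / m x, by omega⟩, g1, ?_, ?_⟩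
    · rw [hc']
      simp only [Sum.elim_inl]
      rw [hdm, if_pos hi0]
      exact hne
    · rw [hf]
      simp only [Sum.elim_inl]
      intro h0
      apply hpr
      have h6 := fn_rel (G x) (m x) (i0 % m x) 1 (ρ + i0 / m x) M (m x) (one_mul _).symm
        (hm x).ne' one_ne_zero hlt
      rw [h0, map_zero, mul_zero, Pool.Agent.Y627.PT.ex_one] at h6
      have h8 : m x * (ρ + i0 / m x) + i0 % m x = m x * ρ + i0 := by rw [mul_add]; omega
      rw [h8] at h6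
      exact h6.symm) κ A
  refine ⟨n, h1, ?_, h4, ?_⟩
  · refine h2.trans ?_
    have : C * (A + K + 1) ≤ C * (2 * (A + K)) := Nat.mul_le_mul_left _ (by omega)
    refine this.trans (le_of_eq ?_)
    ring
  · rw [← h5, Fintype.sum_sum_type, Fintype.sum_sigma]
    congr 1
    · refine Finset.sum_congr rfl fun x _ => ?_
      rw [← Pool.Agent.Y627.PT.sum_split (m x) K (hm x)
        (fun i => c x i * coeff (m x * n + i) (G x)), Finset.sum_range]
      refine Finset.sum_congr rfl fun i0 _ => ?_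
      rw [Finset.sum_range]
      refine Finset.sum_congr rfl fun l _ => ?_
      rw [hc', hf]
      simp only [Sum.elim_inl]
      rw [fn, coeff_mk]
      rw [show m x * (n + (l : ℕ)) + (i0 : ℕ) = m x * n + (m x * l + i0) by ring]
      split_ifs
      · rfl
      · rw [zero_mul]
    · refine Finset.sum_congr rfl fun z _ => ?_
      rw [hc', hf]
      simp only [Sum.elim_inr]
      rw [Fin.sum_univ_castSucc, Finset.sum_range]
      simp only [Fin.val_castSucc, Fin.val_last, lt_irrefl, if_false, zero_mul, add_zero]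
      refine Finset.sum_congr rfl fun l _ => ?_
      rw [if_pos l.2]

end Pool.Agent.N493.PB
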