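import Pool.Agent.N493.PB9

set_option autoImplicit false

/-!
# The selection of the terms
-/

namespace Pool.Agent.N493.PB

open PowerSeries Pool.Agent.N493.PA

theorem val_lem {p : ℕ} (hp : p.Prime) (m m0 μ μ0 : ℕ) (hm : m ≠ 0) (hm0 : m0 ≠ 0) (hμ : μ ≠ 0)
    (u u0 : ℤ) (hu : ¬ (p : ℤ) ∣ u) (hu0 : ¬ (p : ℤ) ∣ u0) (hμ0 : ¬ p ∣ μ0)
    (h : (p * m * m0 : ℤ) ∣ μ * m0 * u - μ0 * m * u0) :
    m.factorization p = m0.factorization p + μ.factorization p := by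
  set a := m.factorization p with ha
  set b := m0.factorization p with hb
  set c := μ.factorization p with hc
  obtain ⟨m', hm', hpm⟩ : ∃ m', m = p ^ a * m' ∧ ¬ p ∣ m' :=
    ⟨_, (Nat.ordProj_mul_ordCompl_eq_self m p).symm, Nat.not_dvd_ordCompl hp hm⟩
  obtain ⟨m0', hm0', hpm0⟩ : ∃ m', m0 = p ^ b * m' ∧ ¬ p ∣ m' :=
    ⟨_, (Nat.ordProj_mul_ordCompl_eq_self m0 p).symm, Nat.not_dvd_ordCompl hp hm0⟩
  obtain ⟨μ', hμ', hpμ⟩ : ∃ m', μ = p ^ c * m' ∧ ¬ p ∣ m' :=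
    ⟨_, (Nat.ordProj_mul_ordCompl_eq_self μ p).symm, Nat.not_dvd_ordCompl hp hμ⟩
  have hpz : Prime (p : ℤ) := Nat.prime_iff_prime_int.1 hp
  have hnd : ∀ k : ℕ, ¬ p ∣ k → ¬ (p : ℤ) ∣ (k : ℤ) := fun k hk h => hk (by exact_mod_cast h)
  have hx : (μ * m0 * u : ℤ) = (p : ℤ) ^ (b + c) * (μ' * m0' * u) := by
    rw [hμ', hm0']
    push_cast
    ring
  have hy : (μ0 * m * u0 : ℤ) = (p : ℤ) ^ a * (μ0 * m' * u0) := by
    rw [hm']
    push_cast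
    ring
  have hD : (p : ℤ) ^ (1 + a + b) ∣ μ * m0 * u - μ0 * m * u0 := by
    refine dvd_trans ⟨m' * m0', ?_⟩ h
    rw [hm', hm0']
    push_cast
    ring
  have hp0 : (p : ℤ) ≠ 0 := hpz.ne_zero
  rcases lt_trichotomy a (b + c) with hlt | heq | hgt
  · exfalso
    have h1 : (p : ℤ) ^ (a + 1) ∣ μ * m0 * u := by
      rw [hx]
      exact (pow_dvd_pow _ hlt).mul_right _
    have h2 : (p : ℤ) ^ (a + 1) ∣ μ * m0 * u - μ0 * m * u0 :=
      (pow_dvd_pow _ (by omega)).trans hD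
    have h3 : (p : ℤ) ^ (a + 1) ∣ μ0 * m * u0 := (dvd_sub_right h1).1 h2
    rw [hy, pow_succ] at h3
    have h4 := (mul_dvd_mul_iff_left (pow_ne_zero a hp0)).1 h3
    rcases hpz.dvd_or_dvd h4 with h5 | h5
    · rcases hpz.dvd_or_dvd h5 with h6 | h6
      · exact hnd _ hμ0 h6
      · exact hnd _ hpm h6
    · exact hu0 h5
  · exact heq
  · exfalso
    have h1 : (p : ℤ) ^ (b + c + 1) ∣ μ0 * m * u0 := by
      rw [hy]
      exact (pow_dvd_pow _ hgt).mul_right _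
    have h2 : (p : ℤ) ^ (b + c + 1) ∣ μ * m0 * u - μ0 * m * u0 :=
      (pow_dvd_pow _ (by omega)).trans hD
    have h3 : (p : ℤ) ^ (b + c + 1) ∣ μ * m0 * u := (dvd_sub_left h1).1 h2
    rw [hx, pow_succ] at h3
    have h4 := (mul_dvd_mul_iff_left (pow_ne_zero (b + c) hp0)).1 h3
    rcases hpz.dvd_or_dvd h4 with h5 | h5
    · rcases hpz.dvd_or_dvd h5 with h6 | h6
      · exact hnd _ hpμ h6
      · exact hnd _ hpm0 h6
    · exact hu h5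

theorem idx_coeff {Y : Type} (G : Y → S) (m : Y → ℕ) (M : ℕ) (j : Ix m M)
    (hj : Hf G m M j ≠ 0) : coeff (idx G m M j) (G j.1.1) ≠ 0 := by
  have h1 := (ordn_spec hj).1
  intro h2
  apply h1
  unfold Hf
  rw [Pool.Agent.TH693.QQ.proj, coeff_mk]
  split_ifs
  · rw [Pool.Agent.Y627.PT.fn, coeff_mk]
    exact h2
  · rfl

theorem w_ne {Y : Type} (G : Y → S) (τ : Y → ℤ) (m : Y → ℕ) (M : ℕ) (B : ℕ+)
    (hB : ∀ x, m x ∣ B) (j : Ix m M) (hj : Hf G m M j ≠ 0)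
    (h0 : ∀ N, coeff N (G j.1.1) ≠ 0 → (24 : ℤ) * N ≠ τ j.1.1) :
    (24 * B : ℤ) * ordn (Hf G m M j) - sg τ m M B j ≠ 0 := by
  have h := w_eq G τ m M B hB j
  rw [h]
  have hm : 0 < m j.1.1 := by have := j.1.2.2; omega
  refine mul_ne_zero ?_ ?_
  · have h1 : 0 < (B : ℕ) / m j.1.1 := Nat.div_pos (Nat.le_of_dvd B.pos (hB _)) hm
    exact_mod_cast h1.ne'
  · intro h2
    exact h0 _ (idx_coeff G m M j hj) (by linear_combination h2)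

theorem w_inj {Y : Type} (G : Y → S) (τ : Y → ℤ) (m : Y → ℕ) (M : ℕ) (B : ℕ+)
    (hB : ∀ x, m x ∣ B) (j j' : Ix m M) (hj : Hf G m M j ≠ 0) (hj' : Hf G m M j' ≠ 0)
    (hd : j.1.1 ≠ j'.1.1 → ∀ N N', coeff N (G j.1.1) ≠ 0 → coeff N' (G j'.1.1) ≠ 0 →
      (m j'.1.1 : ℤ) * (24 * N - τ j.1.1) ≠ m j.1.1 * (24 * N' - τ j'.1.1))
    (h : (24 * B : ℤ) * ordn (Hf G m M j) - sg τ m M B j =
      24 * B * ordn (Hf G m M j') - sg τ m M B j') : j = j' := by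
  have e1 := w_eq G τ m M B hB j
  have e2 := w_eq G τ m M B hB j'
  rw [e1, e2] at h
  have hm : 0 < m j.1.1 := by have := j.1.2.2; omega
  have hm' : 0 < m j'.1.1 := by have := j'.1.2.2; omega
  by_cases hx : j.1.1 = j'.1.1
  · apply idx_inj G m M j j' hj hj' hx
    rw [hx] at h
    have h1 : 0 < (B : ℕ) / m j'.1.1 := Nat.div_pos (Nat.le_of_dvd B.pos (hB _)) hm'
    have h2 : (((B : ℕ) / m j'.1.1 : ℕ) : ℤ) ≠ 0 := by exact_mod_cast h1.ne'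
    have h3 := mul_left_cancel₀ h2 h
    omega
  · exfalso
    refine hd hx _ _ (idx_coeff G m M j hj) (idx_coeff G m M j' hj') ?_
    have b1 : ((m j.1.1 : ℕ) : ℤ) * ((B : ℕ) / m j.1.1 : ℕ) = (B : ℕ) := by
      exact_mod_cast Nat.mul_div_cancel' (hB j.1.1)
    have b2 : ((m j'.1.1 : ℕ) : ℤ) * ((B : ℕ) / m j'.1.1 : ℕ) = (B : ℕ) := by
      exact_mod_cast Nat.mul_div_cancel' (hB j'.1.1)
    set e := (((B : ℕ) / m j.1.1 : ℕ) : ℤ) with he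
    set e' := (((B : ℕ) / m j'.1.1 : ℕ) : ℤ) with he'
    set N : ℤ := (idx G m M j : ℤ) with hN
    set N' : ℤ := (idx G m M j' : ℤ) with hN'
    have hBz : (((B : ℕ)) : ℤ) ≠ 0 := by exact_mod_cast B.ne_zero
    apply mul_left_cancel₀ hBz
    calc ((B : ℕ) : ℤ) * (((m j'.1.1 : ℕ) : ℤ) * (24 * N - τ j.1.1)) =
          ((m j.1.1 : ℕ) : ℤ) * ((m j'.1.1 : ℕ) : ℤ) * (e * (24 * N - τ j.1.1)) := by
            rw [← b1]; ring
        _ = ((m j.1.1 : ℕ) : ℤ) * ((m j'.1.1 : ℕ) : ℤ) * (e' * (24 * N' - τ j'.1.1)) := by rw [h]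
        _ = (((m j'.1.1 : ℕ) : ℤ) * e') * (((m j.1.1 : ℕ) : ℤ) * (24 * N' - τ j'.1.1)) := by ring
        _ = _ := by rw [b2]

/-- the selection; `P` is a set of prime divisors of 24 -/
theorem sel {Y : Type} [Fintype Y] (G : Y → S) (τ : Y → ℤ) (m : Y → ℕ) (hm : ∀ x, 0 < m x)
    (M : ℕ) (B : ℕ+) (hB : ∀ x, m x ∣ B) (R : Y → Prop) (P : Finset ℕ)
    (hP : ∀ p ∈ P, p.Prime ∧ p ∣ 24)
    (hR : ∀ x, R x → ∀ p ∈ P, ¬ (p : ℤ) ∣ τ x)
    (hI : ∀ x, ¬ R x → ∃ p ∈ P, (p : ℤ) ∣ τ x ∧ ¬ p ∣ m x)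
    (h0 : ∀ x, R x → ∀ N, coeff N (G x) ≠ 0 → (24 : ℤ) * N ≠ τ x)
    (hd : ∀ x y, R x → R y → x ≠ y → ∀ N N', coeff N (G x) ≠ 0 → coeff N' (G y) ≠ 0 →
      (m y : ℤ) * (24 * N - τ x) ≠ m x * (24 * N' - τ y))
    (A : Ix m M → Prop) (hA : ∀ j, A j → Hf G m M j ≠ 0) (hex : ∃ j, R j.1.1 ∧ A j) :
    Sel (sg τ m M B) B (fun j => ordn (Hf G m M j)) A := by
  classical
  set κ : Ix m M → ℕ := fun j => ∑ p ∈ P, (m j.1.1).factorization p with hκ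
  obtain ⟨js, hjs, hmax⟩ := (Finset.univ.filter fun j : Ix m M => R j.1.1 ∧ A j).exists_max_image κ
    (by
      obtain ⟨j, hj⟩ := hex
      exact ⟨j, Finset.mem_filter.2 ⟨Finset.mem_univ _, hj⟩⟩)
  have hjs' := (Finset.mem_filter.1 hjs).2
  refine ⟨fun j => R j.1.1 ∧ ∀ p ∈ P, (m j.1.1).factorization p = (m js.1.1).factorization p,
    fun μ => ∀ p ∈ P, ¬ p ∣ (μ : ℕ), ?_, ⟨js, ⟨hjs'.1, fun _ _ => rfl⟩, hjs'.2⟩, ?_, ?_, ?_⟩
  · intro p hp h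
    rw [PNat.one_coe] at h
    exact (hP p hp).1.one_lt.ne' (Nat.dvd_one.1 h)
  · rintro μ0 j0 hμ0 ⟨hR0, hf0⟩ hA0 μ j hAj hdvd
    have hm0 := hm j0.1.1
    have hmj := hm j.1.1
    have b1 : ((m j.1.1 : ℕ) : ℤ) * ((B : ℕ) / m j.1.1 : ℕ) = (B : ℕ) := by
      exact_mod_cast Nat.mul_div_cancel' (hB j.1.1)
    have b2 : ((m j0.1.1 : ℕ) : ℤ) * ((B : ℕ) / m j0.1.1 : ℕ) = (B : ℕ) := by
      exact_mod_cast Nat.mul_div_cancel' (hB j0.1.1)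
    have hBz : (((B : ℕ)) : ℤ) ≠ 0 := by exact_mod_cast B.ne_zero
    have hstar : (24 * m j.1.1 * m j0.1.1 : ℤ) ∣
        (μ : ℕ) * m j0.1.1 * (τ j.1.1 - 24 * (j.1.2 : ℕ)) -
        (μ0 : ℕ) * m j.1.1 * (τ j0.1.1 - 24 * (j0.1.2 : ℕ)) := by
      obtain ⟨k, hk⟩ := hdvd
      unfold sg at hk
      refine ⟨k, ?_⟩
      apply mul_left_cancel₀ hBz
      set e := (((B : ℕ) / m j.1.1 : ℕ) : ℤ) with he
      set e' := (((B : ℕ) / m j0.1.1 : ℕ) : ℤ) with he'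
      have hBB : ((B : ℕ) : ℤ) = (B : ℤ) := rfl
      calc ((B : ℕ) : ℤ) * ((μ : ℕ) * m j0.1.1 * (τ j.1.1 - 24 * (j.1.2 : ℕ)) -
          (μ0 : ℕ) * m j.1.1 * (τ j0.1.1 - 24 * (j0.1.2 : ℕ))) =
          (((m j.1.1 : ℕ) : ℤ) * e) * ((μ : ℕ) * m j0.1.1 * (τ j.1.1 - 24 * (j.1.2 : ℕ))) -
          (((m j0.1.1 : ℕ) : ℤ) * e') *
            ((μ0 : ℕ) * m j.1.1 * (τ j0.1.1 - 24 * (j0.1.2 : ℕ))) := by rw [b1, b2]; ring
        _ = ((m j.1.1 : ℕ) : ℤ) * ((m j0.1.1 : ℕ) : ℤ) *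
            ((μ : ℕ) * (e * (τ j.1.1 - 24 * (j.1.2 : ℕ))) -
              (μ0 : ℕ) * (e' * (τ j0.1.1 - 24 * (j0.1.2 : ℕ)))) := by ring
        _ = ((m j.1.1 : ℕ) : ℤ) * ((m j0.1.1 : ℕ) : ℤ) * (24 * (B : ℤ) * k) := by rw [hk]
        _ = _ := by rw [hBB]; ring
    have hcop : ∀ (j : Ix m M), R j.1.1 → ∀ p ∈ P, ¬ (p : ℤ) ∣ τ j.1.1 - 24 * (j.1.2 : ℕ) := by
      intro j hj p hp h
      apply hR j.1.1 hj p hp
      have h1 : (p : ℤ) ∣ 24 * (j.1.2 : ℕ) := by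
        have : (p : ℤ) ∣ 24 := by exact_mod_cast (hP p hp).2
        exact this.mul_right _
      exact (dvd_sub_left h1).1 h
    by_cases hRj : R j.1.1
    · have hval : ∀ p ∈ P, (m j.1.1).factorization p =
          (m j0.1.1).factorization p + (μ : ℕ).factorization p := by
        intro p hp
        refine val_lem (hP p hp).1 _ _ _ _ hmj.ne' hm0.ne' μ.ne_zero _ _ (hcop j hRj p hp)
          (hcop j0 hR0 p hp) (hμ0 p hp) ?_
        refine dvd_trans ?_ hstar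
        refine mul_dvd_mul_right (mul_dvd_mul_right ?_ _) _
        exact_mod_cast (hP p hp).2
      have hle := hmax j (Finset.mem_filter.2 ⟨Finset.mem_univ _, hRj, hAj⟩)
      have hsum : κ j = κ js + ∑ p ∈ P, (μ : ℕ).factorization p := by
        rw [hκ]
        simp only
        rw [Finset.sum_congr rfl hval, Finset.sum_add_distrib, Finset.sum_congr rfl hf0]
      have hzero : ∑ p ∈ P, (μ : ℕ).factorization p = 0 := by omega
      have hz := (Finset.sum_eq_zero_iff.1 hzero)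
      refine ⟨⟨hRj, fun p hp => ?_⟩, fun p hp hpm => ?_⟩
      · rw [hval p hp, hz p hp, add_zero, hf0 p hp]
      · have h1 := (hP p hp).1.factorization_pos_of_dvd μ.ne_zero hpm
        have h2 := hz p hp
        omega
    · exfalso
      obtain ⟨p, hp, hpτ, hpm⟩ := hI j.1.1 hRj
      have hpz : Prime (p : ℤ) := Nat.prime_iff_prime_int.1 (hP p hp).1
      have hp24 : (p : ℤ) ∣ 24 := by exact_mod_cast (hP p hp).2
      have h1 : (p : ℤ) ∣ (μ : ℕ) * m j0.1.1 * (τ j.1.1 - 24 * (j.1.2 : ℕ)) :=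
        (dvd_sub hpτ (hp24.mul_right _)).mul_left _
      have h2 : (p : ℤ) ∣ (μ : ℕ) * m j0.1.1 * (τ j.1.1 - 24 * (j.1.2 : ℕ)) -
          (μ0 : ℕ) * m j.1.1 * (τ j0.1.1 - 24 * (j0.1.2 : ℕ)) :=
        ((hp24.mul_right _).mul_right _).trans hstar
      have h3 := (dvd_sub_right h1).1 h2
      rcases hpz.dvd_or_dvd h3 with h4 | h4
      · rcases hpz.dvd_or_dvd h4 with h5 | h5
        · exact hμ0 p hp (by exact_mod_cast h5)
        · exact hpm (by exact_mod_cast h5)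
      · exact hcop j0 hR0 p hp h4
  · rintro j ⟨hRj, -⟩ hAj
    exact w_ne G τ m M B hB j (hA j hAj) (h0 _ hRj)
  · rintro j j' ⟨hRj, -⟩ ⟨hRj', -⟩ hAj hAj' h
    exact w_inj G τ m M B hB j j' (hA j hAj) (hA j' hAj') (fun hne => hd _ _ hRj hRj' hne) h

/-- the congruence condition implies that the supports are disjoint -/
theorem disj_of_congr (a b : ℕ) (ha : 0 < a) (s t : ℤ)
    (h : ¬ (24 : ℤ) ∣ s * (b / Nat.gcd a b : ℕ) - t * (a / Nat.gcd a b : ℕ)) (N N' : ℤ) :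
    (b : ℤ) * (24 * N - s) ≠ a * (24 * N' - t) := by
  intro h1
  apply h
  set g := Nat.gcd a b with hg
  have hg0 : 0 < g := Nat.gcd_pos_of_pos_left _ ha
  obtain ⟨α, hα⟩ := Nat.gcd_dvd_left a b
  obtain ⟨β, hβ⟩ := Nat.gcd_dvd_right a b
  rw [← hg] at hα hβ
  have f1 : a / g = α := by rw [hα, Nat.mul_div_cancel_left _ hg0]
  have f2 : b / g = β := by rw [hβ, Nat.mul_div_cancel_left _ hg0]
  rw [f1, f2]
  have a1 : (a : ℤ) = g * α := by exact_mod_cast hα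
  have a2 : (b : ℤ) = g * β := by exact_mod_cast hβ
  have hgz : (g : ℤ) ≠ 0 := by exact_mod_cast hg0.ne'
  rw [a1, a2] at h1
  have h2 : (β : ℤ) * (24 * N - s) = α * (24 * N' - t) := by
    apply mul_left_cancel₀ hgz
    linear_combination h1
  exact ⟨β * N - α * N', by linear_combination -h2⟩

end Pool.Agent.N493.PB
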