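import Pool.Agent.N493.PC1
import Mathlib.LinearAlgebra.Matrix.Transvection

set_option autoImplicit false

/-!
# Echelon families of series
-/

namespace Pool.Agent.N493.PB

open PowerSeries Pool.Agent.N493.PA

/-- the transformed family -/
noncomputable def comb {J : Type} [Fintype J] (T : Matrix J J (ZMod 2)) (H : J → S) (i : J) : S :=
  ∑ j, T i j • H j

theorem comb_mul {J : Type} [Fintype J] (A B : Matrix J J (ZMod 2)) (H : J → S) (i : J) :
    comb (A * B) H i = comb A (comb B H) i := by
  unfold comb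
  simp only [Matrix.mul_apply, Finset.smul_sum, Finset.sum_smul, smul_smul]
  rw [Finset.sum_comm]

theorem comb_one {J : Type} [Fintype J] [DecidableEq J] (H : J → S) (i : J) :
    comb 1 H i = H i := by
  unfold comb
  rw [Finset.sum_eq_single i]
  · rw [Matrix.one_apply_eq, one_smul]
  · intro j _ hj
    rw [Matrix.one_apply_ne (Ne.symm hj), zero_smul]
  · intro h
    exact absurd (Finset.mem_univ _) h

theorem echelon {J : Type} [Fintype J] [DecidableEq J] (H : J → S) (σ : J → ℤ) :
    ∃ T T' : Matrix J J (ZMod 2), T' * T = 1 ∧ (∀ i j, T i j ≠ 0 → σ i = σ j) ∧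
      ∀ i j, σ i = σ j → comb T H i ≠ 0 → comb T H j ≠ 0 →
        ordn (comb T H i) = ordn (comb T H j) → i = j := by
  classical
  set BIG : ℕ := 1 + ∑ ε : J → ZMod 2, ordn (∑ j, ε j • H j) with hBIG
  set φ : S → ℕ := fun h => if h = 0 then BIG else ordn h with hφ
  have hle : ∀ (T : Matrix J J (ZMod 2)) i, ordn (comb T H i) < BIG := by
    intro T i
    have h1 : ordn (∑ j, T i j • H j) ≤ ∑ ε : J → ZMod 2, ordn (∑ j, ε j • H j) :=
      Finset.single_le_sum (f := fun ε : J → ZMod 2 => ordn (∑ j, ε j • H j))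
        (fun _ _ => Nat.zero_le _) (Finset.mem_univ (T i))
    unfold comb
    omega
  obtain ⟨⟨T, T'⟩, hT, hmax⟩ := (Finset.univ.filter fun
    x : Matrix J J (ZMod 2) × Matrix J J (ZMod 2) => x.2 * x.1 = 1 ∧
      ∀ i j, x.1 i j ≠ 0 → σ i = σ j).exists_max_image (fun x => ∑ i, φ (comb x.1 H i))
    ⟨(1, 1), Finset.mem_filter.2 ⟨Finset.mem_univ _, Matrix.one_mul _, fun i j h => by
      by_cases hij : i = j
      · rw [hij]
      · exact absurd (Matrix.one_apply_ne hij) h⟩⟩
  obtain ⟨-, hTT, hb⟩ := Finset.mem_filter.1 hT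
  simp only at hTT hb
  refine ⟨T, T', hTT, hb, fun i j hσ hi hj hord => ?_⟩
  by_contra hij
  have hE : Matrix.transvection i j (1 : ZMod 2) * Matrix.transvection i j 1 = 1 := by
    rw [Matrix.transvection_mul_transvection_same _ _ hij, show (1 : ZMod 2) + 1 = 0 by decide,
      Matrix.transvection_zero]
  set T1 := Matrix.transvection i j (1 : ZMod 2) * T with hT1
  have h1 : (T1, T' * Matrix.transvection i j 1) ∈ (Finset.univ.filter fun
    x : Matrix J J (ZMod 2) × Matrix J J (ZMod 2) => x.2 * x.1 = 1 ∧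
      ∀ i j, x.1 i j ≠ 0 → σ i = σ j) := by
    refine Finset.mem_filter.2 ⟨Finset.mem_univ _, ?_, ?_⟩
    · simp only [hT1]
      rw [Matrix.mul_assoc, ← Matrix.mul_assoc (Matrix.transvection i j 1) _ T, hE,
        Matrix.one_mul, hTT]
    · intro a b hab
      simp only [hT1] at hab
      by_cases ha : a = i
      · subst ha
        rw [Matrix.transvection_mul_apply_same, one_mul] at hab
        by_cases h2 : T a b = 0
        · rw [h2, zero_add] at hab
          rw [hσ]
          exact hb _ _ hab
        · exact hb _ _ h2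
      · rw [Matrix.transvection_mul_apply_of_ne _ _ _ _ ha] at hab
        exact hb _ _ hab
  have h2 := hmax _ h1
  simp only at h2
  have h3 : ∀ a, a ≠ i → comb T1 H a = comb T H a := by
    intro a ha
    unfold comb
    refine Finset.sum_congr rfl fun b _ => ?_
    rw [hT1, Matrix.transvection_mul_apply_of_ne _ _ _ _ ha]
  have h4 : comb T1 H i = comb T H i + comb T H j := by
    unfold comb
    rw [← Finset.sum_add_distrib]
    refine Finset.sum_congr rfl fun b _ => ?_
    rw [hT1, Matrix.transvection_mul_apply_same, one_mul, add_smul]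
  obtain ⟨o1, o2⟩ := ordn_spec hi
  obtain ⟨o3, o4⟩ := ordn_spec hj
  have h01 : ∀ a b : ZMod 2, a ≠ 0 → b ≠ 0 → a + b = 0 := by decide
  have h5 : φ (comb T H i) < φ (comb T1 H i) := by
    rw [hφ]
    simp only
    rw [if_neg hi]
    split_ifs with h6
    · exact hle T i
    · obtain ⟨o5, -⟩ := ordn_spec h6
      by_contra hcon
      apply o5
      rw [h4, map_add]
      rcases Nat.lt_or_eq_of_le (not_lt.1 hcon) with h7 | h7
      · rw [← h4, o2 _ h7, o4 _ (by rw [← hord]; exact h7), add_zero]
      · rw [← h4, h7]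
        refine h01 _ _ o1 ?_
        rw [hord]
        exact o3
  have h6 : ∑ a, φ (comb T H a) < ∑ a, φ (comb T1 H a) := by
    refine Finset.sum_lt_sum (fun a _ => ?_) ⟨i, Finset.mem_univ _, h5⟩
    by_cases ha : a = i
    · rw [ha]
      exact h5.le
    · rw [h3 a ha]
  omega

end Pool.Agent.N493.PB
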