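import Pool.Agent.N493.PC2

set_option autoImplicit false

/-!
# Normal families, and the measure theorem without conditions on the exponents
-/

namespace Pool.Agent.N493.PB

open PowerSeries Pool.Agent.N493.PA
open Pool.Agent.Y627.PT (AZ az_mul az_x az_sum az_zero az_cl)
open Pool.Agent.TH693.QQ (Lk)

theorem two_zero' (x : S) : x + x = 0 := by
  ext k
  rw [map_add, map_zero]
  exact (by decide : ∀ a : ZMod 2, a + a = 0) _

theorem az_smul {x : S} {s : ℤ} (h : AZ (Pool.Agent.TH693.QQ.T5.jj x) s) (c : ZMod 2) :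
    AZ (Pool.Agent.TH693.QQ.T5.jj (c • x)) s := by
  have h2 : c = 0 ∨ c = 1 := by
    revert c
    decide
  rcases h2 with rfl | rfl
  · rw [zero_smul, map_zero]
    exact az_zero s
  · rw [one_smul]
    exact h

theorem io_smul (v : F) (c : ZMod 2) (x : S) : io v * (c • x) = io (Polynomial.C c * v) * x := by
  rw [map_mul, io_C, Algebra.smul_def]
  ring

theorem io_smul_X (v : F) (c : ZMod 2) (k : ℕ) :
    io v * (c • (X : S) ^ k) = io (Polynomial.C c * v * Polynomial.X ^ k) := by
  rw [io_smul, map_mul io (Polynomial.C c * v), map_pow, io_X]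

theorem normal {J : Type} [Fintype J] (H : J → S) (σ : J → ℤ) (B : ℕ+)
    (hH : ∀ j, AZ (Pool.Agent.TH693.QQ.T5.jj (dl B (H j))) (σ j)) :
    ∃ (H' : J → S) (σ' : J → ℤ) (κ κ2 : ℕ),
      (∀ j, AZ (Pool.Agent.TH693.QQ.T5.jj (dl B (H' j))) (σ' j)) ∧
      (∀ j, H' j ≠ 0 → (24 * B : ℤ) * ordn (H' j) - σ' j ≠ 0) ∧
      (∀ j l, H' j ≠ 0 → H' l ≠ 0 →
        (24 * B : ℤ) * ordn (H' j) - σ' j = 24 * B * ordn (H' l) - σ' l → j = l) ∧
      ∀ (h : ℕ) (V : J → F), (∀ j, (V j).natDegree ≤ h) → ∃ (V' : J → F) (b : F),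
        (∀ j, (V' j).natDegree ≤ h + κ2) ∧ b.natDegree ≤ h + κ2 ∧
        X ^ κ * ∑ j, io (V j) * H j = ∑ j, io (V' j) * H' j + io b := by
  classical
  have hBpos : (0 : ℤ) < 24 * B := by
    have : (0 : ℤ) < B := by exact_mod_cast B.pos
    positivity
  set D : ℤ := 24 * B with hD
  set κ0 : ℕ := ∑ j, (σ j / D).natAbs with hκ0
  have hκ0le : ∀ j, 0 ≤ (κ0 : ℤ) - σ j / D := by
    intro j
    have h1 : (σ j / D).natAbs ≤ κ0 :=
      Finset.single_le_sum (f := fun j => (σ j / D).natAbs) (fun _ _ => Nat.zero_le _)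
        (Finset.mem_univ j)
    omega
  set k : J → ℕ := fun j => ((κ0 : ℤ) - σ j / D).toNat with hk
  have hkz : ∀ j, (k j : ℤ) = κ0 - σ j / D := fun j => Int.toNat_of_nonneg (hκ0le j)
  set σ' : J → ℤ := fun j => σ j % D + D * κ0 with hσ'
  have hσk : ∀ j, σ' j = D * k j + σ j := by
    intro j
    rw [hσ', hkz]
    have := Int.emod_add_mul_ediv (σ j) D
    linear_combination this
  have hmod : ∀ j, 0 ≤ σ j % D ∧ σ j % D < D := fun j =>
    ⟨Int.emod_nonneg _ hBpos.ne', Int.emod_lt_of_pos _ hBpos⟩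
  set H1 : J → S := fun j => X ^ k j * H j with hH1
  have hAZ1 : ∀ j, AZ (Pool.Agent.TH693.QQ.T5.jj (dl B (H1 j))) (σ' j) := by
    intro j
    rw [hH1, hσk]
    simp only
    rw [map_mul, map_pow, dl_X, ← pow_mul, map_mul, map_pow]
    have h1 := az_mul (az_x ((B : ℕ) * k j)) (hH j)
    convert h1 using 1
    rw [hD]
    push_cast
    ring
  set ε : J → ZMod 2 := fun j => if σ' j = D * κ0 then coeff κ0 (H1 j) else 0 with hε
  set H2 : J → S := fun j => H1 j + ε j • X ^ κ0 with hH2
  have hAZ2 : ∀ j, AZ (Pool.Agent.TH693.QQ.T5.jj (dl B (H2 j))) (σ' j) := by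
    intro j
    rw [hH2]
    simp only
    rw [map_add, map_add]
    refine Pool.Agent.Y627.PT.az_add (hAZ1 j) ?_
    rw [map_smul]
    by_cases h1 : σ' j = D * κ0
    · refine az_smul ?_ _
      rw [map_pow, dl_X, ← pow_mul, map_pow]
      have h2 := az_x ((B : ℕ) * κ0)
      convert h2 using 1
      rw [h1, hD]
      push_cast
      ring
    · rw [hε]
      simp only
      rw [if_neg h1, zero_smul, map_zero]
      exact az_zero _
  have hc2 : ∀ j, σ' j = D * κ0 → coeff κ0 (H2 j) = 0 := by
    intro j hj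
    rw [hH2, hε]
    simp only
    rw [if_pos hj, map_add, map_smul, PowerSeries.coeff_X_pow, if_pos rfl, smul_eq_mul, mul_one]
    exact (by decide : ∀ a : ZMod 2, a + a = 0) _
  obtain ⟨T, T', hTT, hblock, hech⟩ := echelon H2 σ'
  set H' : J → S := comb T H2 with hH'
  have hAZ' : ∀ j, AZ (Pool.Agent.TH693.QQ.T5.jj (dl B (H' j))) (σ' j) := by
    intro i
    rw [hH']
    unfold comb
    rw [map_sum, map_sum]
    refine az_sum _ _ _ fun j _ => ?_
    by_cases h1 : T i j = 0
    · rw [h1, zero_smul, map_zero, map_zero]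
      exact az_zero _
    · rw [hblock i j h1, map_smul]
      exact az_smul (hAZ2 j) _
  have hc' : ∀ i, σ' i = D * κ0 → coeff κ0 (H' i) = 0 := by
    intro i hi
    rw [hH']
    unfold comb
    rw [map_sum]
    refine Finset.sum_eq_zero fun j _ => ?_
    by_cases h1 : T i j = 0
    · rw [h1, zero_smul, map_zero]
    · rw [map_smul, hc2 j (by rw [← hblock i j h1]; exact hi), smul_zero]
  set κ : ℕ := κ0 + ∑ j, k j with hκ
  have hkle : ∀ j, k j ≤ κ := by
    intro j
    have h1 : k j ≤ ∑ j, k j :=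
      Finset.single_le_sum (f := k) (fun _ _ => Nat.zero_le _) (Finset.mem_univ j)
    omega
  refine ⟨H', σ', κ, κ + κ0, hAZ', ?_, ?_, ?_⟩
  · intro j hj h1
    obtain ⟨o1, -⟩ := ordn_spec hj
    have h2 : σ j % D = D * ((ordn (H' j) : ℤ) - κ0) := by
      rw [hσ'] at h1
      linear_combination -h1
    obtain ⟨h3, h4⟩ := hmod j
    rw [h2] at h3 h4
    have h5 : (ordn (H' j) : ℤ) - κ0 = 0 := by
      rcases lt_trichotomy ((ordn (H' j) : ℤ) - κ0) 0 with h6 | h6 | h6
      · exfalso
        have h7 : D * ((ordn (H' j) : ℤ) - κ0) < 0 := mul_neg_of_pos_of_neg hBpos h6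
        omega
      · exact h6
      · exfalso
        have h7 : D * 1 ≤ D * ((ordn (H' j) : ℤ) - κ0) :=
          mul_le_mul_of_nonneg_left (by omega) hBpos.le
        omega
    have h6 : ordn (H' j) = κ0 := by omega
    apply o1
    rw [h6]
    apply hc'
    rw [hσ']
    simp only
    rw [h2, h5, mul_zero, zero_add]
  · intro j l hj hl h1
    have h2 : σ j % D = σ l % D := by
      have h3 : σ j % D - σ l % D = D * ((ordn (H' j) : ℤ) - ordn (H' l)) := by
        rw [hσ'] at h1
        linear_combination -h1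
      obtain ⟨h4, h5⟩ := hmod j
      obtain ⟨h6, h7⟩ := hmod l
      rcases lt_trichotomy ((ordn (H' j) : ℤ) - ordn (H' l)) 0 with h8 | h8 | h8
      · exfalso
        have h9 : D * 1 ≤ D * (-((ordn (H' j) : ℤ) - ordn (H' l))) :=
          mul_le_mul_of_nonneg_left (by omega) hBpos.le
        have h10 : D * (-((ordn (H' j) : ℤ) - ordn (H' l))) =
          -(D * ((ordn (H' j) : ℤ) - ordn (H' l))) := by ring
        omega
      · rw [h8, mul_zero] at h3
        omega
      · exfalso
        have h9 : D * 1 ≤ D * ((ordn (H' j) : ℤ) - ordn (H' l)) :=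
          mul_le_mul_of_nonneg_left (by omega) hBpos.le
        omega
    have h3 : σ' j = σ' l := by
      rw [hσ']
      simp only
      rw [h2]
    apply hech j l h3 hj hl
    rw [h3] at h1
    have h4 : D * (ordn (H' j) : ℤ) = D * ordn (H' l) := by linear_combination h1
    have h5 := mul_left_cancel₀ hBpos.ne' h4
    exact_mod_cast h5
  · intro h V hV
    set V1 : J → F := fun j => Polynomial.X ^ (κ - k j) * V j with hV1
    have hV1d : ∀ j, (V1 j).natDegree ≤ h + κ := by
      intro j
      refine Polynomial.natDegree_mul_le.trans ?_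
      rw [Polynomial.natDegree_X_pow]
      have := hV j
      have := Nat.sub_le κ (k j)
      omega
    refine ⟨fun l => ∑ j, Polynomial.C (T' j l) * V1 j,
      ∑ j, Polynomial.C (ε j) * V1 j * Polynomial.X ^ κ0, fun l => ?_, ?_, ?_⟩
    · refine Polynomial.natDegree_sum_le_of_forall_le _ _ fun j _ => ?_
      refine (Polynomial.natDegree_C_mul_le _ _).trans ((hV1d j).trans ?_)
      omega
    · refine Polynomial.natDegree_sum_le_of_forall_le _ _ fun j _ => ?_
      refine Polynomial.natDegree_mul_le.trans ?_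
      rw [Polynomial.natDegree_X_pow]
      have := (Polynomial.natDegree_C_mul_le (ε j) (V1 j)).trans (hV1d j)
      omega
    · have e1 : X ^ κ * ∑ j, io (V j) * H j = ∑ j, io (V1 j) * H1 j := by
        rw [Finset.mul_sum]
        refine Finset.sum_congr rfl fun j _ => ?_
        rw [hV1, hH1]
        simp only
        rw [map_mul, map_pow, io_X]
        have e2 : (X : S) ^ κ = X ^ (κ - k j) * X ^ k j := by
          rw [← pow_add, Nat.sub_add_cancel (hkle j)]
        rw [e2]
        ring
      have e3 : ∀ j, H1 j = H2 j + ε j • X ^ κ0 := by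
        intro j
        rw [hH2]
        simp only
        rw [add_assoc, two_zero', add_zero]
      have e4 : ∀ j, H2 j = ∑ l, T' j l • H' l := by
        intro j
        have e5 := comb_mul T' T H2 j
        rw [hTT, comb_one] at e5
        exact e5
      rw [e1]
      clear_value H' V1 H2 ε H1
      have e6 : ∀ j, io (V1 j) * H1 j = ∑ l, io (Polynomial.C (T' j l) * V1 j) * H' l +
          io (Polynomial.C (ε j) * V1 j * Polynomial.X ^ κ0) := by
        intro j
        have e7 : io (V1 j) * (ε j • (X : S) ^ κ0) =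
            io (Polynomial.C (ε j) * V1 j * Polynomial.X ^ κ0) := io_smul_X _ _ _
        rw [e3 j, mul_add, e7, e4 j, Finset.mul_sum]
        congr 1
        exact Finset.sum_congr rfl fun l _ => io_smul _ _ _
      rw [Finset.sum_congr rfl fun j _ => e6 j, Finset.sum_add_distrib, Finset.sum_comm, map_sum]
      congr 1
      refine Finset.sum_congr rfl fun l _ => ?_
      rw [map_sum, Finset.sum_mul]

/-- the measure theorem without conditions on the exponents -/
theorem mtg {J I : Type} [Fintype J] [Fintype I] (H : J → S) (σ : J → ℤ) (B : ℕ+)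
    (hH : ∀ j, AZ (Pool.Agent.TH693.QQ.T5.jj (dl B (H j))) (σ j)) (f : I → S) (hf : Kill f) :
    ∃ C : ℕ, ∀ (h1 h : ℕ) (V : J → F) (U : F) (D : I → F) (b : F), h1 ≤ h →
      (∀ j, (V j).natDegree ≤ h1) →
      U.natDegree ≤ h → U ≠ 0 → (∀ i, (D i).natDegree ≤ h) → b.natDegree ≤ h →
      (∀ c : F, c.natDegree ≤ C * (h1 + 1) → ∑ j, io (V j) * H j ≠ io c) →
      ∀ N, (X : S) ^ N ∣ ∑ j, io (U * V j) * H j + ∑ i, io (D i) * f i + io b →
        N ≤ C * (h + 1) := by
  classical
  obtain ⟨H', σ', κ, κ2, n1, n2, n3, n4⟩ := normal H σ B hH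
  obtain ⟨C, hC⟩ := mt H' σ' B n1 (fun _ => True) (fun j => ordn (H' j))
    (fun j hj => ordn_spec hj)
    (fun A hA hex => ⟨fun _ => True, fun _ => True, trivial, by
      obtain ⟨j, -, hj⟩ := hex
      exact ⟨j, trivial, hj⟩, fun _ _ _ _ _ _ _ _ _ => ⟨trivial, trivial⟩,
      fun j _ hj => n2 j (hA j hj), fun j j' _ _ hj hj' h => n3 j j' (hA j hj) (hA j' hj') h⟩)
    f hf
  refine ⟨(C + 1) * (2 + κ + κ2), fun h1 h V U D b hh hV hU hU0 hD hb hne N hN => ?_⟩
  obtain ⟨V', b', hV', hb', hrel⟩ := n4 h1 V hV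
  have hex : ∃ j, True ∧ U * V' j ≠ 0 ∧ H' j ≠ 0 := by
    by_contra hcon
    push Not at hcon
    have h7 : ∑ j, io (V' j) * H' j = 0 := by
      refine Finset.sum_eq_zero fun j _ => ?_
      by_cases hj : V' j = 0
      · rw [hj, map_zero, zero_mul]
      · rw [hcon j trivial (mul_ne_zero hU0 hj), mul_zero]
    rw [h7, zero_add] at hrel
    -- `b'` is divisible by `X ^ κ`
    have h2 : (Polynomial.X : F) ^ κ ∣ b' := by
      rw [Polynomial.X_pow_dvd_iff]
      intro d hd
      have h3 := congrArg (coeff d) hrel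
      rw [PowerSeries.coeff_X_pow_mul', if_neg (by omega), coeff_io] at h3
      exact h3.symm
    obtain ⟨c, hc⟩ := h2
    refine hne c ?_ ?_
    · have h3 : c.natDegree ≤ b'.natDegree := by
        by_cases hc0 : c = 0
        · rw [hc0]
          simp
        · rw [hc, Polynomial.natDegree_mul (pow_ne_zero _ Polynomial.X_ne_zero) hc0]
          omega
      have h4 : h1 + κ2 ≤ (C + 1) * (2 + κ + κ2) * (h1 + 1) := by
        nlinarith [Nat.zero_le (C * (2 + κ + κ2) * (h1 + 1)), Nat.zero_le (κ * (h1 + 1)),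
          Nat.zero_le (κ2 * h1)]
      omega
    · rw [hc, map_mul, map_pow, io_X] at hrel
      exact mul_left_cancel₀ (pow_ne_zero _ PowerSeries.X_ne_zero) hrel
  have h5 := hC (2 * h + κ + κ2) (fun j => U * V' j) (fun i => Polynomial.X ^ κ * D i)
    (U * b' + Polynomial.X ^ κ * b) (fun j => by
      refine Polynomial.natDegree_mul_le.trans ?_
      have := hV' j
      omega) (fun i => by
      refine Polynomial.natDegree_mul_le.trans ?_
      rw [Polynomial.natDegree_X_pow]
      have := hD i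
      omega) (by
      refine (Polynomial.natDegree_add_le _ _).trans (max_le ?_ ?_)
      · refine Polynomial.natDegree_mul_le.trans ?_
        omega
      · refine Polynomial.natDegree_mul_le.trans ?_
        rw [Polynomial.natDegree_X_pow]
        omega) hex N (by
      have e1 : ∑ j, io (U * V' j) * H' j + ∑ i, io (Polynomial.X ^ κ * D i) * f i +
          io (U * b' + Polynomial.X ^ κ * b) =
          X ^ κ * (∑ j, io (U * V j) * H j + ∑ i, io (D i) * f i + io b) := by
        have e2 : ∑ j, io (U * V' j) * H' j = io U * ∑ j, io (V' j) * H' j := by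
          rw [Finset.mul_sum]
          refine Finset.sum_congr rfl fun j _ => ?_
          rw [map_mul, mul_assoc]
        have e3 : ∑ j, io (U * V j) * H j = io U * ∑ j, io (V j) * H j := by
          rw [Finset.mul_sum]
          refine Finset.sum_congr rfl fun j _ => ?_
          rw [map_mul, mul_assoc]
        have e4 : ∑ i, io (Polynomial.X ^ κ * D i) * f i = X ^ κ * ∑ i, io (D i) * f i := by
          rw [Finset.mul_sum]
          refine Finset.sum_congr rfl fun j _ => ?_
          rw [map_mul, map_pow, io_X, mul_assoc]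
        rw [e2, e3, e4, map_add, map_mul, map_mul, map_pow, io_X]
        linear_combination -(io U) * hrel
      rw [e1]
      exact hN.mul_left _)
  refine h5.trans ?_
  have h6 : 2 * h + κ + κ2 + 1 ≤ (2 + κ + κ2) * (h + 1) := by
    nlinarith [Nat.zero_le (κ * h), Nat.zero_le (κ2 * h)]
  calc C * (2 * h + κ + κ2 + 1) ≤ (C + 1) * (2 * h + κ + κ2 + 1) :=
        Nat.mul_le_mul_right _ (by omega)
    _ ≤ (C + 1) * ((2 + κ + κ2) * (h + 1)) := Nat.mul_le_mul_left _ h6
    _ = (C + 1) * (2 + κ + κ2) * (h + 1) := by ring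

end Pool.Agent.N493.PB
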