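import Pool.Agent.N493.PC3

set_option autoImplicit false

/-!
# The pattern lemma and the main theorem without conditions on the exponents
-/

namespace Pool.Agent.N493.PB

open PowerSeries Pool.Agent.N493.PA
open Pool.Agent.TH693.QQ (proj)
open Pool.Agent.Y627.PT (AZ Sec fn fn_rel)

/-- the coefficient polynomials -/
noncomputable def ap {J : Type} (M L ρ : ℕ) (c : J → Fin (L + 1) → ZMod 2) (j : J × Fin M) : F :=
  ∑ i : Fin (L + 1), if (ρ + i) % M = j.2 then
    Polynomial.C (c j.1 i) * Polynomial.X ^ (L - i) else 0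

theorem ap_deg {J : Type} (M L ρ : ℕ) (c : J → Fin (L + 1) → ZMod 2) (j : J × Fin M) :
    (ap M L ρ c j).natDegree ≤ L := by
  refine Polynomial.natDegree_sum_le_of_forall_le _ _ fun i _ => ?_
  split_ifs
  · refine (Polynomial.natDegree_C_mul_X_pow_le _ _).trans (Nat.sub_le _ _)
  · simp

theorem ap_coeff {J : Type} [Fintype J] (f : J → S) (M L ρ : ℕ) (hM : 0 < M)
    (c : J → Fin (L + 1) → ZMod 2) (n : ℕ) :
    coeff (n + L) (∑ j : J × Fin M, io (ap M L ρ c j) * proj M j.2 (f j.1)) =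
      if n % M = ρ % M then ∑ t, ∑ i : Fin (L + 1), c t i * coeff (n + i) (f t) else 0 := by
  classical
  have e1 : ∀ j : J × Fin M, coeff (n + L) (io (ap M L ρ c j) * proj M j.2 (f j.1)) =
      ∑ i : Fin (L + 1), if (ρ + i) % M = j.2 then
        c j.1 i * coeff (n + i) (proj M j.2 (f j.1)) else 0 := by
    intro j
    unfold ap
    simp only [map_sum, Finset.sum_mul]
    refine Finset.sum_congr rfl fun i _ => ?_
    split_ifs with h2
    · have h4 : io (Polynomial.C (c j.1 i) * Polynomial.X ^ (L - (i : ℕ))) =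
          algebraMap (ZMod 2) S (c j.1 i) * X ^ (L - (i : ℕ)) := by
        rw [map_mul, map_pow, io_X, io_C]
      have h3 : n + L = (n + i) + (L - i) := by have := i.2; omega
      rw [h4, mul_assoc, h3, ← Algebra.smul_def, map_smul, PowerSeries.coeff_X_pow_mul,
        smul_eq_mul]
    · rw [map_zero, zero_mul, map_zero]
  rw [map_sum, Finset.sum_congr rfl fun j _ => e1 j, Fintype.sum_prod_type]
  have e2 : ∀ t : J, ∑ r : Fin M, ∑ i : Fin (L + 1), (if (ρ + i) % M = (r : ℕ) then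
      c t i * coeff (n + i) (proj M r (f t)) else 0) =
      ∑ i : Fin (L + 1), if n % M = ρ % M then c t i * coeff (n + i) (f t) else 0 := by
    intro t
    rw [Finset.sum_comm]
    refine Finset.sum_congr rfl fun i _ => ?_
    have hlt : (ρ + i) % M < M := Nat.mod_lt _ hM
    rw [Finset.sum_eq_single (⟨(ρ + i) % M, hlt⟩ : Fin M)]
    · rw [if_pos rfl]
      unfold proj
      rw [coeff_mk]
      simp only [Nat.mod_mod]
      by_cases h2 : n % M = ρ % M
      · have h3 : (n + (i : ℕ)) % M = (ρ + i) % M := Nat.ModEq.add_right _ h2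
        rw [if_pos h2, if_pos h3]
      · have h3 : ¬ (n + (i : ℕ)) % M = (ρ + i) % M := fun h3 =>
          h2 (Nat.ModEq.add_right_cancel' _ h3)
        rw [if_neg h2, if_neg h3, mul_zero]
    · intro r _ hr
      rw [if_neg]
      intro h2
      exact hr (Fin.ext h2.symm)
    · intro h2
      exact absurd (Finset.mem_univ _) h2
  rw [Finset.sum_congr rfl fun t _ => e2 t]
  split_ifs
  · rfl
  · simp

/-- the property of a pair of families used in the pattern lemma -/
def MeasG {J I : Type} [Fintype J] [Fintype I] (H : J → S) (f : I → S) : Prop :=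
  ∃ C : ℕ, ∀ (h1 h : ℕ) (V : J → F) (U : F) (D : I → F) (b : F), h1 ≤ h →
    (∀ j, (V j).natDegree ≤ h1) →
    U.natDegree ≤ h → U ≠ 0 → (∀ i, (D i).natDegree ≤ h) → b.natDegree ≤ h →
    (∀ c : F, c.natDegree ≤ C * (h1 + 1) → ∑ j, io (V j) * H j ≠ io c) →
    ∀ N, (X : S) ^ N ∣ ∑ j, io (U * V j) * H j + ∑ i, io (D i) * f i + io b → N ≤ C * (h + 1)

/-- the pattern lemma -/
theorem pat2 {J Z : Type} [Fintype J] [Fintype Z] (f : J → S) (u : Z → S) (M : ℕ) (hM : 0 < M)
    (hMG : MeasG (fun j : J × Fin M => proj M j.2 (f j.1))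
      (fun z : Z × Fin M => proj M z.2 (u z.1))) :
    ∃ C : ℕ, ∀ (L : ℕ) (c : J → Fin (L + 1) → ZMod 2) (d : Z → Fin (L + 1) → ZMod 2) (ρ : ℕ),
      (∃ n, C * (L + 1) < n ∧ n % M = ρ % M ∧
        ∑ t, ∑ i : Fin (L + 1), c t i * coeff (n + i) (f t) ≠ 0) → ∀ (κ : ZMod 2) (A : ℕ),
      ∃ n, A ≤ n ∧ n ≤ C * (A + L + 1) ∧ n % M = ρ % M ∧
        ∑ t, ∑ i : Fin (L + 1), c t i * coeff (n + i) (f t) +
          ∑ z, ∑ i : Fin (L + 1), d z i * coeff (n + i) (u z) = κ := by
  classical
  obtain ⟨C, hC⟩ := hMG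
  refine ⟨C * (M + 1), fun L c d ρ hc κ A => ?_⟩
  by_contra hcon
  push Not at hcon
  have h1 : ∀ a b : ZMod 2, a ≠ b → a = b + 1 := by decide
  set B := C * (M + 1) * (A + L + 1) with hB
  have hrun : ∀ n, A ≤ n → n ≤ B → n % M = ρ % M →
      ∑ t, ∑ i : Fin (L + 1), c t i * coeff (n + i) (f t) +
        ∑ z, ∑ i : Fin (L + 1), d z i * coeff (n + i) (u z) = κ + 1 :=
    fun n h2 h3 h4 => h1 _ _ (hcon n h2 h3 h4)
  set l1 : S := ∑ j : J × Fin M, io (ap M L ρ c j) * proj M j.2 (f j.1) with hl1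
  set l2 : S := ∑ z : Z × Fin M, io (ap M L ρ d z) * proj M z.2 (u z.1) with hl2
  set l0 : S := l1 + l2 with hl0
  have hco : ∀ n, coeff (n + L) l0 = if n % M = ρ % M then
      ∑ t, ∑ i : Fin (L + 1), c t i * coeff (n + i) (f t) +
        ∑ z, ∑ i : Fin (L + 1), d z i * coeff (n + i) (u z) else 0 := by
    intro n
    rw [hl0, map_add, hl1, hl2, ap_coeff f M L ρ hM c, ap_coeff u M L ρ hM d]
    split_ifs
    · rfl
    · rw [add_zero]
  set U : F := 1 + Polynomial.X ^ M with hU
  have hU0 : U ≠ 0 := by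
    intro h0
    have h1 := congrArg (fun g : F => g.coeff 0) h0
    simp only [hU, Polynomial.coeff_add, Polynomial.coeff_one, Polynomial.coeff_X_pow, hM.ne,
      if_true, if_false, add_zero, Polynomial.coeff_zero] at h1
    exact one_ne_zero h1
  have hUd : U.natDegree ≤ M := by
    refine (Polynomial.natDegree_add_le _ _).trans (max_le (by simp) ?_)
    exact (Polynomial.natDegree_X_pow_le M)
  set g : S := io U * l0 with hg
  set b : F := PowerSeries.trunc (A + M + L) g with hb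
  have hlam : ∑ j : J × Fin M, io (U * ap M L ρ c j) * proj M j.2 (f j.1) +
      ∑ z : Z × Fin M, io (U * ap M L ρ d z) * proj M z.2 (u z.1) + io b = g + io b := by
    rw [hg, hl0, hl1, hl2, mul_add, Finset.mul_sum, Finset.mul_sum]
    congr 1
    congr 1
    · refine Finset.sum_congr rfl fun j _ => ?_
      rw [map_mul, mul_assoc]
    · refine Finset.sum_congr rfl fun j _ => ?_
      rw [map_mul, mul_assoc]
  have hbd : b.natDegree ≤ A + M + L := by
    obtain ⟨q, hq⟩ : ∃ q, A + M + L = q + 1 := ⟨A + M + L - 1, by omega⟩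
    rw [hb, hq]
    exact (PowerSeries.natDegree_trunc_lt g q).le
  have hne : ∀ e : F, e.natDegree ≤ C * (L + 1) →
      ∑ j : J × Fin M, io (ap M L ρ c j) * proj M j.2 (f j.1) ≠ io e := by
    intro e hed he
    obtain ⟨n, h2, h3, h4⟩ := hc
    apply h4
    have h5 := ap_coeff f M L ρ hM c n
    rw [if_pos h3] at h5
    have h6 : C * (L + 1) ≤ C * (M + 1) * (L + 1) := by
      refine Nat.mul_le_mul_right _ ?_
      exact Nat.le_mul_of_pos_right _ (by omega)
    rw [← h5, he, coeff_io, Polynomial.coeff_eq_zero_of_natDegree_lt (by omega)]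
  have hdvd : (X : S) ^ (B + L + 1) ∣
      ∑ j : J × Fin M, io (U * ap M L ρ c j) * proj M j.2 (f j.1) +
      ∑ z : Z × Fin M, io (U * ap M L ρ d z) * proj M z.2 (u z.1) + io b := by
    rw [hlam, PowerSeries.X_pow_dvd_iff]
    intro m hm
    rw [map_add, show coeff m (io b) = coeff m (b : S) from rfl, Polynomial.coeff_coe, hb,
      PowerSeries.coeff_trunc]
    split_ifs with h2
    · exact (by decide : ∀ a : ZMod 2, a + a = 0) _
    · rw [add_zero]
      obtain ⟨n, rfl⟩ : ∃ n, m = n + M + L := ⟨m - M - L, by omega⟩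
      have e : g = l0 + X ^ M * l0 := by
        rw [hg, hU, map_add, map_one, map_pow, io_X]
        ring
      have e3 : n + M + L = (n + L) + M := by ring
      rw [e, map_add]
      conv_lhs =>
        congr
        · rw [hco]
        · rw [e3, PowerSeries.coeff_X_pow_mul, hco]
      rw [Nat.add_mod_right]
      split_ifs with h5
      · rw [hrun n (by omega) (by omega) h5, hrun (n + M) (by omega) (by omega)
          (by rw [Nat.add_mod_right]; exact h5)]
        exact (by decide : ∀ a : ZMod 2, a + a = 0) _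
      · rw [add_zero]
  have h3 := hC L (A + M + L) (ap M L ρ c) U (fun z => U * ap M L ρ d z) b (by omega)
    (fun j => ap_deg M L ρ c j) (hUd.trans (by omega)) hU0
    (fun z => by
      refine Polynomial.natDegree_mul_le.trans ?_
      have := ap_deg M L ρ d z
      omega) hbd hne _ hdvd
  have h4 : C * (A + M + L + 1) ≤ C * (M + 1) * (A + L + 1) := by
    rw [mul_assoc]
    refine Nat.mul_le_mul_left _ ?_
    nlinarith [Nat.zero_le (M * A), Nat.zero_le (M * L)]
  omega

/-- **the main theorem** -/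
theorem maing {Y Z : Type} [Fintype Y] [Fintype Z] (G : Y → S) (τ : Y → ℤ)
    (hG : ∀ x, Sec (G x) (τ x)) (m : Y → ℕ) (hm : ∀ x, 0 < m x) (M : ℕ) (hM : 0 < M)
    (u : Z → S) (hu : ∀ z, Mahler (u z)) :
    ∃ C : ℕ, ∀ (K : ℕ) (c : Y → ℕ → ZMod 2) (d : Z → ℕ → ZMod 2) (ρ : ℕ),
      (∃ n, C * K ≤ n ∧ n % M = ρ % M ∧
        ∑ x, ∑ i ∈ Finset.range K, c x i * coeff (m x * n + i) (G x) ≠ 0) →
      ∀ (κ : ZMod 2) (A : ℕ), ∃ n, A ≤ n ∧ n ≤ C * (A + K) ∧ n % M = ρ % M ∧
        ∑ x, ∑ i ∈ Finset.range K, c x i * coeff (m x * n + i) (G x) +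
          ∑ z, ∑ i ∈ Finset.range K, d z i * coeff (n + i) (u z) = κ := by
  classical
  set B : ℕ+ := ⟨∏ x, m x, Finset.prod_pos fun x _ => hm x⟩ with hB
  have hmB : ∀ x, m x ∣ (B : ℕ) := fun x => Finset.dvd_prod_of_mem m (Finset.mem_univ x)
  have hMG : MeasG (fun j : ((x : Y) × Fin (m x)) × Fin M =>
        proj M j.2 (fn (G j.1.1) (m j.1.1) j.1.2))
      (fun z : Z × Fin M => proj M z.2 (u z.1)) := by
    have hkill : Kill (fun x : Z × Fin M => proj M x.2 (u x.1)) :=
      mahler_kill _ fun x => mahler_proj (hu x.1) ⟨M, hM⟩ x.2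
    exact mtg (Hf G m M) (sg τ m M B) B (az_Hf G τ hG m M hM B hmB) _ hkill
  obtain ⟨C, hC⟩ := pat2 (fun j : (x : Y) × Fin (m x) => fn (G j.1) (m j.1) j.2) u M hM hMG
  refine ⟨2 * C + 1, fun K c d ρ hc κ A => ?_⟩
  have hK : 0 < K := by
    obtain ⟨n, -, -, h3⟩ := hc
    by_contra hcon
    apply h3
    have : K = 0 := by omega
    rw [this]
    simp
  set c' : ((x : Y) × Fin (m x)) → Fin (K + 1) → ZMod 2 := fun j l =>
    if m j.1 * l + j.2 < K then c j.1 (m j.1 * l + j.2) else 0 with hc'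
  set d' : Z → Fin (K + 1) → ZMod 2 := fun z l => if (l : ℕ) < K then d z l else 0 with hd'
  have hmod : ∀ n, ∑ j : (x : Y) × Fin (m x), ∑ i : Fin (K + 1), c' j i *
      coeff (n + i) (fn (G j.1) (m j.1) j.2) =
      ∑ x, ∑ i ∈ Finset.range K, c x i * coeff (m x * n + i) (G x) := by
    intro n
    rw [Fintype.sum_sigma]
    refine Finset.sum_congr rfl fun x _ => ?_
    rw [← Pool.Agent.Y627.PT.sum_split (m x) K (hm x)
      (fun i => c x i * coeff (m x * n + i) (G x)), Finset.sum_range]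
    refine Finset.sum_congr rfl fun i0 _ => ?_
    rw [Finset.sum_range]
    refine Finset.sum_congr rfl fun l _ => ?_
    rw [hc']
    simp only
    rw [fn, coeff_mk]
    rw [show m x * (n + (l : ℕ)) + (i0 : ℕ) = m x * n + (m x * l + i0) by ring]
    split_ifs
    · rfl
    · rw [zero_mul]
  have hmah : ∀ n, ∑ z, ∑ i : Fin (K + 1), d' z i * coeff (n + i) (u z) =
      ∑ z, ∑ i ∈ Finset.range K, d z i * coeff (n + i) (u z) := by
    intro n
    refine Finset.sum_congr rfl fun z _ => ?_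
    rw [hd']
    simp only
    rw [Fin.sum_univ_castSucc, Finset.sum_range]
    simp only [Fin.val_castSucc, Fin.val_last, lt_irrefl, if_false, zero_mul, add_zero]
    refine Finset.sum_congr rfl fun l _ => ?_
    rw [if_pos l.2]
  obtain ⟨n, h1, h2, h4, h5⟩ := hC K c' d' ρ (by
    obtain ⟨n, h1, h2, h3⟩ := hc
    refine ⟨n, ?_, h2, by rw [hmod]; exact h3⟩
    refine lt_of_lt_of_le ?_ h1
    nlinarith) κ A
  refine ⟨n, h1, ?_, h4, ?_⟩
  · refine h2.trans ?_
    have : C * (A + K + 1) ≤ C * (2 * (A + K)) := Nat.mul_le_mul_left _ (by omega)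
    refine this.trans ?_
    nlinarith
  · rw [← h5, hmod, hmah]

end Pool.Agent.N493.PB
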