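import Pool.Agent.N493.PC4

set_option autoImplicit false

/-!
# The main theorem with automata and Mahler functions
-/

namespace Pool.Agent.N493.PB

open PowerSeries Pool.Agent.N493.PA
open Pool.Agent.Y627.PT (Sec)

/-- `y` satisfies a Mahler equation -/
def IsMahler (y : (ZMod 2)⟦X⟧) : Prop :=
  ∃ (g N : ℕ) (a : ℕ → Polynomial (ZMod 2)), 2 ≤ g ∧ (∃ i ≤ N, a i ≠ 0) ∧
    ∑ i ∈ Finset.range (N + 1), (a i : (ZMod 2)⟦X⟧) *
      (PowerSeries.mk fun n => if g ^ i ∣ n then coeff (n / g ^ i) y else 0) = 0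

theorem mahler_of_isMahler {y : (ZMod 2)⟦X⟧} (hy : IsMahler y) : Mahler y := by
  obtain ⟨g, N, a, hg, ⟨i, hi, hne⟩, hrel⟩ := hy
  obtain ⟨γ, rfl⟩ : ∃ γ : ℕ+, g = (γ : ℕ) := ⟨⟨g, by omega⟩, rfl⟩
  have hg' : (1 : ℕ+) < γ := hg
  refine mahler_of_eq hg' y (N + 1) a ⟨i, by omega, hne⟩ ?_
  rw [← hrel]
  refine Finset.sum_congr rfl fun i _ => ?_
  congr 1
  ext n
  rw [coeff_dl, coeff_mk, PNat.pow_coe]

/-- **the main theorem with automata** -/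
theorem main_all {Y : Type} [Fintype Y] (G : Y → S) (τ : Y → ℤ)
    (hG : ∀ x, Sec (G x) (τ x)) (m : Y → ℕ) (hm : ∀ x, 0 < m x) (l : ℕ)
    (y : Fin l → (ZMod 2)⟦X⟧) (hy : ∀ j, IsMahler (y j)) (Gs : Finset ℕ) (hGs : ∀ g ∈ Gs, 2 ≤ g)
    (M : ℕ) (hM : 0 < M) (Q : ℕ) :
    ∃ C : ℕ, ∀ (K : ℕ) (c : Y → ℕ → ZMod 2) (d : Fin l → ℕ → ZMod 2) (ρ : ℕ),
      (∃ n, C * K ≤ n ∧ n % M = ρ % M ∧
        ∑ x, ∑ i ∈ Finset.range K, c x i * coeff (m x * n + i) (G x) ≠ 0) →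
      ∀ (L : ℕ) (u : Fin L → ℕ → ZMod 2) (t : Fin L → ℕ),
        (∀ z, ∃ g ∈ Gs, Automatic g Q (u z)) → (∀ z, t z < K) →
      ∀ (κ : ZMod 2) (A : ℕ), ∃ n, A ≤ n ∧ n ≤ C * (A + K) ∧ n % M = ρ % M ∧
        ∑ x, ∑ i ∈ Finset.range K, c x i * coeff (m x * n + i) (G x) +
          ∑ j, ∑ i ∈ Finset.range K, d j i * coeff (n + i) (y j) +
          ∑ z, u z (n + t z) = κ := by
  classical
  obtain ⟨C, hC⟩ := maing (Z := Fin l ⊕ ((g : {g // g ∈ Gs}) × Code g Q)) G τ hG m hm M hM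
    (Sum.elim y (fun w => PowerSeries.mk (run w.2)))
    (by
      rintro (j | w)
      · exact mahler_of_isMahler (hy j)
      · exact mahler_run (hGs _ w.1.2) w.2)
  refine ⟨C, fun K c d ρ hc L u t hu ht κ A => ?_⟩
  have hcode : ∀ z : Fin L, ∃ w : (g : {g // g ∈ Gs}) × Code g Q, ∀ n, u z n = run w.2 n := by
    intro z
    obtain ⟨g, hg, ha⟩ := hu z
    obtain ⟨cd, hcd⟩ := exists_code (hGs g hg) ha
    exact ⟨⟨⟨g, hg⟩, cd⟩, hcd⟩
  choose z hz using hcode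
  obtain ⟨n, h1, h2, h3, h4⟩ := hC K c
    (Sum.elim d (fun w i => ∑ l : Fin L, if z l = w ∧ t l = i then 1 else 0)) ρ hc κ A
  refine ⟨n, h1, h2, h3, ?_⟩
  rw [← h4, Fintype.sum_sum_type, ← add_assoc]
  simp only [Sum.elim_inl, Sum.elim_inr]
  congr 1
  have e1 : ∀ w : (g : {g // g ∈ Gs}) × Code g Q, ∑ i ∈ Finset.range K,
      (∑ l : Fin L, if z l = w ∧ t l = i then (1 : ZMod 2) else 0) *
        coeff (n + i) (PowerSeries.mk (run w.2) : S) =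
      ∑ l : Fin L, ∑ i ∈ Finset.range K, if z l = w ∧ t l = i then run w.2 (n + i) else 0 := by
    intro w
    rw [Finset.sum_comm]
    refine Finset.sum_congr rfl fun i _ => ?_
    rw [Finset.sum_mul]
    refine Finset.sum_congr rfl fun l _ => ?_
    rw [coeff_mk, ite_mul, one_mul, zero_mul]
  rw [Finset.sum_congr rfl fun w _ => e1 w, Finset.sum_comm]
  refine Finset.sum_congr rfl fun l _ => ?_
  rw [Finset.sum_eq_single (z l), Finset.sum_eq_single (t l)]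
  · rw [if_pos ⟨rfl, rfl⟩, hz]
  · intro i _ hne
    rw [if_neg]
    exact fun h => hne h.2.symm
  · intro h
    exact absurd (Finset.mem_range.2 (ht l)) h
  · intro w _ hne
    refine Finset.sum_eq_zero fun i _ => ?_
    rw [if_neg]
    exact fun h => hne h.1.symm
  · intro h
    exact absurd (Finset.mem_univ _) h

end Pool.Agent.N493.PB
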