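import Pool.Agent.R836.PP.FinB

set_option autoImplicit false

/-! # Errors of bounded-memory predictors of the parity of multipartition numbers

From the counting theorem for linear patterns in residue classes modulo `2 ^ k`
(`Pool.Agent.R836.PP`): if a sequence takes the same values on two classes modulo `2 ^ k` (as functions
of the quotient), then it differs from every nonzero pattern, and agrees with it, many times. -/

namespace Pool.Agent.N493.PD

open Finset Pool.Agent.R836.PP PowerSeries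

/-- the shift of sequences -/
def Sh : Module.End (ZMod 2) (ℕ → ZMod 2) where
  toFun φ := fun n => φ (n + 1)
  map_add' _ _ := rfl
  map_smul' _ _ := rfl

theorem Sh_pow (i : ℕ) (φ : ℕ → ZMod 2) (n : ℕ) : (Sh ^ i) φ n = φ (n + i) := by
  induction i generalizing φ n with
  | zero => rfl
  | succ i ih =>
    rw [pow_succ]
    show (Sh ^ i) (Sh φ) n = _
    rw [ih]
    show φ (n + i + 1) = _
    rfl

theorem aeval_Sh (P : Polynomial (ZMod 2)) (d : ℕ) (hd : P.natDegree < d) (φ : ℕ → ZMod 2) (n : ℕ) :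
    (Polynomial.aeval Sh P) φ n = ∑ i ∈ range d, P.coeff i * φ (n + i) := by
  rw [Polynomial.aeval_eq_sum_range' hd, LinearMap.sum_apply, Finset.sum_apply]
  refine Finset.sum_congr rfl fun i _ => ?_
  rw [LinearMap.smul_apply, Pi.smul_apply, Sh_pow, smul_eq_mul]

/-- the polynomial of a pattern -/
noncomputable def PolyOf {L : ℕ} (c : Fin (L + 1) → ZMod 2) : Polynomial (ZMod 2) :=
  ∑ i : Fin (L + 1), Polynomial.C (c i) * Polynomial.X ^ (i : ℕ)

theorem PolyOf_coeff {L : ℕ} (c : Fin (L + 1) → ZMod 2) (i : Fin (L + 1)) :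
    (PolyOf c).coeff i = c i := by
  unfold PolyOf
  rw [Polynomial.finsetSum_coeff]
  simp only [Polynomial.coeff_C_mul, Polynomial.coeff_X_pow]
  rw [Finset.sum_eq_single i]
  · simp
  · intro j _ hj
    rw [if_neg, mul_zero]
    intro h
    exact hj (Fin.ext h.symm)
  · intro h
    exact absurd (mem_univ _) h

theorem PolyOf_deg {L : ℕ} (c : Fin (L + 1) → ZMod 2) : (PolyOf c).natDegree ≤ L := by
  unfold PolyOf
  refine Polynomial.natDegree_sum_le_of_forall_le _ _ fun i _ => ?_
  refine (Polynomial.natDegree_C_mul_X_pow_le _ _).trans (Nat.lt_succ_iff.1 i.2)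

theorem PolyOf_ne {L : ℕ} (c : Fin (L + 1) → ZMod 2) (hc : c ≠ 0) : PolyOf c ≠ 0 := by
  intro h
  apply hc
  funext i
  rw [← PolyOf_coeff c i, h]
  simp

theorem PolyOf_apply {L : ℕ} (c : Fin (L + 1) → ZMod 2) (φ : ℕ → ZMod 2) (n : ℕ) :
    (Polynomial.aeval Sh (PolyOf c)) φ n = ∑ i : Fin (L + 1), c i * φ (n + i) := by
  rw [aeval_Sh _ (L + 1) (Nat.lt_succ_of_le (PolyOf_deg c)), Finset.sum_range]
  exact Finset.sum_congr rfl fun i _ => by rw [PolyOf_coeff]

/-- the difference of the values of a pattern at `n + r` and `n + r'` is a nonzero pattern at `n` -/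
theorem exists_diff {L : ℕ} (c : Fin (L + 1) → ZMod 2) (hc : c ≠ 0) (D r r' : ℕ) (hr : r < D)
    (hr' : r' < D) (hne : r ≠ r') :
    ∃ c' : Fin (D + L + 1) → ZMod 2, c' ≠ 0 ∧ ∀ (φ : ℕ → ZMod 2) (n : ℕ),
      ∑ i : Fin (D + L + 1), c' i * φ (n + i) =
        (∑ i : Fin (L + 1), c i * φ (n + r + i)) + ∑ i : Fin (L + 1), c i * φ (n + r' + i) := by
  set P : Polynomial (ZMod 2) := Polynomial.X ^ r + Polynomial.X ^ r' with hP
  have hP0 : P ≠ 0 := by
    intro h
    have := congrArg (fun q => Polynomial.coeff q r) h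
    simp [hP, Polynomial.coeff_X_pow, hne] at this
  have hPd : P.natDegree ≤ D := by
    refine Polynomial.natDegree_add_le_of_degree_le ?_ ?_
    · rw [Polynomial.natDegree_X_pow]; omega
    · rw [Polynomial.natDegree_X_pow]; omega
  have hQ0 := mul_ne_zero hP0 (PolyOf_ne c hc)
  have hQd : (P * PolyOf c).natDegree < D + L + 1 :=
    Nat.lt_succ_of_le (Polynomial.natDegree_mul_le.trans (add_le_add hPd (PolyOf_deg c)))
  refine ⟨fun i => (P * PolyOf c).coeff i, ?_, ?_⟩
  · intro h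
    apply hQ0
    ext i
    by_cases hi : i < D + L + 1
    · have := congrFun h ⟨i, hi⟩
      simpa using this
    · rw [Polynomial.coeff_eq_zero_of_natDegree_lt (by omega), Polynomial.coeff_zero]
  · intro φ n
    have h1 : ∑ i : Fin (D + L + 1), (P * PolyOf c).coeff i * φ (n + i) =
        (Polynomial.aeval Sh (P * PolyOf c)) φ n := by
      rw [aeval_Sh _ (D + L + 1) hQd, Finset.sum_range]
    rw [h1, map_mul]
    show (Polynomial.aeval Sh P) ((Polynomial.aeval Sh (PolyOf c)) φ) n = _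
    rw [hP, map_add, map_pow, map_pow, Polynomial.aeval_X, LinearMap.add_apply, Pi.add_apply, Sh_pow,
      Sh_pow, PolyOf_apply, PolyOf_apply]

theorem zkey : ∀ a b w κ : ZMod 2, 1 = a + b → a + w ≠ κ → b + w = κ := by decide

/-- counting for one pair of classes -/
theorem count_pair {L : ℕ} (c : Fin (L + 1) → ZMod 2) (F : (ZMod 2)⟦X⟧) (D m r r' : ℕ)
    (hm : m ∣ D) (hr : r < D) (hr' : r' < D) (ρ : ℕ) (hrρ : r % m = ρ % m) (hrρ' : r' % m = ρ % m)
    (c' : Fin (D + L + 1) → ZMod 2)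
    (hc' : ∀ (φ : ℕ → ZMod 2) (n : ℕ), ∑ i : Fin (D + L + 1), c' i * φ (n + i) =
        (∑ i : Fin (L + 1), c i * φ (n + r + i)) + ∑ i : Fin (L + 1), c i * φ (n + r' + i))
    (u : ℕ → ZMod 2) (hu : ∀ n, 1 ≤ n → u (D * n + r) = u (D * n + r')) (κ : ZMod 2) (x : ℕ) :
    (vals c' F 1 D 0 x).card ≤ ((range (x + 1)).filter fun n => n % m = ρ % m ∧
      pat c F n + u n = κ).card + (D + 1) := by
  classical
  have hD : 0 < D := by omega
  set B := (range (x + 1)).filter fun n => n % m = ρ % m ∧ pat c F n + u n = κ with hB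
  set V := vals c' F 1 D 0 x with hV
  set V' := V.filter fun N => 1 ≤ N ∧ N + D ≤ x with hV'
  have h1 : V.card ≤ V'.card + (D + 1) := by
    have hsub : V ⊆ V' ∪ ({0} ∪ Ioc (x - D) x) := by
      intro N hN
      rw [mem_union, mem_union, mem_singleton, mem_Ioc]
      have hN' := hN
      rw [hV] at hN'
      unfold vals at hN'
      rw [mem_filter, mem_range] at hN'
      by_cases h0 : N = 0
      · exact Or.inr (Or.inl h0)
      · by_cases h2 : N + D ≤ x
        · left
          rw [hV', mem_filter]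
          exact ⟨hN, by omega, h2⟩
        · exact Or.inr (Or.inr ⟨by omega, by omega⟩)
    calc V.card ≤ _ := card_le_card hsub
      _ ≤ _ := card_union_le _ _
      _ ≤ V'.card + (D + 1) := by
        apply Nat.add_le_add_left
        refine (card_union_le _ _).trans ?_
        rw [card_singleton, Nat.card_Ioc]
        omega
  have h2 : V'.card ≤ B.card := by
    have key : ∀ N ∈ V', D ∣ N ∧ 1 ≤ N ∧ N + D ≤ x ∧
        (pat c F (N + r) + u (N + r) ≠ κ → pat c F (N + r') + u (N + r') = κ) := by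
      intro N hN
      rw [hV', mem_filter, hV] at hN
      obtain ⟨hN, hN1, hN2⟩ := hN
      unfold vals at hN
      rw [mem_filter, Nat.zero_mod] at hN
      obtain ⟨-, hN3, hN4⟩ := hN
      have hdvd : D ∣ N := Nat.dvd_of_mod_eq_zero hN3
      refine ⟨hdvd, hN1, hN2, fun h => ?_⟩
      obtain ⟨n, rfl⟩ := hdvd
      have hn : 1 ≤ n := by
        rcases Nat.eq_zero_or_pos n with h0 | h0
        · rw [h0] at hN1; simp at hN1
        · exact h0
      have e1 := hc' (fun i => coeff i F) (D * n)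
      have e2 : pat c' F (D * n) = pat c F (D * n + r) + pat c F (D * n + r') := e1
      rw [hN4] at e2
      have e3 := hu n hn
      rw [e3] at h
      exact zkey _ _ _ _ e2 h
    apply card_le_card_of_injOn
      (fun N => if pat c F (N + r) + u (N + r) = κ then N + r else N + r')
    · intro N hN
      rw [mem_coe] at hN
      obtain ⟨k1, k2, k3, k4⟩ := key N hN
      have hmN : N % m = 0 := Nat.mod_eq_zero_of_dvd (hm.trans k1)
      simp only
      rw [mem_coe, hB, mem_filter, mem_range]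
      by_cases h : pat c F (N + r) + u (N + r) = κ
      · rw [if_pos h]
        refine ⟨by omega, ?_, h⟩
        rw [Nat.add_mod, hmN, zero_add, Nat.mod_mod, hrρ]
      · rw [if_neg h]
        refine ⟨by omega, ?_, k4 h⟩
        rw [Nat.add_mod, hmN, zero_add, Nat.mod_mod, hrρ']
    · intro N hN N' hN' h
      rw [mem_coe] at hN hN'
      obtain ⟨⟨a, rfl⟩, -⟩ := key N hN
      obtain ⟨⟨a', rfl⟩, -⟩ := key N' hN'
      have d1 : (D * a + r) / D = a := by
        rw [Nat.mul_add_div hD, Nat.div_eq_of_lt hr, add_zero]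
      have d2 : (D * a + r') / D = a := by
        rw [Nat.mul_add_div hD, Nat.div_eq_of_lt hr', add_zero]
      have d3 : (D * a' + r) / D = a' := by
        rw [Nat.mul_add_div hD, Nat.div_eq_of_lt hr, add_zero]
      have d4 : (D * a' + r') / D = a' := by
        rw [Nat.mul_add_div hD, Nat.div_eq_of_lt hr', add_zero]
      have h' := congrArg (fun z => z / D) h
      beta_reduce at h'
      have : a = a' := by
        split_ifs at h' <;> simp only [d1, d2, d3, d4] at h' <;> exact h'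
      rw [this]
  omega

/-- the weights absorb constants -/
theorem ev_absorb (K : ℕ) (C : ℝ) : ∃ X0 : ℕ, ∀ x : ℕ, X0 ≤ x → ∀ v : ℝ,
    Real.sqrt x * (Real.log (Real.log x)) ^ (K + 1) / Real.log x ≤ v + C →
    Real.sqrt x * (Real.log (Real.log x)) ^ K / Real.log x ≤ v := by
  obtain ⟨X1, hX1⟩ := ev_loglog 2
  obtain ⟨X2, hX2, hX2'⟩ := ev_log (|C| + 1) (by positivity)
  refine ⟨max X1 X2, fun x hx v hv => ?_⟩
  rw [max_le_iff] at hx
  have h1 := hX1 x hx.1
  have h2 := hX2' x hx.2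
  have h3 := log_pos_of (x := x) (by linarith)
  set lam := Real.log (Real.log x) with hlam
  set Z := Real.sqrt x * lam ^ K / Real.log x with hZ
  have e1 : Real.sqrt x * lam ^ (K + 1) / Real.log x = lam * Z := by
    rw [hZ, pow_succ]
    ring
  rw [e1] at hv
  have hZC : |C| + 1 ≤ Z := by
    rw [hZ, le_div_iff₀ (by linarith)]
    have e2 : (1 : ℝ) ≤ lam ^ K := one_le_pow₀ (by linarith)
    have e3 : Real.sqrt x ≤ Real.sqrt x * lam ^ K :=
      le_mul_of_one_le_right (Real.sqrt_nonneg _) e2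
    linarith
  have hC := le_abs_self C
  have hC0 := abs_nonneg C
  have : 2 * Z ≤ lam * Z := mul_le_mul_of_nonneg_right h1 (by linarith)
  linarith

/-- the `t`-th power of the generating function of the partitions modulo 2 -/
noncomputable abbrev Ft (t : ℕ) : (ZMod 2)⟦X⟧ :=
  (PowerSeries.mk fun n => (Fintype.card (Nat.Partition n) : ZMod 2)) ^ t

/-- counting for all pairs of classes modulo `2 ^ k` -/
theorem count_all (t b L K k : ℕ) (ht : t % 2 = 1) (hbk : b ≤ k) :
    ∃ X0 : ℕ, ∀ (c : Fin (L + 1) → ZMod 2), c ≠ 0 → ∀ r r' : ℕ, r < 2 ^ k → r' < 2 ^ k → r ≠ r' →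
      ∀ ρ : ℕ, r % 2 ^ b = ρ % 2 ^ b → r' % 2 ^ b = ρ % 2 ^ b →
      ∀ u : ℕ → ZMod 2, (∀ n, 1 ≤ n → u (2 ^ k * n + r) = u (2 ^ k * n + r')) →
      ∀ (κ : ZMod 2) (x : ℕ), X0 ≤ x →
        Real.sqrt x * (Real.log (Real.log x)) ^ K / Real.log x ≤
          (((range (x + 1)).filter fun n => n % 2 ^ b = ρ % 2 ^ b ∧
            pat c (Ft t) n + u n = κ).card : ℝ) := by
  classical
  have h1 : ∀ c' : Fin (2 ^ k + L + 1) → ZMod 2, ∃ X0 : ℕ, c' ≠ 0 → ∀ x : ℕ, X0 ≤ x →
      Real.sqrt x * (Real.log (Real.log x)) ^ (K + 1) / Real.log x ≤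
      ((vals c' (Ft t) 1 (2 ^ k) 0 x).card : ℝ) := by
    intro c'
    by_cases hc' : c' = 0
    · exact ⟨0, fun h => absurd hc' h⟩
    · obtain ⟨X0, hX0⟩ := odd_all t k ht (K + 1) c' hc' 0
      exact ⟨X0, fun _ => hX0⟩
  choose X0 hX0 using h1
  obtain ⟨X1, hX1⟩ := ev_absorb K ((2 ^ k + 1 : ℕ) : ℝ)
  refine ⟨max (Finset.univ.sup X0) X1, ?_⟩
  intro c hc r r' hr hr' hne ρ hρ hρ' u hu κ x hx
  rw [max_le_iff] at hx
  obtain ⟨c', hc'0, hc'⟩ := exists_diff c hc (2 ^ k) r r' hr hr' hne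
  have h2 := hX0 c' hc'0 x ((Finset.le_sup (mem_univ c')).trans hx.1)
  have h3 := count_pair c (Ft t) (2 ^ k) (2 ^ b) r r' (pow_dvd_pow 2 hbk) hr hr' ρ hρ hρ' c' hc' u hu
    κ x
  apply hX1 x hx.2
  refine h2.trans ?_
  exact_mod_cast h3

end Pool.Agent.N493.PD
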