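import Pool.Agent.N493.PD1

set_option autoImplicit false

/-! # Bounded memory: two classes with the same values -/

namespace Pool.Agent.N493.PD

open Finset Pool.Agent.R836.PP PowerSeries

/-- one pass over the binary digits, from the lowest or from the highest, with `Q` memory states -/
def OnePass (Q : ℕ) (u : ℕ → ZMod 2) : Prop :=
  (∀ k : ℕ, ∃ (s : ℕ → Fin Q) (h : Fin Q → ℕ → ZMod 2), ∀ n r : ℕ, 1 ≤ n → r < 2 ^ k →
    u (2 ^ k * n + r) = h (s r) n) ∨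
  (∀ k : ℕ, ∃ (s : ℕ → Fin Q) (h : Fin Q → ℕ → ZMod 2), ∀ n r : ℕ, 1 ≤ n → r < 2 ^ k →
    u (2 ^ k * n + r) = h (s n) r)

theorem OnePass.types {Q : ℕ} {u : ℕ → ZMod 2} (h : OnePass Q u) (k : ℕ) :
    ∃ τ : ℕ → Fin Q ⊕ (Fin Q → ZMod 2), ∀ r r' : ℕ, r < 2 ^ k → r' < 2 ^ k → τ r = τ r' →
      ∀ n, 1 ≤ n → u (2 ^ k * n + r) = u (2 ^ k * n + r') := by
  rcases h with h | h
  · obtain ⟨s, g, hg⟩ := h k
    refine ⟨fun r => Sum.inl (s r), fun r r' hr hr' e n hn => ?_⟩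
    rw [hg n r hn hr, hg n r' hn hr', Sum.inl_injective e]
  · obtain ⟨s, g, hg⟩ := h k
    refine ⟨fun r => Sum.inr fun q => g q r, fun r r' hr hr' e n hn => ?_⟩
    rw [hg n r hn hr, hg n r' hn hr']
    exact congrFun (Sum.inr_injective e) (s n)

/-- **errors of bounded-memory predictors** -/
theorem main (t b L R Q K : ℕ) (ht : t % 2 = 1) :
    ∃ X0 : ℕ, ∀ (c : Fin (L + 1) → ZMod 2), c ≠ 0 → ∀ v : Fin R → ℕ → ZMod 2,
      (∀ z, OnePass Q (v z)) → ∀ (Φ : (Fin R → ZMod 2) → ZMod 2) (ρ : ℕ) (κ : ZMod 2) (x : ℕ),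
      X0 ≤ x →
        Real.sqrt x * (Real.log (Real.log x)) ^ K / Real.log x ≤
          (((range (x + 1)).filter fun n => n % 2 ^ b = ρ % 2 ^ b ∧
            pat c (Ft t) n + Φ (fun z => v z n) = κ).card : ℝ) := by
  classical
  set T := Fin R → Fin Q ⊕ (Fin Q → ZMod 2) with hT
  set k := b + Fintype.card T with hk
  obtain ⟨X0, hX0⟩ := count_all t b L K k ht (by omega)
  refine ⟨X0, fun c hc v hv Φ ρ κ x hx => ?_⟩
  choose τ hτ using fun z => (hv z).types k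
  have hcard : Fintype.card T < Fintype.card (Fin (2 ^ Fintype.card T)) := by
    rw [Fintype.card_fin]
    exact Nat.lt_two_pow_self
  obtain ⟨i, j, hij, e⟩ := Fintype.exists_ne_map_eq_of_card_lt
    (fun i : Fin (2 ^ Fintype.card T) => (fun z => τ z (ρ % 2 ^ b + 2 ^ b * (i : ℕ)) : T)) hcard
  have hb : 0 < 2 ^ b := by positivity
  have hlt : ∀ i : Fin (2 ^ Fintype.card T), ρ % 2 ^ b + 2 ^ b * (i : ℕ) < 2 ^ k := by
    intro i
    have h1 := Nat.mod_lt ρ hb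
    have h2 := i.2
    have h3 : 2 ^ k = 2 ^ b * 2 ^ Fintype.card T := by rw [hk, pow_add]
    rw [h3]
    calc ρ % 2 ^ b + 2 ^ b * (i : ℕ) < 2 ^ b + 2 ^ b * (i : ℕ) := by omega
      _ = 2 ^ b * ((i : ℕ) + 1) := by ring
      _ ≤ 2 ^ b * 2 ^ Fintype.card T := Nat.mul_le_mul_left _ h2
  have hmod : ∀ i : ℕ, (ρ % 2 ^ b + 2 ^ b * i) % 2 ^ b = ρ % 2 ^ b := by
    intro i
    rw [Nat.add_mul_mod_self_left, Nat.mod_mod]
  refine hX0 c hc _ _ (hlt i) (hlt j) ?_ ρ (hmod _) (hmod _) (fun n => Φ fun z => v z n) ?_ κ x hx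
  · intro h
    apply hij
    have h2 : 2 ^ b * (i : ℕ) = 2 ^ b * (j : ℕ) := by omega
    exact Fin.ext (Nat.eq_of_mul_eq_mul_left hb h2)
  · intro n hn
    have : ∀ z, v z (2 ^ k * n + (ρ % 2 ^ b + 2 ^ b * (i : ℕ))) =
        v z (2 ^ k * n + (ρ % 2 ^ b + 2 ^ b * (j : ℕ))) := fun z =>
      hτ z _ _ (hlt i) (hlt j) (congrFun e z) n hn
    simp only [this]

end Pool.Agent.N493.PD
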