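import Pool.Agent.R836.PP.FinB

set_option autoImplicit false

/-! # Joint patterns at the dilates `4 ^ a n`: residue classes on which all terms but one vanish -/

namespace Pool.Agent.N493.PE

open Finset Pool.Agent.R836.PP PowerSeries
open Pool.Agent.H397R2.PP Pool.Agent.H397R2.PP.TH Pool.Agent.H307R2.OP

/-- one prime for one linear form -/
theorem crtStep (α0 β0 α β Q n0 : ℕ) (hQ : 0 < Q) (hα : 0 < α)
    (hdet : (α : ℤ) * β0 ≠ α0 * β) (hco : (α0 * n0 + β0).Coprime Q) :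
    ∃ r n1 : ℕ, r.Prime ∧ r % 8 = 3 ∧ ¬ r ∣ Q ∧ n1 ≡ n0 [MOD Q] ∧
      (α0 * n1 + β0).Coprime (Q * r ^ 2) ∧
      ∀ n, n ≡ n1 [MOD Q * r ^ 2] → r ∣ α * n + β ∧ ¬ r ^ 2 ∣ α * n + β := by
  obtain ⟨r, hr1, hr2, hr3⟩ := Nat.forall_exists_prime_gt_and_modEq
    (Q + α + (α * β0 + α0 * β)) (q := 8) (a := 3) (by norm_num) (by norm_num)
  have hr4 : r % 8 = 3 := hr3
  have hrQ : ¬ r ∣ Q := by
    intro h
    have := Nat.le_of_dvd hQ h
    omega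
  have hQr : Q.Coprime r := by
    rw [Nat.coprime_comm, Nat.Prime.coprime_iff_not_dvd hr2]
    exact hrQ
  have hQr2 : Q.Coprime (r ^ 2) := hQr.pow_right 2
  have hαr : α.Coprime (r ^ 2) := by
    apply Nat.Coprime.pow_right
    rw [Nat.coprime_comm, Nat.Prime.coprime_iff_not_dvd hr2]
    intro h
    have := Nat.le_of_dvd hα h
    omega
  have hr0 := hr2.one_lt
  have hr21 : 1 < r ^ 2 := Nat.one_lt_pow two_ne_zero hr0
  obtain ⟨y, -, hy⟩ := Nat.exists_mul_mod_eq_one_of_coprime hαr hr21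
  have hrr : r < r ^ 2 := by nlinarith
  set ns : ℕ := y * (r + (r ^ 2 - 1) * β) with hns
  have h1 : (α * ns + β) % r ^ 2 = r := by
    have e1 : α * ns ≡ 1 * (r + (r ^ 2 - 1) * β) [MOD r ^ 2] := by
      have e2 : α * ns = α * y * (r + (r ^ 2 - 1) * β) := by rw [hns]; ring
      rw [e2]
      apply Nat.ModEq.mul_right
      unfold Nat.ModEq
      rw [hy, Nat.mod_eq_of_lt hr21]
    have e3 : α * ns + β ≡ 1 * (r + (r ^ 2 - 1) * β) + β [MOD r ^ 2] := Nat.ModEq.add_right _ e1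
    have e4 : 1 * (r + (r ^ 2 - 1) * β) + β = r + r ^ 2 * β := by
      obtain ⟨q, hq⟩ : ∃ q, r ^ 2 = q + 1 := ⟨r ^ 2 - 1, by omega⟩
      rw [hq]
      simp only [Nat.add_sub_cancel]
      ring
    rw [e4] at e3
    unfold Nat.ModEq at e3
    rw [e3, Nat.add_mul_mod_self_left, Nat.mod_eq_of_lt hrr]
  obtain ⟨n1, hn1, hn2⟩ := Nat.chineseRemainder hQr2 n0 ns
  have h2 : ∀ n, n ≡ n1 [MOD Q * r ^ 2] → (α * n + β) % r ^ 2 = r := by
    intro n hn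
    have e1 : n ≡ ns [MOD r ^ 2] := (hn.of_dvd (Dvd.intro_left Q rfl)).trans hn2
    have e2 : α * n + β ≡ α * ns + β [MOD r ^ 2] :=
      Nat.ModEq.add_right _ (Nat.ModEq.mul_left _ e1)
    unfold Nat.ModEq at e2
    rw [e2, h1]
  have h3 : ∀ n, n ≡ n1 [MOD Q * r ^ 2] → r ∣ α * n + β ∧ ¬ r ^ 2 ∣ α * n + β := by
    intro n hn
    have e1 := h2 n hn
    constructor
    · have e2 := Nat.div_add_mod (α * n + β) (r ^ 2)
      rw [e1] at e2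
      rw [← e2]
      exact dvd_add (Dvd.dvd.mul_right (dvd_pow_self _ two_ne_zero) _) (dvd_refl _)
    · intro h
      rw [Nat.mod_eq_zero_of_dvd h] at e1
      omega
  refine ⟨r, n1, hr2, hr4, hrQ, hn1, ?_, h3⟩
  apply Nat.Coprime.mul_right
  · have e1 : α0 * n1 + β0 ≡ α0 * n0 + β0 [MOD Q] :=
      Nat.ModEq.add_right _ (Nat.ModEq.mul_left _ hn1)
    rw [Nat.Coprime, Nat.ModEq.gcd_eq e1]
    exact hco
  · apply Nat.Coprime.pow_right
    rw [Nat.coprime_comm, Nat.Prime.coprime_iff_not_dvd hr2]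
    intro h
    have g1 := (h3 n1 (Nat.ModEq.refl _)).1
    have g2 : (r : ℤ) ∣ (α : ℤ) * β0 - α0 * β := by
      have e1 : (r : ℤ) ∣ ((α0 * n1 + β0 : ℕ) : ℤ) := by exact_mod_cast h
      have e2 : (r : ℤ) ∣ ((α * n1 + β : ℕ) : ℤ) := by exact_mod_cast g1
      have e3 := dvd_sub (Dvd.dvd.mul_left e1 (α : ℤ)) (Dvd.dvd.mul_left e2 (α0 : ℤ))
      have e4 : (α : ℤ) * ((α0 * n1 + β0 : ℕ) : ℤ) - (α0 : ℤ) * ((α * n1 + β : ℕ) : ℤ) =
          (α : ℤ) * β0 - α0 * β := by push_cast; ring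
      rwa [e4] at e3
    have g3 := Int.le_of_dvd (abs_pos.2 (sub_ne_zero.2 hdet)) ((dvd_abs _ _).2 g2)
    have g4 : |(α : ℤ) * β0 - α0 * β| ≤ α * β0 + α0 * β := by
      have a1 : (0 : ℤ) ≤ α * β0 := by positivity
      have a2 : (0 : ℤ) ≤ α0 * β := by positivity
      rw [abs_le]
      constructor <;> linarith
    have g5 : ((Q + α + (α * β0 + α0 * β) : ℕ) : ℤ) < r := by exact_mod_cast hr1
    push_cast at g5
    have g6 : (0 : ℤ) < Q := by exact_mod_cast hQ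
    have g7 : (0 : ℤ) < α := by exact_mod_cast hα
    linarith

/-- `H` primes for one linear form -/
theorem crtOne (α0 β0 α β : ℕ) (hα : 0 < α) (hdet : (α : ℤ) * β0 ≠ α0 * β) (H : ℕ) :
    ∀ Q n0 : ℕ, 0 < Q → (α0 * n0 + β0).Coprime Q → ∃ Q' n1 : ℕ, ∃ R : Finset ℕ,
      0 < Q' ∧ Q ∣ Q' ∧ n1 ≡ n0 [MOD Q] ∧ (α0 * n1 + β0).Coprime Q' ∧ R.card = H ∧
      (∀ r ∈ R, r ∣ Q') ∧ ∀ n, n ≡ n1 [MOD Q'] → ∀ r ∈ R, r.Prime ∧ r % 8 = 3 ∧
        r ∣ α * n + β ∧ ¬ r ^ 2 ∣ α * n + β := by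
  classical
  induction H with
  | zero =>
    intro Q n0 hQ hco
    exact ⟨Q, n0, ∅, hQ, dvd_refl _, Nat.ModEq.refl _, hco, by simp, by simp, by simp⟩
  | succ H ih =>
    intro Q n0 hQ hco
    obtain ⟨Q', n1, R, h1, h2, h3, h4, h5, h6, h7⟩ := ih Q n0 hQ hco
    obtain ⟨r, n2, g1, g2, g3, g4, g5, g6⟩ := crtStep α0 β0 α β Q' n1 h1 hα hdet h4
    have hrR : r ∉ R := fun h => g3 (h6 r h)
    have hr0 := g1.pos
    refine ⟨Q' * r ^ 2, n2, insert r R, by positivity, h2.mul_right _, (g4.of_dvd h2).trans h3, g5,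
      by rw [card_insert_of_notMem hrR, h5], ?_, ?_⟩
    · intro s hs
      rw [mem_insert] at hs
      rcases hs with rfl | hs
      · exact Dvd.dvd.mul_left (dvd_pow_self _ two_ne_zero) _
      · exact (h6 s hs).mul_right _
    · intro n hn s hs
      rw [mem_insert] at hs
      rcases hs with rfl | hs
      · exact ⟨g1, g2, g6 n hn⟩
      · exact h7 n ((hn.of_dvd (Dvd.intro _ rfl)).trans g4) s hs

/-- `H` primes for each of finitely many linear forms -/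
theorem crtAll (α0 β0 H Q0 n0 : ℕ) (hQ0 : 0 < Q0) (hco : (α0 * n0 + β0).Coprime Q0)
    (s : Finset (ℕ × ℕ)) (hs : ∀ p ∈ s, 0 < p.1 ∧ (p.1 : ℤ) * β0 ≠ α0 * p.2) :
    ∃ Q n1 : ℕ, 0 < Q ∧ Q0 ∣ Q ∧ n1 ≡ n0 [MOD Q0] ∧ (α0 * n1 + β0).Coprime Q ∧
      ∀ n, n ≡ n1 [MOD Q] → ∀ p ∈ s, ∃ R : Finset ℕ, R.card = H ∧ ∀ r ∈ R, r.Prime ∧ r % 8 = 3 ∧
        r ∣ p.1 * n + p.2 ∧ ¬ r ^ 2 ∣ p.1 * n + p.2 := by
  classical
  induction s using Finset.induction_on with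
  | empty => exact ⟨Q0, n0, hQ0, dvd_refl _, Nat.ModEq.refl _, hco, by simp⟩
  | insert p s hps ih =>
    obtain ⟨Q, n1, h1, h2, h3, h4, h5⟩ := ih fun q hq => hs q (mem_insert_of_mem hq)
    obtain ⟨hp1, hp2⟩ := hs p (mem_insert_self _ _)
    obtain ⟨Q', n2, R, g1, g2, g3, g4, g5, g6, g7⟩ := crtOne α0 β0 p.1 p.2 hp1 hp2 H Q n1 h1 h4
    refine ⟨Q', n2, g1, h2.trans g2, (g3.of_dvd h2).trans h3, g4, ?_⟩
    intro n hn q hq
    rw [mem_insert] at hq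
    rcases hq with rfl | hq
    · exact ⟨R, g5, g7 n hn⟩
    · exact h5 n ((hn.of_dvd g2).trans g3) q hq

end Pool.Agent.N493.PE
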