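import Pool.Agent.N493.PE1

set_option autoImplicit false

/-! # Joint patterns at the dilates `4 ^ a n`: many values 1 on the modular side -/

namespace Pool.Agent.N493.PE

open Finset Pool.Agent.R836.PP PowerSeries
open Pool.Agent.H397R2.PP Pool.Agent.H397R2.PP.TH Pool.Agent.H307R2.OP

/-- the joint pattern of the values of `Φ a` at `8 (4 ^ a n + i) + μ a` -/
noncomputable def gG {A L : ℕ} (c : Fin (A + 1) → Fin (L + 1) → ZMod 2) (μ : ℕ → ℕ)
    (Φ : ℕ → (ZMod 2)⟦X⟧) (n : ℕ) : ZMod 2 :=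
  ∑ a : Fin (A + 1), ∑ i : Fin (L + 1), c a i * coeff (8 * (4 ^ (a : ℕ) * n + i) + μ a) (Φ a)

theorem four_pow_odd {a a' B B' : ℕ} (hB : B % 2 = 1) (hB' : B' % 2 = 1)
    (h : 4 ^ a * B = 4 ^ a' * B') : a = a' := by
  wlog hlt : a ≤ a' generalizing a a' B B'
  · exact (this hB' hB h.symm (by omega)).symm
  obtain ⟨d, rfl⟩ : ∃ d, a' = a + d := ⟨a' - a, by omega⟩
  have h1 : B = 4 ^ d * B' := by
    have h2 : 4 ^ a * B = 4 ^ a * (4 ^ d * B') := by rw [h, pow_add]; ring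
    exact Nat.eq_of_mul_eq_mul_left (by positivity) h2
  rcases Nat.eq_zero_or_pos d with rfl | hd
  · rfl
  · exfalso
    obtain ⟨d', rfl⟩ : ∃ d', d = d' + 1 := ⟨d - 1, by omega⟩
    rw [pow_succ] at h1
    have : B = 2 * (4 ^ d' * 2 * B') := by rw [h1]; ring
    omega

theorem odd_coprime_two_pow {n k : ℕ} (h : n % 2 = 1) : n.Coprime (2 ^ k) := by
  apply Nat.Coprime.pow_right
  rw [Nat.coprime_comm, Nat.coprime_two_left, Nat.odd_iff]
  exact h

theorem joint_lower {A L : ℕ} (w : ℕ → ℝ) (hw : Wt w) (e H : ℕ) (μ : ℕ → ℕ) (hμ : ∀ a, μ a % 2 = 1)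
    (Φ : ℕ → (ZMod 2)⟦X⟧) (h1 : ∀ a, Many w (μ a) (Φ a)) (h2 : ∀ a ≤ A, Vanish H (Φ a))
    (c : Fin (A + 1) → Fin (L + 1) → ZMod 2) (hc : c ≠ 0) (ρ : ℕ) :
    ∃ δ : ℝ, 0 < δ ∧ ∃ X0 : ℕ, ∀ x : ℕ, X0 ≤ x → δ * x / w x ≤
      (((range (x + 1)).filter fun n => n % 2 ^ e = ρ % 2 ^ e ∧ gG c μ Φ n = 1).card : ℝ) := by
  classical
  obtain ⟨a0, ha0⟩ : ∃ a, c a ≠ 0 := by
    by_contra hcon
    push Not at hcon
    exact hc (funext hcon)
  obtain ⟨i0, hi0⟩ : ∃ i, c a0 i ≠ 0 := by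
    by_contra hcon
    push Not at hcon
    exact ha0 (funext hcon)
  have hci : c a0 i0 = 1 := (zmod_two (c a0 i0)).resolve_left hi0
  set α0 : ℕ := 8 * 4 ^ (a0 : ℕ) with hα0
  set β0 : ℕ := 8 * i0 + μ a0 with hβ0
  have hα0pos : 0 < α0 := by positivity
  have hα08 : 8 ≤ α0 := by
    have : 1 ≤ 4 ^ (a0 : ℕ) := Nat.one_le_pow _ _ (by norm_num)
    omega
  have hβ0odd : β0 % 2 = 1 := by
    have := hμ a0
    omega
  have hform : ∀ n, (α0 * n + β0) % 2 = 1 := by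
    intro n
    have : α0 * n = 2 * (4 * 4 ^ (a0 : ℕ) * n) := by rw [hα0]; ring
    omega
  set s : Finset (ℕ × ℕ) := ((univ : Finset (Fin (A + 1) × Fin (L + 1))).erase (a0, i0)).image
    (fun p => (8 * 4 ^ (p.1 : ℕ), 8 * (p.2 : ℕ) + μ p.1)) with hs
  have hsp : ∀ p ∈ s, 0 < p.1 ∧ (p.1 : ℤ) * β0 ≠ α0 * p.2 := by
    intro p hp
    rw [hs, mem_image] at hp
    obtain ⟨⟨a, i⟩, hq, rfl⟩ := hp
    refine ⟨by positivity, ?_⟩
    intro h
    have h' : 8 * 4 ^ (a : ℕ) * β0 = α0 * (8 * (i : ℕ) + μ a) := by exact_mod_cast h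
    have h3 : 4 ^ (a : ℕ) * β0 = 4 ^ (a0 : ℕ) * (8 * (i : ℕ) + μ a) := by
      rw [hα0] at h'
      have e1 : 8 * (4 ^ (a : ℕ) * β0) = 8 * (4 ^ (a0 : ℕ) * (8 * (i : ℕ) + μ a)) := by
        rw [← mul_assoc, h', mul_assoc]
      exact Nat.eq_of_mul_eq_mul_left (by norm_num) e1
    have h4 : (a : ℕ) = a0 := four_pow_odd hβ0odd (by have := hμ a; omega) h3
    rw [h4] at h3
    have h5 := Nat.eq_of_mul_eq_mul_left (by positivity) h3
    have h6 : (i0 : ℕ) = i := by omega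
    have h7 : (a, i) = (a0, i0) := by
      rw [Prod.mk.injEq]
      exact ⟨Fin.ext h4, (Fin.ext h6).symm⟩
    exact (mem_erase.1 hq).1 h7
  obtain ⟨Q, n1, g1, g2, g3, g4, g5⟩ := crtAll α0 β0 H (2 ^ e) ρ (by positivity)
    (odd_coprime_two_pow (hform ρ)) s hsp
  have h8Q : 8 ∣ α0 * Q := (Dvd.intro _ rfl : 8 ∣ α0).mul_right _
  have hco : (α0 * n1 + β0).Coprime (α0 * Q) := by
    apply Nat.Coprime.mul_right _ g4
    have hpow : α0 = 2 ^ (2 * (a0 : ℕ) + 3) := by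
      rw [hα0, pow_add, pow_mul]; norm_num; ring
    have h := odd_coprime_two_pow (k := 2 * (a0 : ℕ) + 3) (hform n1)
    rwa [← hpow] at h
  have hmod8 : (α0 * n1 + β0) % 8 = μ a0 % 8 := by
    rw [hα0, hβ0]
    have : 8 * 4 ^ (a0 : ℕ) * n1 + (8 * (i0 : ℕ) + μ a0) =
        μ a0 + 8 * (4 ^ (a0 : ℕ) * n1 + i0) := by ring
    rw [this, Nat.add_mul_mod_self_left]
  obtain ⟨δ, hδ, X1, hX1⟩ := h1 a0 (α0 * Q) (α0 * n1 + β0) (by positivity) h8Q hco hmod8
  have hval : ∀ n, n ≡ n1 [MOD Q] → coeff (α0 * n + β0) (Φ a0) = 1 → gG c μ Φ n = 1 := by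
    intro n hn hcoef
    have hterm : ∀ (a : Fin (A + 1)) (i : Fin (L + 1)), (a, i) ≠ (a0, i0) →
        coeff (8 * (4 ^ (a : ℕ) * n + i) + μ a) (Φ a) = 0 := by
      intro a i hai
      obtain ⟨R, hR, hr⟩ := g5 n hn (8 * 4 ^ (a : ℕ), 8 * (i : ℕ) + μ a) (by
        rw [hs, mem_image]
        exact ⟨(a, i), mem_erase.2 ⟨hai, mem_univ _⟩, rfl⟩)
      have e1 : 8 * (4 ^ (a : ℕ) * n + i) + μ a =
          8 * 4 ^ (a : ℕ) * n + (8 * (i : ℕ) + μ a) := by ring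
      rw [e1]
      exact h2 a (Nat.lt_succ_iff.1 a.2) _ R hR hr
    unfold gG
    rw [Finset.sum_eq_single a0]
    · rw [Finset.sum_eq_single i0]
      · have e1 : 8 * (4 ^ (a0 : ℕ) * n + i0) + μ a0 = α0 * n + β0 := by
          rw [hα0, hβ0]; ring
        rw [hci, one_mul, e1, hcoef]
      · intro i _ hi
        rw [hterm a0 i (fun h => hi (Prod.mk.injEq _ _ _ _ ▸ h).2), mul_zero]
      · intro h
        exact absurd (mem_univ _) h
    · intro a _ ha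
      apply Finset.sum_eq_zero
      intro i _
      rw [hterm a i (fun h => ha (Prod.mk.injEq _ _ _ _ ▸ h).1), mul_zero]
    · intro h
      exact absurd (mem_univ _) h
  have hinj : ∀ x : ℕ, (((Icc 1 (8 * x)).filter
      (fun N => N % (α0 * Q) = (α0 * n1 + β0) % (α0 * Q) ∧ coeff N (Φ a0) = 1)).card : ℕ) ≤
      ((range (x + 1)).filter fun n => n % 2 ^ e = ρ % 2 ^ e ∧ gG c μ Φ n = 1).card +
        (α0 * n1 + β0) := by
    intro x
    have hsub : (Icc 1 (8 * x)).filter (fun N => N % (α0 * Q) = (α0 * n1 + β0) % (α0 * Q) ∧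
        coeff N (Φ a0) = 1) ⊆
        (((range (x + 1)).filter fun n => n % 2 ^ e = ρ % 2 ^ e ∧ gG c μ Φ n = 1).image
          fun n => α0 * n + β0) ∪ range (α0 * n1 + β0) := by
      intro N hN
      rw [mem_filter, mem_Icc] at hN
      obtain ⟨⟨hN1, hN2⟩, hN3, hN4⟩ := hN
      rw [mem_union, mem_range, mem_image]
      by_cases hlt : N < α0 * n1 + β0
      · exact Or.inr hlt
      · left
        push Not at hlt
        have hm : (α0 * n1 + β0) ≡ N [MOD (α0 * Q)] := Nat.ModEq.symm hN3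
        obtain ⟨z, hz⟩ := (Nat.modEq_iff_dvd' hlt).1 hm
        have hNe : N = α0 * (n1 + Q * z) + β0 := by
          have : N = α0 * n1 + β0 + α0 * Q * z := by omega
          rw [this]
          ring
        have hcl : n1 + Q * z ≡ n1 [MOD Q] := by
          unfold Nat.ModEq
          exact Nat.add_mul_mod_self_left _ _ _
        refine ⟨n1 + Q * z, ?_, hNe.symm⟩
        rw [mem_filter, mem_range]
        refine ⟨?_, ?_, ?_⟩
        · have e1 : 8 * (n1 + Q * z) ≤ α0 * (n1 + Q * z) := Nat.mul_le_mul_right _ hα08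
          omega
        · exact (hcl.of_dvd g2).trans g3
        · apply hval _ hcl
          rw [← hNe]
          exact hN4
    calc _ ≤ _ := card_le_card hsub
      _ ≤ _ := card_union_le _ _
      _ ≤ _ := by
        rw [card_range]
        exact Nat.add_le_add_right card_image_le _
  set B : ℕ := α0 * n1 + β0 with hB
  obtain ⟨X2, hX2⟩ := exists_nat_gt (((B : ℝ) / δ) ^ 2)
  obtain ⟨X3, hX3⟩ := hw.pos
  obtain ⟨X4, hX4⟩ := hw.small 1 one_pos
  refine ⟨δ, hδ, max (max X1 X2) (max (max X3 X4) 3), fun x hx => ?_⟩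
  simp only [max_le_iff] at hx
  obtain ⟨⟨hx1, hx2⟩, ⟨hx3, hx4⟩, hx5⟩ := hx
  have hxr : (0 : ℝ) < x := by
    have : 0 < x := by omega
    exact_mod_cast this
  obtain ⟨w1, w2⟩ := hX3 x hx3
  obtain ⟨w3, -⟩ := hX3 (8 * x) (by omega)
  have w4 := hX4 x hx4
  rw [one_mul] at w4
  have e1 := hX1 (8 * x) (by omega)
  have e2 : (((Icc 1 (8 * x)).filter (fun N => N % (α0 * Q) = B % (α0 * Q) ∧
      coeff N (Φ a0) = 1)).card : ℝ) ≤
      (((range (x + 1)).filter fun n => n % 2 ^ e = ρ % 2 ^ e ∧ gG c μ Φ n = 1).card : ℝ) + B := by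
    exact_mod_cast hinj x
  have e5 : (B : ℝ) ≤ δ * Real.sqrt x := by
    have h3 : ((B : ℝ) / δ) ^ 2 ≤ x := hX2.le.trans (by exact_mod_cast hx2)
    have h4 : (B : ℝ) / δ ≤ Real.sqrt x := Real.le_sqrt_of_sq_le h3
    rw [div_le_iff₀ hδ] at h4
    linarith
  have e6 : Real.sqrt x ≤ x / w x := by
    rw [le_div_iff₀ w1]
    have h6 : Real.sqrt (x : ℝ) * Real.sqrt x = x := Real.mul_self_sqrt hxr.le
    nlinarith [Real.sqrt_nonneg (x : ℝ)]
  have e7 : 4 * (δ * (x / w x)) ≤ δ * ((8 * x : ℕ) : ℝ) / w (8 * x) := by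
    have : 4 * (δ * (x / w x)) = (4 * δ * x) / w x := by ring
    rw [this, div_le_div_iff₀ w1 w3]
    push_cast
    have h9 : 4 * δ * x * w (8 * x) ≤ 4 * δ * x * (2 * w x) := by
      apply mul_le_mul_of_nonneg_left w2
      positivity
    linarith
  have e8 : δ * x / w x = δ * (x / w x) := by ring
  rw [e8]
  have e10 : δ * Real.sqrt x ≤ δ * (x / w x) := mul_le_mul_of_nonneg_left e6 hδ.le
  have e11 : 0 ≤ δ * (x / w x) := by positivity
  linarith

end Pool.Agent.N493.PE
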