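import Pool.Agent.N493.PE2

set_option autoImplicit false

/-! # Joint patterns at the dilates `4 ^ a n`: transfer to the multipartition numbers -/

namespace Pool.Agent.N493.PE

open Finset Pool.Agent.R836.PP PowerSeries
open Pool.Agent.H397R2.PP Pool.Agent.H397R2.PP.TH Pool.Agent.H307R2.OP

/-- the joint pattern -/
noncomputable def wF {A L : ℕ} (c : Fin (A + 1) → Fin (L + 1) → ZMod 2) (φ : ℕ → ZMod 2) (n : ℕ) :
    ZMod 2 :=
  ∑ a : Fin (A + 1), ∑ i : Fin (L + 1), c a i * φ (4 ^ (a : ℕ) * n + i)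

/-- the dilated set -/
def Sd (S : ℕ → Prop) (a n : ℕ) : Prop := ∃ s, n = 4 ^ a * s ∧ S s

open Classical in
theorem cntF_dilate (S : ℕ → Prop) (a n i : ℕ) (h : ∀ s, S s → n < s → ¬ 4 ^ a * s ≤ 4 ^ a * n + i) :
    cntF (Sd S a) (4 ^ a * n + i) = (cntF S n).image fun s => 4 ^ a * s := by
  have h4 : 0 < 4 ^ a := by positivity
  ext b
  unfold cntF Sd
  simp only [mem_filter, mem_range, mem_image]
  constructor
  · rintro ⟨h1, s, rfl, hs⟩
    refine ⟨s, ⟨?_, hs⟩, rfl⟩
    by_contra hcon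
    exact h s hs (by omega) (by omega)
  · rintro ⟨s, ⟨h1, hs⟩, rfl⟩
    have : 4 ^ a * s ≤ 4 ^ a * n := Nat.mul_le_mul_left _ (by omega)
    exact ⟨by omega, s, rfl, hs⟩

open Classical in
/-- the places with an element of `S` among the next `L` -/
noncomputable def bad (S : ℕ → Prop) (L x : ℕ) : Finset ℕ :=
  (range (x + 1)).filter fun n => ∃ s, S s ∧ n < s ∧ s ≤ n + L

open Classical in
theorem bad_card (S : ℕ → Prop) (L x : ℕ) : (bad S L x).card ≤ L * (cntF S (x + L)).card := by
  have hsub : bad S L x ⊆ ((range L) ×ˢ (cntF S (x + L))).image fun p => p.2 - (p.1 + 1) := by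
    intro n hn
    unfold bad at hn
    rw [mem_filter, mem_range] at hn
    obtain ⟨h1, s, hs, h2, h3⟩ := hn
    rw [mem_image]
    refine ⟨(s - n - 1, s), ?_, ?_⟩
    · rw [mem_product, mem_range]
      unfold cntF
      rw [mem_filter, mem_range]
      exact ⟨by simp only; omega, by simp only; omega, hs⟩
    · simp only
      omega
  refine (card_le_card hsub).trans (card_image_le.trans ?_)
  rw [card_product, card_range]

open Classical in
/-- the sum of the joint pattern over the shifts by elements of `S` -/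
theorem sum_shift {A L : ℕ} (c : Fin (A + 1) → Fin (L + 1) → ZMod 2) (S : ℕ → Prop)
    (F : (ZMod 2)⟦X⟧) (E G Φ : ℕ → (ZMod 2)⟦X⟧) (μ : ℕ → ℕ)
    (hE : ∀ a n, coeff n (E a) = if Sd S a n then 1 else 0) (hFE : ∀ a, F * E a = G a)
    (hG : ∀ a n, coeff n (G a) = coeff (8 * n + μ a) (Φ a)) (n : ℕ)
    (hbad : ¬ ∃ s, S s ∧ n < s ∧ s ≤ n + L) :
    ∑ s ∈ cntF S n, wF c (fun m => coeff m F) (n - s) = gG c μ Φ n := by
  unfold wF gG
  rw [Finset.sum_comm]
  refine Finset.sum_congr rfl fun a _ => ?_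
  rw [Finset.sum_comm]
  refine Finset.sum_congr rfl fun i _ => ?_
  rw [← Finset.mul_sum, ← hG, ← hFE, coeff_eq_sum (Sd S a) F (E a) (hE a)]
  congr 1
  rw [cntF_dilate S a n i]
  · rw [Finset.sum_image]
    · refine Finset.sum_congr rfl fun s hs => ?_
      unfold cntF at hs
      rw [mem_filter, mem_range] at hs
      congr 1
      have e1 : 4 ^ (a : ℕ) * n = 4 ^ (a : ℕ) * (n - s) + 4 ^ (a : ℕ) * s := by
        rw [← mul_add]
        congr 1
        omega
      omega
    · intro s _ s' _ h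
      exact Nat.eq_of_mul_eq_mul_left (show 0 < 4 ^ (a : ℕ) by positivity) h
  · intro s hs hns h
    apply hbad
    refine ⟨s, hs, hns, ?_⟩
    have hi : (i : ℕ) ≤ L := Nat.lt_succ_iff.1 i.2
    have h1 : 1 ≤ 4 ^ (a : ℕ) := Nat.one_le_pow _ _ (by norm_num)
    obtain ⟨d, rfl⟩ : ∃ d, s = n + d := ⟨s - n, by omega⟩
    rw [mul_add] at h
    have h2 : 4 ^ (a : ℕ) * d ≤ i := by omega
    have h3 : d ≤ 4 ^ (a : ℕ) * d := Nat.le_mul_of_pos_left _ (by omega)
    omega

open Classical in
/-- the places where the joint pattern is `1` -/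
noncomputable def valsW {A L : ℕ} (c : Fin (A + 1) → Fin (L + 1) → ZMod 2) (φ : ℕ → ZMod 2)
    (m ρ x : ℕ) : Finset ℕ :=
  (range (x + 1)).filter fun n => n % m = ρ % m ∧ wF c φ n = 1

open Classical in
theorem transferW {A L : ℕ} (c : Fin (A + 1) → Fin (L + 1) → ZMod 2) (S : ℕ → Prop)
    (F : (ZMod 2)⟦X⟧) (E G Φ : ℕ → (ZMod 2)⟦X⟧) (μ : ℕ → ℕ)
    (hE : ∀ a n, coeff n (E a) = if Sd S a n then 1 else 0) (hFE : ∀ a, F * E a = G a)
    (hG : ∀ a n, coeff n (G a) = coeff (8 * n + μ a) (Φ a)) (m : ℕ)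
    (hS : ∀ n, S n → m ∣ n) (ρ x : ℕ) :
    ((range (x + 1)).filter fun n => n % m = ρ % m ∧ gG c μ Φ n = 1).card ≤
      ((valsW c (fun n => coeff n F) m ρ x).card + L) * (cntF S (x + L)).card := by
  set V := valsW c (fun n => coeff n F) m ρ x with hV
  set Gd := (range (x + 1)).filter fun n => n % m = ρ % m ∧ gG c μ Φ n = 1 with hGd
  have h1 : Gd.card ≤ (Gd \ bad S L x).card + (bad S L x).card := by
    rw [← Finset.card_sdiff_add_card_inter Gd (bad S L x)]
    exact Nat.add_le_add_left (card_le_card inter_subset_right) _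
  have hex : ∀ n ∈ Gd \ bad S L x, ∃ s ∈ cntF S n, wF c (fun m => coeff m F) (n - s) = 1 := by
    intro n hn
    rw [mem_sdiff, hGd, mem_filter] at hn
    obtain ⟨⟨hn1, hn2, hn3⟩, hn4⟩ := hn
    have hb : ¬ ∃ s, S s ∧ n < s ∧ s ≤ n + L := by
      intro h
      apply hn4
      unfold bad
      rw [mem_filter]
      exact ⟨hn1, h⟩
    by_contra hcon
    push Not at hcon
    have h2 := sum_shift c S F E G Φ μ hE hFE hG n hb
    rw [hn3, Finset.sum_eq_zero] at h2
    · exact zero_ne_one h2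
    · intro s hs
      rcases zmod_two (wF c (fun m => coeff m F) (n - s)) with h | h
      · exact h
      · exact absurd h (hcon s hs)
  choose! b hb1 hb2 using hex
  have h2 : (Gd \ bad S L x).card ≤ (V ×ˢ cntF S (x + L)).card := by
    apply card_le_card_of_injOn (fun n => (n - b n, b n))
    · intro n hn
      have hn' := hn
      rw [mem_coe] at hn'
      have e1 := hb1 n hn'
      have e2 := hb2 n hn'
      unfold cntF at e1
      rw [mem_filter, mem_range] at e1
      rw [mem_sdiff, hGd, mem_filter, mem_range] at hn'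
      obtain ⟨⟨hn1, hn2, -⟩, -⟩ := hn'
      rw [mem_coe, mem_product]
      constructor
      · simp only [hV]
        unfold valsW
        rw [mem_filter, mem_range]
        refine ⟨by omega, ?_, e2⟩
        obtain ⟨t, ht⟩ := hS _ e1.2
        have e3 : n - b n + m * t = n := by omega
        have e4 : (n - b n) % m = n % m := by
          calc (n - b n) % m = (n - b n + m * t) % m := (Nat.add_mul_mod_self_left _ _ _).symm
            _ = n % m := by rw [e3]
        rw [e4]
        exact hn2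
      · simp only
        unfold cntF
        rw [mem_filter, mem_range]
        exact ⟨by omega, e1.2⟩
    · intro n hn n' hn' h
      rw [mem_coe] at hn hn'
      have e1 := hb1 n hn
      have e1' := hb1 n' hn'
      unfold cntF at e1 e1'
      rw [mem_filter, mem_range] at e1 e1'
      simp only [Prod.mk.injEq] at h
      omega
  rw [card_product] at h2
  have h3 := bad_card S L x
  calc Gd.card ≤ _ := h1
    _ ≤ V.card * (cntF S (x + L)).card + L * (cntF S (x + L)).card := Nat.add_le_add h2 h3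
    _ = (V.card + L) * (cntF S (x + L)).card := by ring

/-- the data of the dilate `4 ^ a` -/
theorem dilate_data (t e ε j a : ℕ) (hj : t + 3 * (2 * j + 1) = 2 ^ e * ε) (ht : t % 2 = 1) :
    ∃ j' : ℕ, j ≤ j' ∧ t + 3 * (2 * j' + 1) = 2 ^ (2 * a + e) * ε := by
  obtain ⟨q, hq⟩ : ∃ q, 4 ^ a = 3 * q + 1 := by
    have h : 4 ^ a % 3 = 1 := by
      rw [Nat.pow_mod]; norm_num
    exact ⟨4 ^ a / 3, by omega⟩
  have h1 : 2 ^ (2 * a + e) * ε = (3 * q + 1) * (t + 3 * (2 * j + 1)) := by
    rw [pow_add, pow_mul, hj, ← hq]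
    norm_num
    ring
  have h2 : q % 2 = 1 ∨ a = 0 := by
    rcases Nat.eq_zero_or_pos a with h | h
    · exact Or.inr h
    · left
      obtain ⟨a', rfl⟩ : ∃ a', a = a' + 1 := ⟨a - 1, by omega⟩
      rw [pow_succ] at hq
      omega
  rcases h2 with h2 | h2
  · -- μ' = q t + (3 q + 1) (2 j + 1)
    have h3 : (q * t + (3 * q + 1) * (2 * j + 1)) % 2 = 1 := by
      have e1 : (q * t) % 2 = 1 := by
        rw [Nat.mul_mod, h2, ht]
      have e2 : ((3 * q + 1) * (2 * j + 1)) % 2 = 0 := by
        rw [Nat.mul_mod]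
        have : (3 * q + 1) % 2 = 0 := by omega
        rw [this]
        simp
      omega
    refine ⟨(q * t + (3 * q + 1) * (2 * j + 1)) / 2, ?_, ?_⟩
    · have : 2 * j + 1 ≤ (3 * q + 1) * (2 * j + 1) := Nat.le_mul_of_pos_left _ (by omega)
      omega
    · rw [h1]
      have e3 : 2 * ((q * t + (3 * q + 1) * (2 * j + 1)) / 2) + 1 =
          q * t + (3 * q + 1) * (2 * j + 1) := by omega
      rw [e3]
      ring
  · subst h2
    have : q = 0 := by simpa using hq
    subst this
    refine ⟨j, le_rfl, ?_⟩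
    rw [h1]
    ring

end Pool.Agent.N493.PE
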