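import Pool.Agent.N493.PE3
import Pool.Agent.N493.PD2

set_option autoImplicit false

/-! # Joint patterns at the dilates `4 ^ a n`: the counting theorem -/

namespace Pool.Agent.N493.PE

open Finset Pool.Agent.R836.PP PowerSeries
open Pool.Agent.H397R2.PP Pool.Agent.H397R2.PP.TH Pool.Agent.H307R2.OP
open Pool.Agent.N493.PD (Ft)

theorem exists_e' (t b K : ℕ) (ht : t % 2 = 1) : ∃ e ε j : ℕ, b ≤ e ∧ (ε = 1 ∨ ε = 3) ∧
    t + 3 * (2 * j + 1) = 2 ^ e * ε ∧ 4 ^ K ≤ j := by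
  set f : ℕ := b + t + 2 * K + 10 with hf
  have h3 : t % 3 = 0 ∨ t % 3 = 1 ∨ t % 3 = 2 := by omega
  rcases h3 with h3 | h3 | h3
  · have hb := big t K f (by omega)
    have he : 2 ^ f % 2 = 0 := by
      have : f = (f - 1) + 1 := by omega
      rw [this, pow_succ]
      omega
    exact ⟨f, 3, (2 ^ f - t / 3 - 1) / 2, by omega, Or.inr rfl, by omega, by omega⟩
  · have hb := big t K (2 * f) (by omega)
    have he : 2 ^ (2 * f) % 3 = 1 := by
      rw [pow_mul, Nat.pow_mod]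
      norm_num
    have he2 : 2 ^ (2 * f) % 2 = 0 := by
      have : 2 * f = (2 * f - 1) + 1 := by omega
      rw [this, pow_succ]
      omega
    exact ⟨2 * f, 1, ((2 ^ (2 * f) - t) / 3 - 1) / 2, by omega, Or.inl rfl, by omega, by omega⟩
  · have hb := big t K (2 * f + 1) (by omega)
    have he : 2 ^ (2 * f + 1) % 3 = 2 := by
      have h : 2 ^ (2 * f) % 3 = 1 := by
        rw [pow_mul, Nat.pow_mod]
        norm_num
      rw [pow_succ]
      omega
    have he2 : 2 ^ (2 * f + 1) % 2 = 0 := by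
      rw [pow_succ]
      omega
    exact ⟨2 * f + 1, 1, ((2 ^ (2 * f + 1) - t) / 3 - 1) / 2, by omega, Or.inl rfl, by omega,
      by omega⟩

theorem Sx_dilate (P : ℕ → Prop) (e a n : ℕ) : Sx (2 ^ (2 * a + e)) P n ↔ Sd (Sx (2 ^ e) P) a n := by
  unfold Sx Sd
  have h : 2 ^ (2 * a + e) = 4 ^ a * 2 ^ e := by
    rw [pow_add, pow_mul]; norm_num
  constructor
  · rintro ⟨k, rfl, hk⟩
    exact ⟨2 ^ e * k, by rw [h]; ring, k, rfl, hk⟩
  · rintro ⟨s, rfl, k, rfl, hk⟩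
    exact ⟨k, by rw [h]; ring, hk⟩

/-- the counting theorem with an abstract sparse set -/
theorem joint_of {A L : ℕ} (t b K e ε j : ℕ) (ht : t % 2 = 1) (hbe : b ≤ e)
    (hj : t + 3 * (2 * j + 1) = 2 ^ e * ε) (hK : 4 ^ (K + 1) ≤ j) (S : ℕ → Prop)
    (hE : ∀ a n, (Sd S a n → coeff n (pentagonalSeries (ZMod 2) ^ (2 ^ (2 * a + e) * ε)) = 1) ∧
      (¬ Sd S a n → coeff n (pentagonalSeries (ZMod 2) ^ (2 ^ (2 * a + e) * ε)) = 0))
    (hS : ∀ n, S n → 2 ^ e ∣ n)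
    (hC : ∀ X, ((cntF S X).card : ℝ) ≤ 5 * (Real.sqrt X + 1))
    (c : Fin (A + 1) → Fin (L + 1) → ZMod 2) (hc : c ≠ 0) (ρ : ℕ) :
    ∃ X0 : ℕ, ∀ x : ℕ, X0 ≤ x →
      Real.sqrt x * (Real.log (Real.log x)) ^ K / Real.log x ≤
      ((valsW c (fun n => coeff n (Ft t)) (2 ^ b) ρ x).card : ℝ) := by
  classical
  choose jj hjj1 hjj2 using fun a => dilate_data t e ε j a hj ht
  set μ : ℕ → ℕ := fun a => 2 * jj a + 1 with hμ
  set Φ : ℕ → (ZMod 2)⟦X⟧ := fun a => (Db : Pool.Agent.H307R2.OP.S) ^ (μ a) with hΦ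
  set H : ℕ := (range (A + 1)).sup (fun a => cont (jj a)) + 1 with hH
  have hE' : ∀ a n, coeff n (pentagonalSeries (ZMod 2) ^ (2 ^ (2 * a + e) * ε)) =
      if Sd S a n then 1 else 0 := by
    intro a n
    by_cases h : Sd S a n
    · rw [if_pos h, (hE a n).1 h]
    · rw [if_neg h, (hE a n).2 h]
  have hFE : ∀ a, Ft t * pentagonalSeries (ZMod 2) ^ (2 ^ (2 * a + e) * ε) =
      pentagonalSeries (ZMod 2) ^ (3 * (μ a)) := fun a => pow_eq t _ _ (hjj2 a)
  have hG : ∀ a n, coeff n (pentagonalSeries (ZMod 2) ^ (3 * (μ a))) =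
      coeff (8 * n + μ a) (Φ a) := fun a n => coeff_Db_pow (μ a) n
  have hM : ∀ a, Many (wK (K + 1)) (μ a) (Φ a) := by
    intro a
    exact many_Db (jj a) (K + 1) (le_cont (hK.trans (hjj1 a)))
  have hV : ∀ a ≤ A, Vanish H (Φ a) := by
    intro a ha N R hR h
    refine coeff_vanish H _ (NIL.WW_mem ?_) N R hR h
    rw [hH]
    exact Nat.lt_succ_of_le (Finset.le_sup (f := fun a => cont (jj a)) (mem_range.2 (by omega)))
  obtain ⟨δ1, hδ1, X1, hX1⟩ := joint_lower (wK (K + 1)) (wt_wK (K + 1)) e H μ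
    (fun a => by simp only [hμ]; omega) Φ hM hV c hc ρ
  have t1 : ∀ x, ((range (x + 1)).filter fun n => n % 2 ^ e = ρ % 2 ^ e ∧ gG c μ Φ n = 1).card ≤
      ((valsW c (fun n => coeff n (Ft t)) (2 ^ e) ρ x).card + L) * (cntF S (x + L)).card :=
    fun x => transferW c S (Ft t) _ _ Φ μ hE' hFE hG (2 ^ e) hS ρ x
  obtain ⟨Xw, hXw⟩ := (wt_wK (K + 1)).pos
  have s1 : ∃ X3 : ℕ, ∀ x : ℕ, X3 ≤ x →
      (δ1 / (6 * 5)) * Real.sqrt x / wK (K + 1) x ≤
        ((valsW c (fun n => coeff n (Ft t)) (2 ^ e) ρ x).card : ℝ) := by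
    apply step_div L 5 (by norm_num) (fun X => (cntF S X).card) hC
      (fun x => ((range (x + 1)).filter fun n => n % 2 ^ e = ρ % 2 ^ e ∧ gG c μ Φ n = 1).card)
      (fun x => (valsW c (fun n => coeff n (Ft t)) (2 ^ e) ρ x).card) t1 δ1 hδ1 (wK (K + 1)) _ X1 hX1
    obtain ⟨X4, hX4⟩ := (wt_wK (K + 1)).small (6 * 5 * L / δ1 + 1) (by positivity)
    refine ⟨max Xw X4, fun x hx => ?_⟩
    have hp := (hXw x (le_trans (le_max_left _ _) hx)).1
    refine ⟨hp, ?_⟩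
    have := hX4 x (le_trans (le_max_right _ _) hx)
    nlinarith
  obtain ⟨X3, hX3⟩ := s1
  set δ := δ1 / (6 * 5) with hδdef
  have hδ : 0 < δ := by positivity
  obtain ⟨X5, hX5⟩ := ev_loglog (max 1 (1 / δ))
  refine ⟨max X3 X5, fun x hx => ?_⟩
  have h1 := hX3 x (le_trans (le_max_left _ _) hx)
  have h2 := hX5 x (le_trans (le_max_right _ _) hx)
  rw [max_le_iff] at h2
  have h3 := log_pos_of (x := x) (by linarith [h2.1])
  have h0 : ((valsW c (fun n => coeff n (Ft t)) (2 ^ e) ρ x).card : ℝ) ≤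
      ((valsW c (fun n => coeff n (Ft t)) (2 ^ b) ρ x).card : ℝ) := by
    have : (valsW c (fun n => coeff n (Ft t)) (2 ^ e) ρ x).card ≤
        (valsW c (fun n => coeff n (Ft t)) (2 ^ b) ρ x).card := by
      apply card_le_card
      intro n hn
      unfold valsW at hn ⊢
      rw [mem_filter] at hn ⊢
      obtain ⟨h4, h5, h6⟩ := hn
      have e1 : n ≡ ρ [MOD 2 ^ e] := h5
      exact ⟨h4, e1.of_dvd (pow_dvd_pow 2 hbe), h6⟩
    exact_mod_cast this
  refine le_trans ?_ (h1.trans h0)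
  unfold wK
  have h4 : 1 ≤ δ * Real.log (Real.log x) := by
    have := h2.2
    rw [div_le_iff₀ hδ] at this
    linarith
  have h5 : δ * Real.sqrt x / (Real.log x / Real.log (Real.log x) ^ (K + 1)) =
      (Real.sqrt x * (Real.log (Real.log x)) ^ K / Real.log x) * (δ * Real.log (Real.log x)) := by
    rw [pow_succ]
    field_simp
  rw [h5]
  apply le_mul_of_one_le_right _ h4
  have : 0 < Real.log (Real.log x) := by linarith [h2.1]
  positivity

/-- **joint linear patterns of the values at the dilates `4 ^ a n`** -/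
theorem joint_all {A L : ℕ} (t b K : ℕ) (ht : t % 2 = 1)
    (c : Fin (A + 1) → Fin (L + 1) → ZMod 2) (hc : c ≠ 0) (ρ : ℕ) :
    ∃ X0 : ℕ, ∀ x : ℕ, X0 ≤ x →
      Real.sqrt x * (Real.log (Real.log x)) ^ K / Real.log x ≤
      ((valsW c (fun n => coeff n (Ft t)) (2 ^ b) ρ x).card : ℝ) := by
  classical
  obtain ⟨e, ε, j, hbe, hε, hj, hK⟩ := exists_e' t b (K + 1) ht
  have hm : 0 < 2 ^ e := by positivity
  rcases hε with rfl | rfl
  · refine joint_of t b K e 1 j ht hbe hj hK (Sx (2 ^ e) isPent) ?_ (fun n hn => by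
      obtain ⟨k, hk, -⟩ := hn
      exact ⟨k, hk⟩) (cnt_bound isPent _ 24 hm (by norm_num) le_rfl pent_iff) c hc ρ
    intro a n
    rw [mul_one, pent_eq, pow_Sx]
    have h := coeff_Sx (2 ^ (2 * a + e)) isPent n
    rw [Sx_dilate] at h
    exact h
  · refine joint_of t b K e 3 j ht hbe hj hK (Sx (2 ^ e) isTri) ?_ (fun n hn => by
      obtain ⟨k, hk, -⟩ := hn
      exact ⟨k, hk⟩) (cnt_bound isTri _ 8 hm (by norm_num) (by norm_num) tri_iff) c hc ρ
    intro a n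
    rw [mul_comm, pow_mul, pent_eq, ← psi_eq, pow_Sx]
    have h := coeff_Sx (2 ^ (2 * a + e)) isTri n
    rw [Sx_dilate] at h
    exact h

end Pool.Agent.N493.PE
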