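import Pool.Agent.N493.PE4

set_option autoImplicit false

/-! # Joint patterns at the dilates `4 ^ a n` against bounded-memory predictors -/

namespace Pool.Agent.N493.PE

open Finset Pool.Agent.R836.PP PowerSeries
open Pool.Agent.N493.PD

/-- counting for one pair of classes -/
theorem count_pair' (W W' : ℕ → ZMod 2) (D m r r' : ℕ) (hm : m ∣ D) (hr : r < D) (hr' : r' < D)
    (ρ : ℕ) (hrρ : r % m = ρ % m) (hrρ' : r' % m = ρ % m)
    (hW : ∀ n, W' (D * n) = W (D * n + r) + W (D * n + r'))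
    (u : ℕ → ZMod 2) (hu : ∀ n, 1 ≤ n → u (D * n + r) = u (D * n + r')) (κ : ZMod 2) (x : ℕ) :
    ((range (x + 1)).filter fun n => n % D = 0 % D ∧ W' n = 1).card ≤
      ((range (x + 1)).filter fun n => n % m = ρ % m ∧ W n + u n = κ).card + (D + 1) := by
  classical
  have hD : 0 < D := by omega
  set B := (range (x + 1)).filter fun n => n % m = ρ % m ∧ W n + u n = κ with hB
  set V := (range (x + 1)).filter fun n => n % D = 0 % D ∧ W' n = 1 with hV
  set V' := V.filter fun N => 1 ≤ N ∧ N + D ≤ x with hV'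
  have h1 : V.card ≤ V'.card + (D + 1) := by
    have hsub : V ⊆ V' ∪ ({0} ∪ Ioc (x - D) x) := by
      intro N hN
      rw [mem_union, mem_union, mem_singleton, mem_Ioc]
      have hN' := hN
      rw [hV, mem_filter, mem_range] at hN'
      by_cases h0 : N = 0
      · exact Or.inr (Or.inl h0)
      · by_cases h2 : N + D ≤ x
        · left
          rw [hV', mem_filter]
          exact ⟨hN, by omega, h2⟩
        · exact Or.inr (Or.inr ⟨by omega, by omega⟩)
    calc V.card ≤ _ := card_le_card hsub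
      _ ≤ _ := card_union_le _ _
      _ ≤ V'.card + (D + 1) := by
        apply Nat.add_le_add_left
        refine (card_union_le _ _).trans ?_
        rw [card_singleton, Nat.card_Ioc]
        omega
  have h2 : V'.card ≤ B.card := by
    have key : ∀ N ∈ V', D ∣ N ∧ 1 ≤ N ∧ N + D ≤ x ∧
        (W (N + r) + u (N + r) ≠ κ → W (N + r') + u (N + r') = κ) := by
      intro N hN
      rw [hV', mem_filter, hV] at hN
      obtain ⟨hN, hN1, hN2⟩ := hN
      rw [mem_filter, Nat.zero_mod] at hN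
      obtain ⟨-, hN3, hN4⟩ := hN
      have hdvd : D ∣ N := Nat.dvd_of_mod_eq_zero hN3
      refine ⟨hdvd, hN1, hN2, fun h => ?_⟩
      obtain ⟨n, rfl⟩ := hdvd
      have hn : 1 ≤ n := by
        rcases Nat.eq_zero_or_pos n with h0 | h0
        · rw [h0] at hN1; simp at hN1
        · exact h0
      have e2 := hW n
      rw [hN4] at e2
      have e3 := hu n hn
      rw [e3] at h
      exact zkey _ _ _ _ e2 h
    apply card_le_card_of_injOn
      (fun N => if W (N + r) + u (N + r) = κ then N + r else N + r')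
    · intro N hN
      rw [mem_coe] at hN
      obtain ⟨k1, k2, k3, k4⟩ := key N hN
      have hmN : N % m = 0 := Nat.mod_eq_zero_of_dvd (hm.trans k1)
      simp only
      rw [mem_coe, hB, mem_filter, mem_range]
      by_cases h : W (N + r) + u (N + r) = κ
      · rw [if_pos h]
        refine ⟨by omega, ?_, h⟩
        rw [Nat.add_mod, hmN, zero_add, Nat.mod_mod, hrρ]
      · rw [if_neg h]
        refine ⟨by omega, ?_, k4 h⟩
        rw [Nat.add_mod, hmN, zero_add, Nat.mod_mod, hrρ']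
    · intro N hN N' hN' h
      rw [mem_coe] at hN hN'
      obtain ⟨⟨a, rfl⟩, -⟩ := key N hN
      obtain ⟨⟨a', rfl⟩, -⟩ := key N' hN'
      have d1 : (D * a + r) / D = a := by
        rw [Nat.mul_add_div hD, Nat.div_eq_of_lt hr, add_zero]
      have d2 : (D * a + r') / D = a := by
        rw [Nat.mul_add_div hD, Nat.div_eq_of_lt hr', add_zero]
      have d3 : (D * a' + r) / D = a' := by
        rw [Nat.mul_add_div hD, Nat.div_eq_of_lt hr, add_zero]
      have d4 : (D * a' + r') / D = a' := by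
        rw [Nat.mul_add_div hD, Nat.div_eq_of_lt hr', add_zero]
      have h' := congrArg (fun z => z / D) h
      beta_reduce at h'
      have : a = a' := by
        split_ifs at h' <;> simp only [d1, d2, d3, d4] at h' <;> exact h'
      rw [this]
  omega

/-- the difference of the values of a joint pattern at `N + r` and `N + r'` is a nonzero joint
pattern at `N` -/
theorem exists_diffJ {A L : ℕ} (c : Fin (A + 1) → Fin (L + 1) → ZMod 2) (hc : c ≠ 0) (k r r' : ℕ)
    (hr : r < 2 ^ k) (hr' : r' < 2 ^ k) (hne : r ≠ r') :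
    ∃ c' : Fin (A + 1) → Fin (4 ^ A * 2 ^ k + L + 1) → ZMod 2, c' ≠ 0 ∧
      ∀ (φ : ℕ → ZMod 2) (n : ℕ), wF c' φ n = wF c φ (n + r) + wF c φ (n + r') := by
  classical
  have h : ∀ a : Fin (A + 1), ∃ c' : Fin (4 ^ A * 2 ^ k + L + 1) → ZMod 2, (c a ≠ 0 → c' ≠ 0) ∧
      ∀ (φ : ℕ → ZMod 2) (n : ℕ), ∑ i : Fin (4 ^ A * 2 ^ k + L + 1), c' i * φ (n + i) =
        (∑ i : Fin (L + 1), c a i * φ (n + 4 ^ (a : ℕ) * r + i)) +
          ∑ i : Fin (L + 1), c a i * φ (n + 4 ^ (a : ℕ) * r' + i) := by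
    intro a
    by_cases hca : c a = 0
    · refine ⟨0, fun h => absurd hca h, fun φ n => ?_⟩
      simp [hca]
    · have h4 : 0 < 4 ^ (a : ℕ) := by positivity
      have h5 : 4 ^ (a : ℕ) ≤ 4 ^ A := Nat.pow_le_pow_right (by norm_num) (Nat.lt_succ_iff.1 a.2)
      have hb : ∀ s, s < 2 ^ k → 4 ^ (a : ℕ) * s < 4 ^ A * 2 ^ k := by
        intro s hs
        calc 4 ^ (a : ℕ) * s < 4 ^ (a : ℕ) * 2 ^ k := Nat.mul_lt_mul_of_pos_left hs h4
          _ ≤ 4 ^ A * 2 ^ k := Nat.mul_le_mul_right _ h5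
      obtain ⟨c', h1, h2⟩ := exists_diff (c a) hca (4 ^ A * 2 ^ k) (4 ^ (a : ℕ) * r)
        (4 ^ (a : ℕ) * r') (hb r hr) (hb r' hr') (fun h => hne (Nat.eq_of_mul_eq_mul_left h4 h))
      exact ⟨c', fun _ => h1, h2⟩
  choose c' hc'1 hc'2 using h
  refine ⟨c', ?_, ?_⟩
  · intro h0
    apply hc
    funext a
    by_contra hca
    exact hc'1 a hca (congrFun h0 a)
  · intro φ n
    unfold wF
    rw [← Finset.sum_add_distrib]
    refine Finset.sum_congr rfl fun a _ => ?_
    rw [hc'2 a φ (4 ^ (a : ℕ) * n), mul_add, mul_add]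

/-- **joint patterns against bounded-memory predictors** -/
theorem mainJ (t b A L R Q K : ℕ) (ht : t % 2 = 1) :
    ∃ X0 : ℕ, ∀ (c : Fin (A + 1) → Fin (L + 1) → ZMod 2), c ≠ 0 → ∀ v : Fin R → ℕ → ZMod 2,
      (∀ z, OnePass Q (v z)) → ∀ (Φ : (Fin R → ZMod 2) → ZMod 2) (ρ : ℕ) (κ : ZMod 2) (x : ℕ),
      X0 ≤ x →
        Real.sqrt x * (Real.log (Real.log x)) ^ K / Real.log x ≤
          (((range (x + 1)).filter fun n => n % 2 ^ b = ρ % 2 ^ b ∧
            wF c (fun n => coeff n (Ft t)) n + Φ (fun z => v z n) = κ).card : ℝ) := by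
  classical
  set T := Fin R → Fin Q ⊕ (Fin Q → ZMod 2) with hT
  set k := b + Fintype.card T with hk
  have h1 : ∀ c' : Fin (A + 1) → Fin (4 ^ A * 2 ^ k + L + 1) → ZMod 2, ∃ X0 : ℕ, c' ≠ 0 →
      ∀ x : ℕ, X0 ≤ x → Real.sqrt x * (Real.log (Real.log x)) ^ (K + 1) / Real.log x ≤
      ((valsW c' (fun n => coeff n (Ft t)) (2 ^ k) 0 x).card : ℝ) := by
    intro c'
    by_cases hc' : c' = 0
    · exact ⟨0, fun h => absurd hc' h⟩
    · obtain ⟨X0, hX0⟩ := joint_all t k (K + 1) ht c' hc' 0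
      exact ⟨X0, fun _ => hX0⟩
  choose X0 hX0 using h1
  obtain ⟨X1, hX1⟩ := ev_absorb K ((2 ^ k + 1 : ℕ) : ℝ)
  refine ⟨max (Finset.univ.sup X0) X1, fun c hc v hv Φ ρ κ x hx => ?_⟩
  rw [max_le_iff] at hx
  choose τ hτ using fun z => (hv z).types k
  have hcard : Fintype.card T < Fintype.card (Fin (2 ^ Fintype.card T)) := by
    rw [Fintype.card_fin]
    exact Nat.lt_two_pow_self
  obtain ⟨i, j, hij, e⟩ := Fintype.exists_ne_map_eq_of_card_lt
    (fun i : Fin (2 ^ Fintype.card T) => (fun z => τ z (ρ % 2 ^ b + 2 ^ b * (i : ℕ)) : T)) hcard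
  have hb : 0 < 2 ^ b := by positivity
  have hlt : ∀ i : Fin (2 ^ Fintype.card T), ρ % 2 ^ b + 2 ^ b * (i : ℕ) < 2 ^ k := by
    intro i
    have h1 := Nat.mod_lt ρ hb
    have h2 := i.2
    have h3 : 2 ^ k = 2 ^ b * 2 ^ Fintype.card T := by rw [hk, pow_add]
    rw [h3]
    calc ρ % 2 ^ b + 2 ^ b * (i : ℕ) < 2 ^ b + 2 ^ b * (i : ℕ) := by omega
      _ = 2 ^ b * ((i : ℕ) + 1) := by ring
      _ ≤ 2 ^ b * 2 ^ Fintype.card T := Nat.mul_le_mul_left _ h2
  have hmod : ∀ i : ℕ, (ρ % 2 ^ b + 2 ^ b * i) % 2 ^ b = ρ % 2 ^ b := by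
    intro i
    rw [Nat.add_mul_mod_self_left, Nat.mod_mod]
  have hne : ρ % 2 ^ b + 2 ^ b * (i : ℕ) ≠ ρ % 2 ^ b + 2 ^ b * (j : ℕ) := by
    intro h
    apply hij
    have h2 : 2 ^ b * (i : ℕ) = 2 ^ b * (j : ℕ) := by omega
    exact Fin.ext (Nat.eq_of_mul_eq_mul_left hb h2)
  obtain ⟨c', hc'0, hc'⟩ := exists_diffJ c hc k _ _ (hlt i) (hlt j) hne
  have h2 := hX0 c' hc'0 x ((Finset.le_sup (mem_univ c')).trans hx.1)
  have h3 := count_pair' (wF c (fun n => coeff n (Ft t))) (wF c' (fun n => coeff n (Ft t)))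
    (2 ^ k) (2 ^ b) _ _ (pow_dvd_pow 2 (by omega)) (hlt i) (hlt j) ρ (hmod _) (hmod _)
    (fun n => hc' _ _) (fun n => Φ fun z => v z n) (fun n hn => by
      have : ∀ z, v z (2 ^ k * n + (ρ % 2 ^ b + 2 ^ b * (i : ℕ))) =
          v z (2 ^ k * n + (ρ % 2 ^ b + 2 ^ b * (j : ℕ))) := fun z =>
        hτ z _ _ (hlt i) (hlt j) (congrFun e z) n hn
      simp only [this]) κ x
  apply hX1 x hx.2
  refine h2.trans ?_
  have h4 : (valsW c' (fun n => coeff n (Ft t)) (2 ^ k) 0 x).card =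
      ((range (x + 1)).filter fun n => n % 2 ^ k = 0 % 2 ^ k ∧
        wF c' (fun n => coeff n (Ft t)) n = 1).card := by
    unfold valsW
    congr 1
  rw [h4]
  exact_mod_cast h3

end Pool.Agent.N493.PE
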