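import Mathlib

/-!
# Almost sure convergence of averages from second moments
-/

set_option autoImplicit false

open Filter Topology MeasureTheory Set
open scoped ENNReal

noncomputable section

namespace Pool.Agent.N493.PF

variable {Z : Type*} [MeasurableSpace Z] {P : Measure Z}

theorem ae_zero {f : ℕ → Z → ℝ} (hm : ∀ k, Measurable (f k)) (h0 : ∀ k z, 0 ≤ f k z)
    (hi : ∀ k, Integrable (f k) P) (hs : Summable fun k => ∫ z, f k z ∂P) :
    ∀ᵐ z ∂P, Tendsto (fun k => f k z) atTop (𝓝 0) := by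
  have h1 : ∫⁻ z, ∑' k, ENNReal.ofReal (f k z) ∂P ≠ ∞ := by
    rw [lintegral_tsum fun k => (hm k).ennreal_ofReal.aemeasurable]
    have h2 : ∀ k, ∫⁻ z, ENNReal.ofReal (f k z) ∂P = ENNReal.ofReal (∫ z, f k z ∂P) := fun k =>
      (ofReal_integral_eq_lintegral_ofReal (hi k) (Eventually.of_forall (h0 k))).symm
    simp only [h2]
    rw [← ENNReal.ofReal_tsum_of_nonneg (fun k => integral_nonneg (h0 k)) hs]
    exact ENNReal.ofReal_ne_top
  have h3 := ae_lt_top' (AEMeasurable.ennreal_tsum fun k => (hm k).ennreal_ofReal.aemeasurable) h1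
  filter_upwards [h3] with z hz
  have h4 := ENNReal.tendsto_atTop_zero_of_tsum_ne_top hz.ne
  have h5 := (ENNReal.tendsto_toReal ENNReal.zero_ne_top).comp h4
  refine h5.congr fun k => ?_
  exact ENNReal.toReal_ofReal (h0 k z)

theorem floor_pos {c : ℝ} (hc : 1 < c) (k : ℕ) : 1 ≤ ⌊c ^ k⌋₊ := by
  rw [Nat.one_le_floor_iff]
  exact one_le_pow₀ hc.le

theorem summable_floor {c η : ℝ} (hc : 1 < c) (hη : 0 < η) :
    Summable fun k : ℕ => ((⌊c ^ k⌋₊ : ℝ)) ^ (-η) := by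
  have hc0 : 0 < c := by linarith
  have hlt : c ^ (-η) < 1 := Real.rpow_lt_one_of_one_lt_of_neg hc (by linarith)
  have hs : Summable fun k : ℕ => (2 : ℝ) ^ η * (c ^ (-η)) ^ k :=
    (summable_geometric_of_lt_one (Real.rpow_nonneg hc0.le _) hlt).mul_left _
  refine Summable.of_nonneg_of_le (fun k => Real.rpow_nonneg (Nat.cast_nonneg _) _) (fun k => ?_) hs
  have h1 : 1 ≤ c ^ k := one_le_pow₀ hc.le
  have h2 : c ^ k / 2 ≤ (⌊c ^ k⌋₊ : ℝ) := by
    have h3 := Nat.lt_floor_add_one (c ^ k)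
    have h4 : (1 : ℝ) ≤ (⌊c ^ k⌋₊ : ℝ) := by exact_mod_cast floor_pos hc k
    linarith
  have h5 : (0 : ℝ) < c ^ k / 2 := by positivity
  calc ((⌊c ^ k⌋₊ : ℝ)) ^ (-η) ≤ (c ^ k / 2) ^ (-η) :=
        Real.rpow_le_rpow_of_nonpos h5 h2 (by linarith)
    _ = (2 : ℝ) ^ η * (c ^ (-η)) ^ k := by
        rw [Real.div_rpow (by positivity) (by norm_num), ← Real.rpow_natCast, ← Real.rpow_mul hc0.le,
          ← Real.rpow_natCast, ← Real.rpow_mul hc0.le, Real.rpow_neg (by norm_num), mul_comm (k : ℝ) (-η)]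
        field_simp

/-- averages of bounded variables with small second moments converge almost surely -/
theorem ae_lln [IsProbabilityMeasure P] {X : ℕ → Z → ℝ} (hXm : ∀ n, Measurable (X n))
    (hX : ∀ n z, |X n z| ≤ 1) {C η : ℝ} (hη : 0 < η)
    (hvar : ∀ N : ℕ, 1 ≤ N → ∫ z, (∑ n ∈ Finset.range N, X n z) ^ 2 ∂P ≤ C * (N : ℝ) ^ (2 - η)) :
    ∀ᵐ z ∂P, Tendsto (fun N : ℕ => (∑ n ∈ Finset.range N, X n z) / N) atTop (𝓝 0) := by
  let c : ℕ → ℝ := fun k => 1 + 1 / ((k : ℝ) + 1)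
  have cone : ∀ k, 1 < c k := by
    intro k
    show 1 < 1 + 1 / ((k : ℝ) + 1)
    have : (0 : ℝ) < 1 / ((k : ℝ) + 1) := by positivity
    linarith
  have clim : Tendsto c atTop (𝓝 1) := by
    have := (tendsto_one_div_add_atTop_nhds_zero_nat (𝕜 := ℝ)).const_add 1
    rwa [add_zero] at this
  let S : ℕ → Z → ℝ := fun N z => ∑ n ∈ Finset.range N, X n z
  have hSm : ∀ N, Measurable (S N) := fun N => Finset.measurable_fun_sum _ fun n _ => hXm n
  have hSb : ∀ N z, |S N z| ≤ N := by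
    intro N z
    refine (Finset.abs_sum_le_sum_abs _ _).trans ?_
    refine (Finset.sum_le_card_nsmul _ _ 1 fun n _ => hX n z).trans ?_
    simp
  have hae : ∀ k, ∀ᵐ z ∂P, Tendsto (fun n : ℕ => (S ⌊c k ^ n⌋₊ z / ⌊c k ^ n⌋₊) ^ 2) atTop
      (𝓝 0) := by
    intro k
    have hl := (summable_floor (cone k) hη).mul_left C
    have hint : ∀ n : ℕ, Integrable (fun z => (S ⌊c k ^ n⌋₊ z / (⌊c k ^ n⌋₊ : ℝ)) ^ 2) P := by
      intro n
      refine Integrable.of_bound (((hSm _).div_const _).pow_const 2).aestronglyMeasurable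
        ((((⌊c k ^ n⌋₊ : ℝ)) / ⌊c k ^ n⌋₊) ^ 2) (Eventually.of_forall fun z => ?_)
      rw [Real.norm_eq_abs, abs_pow, abs_div, Nat.abs_cast]
      refine pow_le_pow_left₀ (by positivity) ?_ 2
      exact div_le_div_of_nonneg_right (hSb _ z) (by positivity)
    refine ae_zero (fun n => ((hSm _).div_const _).pow_const 2) (fun n z => sq_nonneg _) hint ?_
    refine Summable.of_nonneg_of_le (fun n => integral_nonneg fun z => sq_nonneg _)
      (fun n => ?_) hl
    have e : (fun z => (S ⌊c k ^ n⌋₊ z / (⌊c k ^ n⌋₊ : ℝ)) ^ 2) =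
        fun z => 1 / (⌊c k ^ n⌋₊ : ℝ) ^ 2 * (S ⌊c k ^ n⌋₊ z) ^ 2 := by
      funext z
      rw [div_pow, one_div, div_eq_inv_mul]
    have hfp : (0 : ℝ) < (⌊c k ^ n⌋₊ : ℝ) := by exact_mod_cast floor_pos (cone k) n
    rw [e, integral_const_mul]
    calc 1 / (⌊c k ^ n⌋₊ : ℝ) ^ 2 * ∫ z, (S ⌊c k ^ n⌋₊ z) ^ 2 ∂P
        ≤ 1 / (⌊c k ^ n⌋₊ : ℝ) ^ 2 * (C * (⌊c k ^ n⌋₊ : ℝ) ^ (2 - η)) :=
          mul_le_mul_of_nonneg_left (hvar _ (floor_pos (cone k) n)) (by positivity)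
      _ = C * (⌊c k ^ n⌋₊ : ℝ) ^ (-η) := by
          rw [sub_eq_add_neg, Real.rpow_add hfp, Real.rpow_two]
          field_simp
  filter_upwards [ae_all_iff.mpr hae] with z hz
  let u : ℕ → ℝ := fun N => ∑ n ∈ Finset.range N, (X n z + 1)
  have hmono : Monotone u := by
    intro a b hab
    refine Finset.sum_le_sum_of_subset_of_nonneg ?_ ?_
    · exact Finset.range_mono hab
    · intro n _ _
      have := (abs_le.mp (hX n z)).1
      linarith
  have hu : ∀ N : ℕ, u N = S N z + N := by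
    intro N
    show ∑ n ∈ Finset.range N, (X n z + 1) = _
    rw [Finset.sum_add_distrib, Finset.sum_const]
    simp [S]
  have hmain := tendsto_div_of_monotone_of_tendsto_div_floor_pow u 1 hmono c cone clim (by
    intro k
    have h1 : Tendsto (fun n : ℕ => S ⌊c k ^ n⌋₊ z / (⌊c k ^ n⌋₊ : ℝ)) atTop (𝓝 0) := by
      have h2 := (hz k).sqrt
      rw [Real.sqrt_zero] at h2
      rw [tendsto_zero_iff_abs_tendsto_zero]
      refine h2.congr fun n => ?_
      rw [Real.sqrt_sq_eq_abs]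
      rfl
    have h4 := h1.add_const 1
    rw [zero_add] at h4
    refine h4.congr fun n => ?_
    have hfp : (0 : ℝ) < (⌊c k ^ n⌋₊ : ℝ) := by exact_mod_cast floor_pos (cone k) n
    rw [hu]
    field_simp)
  have h5 := hmain.sub_const 1
  rw [sub_self] at h5
  refine h5.congr' ?_
  filter_upwards [eventually_gt_atTop 0] with N hN
  have hN' : (N : ℝ) ≠ 0 := by exact_mod_cast hN.ne'
  rw [hu]
  field_simp
  show _ = S N z
  ring

end Pool.Agent.N493.PF
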