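import Mathlib
import Pool.Agent.N493.PF1

/-!
# Families of bits which depend on independent coins
-/

set_option autoImplicit false

open Filter Topology MeasureTheory ProbabilityTheory Set

noncomputable section

namespace Pool.Agent.N493.PF

variable {Ω : Type*} [MeasurableSpace Ω] {P : Measure Ω} [IsProbabilityMeasure P]
  {ξ : ℕ → Ω → Bool}

/-- depends on the coordinates below `N` -/
def Dep (N : ℕ) (F : (ℕ → Bool) → ℝ) : Prop := ∀ x y, (∀ i < N, x i = y i) → F x = F y

/-- the coins as a function -/
def at' (ξ : ℕ → Ω → Bool) (ω : Ω) : ℕ → Bool := fun i => ξ i ω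

/-- extension by `false` -/
def ext (N : ℕ) (y : Finset.range N → Bool) : ℕ → Bool :=
  fun i => if h : i ∈ Finset.range N then y ⟨i, h⟩ else false

theorem Dep.eq {N : ℕ} {F : (ℕ → Bool) → ℝ} (h : Dep N F) (ω : Ω) :
    F (at' ξ ω) = F (ext N fun i => ξ i ω) := by
  refine h _ _ fun i hi => ?_
  simp [at', ext, hi]

theorem Dep.mono {N M : ℕ} {F : (ℕ → Bool) → ℝ} (h : Dep N F) (hNM : N ≤ M) : Dep M F :=
  fun x y hxy => h x y fun i hi => hxy i (by omega)

theorem Dep.meas {N : ℕ} {F : (ℕ → Bool) → ℝ} (h : Dep N F) (hξ : ∀ i, Measurable (ξ i)) :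
    Measurable fun ω => F (at' ξ ω) := by
  have e : (fun ω => F (at' ξ ω)) =
      (fun y : Finset.range N → Bool => F (ext N y)) ∘ fun ω (i : Finset.range N) => ξ i ω := by
    funext ω
    exact h.eq ω
  rw [e]
  exact (Measurable.of_discrete).comp (measurable_pi_lambda _ fun i => hξ i)

theorem Dep.bdd {N : ℕ} {F : (ℕ → Bool) → ℝ} (h : Dep N F) : ∃ C : ℝ, ∀ x, |F x| ≤ C := by
  classical
  refine ⟨∑ y : Finset.range N → Bool, |F (ext N y)|, fun x => ?_⟩
  have e : F x = F (ext N fun i => x i) := by
    refine h _ _ fun i hi => ?_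
    simp [ext, hi]
  rw [e]
  exact Finset.single_le_sum (f := fun y : Finset.range N → Bool => |F (ext N y)|)
    (fun y _ => abs_nonneg _) (Finset.mem_univ _)

theorem Dep.integrable {N : ℕ} {F : (ℕ → Bool) → ℝ} (h : Dep N F) (hξ : ∀ i, Measurable (ξ i)) :
    Integrable (fun ω => F (at' ξ ω)) P := by
  obtain ⟨C, hC⟩ := h.bdd
  exact Integrable.of_bound (h.meas hξ).aestronglyMeasurable C (Eventually.of_forall fun ω => hC _)

theorem Dep.mul {N : ℕ} {F G : (ℕ → Bool) → ℝ} (h : Dep N F) (h' : Dep N G) :
    Dep N fun x => F x * G x := fun x y hxy => by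
  show F x * G x = F y * G y
  rw [h x y hxy, h' x y hxy]

theorem Dep.prod {N : ℕ} {ι : Type*} (s : Finset ι) {F : ι → (ℕ → Bool) → ℝ}
    (h : ∀ i ∈ s, Dep N (F i)) : Dep N fun x => ∏ i ∈ s, F i x := fun x y hxy =>
  Finset.prod_congr rfl fun i hi => h i hi x y hxy

theorem Dep.update {N : ℕ} {F : (ℕ → Bool) → ℝ} (h : Dep (N + 1) F) (b : Bool) :
    Dep N fun x => F (Function.update x N b) := fun x y hxy => by
  refine h _ _ fun i hi => ?_
  by_cases hiN : i = N
  · subst hiN
    simp
  · rw [Function.update_of_ne hiN, Function.update_of_ne hiN]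
    exact hxy i (by omega)

/-- the probability of `true` -/
def pr (P : Measure Ω) (ξ : ℕ → Ω → Bool) (i : ℕ) : ℝ := P.real {ω | ξ i ω = true}

theorem pr_nonneg (i : ℕ) : 0 ≤ pr P ξ i := measureReal_nonneg

theorem pr_le (i : ℕ) : pr P ξ i ≤ 1 := measureReal_le_one

theorem int_true (hξ : ∀ i, Measurable (ξ i)) (N : ℕ) :
    ∫ ω, (if ξ N ω = true then (1 : ℝ) else 0) ∂P = pr P ξ N := by
  have hm : MeasurableSet {ω | ξ N ω = true} := (hξ N) (measurableSet_singleton true)
  have e : (fun ω => (if ξ N ω = true then (1 : ℝ) else 0)) =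
      fun ω => Set.indicator {ω | ξ N ω = true} 1 ω := by
    funext ω
    simp [Set.indicator]
  rw [e, integral_indicator_one hm]
  rfl

/-- the integral over one coin -/
theorem one_step (hξ : ∀ i, Measurable (ξ i)) (hind : iIndepFun ξ P) {N : ℕ}
    {F : (ℕ → Bool) → ℝ} (h : Dep (N + 1) F) :
    ∫ ω, F (at' ξ ω) ∂P = ∫ ω, (pr P ξ N * F (Function.update (at' ξ ω) N true) +
      (1 - pr P ξ N) * F (Function.update (at' ξ ω) N false)) ∂P := by
  have hT := h.update true
  have hF := h.update false
  have hdis : Disjoint (Finset.range N) {N} := by simp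
  have hI := hind.indepFun_finset (Finset.range N) {N} hdis hξ
  have key : ∀ (g : ℝ) (G : (ℕ → Bool) → ℝ), Dep N G →
      ∫ ω, G (at' ξ ω) * (if ξ N ω = true then (1 : ℝ) else 0) ∂P =
        (∫ ω, G (at' ξ ω) ∂P) * pr P ξ N := by
    intro _ G hG
    have h1 : IndepFun (fun ω => G (at' ξ ω)) (fun ω => if ξ N ω = true then (1 : ℝ) else 0) P := by
      have h2 := hI.comp (φ := fun y => G (ext N y))
        (ψ := fun y : ({N} : Finset ℕ) → Bool =>
          if y ⟨N, Finset.mem_singleton_self N⟩ = true then (1 : ℝ) else 0)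
        Measurable.of_discrete Measurable.of_discrete
      have e1 : (fun ω => G (at' ξ ω)) = (fun y => G (ext N y)) ∘ fun ω (i : Finset.range N) => ξ i ω := by
        funext ω
        exact hG.eq ω
      rw [e1]
      exact h2
    rw [h1.integral_fun_mul_eq_mul_integral (hG.meas hξ).aestronglyMeasurable
      (Measurable.ite ((hξ N) (measurableSet_singleton true)) measurable_const
        measurable_const).aestronglyMeasurable, int_true hξ]
  have hi : ∀ (G : (ℕ → Bool) → ℝ), Dep N G →
      Integrable (fun ω => G (at' ξ ω) * (if ξ N ω = true then (1 : ℝ) else 0)) P := by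
    intro G hG
    obtain ⟨C, hC⟩ := hG.bdd
    refine Integrable.of_bound ((hG.meas hξ).mul (Measurable.ite ((hξ N)
      (measurableSet_singleton true)) measurable_const measurable_const)).aestronglyMeasurable C
      (Eventually.of_forall fun ω => ?_)
    rw [Real.norm_eq_abs, abs_mul]
    have h1 : |(if ξ N ω = true then (1 : ℝ) else 0)| ≤ 1 := by
      split_ifs <;> simp
    calc |G (at' ξ ω)| * |(if ξ N ω = true then (1 : ℝ) else 0)| ≤ |G (at' ξ ω)| * 1 :=
          mul_le_mul_of_nonneg_left h1 (abs_nonneg _)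
      _ ≤ C := by rw [mul_one]; exact hC _
  have e : ∀ ω, F (at' ξ ω) = F (Function.update (at' ξ ω) N true) *
      (if ξ N ω = true then (1 : ℝ) else 0) + (F (Function.update (at' ξ ω) N false) -
      F (Function.update (at' ξ ω) N false) * (if ξ N ω = true then (1 : ℝ) else 0)) := by
    intro ω
    by_cases hω : ξ N ω = true
    · have h1 : Function.update (at' ξ ω) N true = at' ξ ω := by
        rw [← hω]
        exact Function.update_eq_self N (at' ξ ω)
      rw [h1, if_pos hω]
      ring
    · have h0 : ξ N ω = false := by simpa using hω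
      have h1 : Function.update (at' ξ ω) N false = at' ξ ω := by
        rw [← h0]
        exact Function.update_eq_self N (at' ξ ω)
      rw [h1, if_neg hω]
      ring
  have e1 := integral_add (hi _ hT) ((hF.integrable hξ).sub (hi _ hF))
  simp only [Pi.sub_apply] at e1
  rw [integral_congr_ae (Eventually.of_forall e), e1, integral_sub (hF.integrable hξ) (hi _ hF),
    key 0 _ hT, key 0 _ hF, integral_add ((hT.integrable hξ).const_mul _)
    ((hF.integrable hξ).const_mul _), integral_const_mul, integral_const_mul]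
  ring

/-- sign of a bit -/
def sg (z : ZMod 2) : ℝ := if z = 0 then 1 else -1

theorem bit_cases (z : ZMod 2) : z = 0 ∨ z = 1 := by
  fin_cases z
  · exact Or.inl rfl
  · exact Or.inr rfl

theorem sg_zero : sg 0 = 1 := if_pos rfl

theorem sg_one : sg 1 = -1 := if_neg (by decide)

theorem sg_add (y z : ZMod 2) : sg (y + z) = sg y * sg z := by
  have h2 : (1 : ZMod 2) + 1 = 0 := by decide
  rcases bit_cases y with rfl | rfl <;> rcases bit_cases z with rfl | rfl <;>
    simp [sg_zero, sg_one, h2]

theorem abs_sg (z : ZMod 2) : |sg z| = 1 := by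
  unfold sg
  split_ifs <;> simp

theorem sg_sq (z : ZMod 2) : sg z * sg z = 1 := by
  unfold sg
  split_ifs <;> norm_num

/-- several coins with known factors -/
theorem peel (hξ : ∀ i, Measurable (ξ i)) (hind : iIndepFun ξ P) {M : ℕ} (α : ℕ → (ℕ → Bool) → ℝ)
    (hα : ∀ s, Dep (M + 1) (α s)) : ∀ n, M ≤ n → ∀ b : (ℕ → Bool) → ℝ, Dep (M + 1) b →
      ∫ ω, b (at' ξ ω) * ∏ s ∈ Finset.Ioc M n, (if ξ s ω = true then α s (at' ξ ω) else 1) ∂P =
      ∫ ω, b (at' ξ ω) * ∏ s ∈ Finset.Ioc M n, (pr P ξ s * α s (at' ξ ω) + (1 - pr P ξ s)) ∂P := by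
  intro n hn
  induction n, hn using Nat.le_induction with
  | base => intro b _; simp
  | succ n hn ih =>
    intro b hb
    have hs : Finset.Ioc M (n + 1) = insert (n + 1) (Finset.Ioc M n) := by
      ext i; simp only [Finset.mem_Ioc, Finset.mem_insert]; omega
    have hnot : n + 1 ∉ Finset.Ioc M n := by simp
    have hD : Dep (n + 1 + 1) fun x => b x * ∏ s ∈ Finset.Ioc M (n + 1),
        (if x s = true then α s x else 1) := by
      refine (hb.mono (by omega)).mul (Dep.prod _ fun s hs x y hxy => ?_)
      rw [Finset.mem_Ioc] at hs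
      show (if x s = true then α s x else 1) = (if y s = true then α s y else 1)
      rw [hxy s (by omega), hα s x y fun i hi => hxy i (by omega)]
    have h1 := one_step (P := P) hξ hind hD
    have h2 : ∀ ω, b (at' ξ ω) * ∏ s ∈ Finset.Ioc M (n + 1), (if ξ s ω = true then α s (at' ξ ω) else 1) =
        (fun x : ℕ → Bool => b x * ∏ s ∈ Finset.Ioc M (n + 1), (if x s = true then α s x else 1))
          (at' ξ ω) := fun ω => rfl
    simp only [h2]
    rw [h1]
    have h3 : ∀ (β : Bool) (x : ℕ → Bool), b (Function.update x (n + 1) β) = b x := by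
      intro β x
      refine hb _ _ fun i hi => ?_
      rw [Function.update_of_ne (by omega)]
    have h4 : ∀ (s : ℕ) (β : Bool) (x : ℕ → Bool), α s (Function.update x (n + 1) β) = α s x := by
      intro s β x
      refine hα s _ _ fun i hi => ?_
      rw [Function.update_of_ne (by omega)]
    have h5 : ∀ ω, pr P ξ (n + 1) * (b (Function.update (at' ξ ω) (n + 1) true) *
          ∏ s ∈ Finset.Ioc M (n + 1), (if (Function.update (at' ξ ω) (n + 1) true) s = true
            then α s (Function.update (at' ξ ω) (n + 1) true) else 1)) +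
        (1 - pr P ξ (n + 1)) * (b (Function.update (at' ξ ω) (n + 1) false) *
          ∏ s ∈ Finset.Ioc M (n + 1), (if (Function.update (at' ξ ω) (n + 1) false) s = true
            then α s (Function.update (at' ξ ω) (n + 1) false) else 1)) =
        (b (at' ξ ω) * (pr P ξ (n + 1) * α (n + 1) (at' ξ ω) + (1 - pr P ξ (n + 1)))) *
          ∏ s ∈ Finset.Ioc M n, (if ξ s ω = true then α s (at' ξ ω) else 1) := by
      intro ω
      rw [h3, h3, hs, Finset.prod_insert hnot, Finset.prod_insert hnot, Function.update_self,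
        Function.update_self, h4, if_pos rfl, if_neg (by simp)]
      have h6 : ∀ β : Bool, ∏ s ∈ Finset.Ioc M n, (if (Function.update (at' ξ ω) (n + 1) β) s = true
            then α s (Function.update (at' ξ ω) (n + 1) β) else 1) =
            ∏ s ∈ Finset.Ioc M n, (if ξ s ω = true then α s (at' ξ ω) else 1) := by
        intro β
        refine Finset.prod_congr rfl fun s hs => ?_
        rw [Finset.mem_Ioc] at hs
        rw [h4, Function.update_of_ne (by omega)]
        rfl
      rw [h6, h6]
      ring
    rw [integral_congr_ae (Eventually.of_forall h5)]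
    have hb' : Dep (M + 1) fun x => b x * (pr P ξ (n + 1) * α (n + 1) x + (1 - pr P ξ (n + 1))) :=
      hb.mul fun x y hxy => by
        show pr P ξ (n + 1) * α (n + 1) x + (1 - pr P ξ (n + 1)) =
          pr P ξ (n + 1) * α (n + 1) y + (1 - pr P ξ (n + 1))
        rw [hα (n + 1) x y hxy]
    rw [ih _ hb']
    refine integral_congr_ae (Eventually.of_forall fun ω => ?_)
    show b (at' ξ ω) * (pr P ξ (n + 1) * α (n + 1) (at' ξ ω) + (1 - pr P ξ (n + 1))) * _ = b (at' ξ ω) * _
    rw [hs, Finset.prod_insert hnot]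
    ring

end Pool.Agent.N493.PF
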