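import Mathlib
import Pool.Agent.N493.PF2

/-!
# Correlations
-/

set_option autoImplicit false

open Filter Topology MeasureTheory ProbabilityTheory Set

noncomputable section

namespace Pool.Agent.N493.PF

/-- a family of bits; the bit `n` depends on the first `n` coins, and a change of a coin `s > n / 2`
adds the bit `n - s` -/
structure Fam (a : ℕ → (ℕ → Bool) → ZMod 2) : Prop where
  dep : ∀ n x y, (∀ i, 1 ≤ i → i ≤ n → x i = y i) → a n x = a n y
  zero : ∀ x, a 0 x = 1
  flip : ∀ n s x, n < 2 * s → s ≤ n →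
    a n (Function.update x s true) = a n (Function.update x s false) + a (n - s) x

/-- truncation -/
def tr (M : ℕ) (x : ℕ → Bool) : ℕ → Bool := fun i => if i ≤ M then x i else false

variable {a : ℕ → (ℕ → Bool) → ZMod 2}

theorem Fam.trunc (hf : Fam a) {n M : ℕ} (hM : n ≤ 2 * M + 1) (x : ℕ → Bool) :
    ∀ k, M ≤ k → k ≤ n → sg (a n (tr k x)) =
      sg (a n (tr M x)) * ∏ s ∈ Finset.Ioc M k, (if x s = true then sg (a (n - s) x) else 1) := by
  intro k hk
  induction k, hk using Nat.le_induction with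
  | base => intro _; simp
  | succ k hk ih =>
    intro hkn
    have hs : Finset.Ioc M (k + 1) = insert (k + 1) (Finset.Ioc M k) := by
      ext i; simp only [Finset.mem_Ioc, Finset.mem_insert]; omega
    have hnot : k + 1 ∉ Finset.Ioc M k := by simp
    rw [hs, Finset.prod_insert hnot]
    have e1 : Function.update (tr k x) (k + 1) false = tr k x := by
      funext i
      by_cases hi : i = k + 1
      · subst hi; simp [tr]
      · rw [Function.update_of_ne hi]
    have e2 : tr (k + 1) x = Function.update (tr k x) (k + 1) (x (k + 1)) := by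
      funext i
      by_cases hi : i = k + 1
      · subst hi; simp [tr]
      · rw [Function.update_of_ne hi]
        unfold tr
        by_cases h2 : i ≤ k
        · rw [if_pos h2, if_pos (by omega)]
        · rw [if_neg h2, if_neg (by omega)]
    by_cases hx : x (k + 1) = true
    · have h1 := hf.flip n (k + 1) (tr k x) (by omega) hkn
      have h2 : a (n - (k + 1)) (tr k x) = a (n - (k + 1)) x := by
        refine hf.dep _ _ _ fun i _ hi => ?_
        unfold tr
        rw [if_pos (by omega)]
      rw [if_pos hx, e2, hx, h1, e1, h2, sg_add, ih (by omega)]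
      ring
    · rw [if_neg hx, e2, (by simpa using hx : x (k + 1) = false), e1, ih (by omega), one_mul]

variable {Ω : Type*} [MeasurableSpace Ω] {P : Measure Ω} [IsProbabilityMeasure P]
  {ξ : ℕ → Ω → Bool}

theorem Fam.depSg (hf : Fam a) (n : ℕ) {N : ℕ} (hN : n < N) : Dep N fun x => sg (a n x) := by
  intro x y hxy
  show sg (a n x) = sg (a n y)
  rw [hf.dep n x y fun i _ hi => hxy i (by omega)]

/-- weight of a bit -/
def wt (w : ℝ) (z : ZMod 2) : ℝ := if z = 0 then 1 else w

theorem wt_nonneg {w : ℝ} (hw : 0 ≤ w) (z : ZMod 2) : 0 ≤ wt w z := by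
  unfold wt; split_ifs <;> simp [hw]

theorem wt_le {w : ℝ} (hw : w ≤ 1) (z : ZMod 2) : wt w z ≤ 1 := by
  unfold wt; split_ifs <;> simp [hw]

/-- the correlation of two bits -/
theorem Fam.corrW (hf : Fam a) (hξ : ∀ i, Measurable (ξ i)) (hind : iIndepFun ξ P) {q : ℕ → ℝ}
    (hq0 : ∀ s, 1 ≤ s → 0 ≤ q s) (hanti : ∀ s s', 1 ≤ s → s ≤ s' → q s' ≤ q s)
    (hq1 : ∀ s, 1 ≤ s → q s ≤ pr P ξ s) (hq2 : ∀ s, 1 ≤ s → q s ≤ 1 - pr P ξ s)
    {n m M : ℕ} (hmM : m ≤ M) (hM : n ≤ 2 * M + 1) (hMn : M < n) :
    |∫ ω, sg (a n (at' ξ ω)) * sg (a m (at' ξ ω)) ∂P| ≤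
      ∫ ω, ∏ j ∈ Finset.range (n - M), wt (1 - 2 * q n) (a j (at' ξ ω)) ∂P := by
  have hqn : q n ≤ 1 / 2 := by
    have h1 := hq1 n (by omega)
    have h2 := hq2 n (by omega)
    linarith
  have hqn0 := hq0 n (by omega)
  set w : ℝ := 1 - 2 * q n with hw
  have hw0 : 0 ≤ w := by linarith
  have hw1 : w ≤ 1 := by linarith
  let b : (ℕ → Bool) → ℝ := fun x => sg (a n (tr M x)) * sg (a m x)
  let α : ℕ → (ℕ → Bool) → ℝ := fun s x => if M < s then sg (a (n - s) x) else 1
  have hb : Dep (M + 1) b := by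
    refine Dep.mul (fun x y hxy => ?_) (hf.depSg m (by omega))
    show sg (a n (tr M x)) = sg (a n (tr M y))
    have : tr M x = tr M y := by
      funext i
      unfold tr
      split_ifs with h
      · exact hxy i (by omega)
      · rfl
    rw [this]
  have hα : ∀ s, Dep (M + 1) (α s) := by
    intro s x y hxy
    show (if M < s then sg (a (n - s) x) else 1) = (if M < s then sg (a (n - s) y) else 1)
    split_ifs with h
    · rw [hf.dep (n - s) x y fun i _ hi => hxy i (by omega)]
    · rfl
  have h1 : ∀ ω, sg (a n (at' ξ ω)) * sg (a m (at' ξ ω)) = b (at' ξ ω) *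
      ∏ s ∈ Finset.Ioc M n, (if ξ s ω = true then α s (at' ξ ω) else 1) := by
    intro ω
    have h2 := hf.trunc hM (at' ξ ω) n hMn.le le_rfl
    have h3 : a n (tr n (at' ξ ω)) = a n (at' ξ ω) := by
      refine hf.dep _ _ _ fun i _ hi => ?_
      unfold tr
      rw [if_pos hi]
    rw [h3] at h2
    rw [h2]
    have h4 : ∏ s ∈ Finset.Ioc M n, (if (at' ξ ω) s = true then sg (a (n - s) (at' ξ ω)) else 1) =
        ∏ s ∈ Finset.Ioc M n, (if ξ s ω = true then α s (at' ξ ω) else 1) := by
      refine Finset.prod_congr rfl fun s hs => ?_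
      rw [Finset.mem_Ioc] at hs
      show (if (at' ξ ω) s = true then sg (a (n - s) (at' ξ ω)) else 1) =
        (if ξ s ω = true then (if M < s then sg (a (n - s) (at' ξ ω)) else 1) else 1)
      rw [if_pos hs.1]
      rfl
    rw [h4]
    show _ = sg (a n (tr M (at' ξ ω))) * sg (a m (at' ξ ω)) * _
    ring
  rw [integral_congr_ae (Eventually.of_forall h1), peel hξ hind α hα n hMn.le b hb]
  have h5 : ∀ ω, |b (at' ξ ω) * ∏ s ∈ Finset.Ioc M n,
      (pr P ξ s * α s (at' ξ ω) + (1 - pr P ξ s))| ≤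
      ∏ j ∈ Finset.range (n - M), wt w (a j (at' ξ ω)) := by
    intro ω
    rw [abs_mul, Finset.abs_prod]
    have h6 : |b (at' ξ ω)| = 1 := by
      show |sg _ * sg _| = 1
      rw [abs_mul, abs_sg, abs_sg, one_mul]
    rw [h6, one_mul]
    have h7 : ∏ j ∈ Finset.range (n - M), wt w (a j (at' ξ ω)) =
        ∏ s ∈ Finset.Ioc M n, wt w (a (n - s) (at' ξ ω)) := by
      refine Finset.prod_nbij' (fun j => n - j) (fun s => n - s) ?_ ?_ ?_ ?_ ?_
      · intro j hj; rw [Finset.mem_range] at hj; rw [Finset.mem_Ioc]; omega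
      · intro s hs; rw [Finset.mem_Ioc] at hs; rw [Finset.mem_range]; omega
      · intro j hj; rw [Finset.mem_range] at hj; show n - (n - j) = j; omega
      · intro s hs; rw [Finset.mem_Ioc] at hs; show n - (n - s) = s; omega
      · intro j hj
        rw [Finset.mem_range] at hj
        have : n - (n - j) = j := by omega
        rw [this]
    rw [h7]
    refine Finset.prod_le_prod (fun s _ => abs_nonneg _) fun s hs => ?_
    rw [Finset.mem_Ioc] at hs
    show |pr P ξ s * (if M < s then sg (a (n - s) (at' ξ ω)) else 1) + (1 - pr P ξ s)| ≤ _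
    rw [if_pos hs.1]
    have hs1 := hq1 s (by omega)
    have hs2 := hq2 s (by omega)
    have hs3 := hanti s n (by omega) hs.2
    rcases bit_cases (a (n - s) (at' ξ ω)) with h | h
    · rw [h, sg_zero]
      simp [wt]
    · rw [h, sg_one]
      simp only [wt, if_neg (one_ne_zero : (1 : ZMod 2) ≠ 0)]
      rw [abs_le]
      constructor <;> linarith
  have hint : Integrable (fun ω => ∏ j ∈ Finset.range (n - M), wt w (a j (at' ξ ω))) P := by
    have hD : Dep (n - M) fun x => ∏ j ∈ Finset.range (n - M), wt w (a j x) := by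
      refine Dep.prod _ fun j hj x y hxy => ?_
      rw [Finset.mem_range] at hj
      show wt w (a j x) = wt w (a j y)
      rw [hf.dep j x y fun i _ hi => hxy i (by omega)]
    exact hD.integrable hξ
  have h8 : ‖∫ ω, b (at' ξ ω) * ∏ s ∈ Finset.Ioc M n,
      (pr P ξ s * α s (at' ξ ω) + (1 - pr P ξ s)) ∂P‖ ≤ _ :=
    norm_integral_le_of_norm_le hint (Eventually.of_forall fun ω => by
      rw [Real.norm_eq_abs]
      exact h5 ω)
  rw [Real.norm_eq_abs] at h8
  exact h8

end Pool.Agent.N493.PF
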