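import Mathlib
import Pool.Agent.N493.PF3

/-!
# Partitions with parts in a set
-/

set_option autoImplicit false

open PowerSeries PowerSeries.WithPiTopology Filter Topology

noncomputable section

namespace Pool.Agent.N493.PF

/-- generating function modulo 2 of the partitions with parts in `{s | x s = true}` -/
def U (x : ℕ → Bool) : PowerSeries (ZMod 2) :=
  PowerSeries.mk fun n => ((Nat.Partition.restricted n (fun i => x i = true)).card : ZMod 2)

theorem U_dep (n : ℕ) (x y : ℕ → Bool) (h : ∀ i, 1 ≤ i → i ≤ n → x i = y i) :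
    coeff n (U x) = coeff n (U y) := by
  unfold U
  rw [coeff_mk, coeff_mk]
  congr 2
  unfold Nat.Partition.restricted
  refine Finset.filter_congr fun Q _ => ?_
  refine forall₂_congr fun i hi => ?_
  have h1 : 1 ≤ i := Q.parts_pos hi
  have h2 : i ≤ n := by
    have := Multiset.le_sum_of_mem hi
    rwa [Q.parts_sum] at this
  show x i = true ↔ y i = true
  rw [h i h1 h2]

theorem U_zero (x : ℕ → Bool) : coeff 0 (U x) = 1 := by
  unfold U
  rw [coeff_mk]
  have : (Nat.Partition.restricted 0 (fun i => x i = true)).card = 1 := by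
    rw [Finset.card_eq_one]
    refine ⟨default, ?_⟩
    ext Q
    simp [Nat.Partition.restricted, Subsingleton.elim Q default]
  rw [this]
  simp

theorem U_flip (x : ℕ → Bool) {s : ℕ} (hs : 1 ≤ s) :
    U (Function.update x s true) * (1 - X ^ s) = U (Function.update x s false) := by
  classical
  have h1 := Nat.Partition.hasProd_powerSeriesMk_card_restricted (ZMod 2)
    (fun i => Function.update x s true i = true)
  have h2 := Nat.Partition.hasProd_powerSeriesMk_card_restricted (ZMod 2)
    (fun i => Function.update x s false i = true)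
  have h3 : HasProd (fun i => if i = s - 1 then (1 - X ^ s : PowerSeries (ZMod 2)) else 1)
      (1 - X ^ s) := hasProd_ite_eq (s - 1) _
  have h4 := h1.mul h3
  have e : (fun i : ℕ => (if Function.update x s true (i + 1) = true then
        ∑' j : ℕ, (X : PowerSeries (ZMod 2)) ^ ((i + 1) * j) else 1) *
      (if i = s - 1 then (1 - X ^ s : PowerSeries (ZMod 2)) else 1)) =
      fun i : ℕ => (if Function.update x s false (i + 1) = true then
        ∑' j : ℕ, (X : PowerSeries (ZMod 2)) ^ ((i + 1) * j) else 1) := by
    funext i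
    by_cases hi : i = s - 1
    · have e : i + 1 = s := by omega
      rw [if_pos hi, e, Function.update_self, Function.update_self, if_pos rfl, if_neg (by simp)]
      simp_rw [pow_mul]
      exact tsum_pow_mul_one_sub_of_constantCoeff_eq_zero (by simp [Nat.pos_iff_ne_zero.mp hs])
    · have e : i + 1 ≠ s := by omega
      rw [if_neg hi, Function.update_of_ne e, Function.update_of_ne e, mul_one]
  rw [e] at h4
  exact h4.unique h2

theorem coeff_congr {A B C D : PowerSeries (ZMod 2)} {n : ℕ} (h : ∀ k ≤ n, coeff k A = coeff k B)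
    (h' : ∀ k ≤ n, coeff k C = coeff k D) : ∀ k ≤ n, coeff k (A * C) = coeff k (B * D) := by
  intro k hk
  rw [coeff_mul, coeff_mul]
  refine Finset.sum_congr rfl fun p hp => ?_
  have := Finset.HasAntidiagonal.mem_antidiagonal.mp hp
  rw [h p.1 (by omega), h' p.2 (by omega)]

theorem coeff_congr_pow {A B : PowerSeries (ZMod 2)} {n : ℕ} (h : ∀ k ≤ n, coeff k A = coeff k B)
    (t : ℕ) : ∀ k ≤ n, coeff k (A ^ t) = coeff k (B ^ t) := by
  induction t with
  | zero => intro k _; simp
  | succ t ih =>
    rw [pow_succ, pow_succ]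
    exact coeff_congr ih h

/-- the coefficients of `G U ^ t` -/
def bits (G : PowerSeries (ZMod 2)) (t : ℕ) (n : ℕ) (x : ℕ → Bool) : ZMod 2 :=
  coeff n (G * U x ^ t)

theorem bits_fam {G : PowerSeries (ZMod 2)} (hG : coeff 0 G = 1) {t : ℕ} (ht : Odd t) :
    Fam (bits G t) where
  dep n x y h := by
    refine coeff_congr (fun k _ => rfl) (coeff_congr_pow (n := n) (fun k hk => ?_) t) n le_rfl
    exact U_dep k x y fun i h1 h2 => h i h1 (by omega)
  zero x := by
    have hU : constantCoeff (U x) = 1 := by
      rw [← coeff_zero_eq_constantCoeff_apply]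
      exact U_zero x
    have hG' : constantCoeff G = 1 := by
      rw [← coeff_zero_eq_constantCoeff_apply]
      exact hG
    unfold bits
    rw [coeff_zero_eq_constantCoeff_apply, map_mul, map_pow, hU, hG', one_pow, one_mul]
  flip n s x hn hs := by
    have hs1 : 1 ≤ s := by omega
    obtain ⟨k, rfl⟩ := ht
    have h1 := U_flip x hs1
    have htwo : (2 : PowerSeries (ZMod 2)) = 0 := by
      have : (2 : ZMod 2) = 0 := by decide
      calc (2 : PowerSeries (ZMod 2)) = PowerSeries.C (R := ZMod 2) 2 :=
            (map_ofNat (PowerSeries.C (R := ZMod 2)) 2).symm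
        _ = PowerSeries.C (R := ZMod 2) 0 := by rw [this]
        _ = 0 := map_zero _
    have h2 : G * U (Function.update x s true) ^ (2 * k + 1) * (1 + X ^ s) * (1 + X ^ (2 * s)) ^ k =
        G * U (Function.update x s false) ^ (2 * k + 1) := by
      have h4 : (1 - X ^ s : PowerSeries (ZMod 2)) = 1 + X ^ s := by
        linear_combination (-(X ^ s : PowerSeries (ZMod 2))) * htwo
      have h5 : (1 + X ^ (2 * s) : PowerSeries (ZMod 2)) = (1 + X ^ s) ^ 2 := by
        rw [mul_comm 2 s, pow_mul]
        linear_combination (-(X ^ s : PowerSeries (ZMod 2))) * htwo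
      rw [← h1, h4, h5, mul_pow, pow_succ (1 + X ^ s : PowerSeries (ZMod 2)) (2 * k), pow_mul (1 + X ^ s : PowerSeries (ZMod 2)) 2 k]
      ring
    set A := G * U (Function.update x s true) ^ (2 * k + 1) with hA
    have h6 : coeff n (A * (1 + X ^ s) * (1 + X ^ (2 * s)) ^ k) = coeff n (A * (1 + X ^ s)) := by
      have h7 : ∀ j ≤ n, coeff j ((1 + X ^ (2 * s) : PowerSeries (ZMod 2)) ^ k) =
          coeff j ((1 : PowerSeries (ZMod 2)) ^ k) := by
        refine coeff_congr_pow (fun j hj => ?_) k
        rw [map_add, coeff_X_pow, if_neg (by omega), add_zero]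
      have h8 := coeff_congr (A := A * (1 + X ^ s)) (B := A * (1 + X ^ s)) (fun j _ => rfl) h7 n le_rfl
      rw [h8, one_pow, mul_one]
    have h9 : coeff n (A * (1 + X ^ s)) = coeff n A + coeff (n - s) A := by
      rw [mul_add, mul_one, map_add, coeff_mul_X_pow', if_pos hs]
    have h10 : coeff (n - s) A = coeff (n - s) (G * U x ^ (2 * k + 1)) := by
      refine coeff_congr (fun k _ => rfl) (coeff_congr_pow (n := n - s) (fun j hj => ?_) _) _ le_rfl
      refine U_dep j _ _ fun i _ hi => ?_
      rw [Function.update_of_ne (by omega)]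
    show coeff n A = coeff n (G * U (Function.update x s false) ^ (2 * k + 1)) +
      coeff (n - s) (G * U x ^ (2 * k + 1))
    rw [← h2, h6, h9, h10, add_assoc]
    have : ∀ z : ZMod 2, z + z = 0 := by decide
    rw [this, add_zero]

end Pool.Agent.N493.PF
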