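import Mathlib
import Pool.Agent.N493.PF3

/-!
# Windows
-/

set_option autoImplicit false

open Filter Topology MeasureTheory ProbabilityTheory Set

noncomputable section

namespace Pool.Agent.N493.PF

variable {a : ℕ → (ℕ → Bool) → ZMod 2}
variable {Ω : Type*} [MeasurableSpace Ω] {P : Measure Ω} [IsProbabilityMeasure P]
  {ξ : ℕ → Ω → Bool}

/-- average over the coin `s` -/
def av (P : Measure Ω) (ξ : ℕ → Ω → Bool) (s : ℕ) (F : (ℕ → Bool) → ℝ) : (ℕ → Bool) → ℝ :=
  fun x => pr P ξ s * F (Function.update x s true) + (1 - pr P ξ s) * F (Function.update x s false)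

/-- average over the coins `S, …, S + k - 1` -/
def avs (P : Measure Ω) (ξ : ℕ → Ω → Bool) (S : ℕ) :
    ℕ → ((ℕ → Bool) → ℝ) → ((ℕ → Bool) → ℝ)
  | 0, F => F
  | k + 1, F => avs P ξ S k (av P ξ (S + k) F)

theorem Dep.av {S : ℕ} {F : (ℕ → Bool) → ℝ} (h : Dep (S + 1) F) : Dep S (av P ξ S F) := by
  intro x y hxy
  have h1 := h.update true x y hxy
  have h2 := h.update false x y hxy
  show pr P ξ S * F (Function.update x S true) + (1 - pr P ξ S) * F (Function.update x S false) =
    pr P ξ S * F (Function.update y S true) + (1 - pr P ξ S) * F (Function.update y S false)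
  rw [show F (Function.update x S true) = F (Function.update y S true) from h1,
    show F (Function.update x S false) = F (Function.update y S false) from h2]

theorem Dep.avs {S : ℕ} : ∀ (k : ℕ) {F : (ℕ → Bool) → ℝ}, Dep (S + k) F → Dep S (avs P ξ S k F)
  | 0, _, h => h
  | k + 1, _, h => Dep.avs k (Dep.av h)

theorem int_avs (hξ : ∀ i, Measurable (ξ i)) (hind : iIndepFun ξ P) {S : ℕ} :
    ∀ (k : ℕ) {F : (ℕ → Bool) → ℝ}, Dep (S + k) F →
      ∫ ω, F (at' ξ ω) ∂P = ∫ ω, avs P ξ S k F (at' ξ ω) ∂P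
  | 0, _, _ => rfl
  | k + 1, _, h => by
    rw [one_step hξ hind (N := S + k) h]
    exact int_avs hξ hind k (Dep.av h)

theorem av_mul {s : ℕ} {G F : (ℕ → Bool) → ℝ} (hG : ∀ x b, G (Function.update x s b) = G x) :
    av P ξ s (fun x => G x * F x) = fun x => G x * av P ξ s F x := by
  funext x
  show pr P ξ s * (G (Function.update x s true) * F (Function.update x s true)) +
    (1 - pr P ξ s) * (G (Function.update x s false) * F (Function.update x s false)) =
    G x * (pr P ξ s * F (Function.update x s true) + (1 - pr P ξ s) * F (Function.update x s false))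
  rw [hG, hG]
  ring

theorem avs_mul {S : ℕ} {G : (ℕ → Bool) → ℝ} (hG : ∀ s, S ≤ s → ∀ x b, G (Function.update x s b) = G x) :
    ∀ (k : ℕ) (F : (ℕ → Bool) → ℝ), avs P ξ S k (fun x => G x * F x) = fun x => G x * avs P ξ S k F x
  | 0, _ => rfl
  | k + 1, F => by
    show avs P ξ S k (av P ξ (S + k) (fun x => G x * F x)) = _
    rw [av_mul (hG (S + k) (by omega)), avs_mul hG k]
    rfl

theorem avs_le {S l : ℕ} {θ : (ℕ → Bool) → ℝ} (hθ : ∀ s, S ≤ s → ∀ x b, θ (Function.update x s b) = θ x) :
    ∀ (k : ℕ) (f M : (ℕ → Bool) → ℝ), (∀ x, f x ≤ M x) →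
      (∀ s, S ≤ s → ∀ x b, M (Function.update x s b) = M x) →
      (∀ s, S ≤ s → s < S + l → s < S + k →
        ∀ x, f (Function.update x s true) + f (Function.update x s false) ≤ θ x) →
      ∀ x, avs P ξ S k f x ≤ θ x / 2 + (M x - θ x / 2) *
        ∏ i ∈ Finset.range k, (if i < l then |1 - 2 * pr P ξ (S + i)| else 1) := by
  intro k
  induction k with
  | zero =>
    intro f M hf _ _ x
    simp only [Finset.range_zero, Finset.prod_empty, mul_one]
    have := hf x
    show f x ≤ _
    linarith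
  | succ k ih =>
    intro f M hf hM hp x
    have hp0 := pr_nonneg (P := P) (ξ := ξ) (S + k)
    have hp1 := pr_le (P := P) (ξ := ξ) (S + k)
    have hpair : ∀ s, S ≤ s → s < S + l → s < S + k →
        ∀ x, av P ξ (S + k) f (Function.update x s true) +
        av P ξ (S + k) f (Function.update x s false) ≤ θ x := by
      intro s hs1 hs2 hs3 x
      have hsk : s ≠ S + k := by omega
      show (pr P ξ (S + k) * f (Function.update (Function.update x s true) (S + k) true) +
        (1 - pr P ξ (S + k)) * f (Function.update (Function.update x s true) (S + k) false)) +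
        (pr P ξ (S + k) * f (Function.update (Function.update x s false) (S + k) true) +
        (1 - pr P ξ (S + k)) * f (Function.update (Function.update x s false) (S + k) false)) ≤ θ x
      have hcomm : ∀ b c : Bool, Function.update (Function.update x s b) (S + k) c =
          Function.update (Function.update x (S + k) c) s b := fun b c =>
        Function.update_comm hsk b c x
      rw [hcomm true true, hcomm true false, hcomm false true, hcomm false false]
      have h1 := hp s hs1 hs2 (by omega) (Function.update x (S + k) true)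
      have h2 := hp s hs1 hs2 (by omega) (Function.update x (S + k) false)
      rw [hθ (S + k) (by omega)] at h1 h2
      have h3 := mul_le_mul_of_nonneg_left h1 hp0
      have h4 := mul_le_mul_of_nonneg_left h2 (sub_nonneg.mpr hp1)
      linarith
    rw [Finset.prod_range_succ]
    by_cases hkl : k < l
    · rw [if_pos hkl]
      set r : ℝ := |1 - 2 * pr P ξ (S + k)| with hr
      have h1 : ∀ x, av P ξ (S + k) f x ≤ θ x / 2 + (M x - θ x / 2) * r := by
        intro x
        have hu := hf (Function.update x (S + k) false)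
        have hv := hf (Function.update x (S + k) true)
        rw [hM (S + k) (by omega)] at hu hv
        have huv := hp (S + k) (by omega) (by omega) (by omega) x
        unfold av
        rcases le_total (pr P ξ (S + k)) (1 / 2) with h | h
        · have hr' : r = 1 - 2 * pr P ξ (S + k) := by rw [hr]; exact abs_of_nonneg (by linarith)
          rw [hr']
          have h3 := mul_le_mul_of_nonneg_left huv hp0
          have h4 := mul_le_mul_of_nonneg_left hu (show 0 ≤ 1 - 2 * pr P ξ (S + k) by linarith)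
          linarith
        · have hr' : r = 2 * pr P ξ (S + k) - 1 := by
            rw [hr, abs_of_nonpos (by linarith)]
            ring
          rw [hr']
          have h3 := mul_le_mul_of_nonneg_left huv (show 0 ≤ 1 - pr P ξ (S + k) by linarith)
          have h4 := mul_le_mul_of_nonneg_left hv (show 0 ≤ 2 * pr P ξ (S + k) - 1 by linarith)
          linarith
      have h2 := ih (av P ξ (S + k) f) (fun x => θ x / 2 + (M x - θ x / 2) * r) h1
        (fun s hs x b => by
          show θ (Function.update x s b) / 2 + (M (Function.update x s b) -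
            θ (Function.update x s b) / 2) * r = _
          rw [hθ s hs, hM s hs]) hpair x
      refine h2.trans (le_of_eq ?_)
      ring
    · rw [if_neg hkl, mul_one]
      refine ih (av P ξ (S + k) f) M (fun x => ?_) hM hpair x
      have hu := hf (Function.update x (S + k) false)
      have hv := hf (Function.update x (S + k) true)
      rw [hM (S + k) (by omega)] at hu hv
      unfold av
      have h3 := mul_le_mul_of_nonneg_left hv hp0
      have h4 := mul_le_mul_of_nonneg_left hu (sub_nonneg.mpr hp1)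
      linarith

/-- product of the weights over a set of places -/
def WP (a : ℕ → (ℕ → Bool) → ZMod 2) (w : ℝ) (J : Finset ℕ) (x : ℕ → Bool) : ℝ :=
  ∏ j ∈ J, wt w (a j x)

theorem WP_nonneg {w : ℝ} (hw : 0 ≤ w) (J : Finset ℕ) (x : ℕ → Bool) : 0 ≤ WP a w J x :=
  Finset.prod_nonneg fun _ _ => wt_nonneg hw _

theorem WP_le_one {w : ℝ} (hw : 0 ≤ w) (hw1 : w ≤ 1) (J : Finset ℕ) (x : ℕ → Bool) :
    WP a w J x ≤ 1 :=
  Finset.prod_le_one (fun _ _ => wt_nonneg hw _) fun _ _ => wt_le hw1 _

theorem Fam.depWP (hf : Fam a) {w : ℝ} {J : Finset ℕ} {K : ℕ} (hJ : ∀ j ∈ J, j < K) :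
    Dep K (WP a w J) := by
  refine Dep.prod _ fun j hj x y hxy => ?_
  have := hJ j hj
  show wt w (a j x) = wt w (a j y)
  rw [hf.dep j x y fun i _ hi => hxy i (by omega)]

theorem Dep.upd {K : ℕ} {F : (ℕ → Bool) → ℝ} (h : Dep K F) (s : ℕ) (hs : K ≤ s) (x : ℕ → Bool)
    (b : Bool) : F (Function.update x s b) = F x := by
  refine h _ _ fun i hi => ?_
  rw [Function.update_of_ne (by omega)]

theorem wt_mul_le {w : ℝ} (hw0 : 0 ≤ w) (hw1 : w ≤ 1) (y z : ZMod 2) :
    wt w (y + z) * wt w y ≤ wt w z := by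
  have h2 : (1 : ZMod 2) + 1 = 0 := by decide
  have hne : (1 : ZMod 2) ≠ 0 := by decide
  rcases bit_cases y with rfl | rfl <;> rcases bit_cases z with rfl | rfl <;>
    simp only [wt, h2, add_zero, zero_add, if_true, if_neg hne] <;> nlinarith

theorem Fam.pair (hf : Fam a) {w : ℝ} (hw0 : 0 ≤ w) (hw1 : w ≤ 1) {S l : ℕ} (hlS : l ≤ S) :
    ∀ s, S ≤ s → s < S + l → ∀ x,
      WP a w (Finset.Ico S (S + 2 * l)) (Function.update x s true) +
      WP a w (Finset.Ico S (S + 2 * l)) (Function.update x s false) ≤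
        1 + WP a w (Finset.range l) x := by
  classical
  intro s hs1 hs2 x
  set f1 := WP a w (Finset.Ico S (S + 2 * l)) (Function.update x s true) with hf1
  set f0 := WP a w (Finset.Ico S (S + 2 * l)) (Function.update x s false) with hf0
  have h1 : f1 ≤ 1 := WP_le_one hw0 hw1 _ _
  have h0 : f0 ≤ 1 := WP_le_one hw0 hw1 _ _
  have h2 : f1 * f0 ≤ WP a w (Finset.range l) x := by
    rw [hf1, hf0]
    unfold WP
    rw [← Finset.prod_mul_distrib]
    have h3 : ∏ j ∈ Finset.Ico S (S + 2 * l), (wt w (a j (Function.update x s true)) *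
        wt w (a j (Function.update x s false))) ≤ ∏ j ∈ Finset.Ico S (S + 2 * l),
          (if s ≤ j ∧ j < s + l then wt w (a (j - s) x) else 1) := by
      refine Finset.prod_le_prod (fun j _ => mul_nonneg (wt_nonneg hw0 _) (wt_nonneg hw0 _))
        fun j _ => ?_
      split_ifs with h4
      · rw [hf.flip j s x (by omega) h4.1]
        exact wt_mul_le hw0 hw1 _ _
      · exact mul_le_one₀ (wt_le hw1 _) (wt_nonneg hw0 _) (wt_le hw1 _)
    refine h3.trans (le_of_eq ?_)
    rw [← Finset.prod_filter]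
    symm
    refine Finset.prod_nbij' (fun i => s + i) (fun j => j - s) ?_ ?_ ?_ ?_ ?_
    · intro i hi; rw [Finset.mem_range] at hi; simp only [Finset.mem_filter, Finset.mem_Ico]; omega
    · intro j hj; simp only [Finset.mem_filter, Finset.mem_Ico] at hj; rw [Finset.mem_range]; omega
    · intro i _; show s + i - s = i; omega
    · intro j hj; simp only [Finset.mem_filter, Finset.mem_Ico] at hj; show s + (j - s) = j; omega
    · intro i _
      have : s + i - s = i := by omega
      rw [this]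
  nlinarith

/-- many windows -/
theorem Fam.windows (hf : Fam a) (hξ : ∀ i, Measurable (ξ i)) (hind : iIndepFun ξ P)
    {w : ℝ} (hw0 : 0 ≤ w) (hw1 : w ≤ 1) {l : ℕ} {ρ : ℝ} (hρ0 : 0 ≤ ρ) (hρ1 : ρ ≤ 1) :
    ∀ k : ℕ, (∀ s, l ≤ s → s < l + 2 * l * k → |1 - 2 * pr P ξ s| ≤ ρ) →
      ∀ G : (ℕ → Bool) → ℝ, Dep l G → (∀ x, 0 ≤ G x) →
      ∫ ω, G (at' ξ ω) * WP a w (Finset.Ico l (l + 2 * l * k)) (at' ξ ω) ∂P ≤
      ∫ ω, G (at' ξ ω) * (1 - (1 - WP a w (Finset.range l) (at' ξ ω)) * (1 - ρ ^ l) / 2) ^ k ∂P := by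
  intro k
  induction k with
  | zero =>
    intro _ G _ _
    simp [WP]
  | succ k ih =>
    intro hρ G hG hG0
    set S := l + 2 * l * k with hS
    have hSk : l + 2 * l * (k + 1) = S + 2 * l := by rw [hS]; ring
    rw [hSk] at hρ ⊢
    have hlS : l ≤ S := by omega
    have hρl : ρ ^ l ≤ 1 := pow_le_one₀ hρ0 hρ1
    have hV : Dep l (WP a w (Finset.range l)) := hf.depWP fun j hj => Finset.mem_range.mp hj
    have hR : Dep S (WP a w (Finset.Ico l S)) := hf.depWP fun j hj => (Finset.mem_Ico.mp hj).2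
    have hGR : Dep S fun x => G x * WP a w (Finset.Ico l S) x := (hG.mono hlS).mul hR
    have hwin : Dep (S + 2 * l) (WP a w (Finset.Ico S (S + 2 * l))) :=
      hf.depWP fun j hj => (Finset.mem_Ico.mp hj).2
    have e1 : ∀ ω, G (at' ξ ω) * WP a w (Finset.Ico l (S + 2 * l)) (at' ξ ω) =
        (fun x => (G x * WP a w (Finset.Ico l S) x) * WP a w (Finset.Ico S (S + 2 * l)) x) (at' ξ ω) := by
      intro ω
      show _ = (G _ * WP a w (Finset.Ico l S) _) * WP a w (Finset.Ico S (S + 2 * l)) _
      unfold WP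
      rw [mul_assoc, Finset.prod_Ico_consecutive _ hlS (by omega)]
    rw [integral_congr_ae (Eventually.of_forall e1),
      int_avs hξ hind (S := S) (2 * l) ((hGR.mono (by omega)).mul hwin),
      avs_mul (fun s hs x b => hGR.upd s hs x b)]
    set B : (ℕ → Bool) → ℝ := fun x => 1 - (1 - WP a w (Finset.range l) x) * (1 - ρ ^ l) / 2 with hB
    have hBd : Dep l B := by
      intro x y hxy
      show 1 - (1 - WP a w (Finset.range l) x) * (1 - ρ ^ l) / 2 =
        1 - (1 - WP a w (Finset.range l) y) * (1 - ρ ^ l) / 2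
      rw [hV x y hxy]
    have hB0 : ∀ x, 0 ≤ B x := by
      intro x
      have h1 := WP_nonneg (a := a) hw0 (Finset.range l) x
      have h2 := WP_le_one (a := a) hw0 hw1 (Finset.range l) x
      have h3 : 0 ≤ ρ ^ l := pow_nonneg hρ0 l
      show 0 ≤ 1 - (1 - WP a w (Finset.range l) x) * (1 - ρ ^ l) / 2
      nlinarith
    have hle : ∀ x, avs P ξ S (2 * l) (WP a w (Finset.Ico S (S + 2 * l))) x ≤ B x := by
      intro x
      have h1 := avs_le (P := P) (ξ := ξ) (S := S) (l := l) (θ := fun x => 1 + WP a w (Finset.range l) x)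
        (fun s hs x b => by
          show 1 + WP a w (Finset.range l) (Function.update x s b) = _
          rw [hV.upd s (by omega)]) (2 * l) (WP a w (Finset.Ico S (S + 2 * l))) (fun _ => 1)
        (fun x => WP_le_one hw0 hw1 _ x) (fun _ _ _ _ => rfl)
        (fun s h1 h2 _ => hf.pair hw0 hw1 hlS s h1 h2) x
      refine h1.trans ?_
      have h2 : ∏ i ∈ Finset.range (2 * l), (if i < l then |1 - 2 * pr P ξ (S + i)| else 1) ≤ ρ ^ l := by
        rw [← Finset.prod_filter]
        have h3 : (Finset.range (2 * l)).filter (fun i => i < l) = Finset.range l := by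
          ext i; simp only [Finset.mem_filter, Finset.mem_range]; omega
        rw [h3]
        calc ∏ i ∈ Finset.range l, |1 - 2 * pr P ξ (S + i)| ≤ ∏ _i ∈ Finset.range l, ρ := by
              refine Finset.prod_le_prod (fun _ _ => abs_nonneg _) fun i hi => ?_
              rw [Finset.mem_range] at hi
              exact hρ (S + i) (by omega) (by omega)
          _ = ρ ^ l := by rw [Finset.prod_const, Finset.card_range]
      have h4 := WP_le_one (a := a) hw0 hw1 (Finset.range l) x
      have h5 := mul_le_mul_of_nonneg_left h2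
        (show 0 ≤ 1 - (1 + WP a w (Finset.range l) x) / 2 by linarith)
      show _ ≤ 1 - (1 - WP a w (Finset.range l) x) * (1 - ρ ^ l) / 2
      linarith
    have hGRB : Dep S fun x => (G x * B x) * WP a w (Finset.Ico l S) x :=
      ((hG.mul hBd).mono hlS).mul hR
    have havs : Dep S (avs P ξ S (2 * l) (WP a w (Finset.Ico S (S + 2 * l)))) := Dep.avs _ hwin
    calc ∫ ω, (G (at' ξ ω) * WP a w (Finset.Ico l S) (at' ξ ω)) *
          avs P ξ S (2 * l) (WP a w (Finset.Ico S (S + 2 * l))) (at' ξ ω) ∂P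
        ≤ ∫ ω, (G (at' ξ ω) * B (at' ξ ω)) * WP a w (Finset.Ico l S) (at' ξ ω) ∂P := by
          refine integral_mono ((hGR.mul havs).integrable hξ) (hGRB.integrable hξ) fun ω => ?_
          show (G (at' ξ ω) * WP a w (Finset.Ico l S) (at' ξ ω)) * _ ≤
            (G (at' ξ ω) * B (at' ξ ω)) * WP a w (Finset.Ico l S) (at' ξ ω)
          have h1 := mul_le_mul_of_nonneg_left (hle (at' ξ ω))
            (mul_nonneg (hG0 (at' ξ ω)) (WP_nonneg (a := a) hw0 (Finset.Ico l S) (at' ξ ω)))
          linarith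
      _ ≤ ∫ ω, (G (at' ξ ω) * B (at' ξ ω)) * (B (at' ξ ω)) ^ k ∂P :=
          ih (fun s h1 h2 => hρ s h1 (by omega)) (fun x => G x * B x) (hG.mul hBd)
            fun x => mul_nonneg (hG0 x) (hB0 x)
      _ = _ := by
          refine integral_congr_ae (Eventually.of_forall fun ω => ?_)
          show (G (at' ξ ω) * B (at' ξ ω)) * (B (at' ξ ω)) ^ k = G (at' ξ ω) * (B (at' ξ ω)) ^ (k + 1)
          ring

/-- the Laplace transform of the number of bits 1 below `h` -/
def Lam (P : Measure Ω) (ξ : ℕ → Ω → Bool) (a : ℕ → (ℕ → Bool) → ZMod 2) (h : ℕ) (t : ℝ) : ℝ :=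
  ∫ ω, WP a (Real.exp (-t)) (Finset.range h) (at' ξ ω) ∂P

/-- number of bits 1 -/
def cntR (a : ℕ → (ℕ → Bool) → ZMod 2) (l : ℕ) (x : ℕ → Bool) : ℝ :=
  ∑ j ∈ Finset.range l, (if a j x = 0 then 0 else 1)

theorem WP_exp (l : ℕ) (t : ℝ) (x : ℕ → Bool) :
    WP a (Real.exp (-t)) (Finset.range l) x = Real.exp (-(t * cntR a l x)) := by
  unfold WP cntR
  rw [Finset.mul_sum, ← Finset.sum_neg_distrib, Real.exp_sum]
  refine Finset.prod_congr rfl fun j _ => ?_
  unfold wt
  split_ifs <;> simp

theorem cntR_nonneg (l : ℕ) (x : ℕ → Bool) : 0 ≤ cntR a l x :=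
  Finset.sum_nonneg fun j _ => by split_ifs <;> norm_num

theorem Fam.lam_rec (hf : Fam a) (hξ : ∀ i, Measurable (ξ i)) (hind : iIndepFun ξ P)
    {l k h : ℕ} {ρ t : ℝ} (hρ0 : 0 ≤ ρ) (hρ1 : ρ ≤ 1) (ht : 0 ≤ t) (hl : 1 ≤ l)
    (hρ : ∀ s, 1 ≤ s → s < h → |1 - 2 * pr P ξ s| ≤ ρ) (hρl : ρ ^ l ≤ 1 / 2)
    (hk : l + 2 * l * k ≤ h) :
    Lam P ξ a h t ≤ Real.exp (-((k : ℝ) / 8)) + Lam P ξ a l ((k : ℝ) / 8 * t) := by
  set w : ℝ := Real.exp (-t) with hw
  have hw0 : 0 ≤ w := (Real.exp_pos _).le
  have hw1 : w ≤ 1 := by rw [hw]; exact Real.exp_le_one_iff.mpr (by linarith)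
  have hd : ∀ (J : Finset ℕ) (w' : ℝ), (∀ j ∈ J, j < h) → Dep h (WP a w' J) := fun J w' hJ =>
    hf.depWP hJ
  have h1 := hf.windows (l := l) hξ hind hw0 hw1 hρ0 hρ1 k (fun s h1 h2 => hρ s (by omega) (by omega))
    (fun _ => 1) (fun _ _ _ => rfl) (fun _ => zero_le_one)
  have hm : Lam P ξ a h t ≤ ∫ ω, (fun _ => (1 : ℝ)) (at' ξ ω) *
      WP a w (Finset.Ico l (l + 2 * l * k)) (at' ξ ω) ∂P := by
    unfold Lam
    refine integral_mono ((hd _ _ fun j hj => Finset.mem_range.mp hj).integrable hξ) ?_ fun ω => ?_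
    · refine ((hd _ _ fun j hj => ?_).integrable hξ).const_mul _
      have := (Finset.mem_Ico.mp hj).2
      omega
    · show WP a w (Finset.range h) (at' ξ ω) ≤ 1 * WP a w (Finset.Ico l (l + 2 * l * k)) (at' ξ ω)
      rw [one_mul]
      unfold WP
      have hsub : Finset.Ico l (l + 2 * l * k) ⊆ Finset.range h := by
        intro j hj
        have := (Finset.mem_Ico.mp hj).2
        exact Finset.mem_range.mpr (by omega)
      rw [← Finset.prod_sdiff hsub]
      calc (∏ x ∈ Finset.range h \ Finset.Ico l (l + 2 * l * k), wt w (a x (at' ξ ω))) *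
            ∏ x ∈ Finset.Ico l (l + 2 * l * k), wt w (a x (at' ξ ω)) ≤
            1 * ∏ x ∈ Finset.Ico l (l + 2 * l * k), wt w (a x (at' ξ ω)) :=
            mul_le_mul_of_nonneg_right (Finset.prod_le_one (fun _ _ => wt_nonneg hw0 _)
              fun _ _ => wt_le hw1 _) (Finset.prod_nonneg fun _ _ => wt_nonneg hw0 _)
        _ = _ := one_mul _
  refine hm.trans (h1.trans ?_)
  have hVd : Dep l (WP a w (Finset.range l)) := hf.depWP fun j hj => Finset.mem_range.mp hj
  have hVd2 : Dep l (WP a (Real.exp (-((k : ℝ) / 8 * t))) (Finset.range l)) :=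
    hf.depWP fun j hj => Finset.mem_range.mp hj
  have hfin : ∀ ω, (fun _ => (1 : ℝ)) (at' ξ ω) *
      (1 - (1 - WP a w (Finset.range l) (at' ξ ω)) * (1 - ρ ^ l) / 2) ^ k ≤
      Real.exp (-((k : ℝ) / 8)) + WP a (Real.exp (-((k : ℝ) / 8 * t))) (Finset.range l) (at' ξ ω) := by
    intro ω
    show 1 * _ ≤ _
    rw [one_mul]
    set x := at' ξ ω with hx
    have e1 : WP a w (Finset.range l) x = Real.exp (-(t * cntR a l x)) := WP_exp l t x
    have e2 := WP_exp (a := a) l ((k : ℝ) / 8 * t) x
    rw [e1, e2]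
    have hc := cntR_nonneg (a := a) l x
    set y : ℝ := t * cntR a l x with hy
    have hy0 : 0 ≤ y := mul_nonneg ht hc
    set V : ℝ := Real.exp (-y) with hV
    have hV0 : 0 < V := Real.exp_pos _
    have hV1 : V ≤ 1 := Real.exp_le_one_iff.mpr (by linarith)
    have hb0 : 0 ≤ 1 - (1 - V) * (1 - ρ ^ l) / 2 := by
      have : 0 ≤ ρ ^ l := pow_nonneg hρ0 l
      nlinarith
    have hb1 : 1 - (1 - V) * (1 - ρ ^ l) / 2 ≤ 1 - (1 - V) / 4 := by nlinarith
    have hVmin : min 1 y / 2 ≤ 1 - V := by
      rcases le_total y 1 with hy1 | hy1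
      · rw [min_eq_right hy1]
        have h3 : Real.exp (-y) ≤ 1 - y / 2 := by
          have h4 := Real.add_one_le_exp y
          have h5 : (Real.exp y)⁻¹ ≤ (y + 1)⁻¹ := inv_anti₀ (by linarith) h4
          rw [Real.exp_neg]
          refine h5.trans ?_
          rw [inv_le_iff_one_le_mul₀ (by linarith)]
          nlinarith
        linarith
      · rw [min_eq_left hy1]
        have h3 : Real.exp (-y) ≤ Real.exp (-1) := Real.exp_le_exp.mpr (by linarith)
        have h4 : Real.exp (-1) < 0.3678794412 := Real.exp_neg_one_lt_d9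
        linarith
    have h6 : (1 - (1 - V) * (1 - ρ ^ l) / 2) ^ k ≤ Real.exp (-((k : ℝ) / 8 * min 1 y)) := by
      calc (1 - (1 - V) * (1 - ρ ^ l) / 2) ^ k ≤ (Real.exp (-(min 1 y / 8))) ^ k := by
            refine pow_le_pow_left₀ hb0 ?_ k
            have h7 := Real.add_one_le_exp (-(min 1 y / 8))
            linarith
        _ = Real.exp (-((k : ℝ) / 8 * min 1 y)) := by
            rw [← Real.exp_nat_mul]
            congr 1
            ring
    refine h6.trans ?_
    rcases le_total y 1 with hy1 | hy1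
    · rw [min_eq_right hy1]
      have e3 : (k : ℝ) / 8 * t * cntR a l x = (k : ℝ) / 8 * y := by rw [hy]; ring
      rw [e3]
      have := Real.exp_pos (-((k : ℝ) / 8))
      linarith
    · rw [min_eq_left hy1, mul_one]
      have := Real.exp_pos (-((k : ℝ) / 8 * t * cntR a l x))
      linarith
  have hi1 : Integrable (fun ω => (fun _ => (1 : ℝ)) (at' ξ ω) *
      (1 - (1 - WP a w (Finset.range l) (at' ξ ω)) * (1 - ρ ^ l) / 2) ^ k) P := by
    have : Dep l fun x => (fun _ => (1 : ℝ)) x *
      (1 - (1 - WP a w (Finset.range l) x) * (1 - ρ ^ l) / 2) ^ k := by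
      intro x y hxy
      show 1 * (1 - (1 - WP a w (Finset.range l) x) * (1 - ρ ^ l) / 2) ^ k =
        1 * (1 - (1 - WP a w (Finset.range l) y) * (1 - ρ ^ l) / 2) ^ k
      rw [hVd x y hxy]
    exact this.integrable hξ
  refine (integral_mono hi1 ((integrable_const _).add (hVd2.integrable hξ)) hfin).trans (le_of_eq ?_)
  rw [integral_add' (integrable_const _) (hVd2.integrable hξ)]
  simp [Lam]

end Pool.Agent.N493.PF
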