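import Mathlib
import Pool.Agent.N493.PF7
import Pool.Agent.N493.PF5

/-!
# Blocks
-/

set_option autoImplicit false

open Filter Topology MeasureTheory ProbabilityTheory PowerSeries

noncomputable section

namespace Pool.Agent.N493.PF

/-- number of the partitions of `n` all of whose parts are in `S` -/
def pS (S : Set ℕ) (n : ℕ) : ℕ := Nat.card {Q : Nat.Partition n // ∀ i ∈ Q.parts, i ∈ S}

/-- coefficient of `X ^ n` in `G (∑ pS S k X ^ k) ^ t` -/
def cf (G : PowerSeries ℤ) (S : Set ℕ) (t n : ℕ) : ℤ :=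
  coeff n (G * (PowerSeries.mk fun k => (pS S k : ℤ)) ^ t)

/-- along `B`, the blocks of the parities of `A` are equidistributed -/
def Equi (B : Set ℕ) (A : ℕ → ℤ) : Prop :=
  ∀ (L : ℕ) (w : ℕ → ZMod 2), Tendsto (fun N : ℕ =>
    (({n : ℕ | n < N ∧ n ∈ B ∧ ∀ i < L, (A (n + i) : ZMod 2) = w i}.ncard : ℝ) -
      ({n : ℕ | n < N ∧ n ∈ B}.ncard : ℝ) / 2 ^ L) / N) atTop (𝓝 0)

theorem sg_sum {ι : Type*} (s : Finset ι) (z : ι → ZMod 2) : sg (∑ i ∈ s, z i) = ∏ i ∈ s, sg (z i) := by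
  classical
  induction s using Finset.induction_on with
  | empty => simp [sg_zero]
  | insert i s hi ih => rw [Finset.sum_insert hi, Finset.prod_insert hi, sg_add, ih]

theorem ind_eq (y w : ZMod 2) : (if y = w then (1 : ℝ) else 0) = (1 + sg (y + w)) / 2 := by
  have h2 : (1 : ZMod 2) + 1 = 0 := by decide
  have hne : (1 : ZMod 2) ≠ 0 := by decide
  have hne' : (0 : ZMod 2) ≠ 1 := by decide
  rcases bit_cases y with rfl | rfl <;> rcases bit_cases w with rfl | rfl <;>
    simp [sg_zero, sg_one, h2, hne']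

/-- from the linear patterns to the blocks -/
theorem equi_of {B : Set ℕ} {A : ℕ → ℤ}
    (h : ∀ I : Finset ℕ, I.Nonempty → Tendsto (fun N : ℕ => (∑ n ∈ Finset.range N,
      (B.indicator (fun _ => (1 : ℝ)) n) * sg (∑ i ∈ I, (A (n + i) : ZMod 2))) / N) atTop (𝓝 0)) :
    Equi B A := by
  classical
  intro L w
  have key : ∀ N : ℕ, (({n : ℕ | n < N ∧ n ∈ B ∧ ∀ i < L, (A (n + i) : ZMod 2) = w i}.ncard : ℝ) -
      ({n : ℕ | n < N ∧ n ∈ B}.ncard : ℝ) / 2 ^ L) / N =
      ∑ I ∈ (Finset.range L).powerset.erase ∅, (sg (∑ i ∈ I, w i) / 2 ^ L) *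
        ((∑ n ∈ Finset.range N,
      (B.indicator (fun _ => (1 : ℝ)) n) * sg (∑ i ∈ I, (A (n + i) : ZMod 2))) / N) := by
    intro N
    have e1 : ({n : ℕ | n < N ∧ n ∈ B ∧ ∀ i < L, (A (n + i) : ZMod 2) = w i}.ncard : ℝ) =
        ∑ n ∈ Finset.range N, (B.indicator (fun _ => (1 : ℝ)) n) *
          ∏ i ∈ Finset.range L, (if (A (n + i) : ZMod 2) = w i then (1 : ℝ) else 0) := by
      have e2 : {n : ℕ | n < N ∧ n ∈ B ∧ ∀ i < L, (A (n + i) : ZMod 2) = w i} =
          ((Finset.range N).filter fun n => n ∈ B ∧ ∀ i < L, (A (n + i) : ZMod 2) = w i : Finset ℕ) := by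
        ext n; simp
      rw [e2, Set.ncard_coe_finset, Finset.card_filter, Nat.cast_sum]
      refine Finset.sum_congr rfl fun n _ => ?_
      rw [Finset.prod_ite_zero]
      simp only [Finset.prod_const_one, Finset.mem_range, Set.indicator]
      by_cases h1 : n ∈ B <;> by_cases h2 : ∀ i < L, (A (n + i) : ZMod 2) = w i <;> simp [h1, h2]
    have e3 : ({n : ℕ | n < N ∧ n ∈ B}.ncard : ℝ) = ∑ n ∈ Finset.range N, (B.indicator (fun _ => (1 : ℝ)) n) := by
      have e2 : {n : ℕ | n < N ∧ n ∈ B} = ((Finset.range N).filter fun n => n ∈ B : Finset ℕ) := by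
        ext n; simp
      rw [e2, Set.ncard_coe_finset, Finset.card_filter, Nat.cast_sum]
      refine Finset.sum_congr rfl fun n _ => ?_
      by_cases h1 : n ∈ B <;> simp [h1]
    have e4 : ∀ n : ℕ, ∏ i ∈ Finset.range L, (if (A (n + i) : ZMod 2) = w i then (1 : ℝ) else 0) =
        ∑ I ∈ (Finset.range L).powerset, (sg (∑ i ∈ I, w i) / 2 ^ L) *
          sg (∑ i ∈ I, (A (n + i) : ZMod 2)) := by
      intro n
      have e5 : ∀ i ∈ Finset.range L, (if (A (n + i) : ZMod 2) = w i then (1 : ℝ) else 0) =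
          (1 + sg ((A (n + i) : ZMod 2) + w i)) / 2 := fun i _ => ind_eq _ _
      rw [Finset.prod_congr rfl e5, Finset.prod_div_distrib, Finset.prod_const, Finset.card_range,
        Finset.prod_one_add, Finset.sum_div]
      refine Finset.sum_congr rfl fun I _ => ?_
      rw [← sg_sum, Finset.sum_add_distrib, sg_add]
      ring
    rw [e1, e3]
    simp only [e4, Finset.mul_sum]
    rw [Finset.sum_comm, ← Finset.add_sum_erase _ _ (Finset.empty_mem_powerset (Finset.range L))]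
    simp only [Finset.sum_empty, sg_zero, mul_one]
    rw [← Finset.sum_mul]
    have e6 : ((∑ i ∈ Finset.range N, B.indicator (fun _ => (1 : ℝ)) i) * (1 / 2 ^ L) +
        ∑ I ∈ (Finset.range L).powerset.erase ∅, ∑ n ∈ Finset.range N,
          B.indicator (fun _ => (1 : ℝ)) n * (sg (∑ i ∈ I, w i) / 2 ^ L *
            sg (∑ i ∈ I, (A (n + i) : ZMod 2))) -
        (∑ n ∈ Finset.range N, B.indicator (fun _ => (1 : ℝ)) n) / 2 ^ L) =
        ∑ I ∈ (Finset.range L).powerset.erase ∅, ∑ n ∈ Finset.range N,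
          B.indicator (fun _ => (1 : ℝ)) n * (sg (∑ i ∈ I, w i) / 2 ^ L *
            sg (∑ i ∈ I, (A (n + i) : ZMod 2))) := by ring
    rw [e6, Finset.sum_div]
    refine Finset.sum_congr rfl fun I _ => ?_
    rw [Finset.sum_div, Finset.sum_div, Finset.mul_sum]
    refine Finset.sum_congr rfl fun n _ => ?_
    ring
  have h0 : Tendsto (fun N : ℕ => ∑ I ∈ (Finset.range L).powerset.erase ∅, (sg (∑ i ∈ I, w i) / 2 ^ L) *
        ((∑ n ∈ Finset.range N,
      (B.indicator (fun _ => (1 : ℝ)) n) * sg (∑ i ∈ I, (A (n + i) : ZMod 2))) / N)) atTop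
      (𝓝 (∑ I ∈ (Finset.range L).powerset.erase ∅, (sg (∑ i ∈ I, w i) / 2 ^ L) * 0)) := by
    refine tendsto_finsetSum _ fun I hI => (h I ?_).const_mul _
    exact Finset.nonempty_iff_ne_empty.mpr (Finset.ne_of_mem_erase hI)
  simp only [mul_zero, Finset.sum_const_zero] at h0
  exact h0.congr fun N => (key N).symm

/-- reduction of the generating function modulo 2 -/
theorem cf_bits (G : PowerSeries ℤ) (x : ℕ → Bool) (t n : ℕ) :
    ((cf G {s | x s = true} t n : ℤ) : ZMod 2) = bits (PowerSeries.map (Int.castRingHom (ZMod 2)) G) t n x := by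
  unfold cf bits
  have h1 : PowerSeries.map (Int.castRingHom (ZMod 2))
      (PowerSeries.mk fun k => (pS {s | x s = true} k : ℤ)) = U x := by
    ext k
    rw [coeff_map, coeff_mk]
    unfold U
    rw [coeff_mk]
    have h2 : pS {s | x s = true} k = (Nat.Partition.restricted k (fun i => x i = true)).card := by
      unfold pS Nat.Partition.restricted
      rw [Nat.card_eq_fintype_card, Fintype.card_subtype]
      rfl
    rw [h2]
    simp
  rw [← h1, ← map_pow, ← map_mul, coeff_map]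
  rfl

variable {Ω : Type*} [MeasurableSpace Ω] {P : Measure Ω} [IsProbabilityMeasure P]
  {ξ : ℕ → Ω → Bool}

/-- one linear pattern -/
theorem ae_pattern (hξ : ∀ i, Measurable (ξ i)) (hind : iIndepFun ξ P) {c κ : ℝ}
    (hc0 : 0 < c) (hc : c < 1) (hκ : 0 < κ)
    (hq1 : ∀ s : ℕ, 1 ≤ s → κ * (s : ℝ) ^ (-c) ≤ pr P ξ s)
    (hq2 : ∀ s : ℕ, 1 ≤ s → κ * (s : ℝ) ^ (-c) ≤ 1 - pr P ξ s)
    {G : PowerSeries (ZMod 2)} (hG : coeff 0 G = 1) {t : ℕ} (ht : Odd t) (B : Set ℕ) {I : Finset ℕ}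
    (hI : I.Nonempty) :
    ∀ᵐ ω ∂P, Tendsto (fun N : ℕ => (∑ n ∈ Finset.range N,
      (B.indicator (fun _ => (1 : ℝ)) n) * sg (∑ i ∈ I, bits G t (n + i) (at' ξ ω))) / N)
      atTop (𝓝 0) := by
  classical
  set m : ℕ := I.max' hI with hm
  have him : ∀ i ∈ I, i ≤ m := fun i hi => I.le_max' i hi
  set C : PowerSeries (ZMod 2) := ∑ i ∈ I, X ^ (m - i) with hC
  have hC0 : coeff 0 (C * G) = 1 := by
    have h1 : constantCoeff C = 1 := by
      rw [hC, map_sum, Finset.sum_eq_single m]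
      · simp
      · intro i hi him'
        have : m - i ≠ 0 := by
          have := him i hi
          omega
        simp [this]
      · intro h
        exact absurd (I.max'_mem hI) h
    rw [coeff_zero_eq_constantCoeff_apply, map_mul, h1, one_mul,
      ← coeff_zero_eq_constantCoeff_apply]
    exact hG
  have hb : ∀ (x : ℕ → Bool) (n : ℕ), bits (C * G) t (n + m) x = ∑ i ∈ I, bits G t (n + i) x := by
    intro x n
    unfold bits
    rw [mul_assoc, hC, Finset.sum_mul, map_sum]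
    refine Finset.sum_congr rfl fun i hi => ?_
    have := him i hi
    rw [coeff_X_pow_mul', if_pos (by omega)]
    congr 2
    omega
  set u : ℕ → ℝ := fun n => if m ≤ n then B.indicator (fun _ => (1 : ℝ)) (n - m) else 0 with hu
  have hu1 : ∀ n, |u n| ≤ 1 := by
    intro n
    simp only [hu, Set.indicator]
    split_ifs <;> simp
  filter_upwards [(bits_fam hC0 ht).ae hξ hind hc0 hc hκ hq1 hq2 hu1] with ω hω
  have h1 : ∀ N : ℕ, ∑ n ∈ Finset.range (N + m), u n * sg (bits (C * G) t n (at' ξ ω)) =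
      ∑ n ∈ Finset.range N, (B.indicator (fun _ => (1 : ℝ)) n) *
        sg (∑ i ∈ I, bits G t (n + i) (at' ξ ω)) := by
    intro N
    rw [add_comm N m, Finset.sum_range_add]
    have h2 : ∑ n ∈ Finset.range m, u n * sg (bits (C * G) t n (at' ξ ω)) = 0 := by
      refine Finset.sum_eq_zero fun n hn => ?_
      rw [Finset.mem_range] at hn
      simp only [hu]
      rw [if_neg (by omega), zero_mul]
    rw [h2, zero_add]
    refine Finset.sum_congr rfl fun n _ => ?_
    rw [add_comm m n, hb]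
    simp only [hu]
    rw [if_pos (by omega), Nat.add_sub_cancel]
  have h2 := hω.comp (tendsto_add_atTop_nat m)
  have h3 : Tendsto (fun N : ℕ => ((N + m : ℕ) : ℝ) / N) atTop (𝓝 1) := by
    have h4 := (tendsto_const_div_atTop_nhds_zero_nat (m : ℝ)).const_add 1
    rw [add_zero] at h4
    refine h4.congr' ?_
    filter_upwards [eventually_gt_atTop 0] with N hN
    have : (N : ℝ) ≠ 0 := by exact_mod_cast hN.ne'
    push_cast
    field_simp
  have h4 := h2.mul h3
  rw [zero_mul] at h4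
  refine h4.congr' ?_
  filter_upwards [eventually_gt_atTop 0] with N hN
  have hN0 : (N : ℝ) ≠ 0 := by exact_mod_cast hN.ne'
  have hNm : ((N + m : ℕ) : ℝ) ≠ 0 := by positivity
  simp only [Function.comp_apply]
  rw [h1]
  field_simp

theorem ae_equi (hξ : ∀ i, Measurable (ξ i)) (hind : iIndepFun ξ P) {c κ : ℝ}
    (hc : c < 1) (hκ : 0 < κ)
    (hq1 : ∀ s : ℕ, 1 ≤ s → κ * (s : ℝ) ^ (-c) ≤ pr P ξ s)
    (hq2 : ∀ s : ℕ, 1 ≤ s → κ * (s : ℝ) ^ (-c) ≤ 1 - pr P ξ s)
    {G : PowerSeries ℤ} (hG : Odd (constantCoeff G)) (B : Set ℕ) :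
    ∀ᵐ ω ∂P, ∀ t : ℕ, Odd t → Equi B (cf G {s | ξ s ω = true} t) := by
  set c' : ℝ := max c (1 / 2) with hc'
  have hc'0 : 0 < c' := lt_of_lt_of_le (by norm_num) (le_max_right _ _)
  have hc'1 : c' < 1 := max_lt hc (by norm_num)
  have hle : ∀ s : ℕ, 1 ≤ s → κ * (s : ℝ) ^ (-c') ≤ κ * (s : ℝ) ^ (-c) := by
    intro s hs
    refine mul_le_mul_of_nonneg_left (Real.rpow_le_rpow_of_exponent_le (by exact_mod_cast hs) ?_) hκ.le
    have : c ≤ c' := le_max_left _ _
    linarith
  set G' : PowerSeries (ZMod 2) := PowerSeries.map (Int.castRingHom (ZMod 2)) G with hG'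
  have hG'0 : coeff 0 G' = 1 := by
    rw [hG', coeff_map, coeff_zero_eq_constantCoeff_apply]
    obtain ⟨k, hk⟩ := hG
    rw [hk]
    have h2 : (2 : ZMod 2) = 0 := by decide
    simp [h2]
  have h1 : ∀ (t : ℕ) (I : Finset ℕ), ∀ᵐ ω ∂P, Odd t → I.Nonempty → Tendsto (fun N : ℕ =>
      (∑ n ∈ Finset.range N, (B.indicator (fun _ => (1 : ℝ)) n) *
        sg (∑ i ∈ I, bits G' t (n + i) (at' ξ ω))) / N) atTop (𝓝 0) := by
    intro t I
    by_cases ht : Odd t
    · by_cases hI : I.Nonempty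
      · filter_upwards [ae_pattern hξ hind hc'0 hc'1 hκ (fun s hs => (hle s hs).trans (hq1 s hs))
          (fun s hs => (hle s hs).trans (hq2 s hs)) hG'0 ht B hI] with ω hω _ _
        exact hω
      · exact Eventually.of_forall fun ω _ h => absurd h hI
    · exact Eventually.of_forall fun ω h => absurd h ht
  have h2 : ∀ᵐ ω ∂P, ∀ (t : ℕ) (I : Finset ℕ), Odd t → I.Nonempty → Tendsto (fun N : ℕ =>
      (∑ n ∈ Finset.range N, (B.indicator (fun _ => (1 : ℝ)) n) *
        sg (∑ i ∈ I, bits G' t (n + i) (at' ξ ω))) / N) atTop (𝓝 0) :=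
    ae_all_iff.mpr fun t => ae_all_iff.mpr fun I => h1 t I
  filter_upwards [h2] with ω hω t ht
  refine equi_of fun I hI => ?_
  have h3 := hω t I ht hI
  refine h3.congr fun N => ?_
  congr 1
  refine Finset.sum_congr rfl fun n _ => ?_
  congr 2
  refine Finset.sum_congr rfl fun i _ => ?_
  exact (cf_bits G (at' ξ ω) t (n + i)).symm

end Pool.Agent.N493.PF
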