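import Mathlib
import Pool.Agent.N493.PF8

/-!
# Random sets, and existence
-/

set_option autoImplicit false

open Filter Topology MeasureTheory ProbabilityTheory PowerSeries unitInterval
open scoped ENNReal

noncomputable section

namespace Pool.Agent.N493.PF

theorem random {Ω : Type*} [MeasurableSpace Ω] (P : Measure Ω) [IsProbabilityMeasure P]
    (S : Ω → Set ℕ) (hS : ∀ s, MeasurableSet {ω | s ∈ S ω})
    (hind : iIndepSet (fun s => {ω | s ∈ S ω}) P) {c κ : ℝ} (hc : c < 1) (hκ : 0 < κ)
    (h1 : ∀ s : ℕ, 1 ≤ s → κ * (s : ℝ) ^ (-c) ≤ P.real {ω | s ∈ S ω})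
    (h2 : ∀ s : ℕ, 1 ≤ s → κ * (s : ℝ) ^ (-c) ≤ P.real {ω | s ∉ S ω})
    {G : PowerSeries ℤ} (hG : Odd (constantCoeff G)) (B : Set ℕ) :
    ∀ᵐ ω ∂P, ∀ t : ℕ, Odd t → Equi B (cf G (S ω) t) := by
  classical
  let ξ : ℕ → Ω → Bool := fun s ω => decide (s ∈ S ω)
  have hi1 := hind.iIndepFun_indicator (β := ℕ) (m := inferInstance)
  have hi2 : iIndepFun ξ P := by
    have h3 := hi1.comp (fun _ (k : ℕ) => decide (k = 1)) (fun _ => Measurable.of_discrete)
    refine h3.congr fun s => Eventually.of_forall fun ω => ?_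
    show decide (Set.indicator {ω | s ∈ S ω} (fun _ => 1) ω = 1) = decide (s ∈ S ω)
    by_cases h : s ∈ S ω
    · simp [Set.indicator, h]
    · simp [Set.indicator, h]
  have hm : ∀ s, Measurable (ξ s) := by
    intro s
    refine measurable_to_bool ?_
    have : ξ s ⁻¹' {true} = {ω | s ∈ S ω} := by
      ext ω; simp [ξ]
    rw [this]
    exact hS s
  have hset : ∀ s, {ω | ξ s ω = true} = {ω | s ∈ S ω} := by
    intro s; ext ω; simp [ξ]
  have hcompl : ∀ s, P.real {ω | s ∉ S ω} = 1 - pr P ξ s := by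
    intro s
    have h3 : {ω | s ∉ S ω} = {ω | s ∈ S ω}ᶜ := rfl
    rw [h3, measureReal_compl (hS s)]
    unfold pr
    rw [hset]
    simp
  have h4 := ae_equi (P := P) hm hi2 hc hκ (fun s hs => by
    show _ ≤ P.real {ω | ξ s ω = true}
    rw [hset]
    exact h1 s hs) (fun s hs => by rw [← hcompl]; exact h2 s hs) hG B
  filter_upwards [h4] with ω hω t ht
  have h5 : {s | ξ s ω = true} = S ω := by
    ext s; simp [ξ]
  have h6 := hω t ht
  rwa [h5] at h6

/-- existence of sparse sets of parts whose removal, or addition, makes the parities equidistributed -/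
theorem exists_sparse {ε : ℝ} (hε : 0 < ε) {G : ℕ → PowerSeries ℤ}
    (hG : ∀ j, Odd (constantCoeff (G j))) (B : ℕ → Set ℕ) :
    ∃ R : Set ℕ, Summable (fun r : R => ((r : ℕ) : ℝ) ^ (-ε)) ∧
      ∀ j k t : ℕ, Odd t → Equi (B k) (cf (G j) Rᶜ t) ∧ Equi (B k) (cf (G j) R t) := by
  classical
  set c : ℝ := max (1 / 2) (1 - ε / 2) with hc
  have hc0 : 0 < c := lt_of_lt_of_le (by norm_num) (le_max_left _ _)
  have hc1 : c < 1 := max_lt (by norm_num) (by linarith)
  have hcε : 1 < c + ε := by
    have : 1 - ε / 2 ≤ c := le_max_right _ _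
    linarith
  have hq : ∀ s : ℕ, (1 / 2 : ℝ) * (s : ℝ) ^ (-c) ≤ 1 / 2 := by
    intro s
    rcases Nat.eq_zero_or_pos s with rfl | hs
    · rw [Nat.cast_zero, Real.zero_rpow (by linarith)]
      norm_num
    · have : (s : ℝ) ^ (-c) ≤ 1 :=
        Real.rpow_le_one_of_one_le_of_nonpos (by exact_mod_cast hs) (by linarith)
      linarith
  have hq0 : ∀ s : ℕ, 0 ≤ (1 / 2 : ℝ) * (s : ℝ) ^ (-c) := fun s => by positivity
  let p : ℕ → I := fun s => ⟨(1 / 2 : ℝ) * (s : ℝ) ^ (-c), hq0 s, by linarith [hq s]⟩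
  let P : Measure (ℕ → Bool) := Measure.infinitePi fun s => bernoulliMeasure false true (p s)
  have hPp : IsProbabilityMeasure P := by infer_instance
  have hbm : ∀ s (b : Bool), MeasurableSet {x : ℕ → Bool | x s = b} := fun s b =>
    measurable_pi_apply (X := fun _ : ℕ => Bool) s (measurableSet_singleton b)
  have hval : ∀ s (b : Bool), P.real {x | x s = b} = (bernoulliMeasure false true (p s)).real {b} := by
    intro s b
    have h3 : (P.map (fun x : ℕ → Bool => x s)) = bernoulliMeasure false true (p s) :=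
      Measure.infinitePi_map_eval _ s
    rw [← h3, map_measureReal_apply (measurable_pi_apply s) (measurableSet_singleton b)]
    rfl
  have hfalse : ∀ s, P.real {x | x s = false} = (1 / 2 : ℝ) * (s : ℝ) ^ (-c) := by
    intro s
    rw [hval, bernoulliMeasure_real_apply _ (measurableSet_singleton _)]
    simp [p]
  have htrue : ∀ s, P.real {x | x s = true} = 1 - (1 / 2 : ℝ) * (s : ℝ) ^ (-c) := by
    intro s
    rw [hval, bernoulliMeasure_real_apply _ (measurableSet_singleton _)]
    simp [p]
  have hindf : iIndepFun (fun s (x : ℕ → Bool) => x s) P :=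
    iIndepFun_infinitePi (X := fun _ b => b) (fun _ => measurable_id)
  -- the set with `x s = b`
  have hrand : ∀ b : Bool, ∀ᵐ x ∂P, ∀ j k t : ℕ, Odd t →
      Equi (B k) (cf (G j) {s | x s = b} t) := by
    intro b
    let S : (ℕ → Bool) → Set ℕ := fun x => {s | x s = b}
    have hSm : ∀ s, MeasurableSet {x | s ∈ S x} := fun s => hbm s b
    have hind : iIndepSet (fun s => {x | s ∈ S x}) P := by
      rw [iIndepSet_iff_meas_biInter hSm]
      intro T
      exact hindf.measure_inter_preimage_eq_mul T (sets := fun _ => {b})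
        (fun _ _ => measurableSet_singleton b)
    have hboth : ∀ (b' : Bool) (s : ℕ), (1 / 2 : ℝ) * (s : ℝ) ^ (-c) ≤ P.real {x | x s = b'} := by
      intro b' s
      cases b'
      · rw [hfalse]
      · rw [htrue]
        linarith [hq s]
    have hone : ∀ j k : ℕ, ∀ᵐ x ∂P, ∀ t : ℕ, Odd t → Equi (B k) (cf (G j) (S x) t) := by
      intro j k
      refine random P S hSm hind hc1 (κ := 1 / 2) (by norm_num) (fun s _ => hboth b s)
        (fun s _ => ?_) (hG j) (B k)
      have h3 : {x | s ∉ S x} = {x : ℕ → Bool | x s = !b} := by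
        ext x
        cases b <;> simp [S]
      rw [h3]
      exact hboth (!b) s
    have hall : ∀ᵐ x ∂P, ∀ j k : ℕ, ∀ t : ℕ, Odd t → Equi (B k) (cf (G j) (S x) t) :=
      ae_all_iff.mpr fun j => ae_all_iff.mpr fun k => hone j k
    exact hall
  -- the removed parts are sparse
  let f : ℕ → (ℕ → Bool) → ℝ≥0∞ := fun s x =>
    if x s = false then ENNReal.ofReal ((s : ℝ) ^ (-ε)) else 0
  have hfm : ∀ s, Measurable (f s) := fun s =>
    Measurable.ite (hbm s false) measurable_const measurable_const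
  have hfint : ∀ s, ∫⁻ x, f s x ∂P = ENNReal.ofReal ((1 / 2 : ℝ) * (s : ℝ) ^ (-c) * (s : ℝ) ^ (-ε)) := by
    intro s
    have h3 : f s = Set.indicator {x : ℕ → Bool | x s = false} (fun _ => ENNReal.ofReal ((s : ℝ) ^ (-ε))) := by
      funext x; simp [f, Set.indicator]
    rw [h3, lintegral_indicator_const (hbm s false),
      mul_comm, ENNReal.ofReal_mul (hq0 s), ← hfalse s, ofReal_measureReal]
  have hsum : ∫⁻ x, ∑' s, f s x ∂P ≠ ∞ := by
    rw [lintegral_tsum fun s => (hfm s).aemeasurable]
    simp only [hfint]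
    have h3 : Summable fun s : ℕ => (1 / 2 : ℝ) * (s : ℝ) ^ (-c) * (s : ℝ) ^ (-ε) := by
      have h4 : Summable fun s : ℕ => (s : ℝ) ^ (-(c + ε)) := Real.summable_nat_rpow.mpr (by linarith)
      refine Summable.of_nonneg_of_le (fun s => by positivity) (fun s => ?_) h4
      rcases Nat.eq_zero_or_pos s with rfl | hs
      · rw [Nat.cast_zero, Real.zero_rpow (by linarith)]
        simp only [mul_zero, zero_mul]
        positivity
      · have hs0 : (0 : ℝ) < s := by exact_mod_cast hs
        rw [mul_assoc, ← Real.rpow_add hs0, show -c + -ε = -(c + ε) by ring]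
        have : 0 ≤ (s : ℝ) ^ (-(c + ε)) := by positivity
        linarith
    rw [← ENNReal.ofReal_tsum_of_nonneg (fun s => by positivity) h3]
    exact ENNReal.ofReal_ne_top
  have h2 := ae_lt_top (Measurable.ennreal_tsum hfm) hsum
  obtain ⟨x, ⟨hx1, hx2⟩, hx3⟩ := (((hrand true).and (hrand false)).and h2).exists
  refine ⟨{s | x s = false}, ?_, fun j k t ht => ⟨?_, hx2 j k t ht⟩⟩
  · have h3 := ENNReal.summable_toReal hx3.ne
    have h4 : Summable (Set.indicator {s | x s = false} fun s : ℕ => (s : ℝ) ^ (-ε)) := by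
      refine h3.congr fun s => ?_
      by_cases hs : x s = false
      · rw [Set.indicator_of_mem (by exact hs)]
        simp only [f, if_pos hs]
        exact ENNReal.toReal_ofReal (by positivity)
      · rw [Set.indicator_of_notMem (by exact hs)]
        simp only [f, if_neg hs]
        rfl
    exact summable_subtype_iff_indicator.mpr h4
  · have h3 : {s | x s = false}ᶜ = {s | x s = true} := by
      ext s; simp
    rw [h3]
    exact hx1 j k t ht

end Pool.Agent.N493.PF
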