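import Mathlib
import Pool.Agent.N493.PG3

/-!
# Windows, for pairs of families
-/

set_option autoImplicit false

open Filter Topology MeasureTheory ProbabilityTheory Set

noncomputable section

namespace Pool.Agent.N493.PG

open Pool.Agent.N493.PF

variable {a b : ℕ → (ℕ → Bool) → ZMod 2}
variable {Ω : Type*} [MeasurableSpace Ω] {P : Measure Ω} [IsProbabilityMeasure P]
  {ξ : ℕ → Ω → Bool}

theorem Fam2.depWP (hf : Fam2 a b) {w : ℝ} {J : Finset ℕ} {K : ℕ} (hJ : ∀ j ∈ J, j < K) :
    Dep K (WP a w J) := by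
  refine Dep.prod _ fun j hj x y hxy => ?_
  have := hJ j hj
  show wt w (a j x) = wt w (a j y)
  rw [hf.dep j x y fun i _ hi => hxy i (by omega)]

theorem Fam2.depWPb (hf : Fam2 a b) {w : ℝ} {J : Finset ℕ} {K : ℕ} (hJ : ∀ j ∈ J, j < K) :
    Dep K (WP b w J) := by
  refine Dep.prod _ fun j hj x y hxy => ?_
  have := hJ j hj
  show wt w (b j x) = wt w (b j y)
  rw [hf.depb j x y fun i _ hi => hxy i (by omega)]

theorem Fam2.pair (hf : Fam2 a b) {w : ℝ} (hw0 : 0 ≤ w) (hw1 : w ≤ 1) {S l : ℕ} (hlS : l ≤ S) :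
    ∀ s, S ≤ s → s < S + l → ∀ x,
      WP a w (Finset.Ico S (S + 2 * l)) (Function.update x s true) +
      WP a w (Finset.Ico S (S + 2 * l)) (Function.update x s false) ≤
        1 + WP b w (Finset.range l) x := by
  classical
  intro s hs1 hs2 x
  set f1 := WP a w (Finset.Ico S (S + 2 * l)) (Function.update x s true) with hf1
  set f0 := WP a w (Finset.Ico S (S + 2 * l)) (Function.update x s false) with hf0
  have h1 : f1 ≤ 1 := WP_le_one hw0 hw1 _ _
  have h0 : f0 ≤ 1 := WP_le_one hw0 hw1 _ _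
  have h2 : f1 * f0 ≤ WP b w (Finset.range l) x := by
    rw [hf1, hf0]
    unfold WP
    rw [← Finset.prod_mul_distrib]
    have h3 : ∏ j ∈ Finset.Ico S (S + 2 * l), (wt w (a j (Function.update x s true)) *
        wt w (a j (Function.update x s false))) ≤ ∏ j ∈ Finset.Ico S (S + 2 * l),
          (if s ≤ j ∧ j < s + l then wt w (b (j - s) x) else 1) := by
      refine Finset.prod_le_prod (fun j _ => mul_nonneg (wt_nonneg hw0 _) (wt_nonneg hw0 _))
        fun j _ => ?_
      split_ifs with h4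
      · rw [hf.flip j s x (by omega) h4.1]
        exact wt_mul_le hw0 hw1 _ _
      · exact mul_le_one₀ (wt_le hw1 _) (wt_nonneg hw0 _) (wt_le hw1 _)
    refine h3.trans (le_of_eq ?_)
    rw [← Finset.prod_filter]
    symm
    refine Finset.prod_nbij' (fun i => s + i) (fun j => j - s) ?_ ?_ ?_ ?_ ?_
    · intro i hi; rw [Finset.mem_range] at hi; simp only [Finset.mem_filter, Finset.mem_Ico]; omega
    · intro j hj; simp only [Finset.mem_filter, Finset.mem_Ico] at hj; rw [Finset.mem_range]; omega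
    · intro i _; show s + i - s = i; omega
    · intro j hj; simp only [Finset.mem_filter, Finset.mem_Ico] at hj; show s + (j - s) = j; omega
    · intro i _
      have : s + i - s = i := by omega
      rw [this]
  nlinarith

/-- many windows -/
theorem Fam2.windows (hf : Fam2 a b) (hξ : ∀ i, Measurable (ξ i)) (hind : iIndepFun ξ P)
    {w : ℝ} (hw0 : 0 ≤ w) (hw1 : w ≤ 1) {l : ℕ} {ρ : ℝ} (hρ0 : 0 ≤ ρ) (hρ1 : ρ ≤ 1) :
    ∀ k : ℕ, (∀ s, l ≤ s → s < l + 2 * l * k → |1 - 2 * pr P ξ s| ≤ ρ) →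
      ∀ G : (ℕ → Bool) → ℝ, Dep l G → (∀ x, 0 ≤ G x) →
      ∫ ω, G (at' ξ ω) * WP a w (Finset.Ico l (l + 2 * l * k)) (at' ξ ω) ∂P ≤
      ∫ ω, G (at' ξ ω) * (1 - (1 - WP b w (Finset.range l) (at' ξ ω)) * (1 - ρ ^ l) / 2) ^ k ∂P := by
  intro k
  induction k with
  | zero =>
    intro _ G _ _
    simp [WP]
  | succ k ih =>
    intro hρ G hG hG0
    set S := l + 2 * l * k with hS
    have hSk : l + 2 * l * (k + 1) = S + 2 * l := by rw [hS]; ring
    rw [hSk] at hρ ⊢
    have hlS : l ≤ S := by omega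
    have hρl : ρ ^ l ≤ 1 := pow_le_one₀ hρ0 hρ1
    have hV : Dep l (WP b w (Finset.range l)) := hf.depWPb fun j hj => Finset.mem_range.mp hj
    have hR : Dep S (WP a w (Finset.Ico l S)) := hf.depWP fun j hj => (Finset.mem_Ico.mp hj).2
    have hGR : Dep S fun x => G x * WP a w (Finset.Ico l S) x := (hG.mono hlS).mul hR
    have hwin : Dep (S + 2 * l) (WP a w (Finset.Ico S (S + 2 * l))) :=
      hf.depWP fun j hj => (Finset.mem_Ico.mp hj).2
    have e1 : ∀ ω, G (at' ξ ω) * WP a w (Finset.Ico l (S + 2 * l)) (at' ξ ω) =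
        (fun x => (G x * WP a w (Finset.Ico l S) x) * WP a w (Finset.Ico S (S + 2 * l)) x) (at' ξ ω) := by
      intro ω
      show _ = (G _ * WP a w (Finset.Ico l S) _) * WP a w (Finset.Ico S (S + 2 * l)) _
      unfold WP
      rw [mul_assoc, Finset.prod_Ico_consecutive _ hlS (by omega)]
    rw [integral_congr_ae (Eventually.of_forall e1),
      int_avs hξ hind (S := S) (2 * l) ((hGR.mono (by omega)).mul hwin),
      avs_mul (fun s hs x b => hGR.upd s hs x b)]
    set B : (ℕ → Bool) → ℝ := fun x => 1 - (1 - WP b w (Finset.range l) x) * (1 - ρ ^ l) / 2 with hB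
    have hBd : Dep l B := by
      intro x y hxy
      show 1 - (1 - WP b w (Finset.range l) x) * (1 - ρ ^ l) / 2 =
        1 - (1 - WP b w (Finset.range l) y) * (1 - ρ ^ l) / 2
      rw [hV x y hxy]
    have hB0 : ∀ x, 0 ≤ B x := by
      intro x
      have h1 := WP_nonneg (a := b) hw0 (Finset.range l) x
      have h2 := WP_le_one (a := b) hw0 hw1 (Finset.range l) x
      have h3 : 0 ≤ ρ ^ l := pow_nonneg hρ0 l
      show 0 ≤ 1 - (1 - WP b w (Finset.range l) x) * (1 - ρ ^ l) / 2
      nlinarith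
    have hle : ∀ x, avs P ξ S (2 * l) (WP a w (Finset.Ico S (S + 2 * l))) x ≤ B x := by
      intro x
      have h1 := avs_le (P := P) (ξ := ξ) (S := S) (l := l) (θ := fun x => 1 + WP b w (Finset.range l) x)
        (fun s hs x β => by
          show 1 + WP b w (Finset.range l) (Function.update x s β) = _
          rw [hV.upd s (by omega)]) (2 * l) (WP a w (Finset.Ico S (S + 2 * l))) (fun _ => 1)
        (fun x => WP_le_one hw0 hw1 _ x) (fun _ _ _ _ => rfl)
        (fun s h1 h2 _ => hf.pair hw0 hw1 hlS s h1 h2) x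
      refine h1.trans ?_
      have h2 : ∏ i ∈ Finset.range (2 * l), (if i < l then |1 - 2 * pr P ξ (S + i)| else 1) ≤ ρ ^ l := by
        rw [← Finset.prod_filter]
        have h3 : (Finset.range (2 * l)).filter (fun i => i < l) = Finset.range l := by
          ext i; simp only [Finset.mem_filter, Finset.mem_range]; omega
        rw [h3]
        calc ∏ i ∈ Finset.range l, |1 - 2 * pr P ξ (S + i)| ≤ ∏ _i ∈ Finset.range l, ρ := by
              refine Finset.prod_le_prod (fun _ _ => abs_nonneg _) fun i hi => ?_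
              rw [Finset.mem_range] at hi
              exact hρ (S + i) (by omega) (by omega)
          _ = ρ ^ l := by rw [Finset.prod_const, Finset.card_range]
      have h4 := WP_le_one (a := b) hw0 hw1 (Finset.range l) x
      have h5 := mul_le_mul_of_nonneg_left h2
        (show 0 ≤ 1 - (1 + WP b w (Finset.range l) x) / 2 by linarith)
      show _ ≤ 1 - (1 - WP b w (Finset.range l) x) * (1 - ρ ^ l) / 2
      linarith
    have hGRB : Dep S fun x => (G x * B x) * WP a w (Finset.Ico l S) x :=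
      ((hG.mul hBd).mono hlS).mul hR
    have havs : Dep S (avs P ξ S (2 * l) (WP a w (Finset.Ico S (S + 2 * l)))) := Dep.avs _ hwin
    calc ∫ ω, (G (at' ξ ω) * WP a w (Finset.Ico l S) (at' ξ ω)) *
          avs P ξ S (2 * l) (WP a w (Finset.Ico S (S + 2 * l))) (at' ξ ω) ∂P
        ≤ ∫ ω, (G (at' ξ ω) * B (at' ξ ω)) * WP a w (Finset.Ico l S) (at' ξ ω) ∂P := by
          refine integral_mono ((hGR.mul havs).integrable hξ) (hGRB.integrable hξ) fun ω => ?_
          show (G (at' ξ ω) * WP a w (Finset.Ico l S) (at' ξ ω)) * _ ≤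
            (G (at' ξ ω) * B (at' ξ ω)) * WP a w (Finset.Ico l S) (at' ξ ω)
          have h1 := mul_le_mul_of_nonneg_left (hle (at' ξ ω))
            (mul_nonneg (hG0 (at' ξ ω)) (WP_nonneg (a := a) hw0 (Finset.Ico l S) (at' ξ ω)))
          linarith
      _ ≤ ∫ ω, (G (at' ξ ω) * B (at' ξ ω)) * (B (at' ξ ω)) ^ k ∂P :=
          ih (fun s h1 h2 => hρ s h1 (by omega)) (fun x => G x * B x) (hG.mul hBd)
            fun x => mul_nonneg (hG0 x) (hB0 x)
      _ = _ := by
          refine integral_congr_ae (Eventually.of_forall fun ω => ?_)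
          show (G (at' ξ ω) * B (at' ξ ω)) * (B (at' ξ ω)) ^ k = G (at' ξ ω) * (B (at' ξ ω)) ^ (k + 1)
          ring

theorem Fam2.lam_rec (hf : Fam2 a b) (hξ : ∀ i, Measurable (ξ i)) (hind : iIndepFun ξ P)
    {l k h : ℕ} {ρ t : ℝ} (hρ0 : 0 ≤ ρ) (hρ1 : ρ ≤ 1) (ht : 0 ≤ t) (hl : 1 ≤ l)
    (hρ : ∀ s, 1 ≤ s → s < h → |1 - 2 * pr P ξ s| ≤ ρ) (hρl : ρ ^ l ≤ 1 / 2)
    (hk : l + 2 * l * k ≤ h) :
    Lam P ξ a h t ≤ Real.exp (-((k : ℝ) / 8)) + Lam P ξ b l ((k : ℝ) / 8 * t) := by
  set w : ℝ := Real.exp (-t) with hw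
  have hw0 : 0 ≤ w := (Real.exp_pos _).le
  have hw1 : w ≤ 1 := by rw [hw]; exact Real.exp_le_one_iff.mpr (by linarith)
  have hd : ∀ (J : Finset ℕ) (w' : ℝ), (∀ j ∈ J, j < h) → Dep h (WP a w' J) := fun J w' hJ =>
    hf.depWP hJ
  have h1 := hf.windows (l := l) hξ hind hw0 hw1 hρ0 hρ1 k (fun s h1 h2 => hρ s (by omega) (by omega))
    (fun _ => 1) (fun _ _ _ => rfl) (fun _ => zero_le_one)
  have hm : Lam P ξ a h t ≤ ∫ ω, (fun _ => (1 : ℝ)) (at' ξ ω) *
      WP a w (Finset.Ico l (l + 2 * l * k)) (at' ξ ω) ∂P := by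
    unfold Lam
    refine integral_mono ((hd _ _ fun j hj => Finset.mem_range.mp hj).integrable hξ) ?_ fun ω => ?_
    · refine ((hd _ _ fun j hj => ?_).integrable hξ).const_mul _
      have := (Finset.mem_Ico.mp hj).2
      omega
    · show WP a w (Finset.range h) (at' ξ ω) ≤ 1 * WP a w (Finset.Ico l (l + 2 * l * k)) (at' ξ ω)
      rw [one_mul]
      unfold WP
      have hsub : Finset.Ico l (l + 2 * l * k) ⊆ Finset.range h := by
        intro j hj
        have := (Finset.mem_Ico.mp hj).2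
        exact Finset.mem_range.mpr (by omega)
      rw [← Finset.prod_sdiff hsub]
      calc (∏ x ∈ Finset.range h \ Finset.Ico l (l + 2 * l * k), wt w (a x (at' ξ ω))) *
            ∏ x ∈ Finset.Ico l (l + 2 * l * k), wt w (a x (at' ξ ω)) ≤
            1 * ∏ x ∈ Finset.Ico l (l + 2 * l * k), wt w (a x (at' ξ ω)) :=
            mul_le_mul_of_nonneg_right (Finset.prod_le_one (fun _ _ => wt_nonneg hw0 _)
              fun _ _ => wt_le hw1 _) (Finset.prod_nonneg fun _ _ => wt_nonneg hw0 _)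
        _ = _ := one_mul _
  refine hm.trans (h1.trans ?_)
  have hVd : Dep l (WP b w (Finset.range l)) := hf.depWPb fun j hj => Finset.mem_range.mp hj
  have hVd2 : Dep l (WP b (Real.exp (-((k : ℝ) / 8 * t))) (Finset.range l)) :=
    hf.depWPb fun j hj => Finset.mem_range.mp hj
  have hfin : ∀ ω, (fun _ => (1 : ℝ)) (at' ξ ω) *
      (1 - (1 - WP b w (Finset.range l) (at' ξ ω)) * (1 - ρ ^ l) / 2) ^ k ≤
      Real.exp (-((k : ℝ) / 8)) + WP b (Real.exp (-((k : ℝ) / 8 * t))) (Finset.range l) (at' ξ ω) := by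
    intro ω
    show 1 * _ ≤ _
    rw [one_mul]
    set x := at' ξ ω with hx
    have e1 : WP b w (Finset.range l) x = Real.exp (-(t * cntR b l x)) := WP_exp l t x
    have e2 := WP_exp (a := b) l ((k : ℝ) / 8 * t) x
    rw [e1, e2]
    have hc := cntR_nonneg (a := b) l x
    set y : ℝ := t * cntR b l x with hy
    have hy0 : 0 ≤ y := mul_nonneg ht hc
    set V : ℝ := Real.exp (-y) with hV
    have hV0 : 0 < V := Real.exp_pos _
    have hV1 : V ≤ 1 := Real.exp_le_one_iff.mpr (by linarith)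
    have hb0 : 0 ≤ 1 - (1 - V) * (1 - ρ ^ l) / 2 := by
      have : 0 ≤ ρ ^ l := pow_nonneg hρ0 l
      nlinarith
    have hb1 : 1 - (1 - V) * (1 - ρ ^ l) / 2 ≤ 1 - (1 - V) / 4 := by nlinarith
    have hVmin : min 1 y / 2 ≤ 1 - V := by
      rcases le_total y 1 with hy1 | hy1
      · rw [min_eq_right hy1]
        have h3 : Real.exp (-y) ≤ 1 - y / 2 := by
          have h4 := Real.add_one_le_exp y
          have h5 : (Real.exp y)⁻¹ ≤ (y + 1)⁻¹ := inv_anti₀ (by linarith) h4
          rw [Real.exp_neg]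
          refine h5.trans ?_
          rw [inv_le_iff_one_le_mul₀ (by linarith)]
          nlinarith
        linarith
      · rw [min_eq_left hy1]
        have h3 : Real.exp (-y) ≤ Real.exp (-1) := Real.exp_le_exp.mpr (by linarith)
        have h4 : Real.exp (-1) < 0.3678794412 := Real.exp_neg_one_lt_d9
        linarith
    have h6 : (1 - (1 - V) * (1 - ρ ^ l) / 2) ^ k ≤ Real.exp (-((k : ℝ) / 8 * min 1 y)) := by
      calc (1 - (1 - V) * (1 - ρ ^ l) / 2) ^ k ≤ (Real.exp (-(min 1 y / 8))) ^ k := by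
            refine pow_le_pow_left₀ hb0 ?_ k
            have h7 := Real.add_one_le_exp (-(min 1 y / 8))
            linarith
        _ = Real.exp (-((k : ℝ) / 8 * min 1 y)) := by
            rw [← Real.exp_nat_mul]
            congr 1
            ring
    refine h6.trans ?_
    rcases le_total y 1 with hy1 | hy1
    · rw [min_eq_right hy1]
      have e3 : (k : ℝ) / 8 * t * cntR b l x = (k : ℝ) / 8 * y := by rw [hy]; ring
      rw [e3]
      have := Real.exp_pos (-((k : ℝ) / 8))
      linarith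
    · rw [min_eq_left hy1, mul_one]
      have := Real.exp_pos (-((k : ℝ) / 8 * t * cntR b l x))
      linarith
  have hi1 : Integrable (fun ω => (fun _ => (1 : ℝ)) (at' ξ ω) *
      (1 - (1 - WP b w (Finset.range l) (at' ξ ω)) * (1 - ρ ^ l) / 2) ^ k) P := by
    have : Dep l fun x => (fun _ => (1 : ℝ)) x *
      (1 - (1 - WP b w (Finset.range l) x) * (1 - ρ ^ l) / 2) ^ k := by
      intro x y hxy
      show 1 * (1 - (1 - WP b w (Finset.range l) x) * (1 - ρ ^ l) / 2) ^ k =
        1 * (1 - (1 - WP b w (Finset.range l) y) * (1 - ρ ^ l) / 2) ^ k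
      rw [hVd x y hxy]
    exact this.integrable hξ
  refine (integral_mono hi1 ((integrable_const _).add (hVd2.integrable hξ)) hfin).trans (le_of_eq ?_)
  rw [integral_add' (integrable_const _) (hVd2.integrable hξ)]
  simp [Lam]

end Pool.Agent.N493.PG
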