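import Mathlib
import Pool.Agent.N493.PG6

/-!
# Power laws, the second moment, and almost sure convergence, for perturbations with a factor
-/

set_option autoImplicit false

open Filter Topology MeasureTheory ProbabilityTheory Set PowerSeries

noncomputable section

namespace Pool.Agent.N493.PG

open Pool.Agent.N493.PF

/-- a power series which depends on coins; a change of a coin `s > n / 2` adds the coefficient of
`C A` at `n - s` to the coefficient of `A` at `n` -/
structure FamC (C : PowerSeries (ZMod 2)) (A : (ℕ → Bool) → PowerSeries (ZMod 2)) : Prop where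
  dep : ∀ n x y, (∀ i, 1 ≤ i → i ≤ n → x i = y i) → coeff n (A x) = coeff n (A y)
  zero : ∀ x, coeff 0 (A x) = 1
  flip : ∀ n s x, n < 2 * s → s ≤ n →
    coeff n (A (Function.update x s true)) = coeff n (A (Function.update x s false)) +
      coeff (n - s) (C * A x)

theorem FamC.depMul {C : PowerSeries (ZMod 2)} {A : (ℕ → Bool) → PowerSeries (ZMod 2)}
    (hf : FamC C A) (D : PowerSeries (ZMod 2)) (n : ℕ) (x y : ℕ → Bool)
    (h : ∀ i, 1 ≤ i → i ≤ n → x i = y i) : coeff n (D * A x) = coeff n (D * A y) :=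
  coeff_congr (fun _ _ => rfl) (fun k hk => hf.dep k x y fun i h1 h2 => h i h1 (by omega)) n le_rfl

theorem coeff_zero_mul {A B : PowerSeries (ZMod 2)} (hA : coeff 0 A = 1) (hB : coeff 0 B = 1) :
    coeff 0 (A * B) = 1 := by
  rw [coeff_zero_eq_constantCoeff_apply] at hA hB ⊢
  rw [map_mul, hA, hB, one_mul]

theorem FamC.mul {C D : PowerSeries (ZMod 2)} {A : (ℕ → Bool) → PowerSeries (ZMod 2)}
    (hf : FamC C A) (hD : coeff 0 D = 1) : FamC C fun x => D * A x where
  dep n x y h := hf.depMul D n x y h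
  zero x := coeff_zero_mul hD (hf.zero x)
  flip n s x hn hs := by
    have key : ∀ k ≤ n, coeff k (A (Function.update x s true)) =
        coeff k (A (Function.update x s false) + X ^ s * (C * A x)) := by
      intro k hk
      rw [map_add, coeff_X_pow_mul']
      by_cases hks : s ≤ k
      · rw [if_pos hks]
        exact hf.flip k s x (by omega) hks
      · rw [if_neg hks, add_zero]
        refine hf.dep k _ _ fun i _ hi => ?_
        rw [Function.update_of_ne (by omega), Function.update_of_ne (by omega)]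
    have h1 := coeff_congr (A := D) (B := D) (fun _ _ => rfl) key n le_rfl
    rw [h1, mul_add, map_add]
    congr 1
    rw [show D * (X ^ s * (C * A x)) = X ^ s * (C * (D * A x)) by ring, coeff_X_pow_mul', if_pos hs]

/-- the bits of a family -/
def bt (A : (ℕ → Bool) → PowerSeries (ZMod 2)) (n : ℕ) (x : ℕ → Bool) : ZMod 2 := coeff n (A x)

theorem FamC.pair {C : PowerSeries (ZMod 2)} {A : (ℕ → Bool) → PowerSeries (ZMod 2)}
    (hf : FamC C A) : Fam2 (bt A) (bt fun x => C * A x) where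
  dep := hf.dep
  depb := fun n x y h => hf.depMul C n x y h
  flip := hf.flip

variable {a b : ℕ → (ℕ → Bool) → ZMod 2}
variable {Ω : Type*} [MeasurableSpace Ω] {P : Measure Ω} [IsProbabilityMeasure P]
  {ξ : ℕ → Ω → Bool}

theorem Fam2.lam_le_one (hf : Fam2 a b) (hξ : ∀ i, Measurable (ξ i)) (h : ℕ) {t : ℝ} (ht : 0 ≤ t) :
    Lam P ξ a h t ≤ 1 := by
  unfold Lam
  calc _ ≤ ∫ _ω, (1 : ℝ) ∂P := by
        refine integral_mono ((hf.depWP (K := h) fun j hj => Finset.mem_range.mp hj).integrable hξ)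
          (integrable_const _) fun ω => ?_
        exact WP_le_one (Real.exp_pos _).le (Real.exp_le_one_iff.mpr (by linarith)) _ _
    _ = 1 := by simp

theorem Fam2.lam_zero (hf : Fam2 a b) (hξ : ∀ i, Measurable (ξ i)) (h0 : ∀ x, a 0 x = 1) {h : ℕ} (hh : 1 ≤ h) {t : ℝ}
    (ht : 0 < t) : Lam P ξ a h t ≤ t⁻¹ := by
  have h1 : Real.exp (-t) ≤ t⁻¹ := by
    rw [Real.exp_neg]
    exact inv_anti₀ ht (by linarith [Real.add_one_le_exp t])
  refine le_trans ?_ h1
  unfold Lam
  calc _ ≤ ∫ _ω, Real.exp (-t) ∂P := by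
        refine integral_mono ((hf.depWP (K := h) fun j hj => Finset.mem_range.mp hj).integrable hξ)
          (integrable_const _) fun ω => ?_
        have h2 : ({0} : Finset ℕ) ⊆ Finset.range h := by
          intro j hj
          rw [Finset.mem_singleton] at hj
          exact Finset.mem_range.mpr (by omega)
        have h3 := WP_mono (a := a) (Real.exp_pos (-t)).le le_rfl
          (Real.exp_le_one_iff.mpr (by linarith)) h2 (at' ξ ω)
        refine h3.trans (le_of_eq ?_)
        unfold WP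
        rw [Finset.prod_singleton, h0]
        simp [wt]
    _ = _ := by simp

theorem lam_pow (C0 : PowerSeries (ZMod 2)) (hC0 : coeff 0 C0 = 1) (hξ : ∀ i, Measurable (ξ i)) (hind : iIndepFun ξ P) {c κ : ℝ}
    (hc0 : 0 < c) (hc1 : c < 1) (hκ : 0 < κ)
    (hq1 : ∀ s : ℕ, 1 ≤ s → κ * (s : ℝ) ^ (-c) ≤ pr P ξ s)
    (hq2 : ∀ s : ℕ, 1 ≤ s → κ * (s : ℝ) ^ (-c) ≤ 1 - pr P ξ s) (r : ℕ) :
    ∃ C : ℝ, 0 < C ∧ ∀ A : (ℕ → Bool) → PowerSeries (ZMod 2), FamC C0 A → ∀ h : ℕ, 1 ≤ h →
      ∀ t : ℝ, 0 < t → Lam P ξ (bt A) h t ≤ C * (t⁻¹ * (h : ℝ) ^ (-(1 - c ^ r)) + (h : ℝ) ^ (-((1 - c) * c ^ r))) := by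
  have hκ1 : κ ≤ 1 / 2 := by
    have h1 := hq1 1 le_rfl
    have h2 := hq2 1 le_rfl
    simp only [Nat.cast_one, Real.one_rpow, mul_one] at h1 h2
    linarith
  induction r with
  | zero =>
    refine ⟨1, one_pos, fun A hA h hh t ht => ?_⟩
    have h1 := hA.pair.lam_zero (P := P) hξ hA.zero hh ht
    simp only [pow_zero, sub_self, neg_zero, Real.rpow_zero, mul_one, one_mul]
    have : 0 ≤ (h : ℝ) ^ (-(1 - c)) := by positivity
    linarith
  | succ r ih =>
    obtain ⟨C, hC, ih⟩ := ih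
    set K : ℝ := 1 / κ + 1 with hK
    have hK0 : 0 < K := by positivity
    refine ⟨6 * K + 32 * K + C * (32 * K) + C, by positivity, fun A hA h hh t ht => ?_⟩
    have hf := hA.pair
    have hh0 : (0 : ℝ) < h := by exact_mod_cast hh
    have hh1 : (1 : ℝ) ≤ h := by exact_mod_cast hh
    have hcr : 0 < c ^ r := by positivity
    have hcr1 : c ^ r ≤ 1 := pow_le_one₀ hc0.le hc1.le
    have hcr2 : c ^ (r + 1) ≤ 1 := pow_le_one₀ hc0.le hc1.le
    have hγ : (h : ℝ) ^ (-(1 - c)) ≤ (h : ℝ) ^ (-((1 - c) * c ^ (r + 1))) := by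
      refine Real.rpow_le_rpow_of_exponent_le hh1 ?_
      nlinarith
    set A1 : ℝ := t⁻¹ * (h : ℝ) ^ (-(1 - c ^ (r + 1))) with hA1
    set A2 : ℝ := (h : ℝ) ^ (-((1 - c) * c ^ (r + 1))) with hA2
    have hA10 : 0 ≤ A1 := by positivity
    have hA20 : 0 ≤ A2 := by positivity
    have hhc : (1 : ℝ) ≤ (h : ℝ) ^ c := Real.one_le_rpow hh1 hc0.le
    set l : ℕ := ⌈(h : ℝ) ^ c / κ⌉₊ with hl
    have hl1 : (h : ℝ) ^ c / κ ≤ l := Nat.le_ceil _
    have hl2 : (l : ℝ) < (h : ℝ) ^ c / κ + 1 := Nat.ceil_lt_add_one (by positivity)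
    have hl3 : (l : ℝ) ≤ K * (h : ℝ) ^ c := by
      have : K * (h : ℝ) ^ c = (h : ℝ) ^ c / κ + (h : ℝ) ^ c := by rw [hK]; ring
      linarith
    have hl4 : (h : ℝ) ^ c ≤ l := by
      refine le_trans ?_ hl1
      rw [le_div_iff₀ hκ]
      nlinarith
    have hl0 : (0 : ℝ) < l := by linarith
    have hlpos : 1 ≤ l := by exact_mod_cast hl0
    have hsplit : (h : ℝ) ^ (1 - c) * (h : ℝ) ^ c = h := by
      rw [← Real.rpow_add hh0]
      simp
    have hinv : (h : ℝ) ^ (-(1 - c)) * (h : ℝ) ^ (1 - c) = 1 := by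
      rw [← Real.rpow_add hh0]
      simp
    rcases Nat.lt_or_ge h (6 * l) with hcase | hcase
    · have h1 : (h : ℝ) < 6 * l := by exact_mod_cast hcase
      have h2 : (h : ℝ) ^ (1 - c) ≤ 6 * K := by
        have h3 : (h : ℝ) ^ (1 - c) * (h : ℝ) ^ c ≤ 6 * K * (h : ℝ) ^ c := by
          rw [hsplit]
          linarith
        exact le_of_mul_le_mul_right h3 (by linarith)
      have h3 : (1 : ℝ) ≤ 6 * K * (h : ℝ) ^ (-(1 - c)) := by
        calc (1 : ℝ) = (h : ℝ) ^ (-(1 - c)) * (h : ℝ) ^ (1 - c) := hinv.symm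
          _ ≤ (h : ℝ) ^ (-(1 - c)) * (6 * K) := mul_le_mul_of_nonneg_left h2 (by positivity)
          _ = _ := by ring
      have h4 : (1 : ℝ) ≤ 6 * K * A2 := h3.trans (mul_le_mul_of_nonneg_left hγ (by positivity))
      refine (hf.lam_le_one hξ h ht.le).trans ?_
      have h5 : 0 ≤ (32 * K + C * (32 * K) + C) * A2 := by positivity
      have h6 : 0 ≤ (6 * K + 32 * K + C * (32 * K) + C) * A1 := by positivity
      nlinarith
    · set k : ℕ := (h - l) / (2 * l) with hk
      have hk1 : l + 2 * l * k ≤ h := by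
        have := Nat.mul_div_le (h - l) (2 * l)
        rw [← hk] at this
        omega
      have hk2 : h < 4 * l * k := by
        have h1 : h - l < 2 * l * (k + 1) := Nat.lt_mul_div_succ (h - l) (by omega)
        have h2 : 2 * l * (k + 1) = 2 * l * k + 2 * l := by ring
        have h3 : 4 * l * k = 2 * (2 * l * k) := by ring
        omega
      have hk3 : (h : ℝ) < 4 * l * k := by exact_mod_cast hk2
      have hk4 : (h : ℝ) ^ (1 - c) ≤ 4 * K * k := by
        have h1 : (h : ℝ) ^ (1 - c) * (h : ℝ) ^ c ≤ (4 * K * k) * (h : ℝ) ^ c := by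
          rw [hsplit]
          have h2 : (l : ℝ) * k ≤ K * (h : ℝ) ^ c * k :=
            mul_le_mul_of_nonneg_right hl3 (Nat.cast_nonneg _)
          nlinarith
        exact le_of_mul_le_mul_right h1 (by linarith)
      set B : ℝ := (k : ℝ) / 8 with hB
      have hB1 : (h : ℝ) ^ (1 - c) ≤ 32 * K * B := by
        rw [hB]
        linarith
      have hpc : 0 < (h : ℝ) ^ (1 - c) := by positivity
      have hB0 : 0 < B := by
        by_contra hcon
        push Not at hcon
        nlinarith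
      have hBinv : B⁻¹ ≤ 32 * K * (h : ℝ) ^ (-(1 - c)) := by
        rw [inv_le_iff_one_le_mul₀ hB0]
        calc (1 : ℝ) = (h : ℝ) ^ (-(1 - c)) * (h : ℝ) ^ (1 - c) := hinv.symm
          _ ≤ (h : ℝ) ^ (-(1 - c)) * (32 * K * B) := mul_le_mul_of_nonneg_left hB1 (by positivity)
          _ = _ := by ring
      have hhmc : (h : ℝ) ^ (-c) * (h : ℝ) ^ c = 1 := by
        rw [← Real.rpow_add hh0]
        simp
      have hqle : κ * (h : ℝ) ^ (-c) ≤ 1 / 2 := by
        have h1 : (h : ℝ) ^ (-c) ≤ 1 := Real.rpow_le_one_of_one_le_of_nonpos hh1 (by linarith)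
        nlinarith
      have hq0 : 0 < κ * (h : ℝ) ^ (-c) := by positivity
      set ρ : ℝ := 1 - 2 * (κ * (h : ℝ) ^ (-c)) with hρ
      have hρl : ρ ^ l ≤ 1 / 2 := by
        have h1 : ρ ≤ Real.exp (-(2 * (κ * (h : ℝ) ^ (-c)))) := by
          have := Real.add_one_le_exp (-(2 * (κ * (h : ℝ) ^ (-c))))
          linarith
        calc ρ ^ l ≤ (Real.exp (-(2 * (κ * (h : ℝ) ^ (-c))))) ^ l :=
              pow_le_pow_left₀ (by linarith) h1 l
          _ = Real.exp (-(2 * (κ * (h : ℝ) ^ (-c) * l))) := by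
              rw [← Real.exp_nat_mul]
              congr 1
              ring
          _ ≤ Real.exp (-1) := by
              refine Real.exp_le_exp.mpr ?_
              have h2 : 1 ≤ κ * (h : ℝ) ^ (-c) * l := by
                calc (1 : ℝ) = κ * (h : ℝ) ^ (-c) * ((h : ℝ) ^ c / κ) := by
                      rw [mul_div_assoc', mul_assoc, hhmc]
                      field_simp
                  _ ≤ _ := mul_le_mul_of_nonneg_left hl1 hq0.le
              linarith
          _ ≤ 1 / 2 := by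
              have := Real.exp_neg_one_lt_d9
              linarith
      have hrec := hf.lam_rec (P := P) hξ hind (l := l) (k := k) (h := h) (ρ := ρ) (t := t)
        (by linarith) (by linarith) ht.le hlpos (fun s hs1 hs2 => by
          have hs0 : (0 : ℝ) < s := by exact_mod_cast hs1
          have h1 : (h : ℝ) ^ (-c) ≤ (s : ℝ) ^ (-c) :=
            Real.rpow_le_rpow_of_nonpos hs0 (by exact_mod_cast hs2.le) (by linarith)
          have h2 := mul_le_mul_of_nonneg_left h1 hκ.le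
          have h3 := hq1 s hs1
          have h4 := hq2 s hs1
          rw [abs_le]
          constructor <;> linarith) hρl hk1
      refine hrec.trans ?_
      have hBt : 0 < B * t := by positivity
      have h1 := ih (fun x => C0 * A x) (hA.mul hC0) l hlpos (B * t) hBt
      have h2 : Real.exp (-B) ≤ 32 * K * A2 := by
        calc Real.exp (-B) ≤ B⁻¹ := by
              rw [Real.exp_neg]
              exact inv_anti₀ hB0 (by linarith [Real.add_one_le_exp B])
          _ ≤ 32 * K * (h : ℝ) ^ (-(1 - c)) := hBinv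
          _ ≤ _ := mul_le_mul_of_nonneg_left hγ (by positivity)
      have h3 : (l : ℝ) ^ (-(1 - c ^ r)) ≤ (h : ℝ) ^ (-(c * (1 - c ^ r))) := by
        calc (l : ℝ) ^ (-(1 - c ^ r)) ≤ ((h : ℝ) ^ c) ^ (-(1 - c ^ r)) :=
              Real.rpow_le_rpow_of_nonpos (by linarith) hl4 (by linarith)
          _ = _ := by rw [← Real.rpow_mul hh0.le]; congr 1; ring
      have h4 : (l : ℝ) ^ (-((1 - c) * c ^ r)) ≤ A2 := by
        calc (l : ℝ) ^ (-((1 - c) * c ^ r)) ≤ ((h : ℝ) ^ c) ^ (-((1 - c) * c ^ r)) :=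
              Real.rpow_le_rpow_of_nonpos (by linarith) hl4 (by
                have : 0 < (1 - c) * c ^ r := by
                  have : 0 < 1 - c := by linarith
                  positivity
                linarith)
          _ = A2 := by rw [← Real.rpow_mul hh0.le, hA2]; congr 1; ring
      have h5 : (B * t)⁻¹ * (l : ℝ) ^ (-(1 - c ^ r)) ≤ 32 * K * A1 := by
        have h6 : (B * t)⁻¹ = B⁻¹ * t⁻¹ := by rw [mul_inv]
        rw [h6]
        calc B⁻¹ * t⁻¹ * (l : ℝ) ^ (-(1 - c ^ r)) ≤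
              (32 * K * (h : ℝ) ^ (-(1 - c))) * t⁻¹ * (h : ℝ) ^ (-(c * (1 - c ^ r))) := by
              refine mul_le_mul (mul_le_mul_of_nonneg_right hBinv (by positivity)) h3
                (by positivity) (by positivity)
          _ = 32 * K * (t⁻¹ * ((h : ℝ) ^ (-(1 - c)) * (h : ℝ) ^ (-(c * (1 - c ^ r))))) := by ring
          _ = 32 * K * A1 := by
              rw [← Real.rpow_add hh0, hA1]
              congr 3
              ring
      calc Real.exp (-B) + Lam P ξ (bt fun x => C0 * A x) l (B * t) ≤ 32 * K * A2 + C * (32 * K * A1 + A2) := by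
            refine add_le_add h2 (h1.trans (mul_le_mul_of_nonneg_left (add_le_add h5 h4) hC.le))
        _ ≤ _ := by
            have h7 : 0 ≤ (6 * K + 32 * K + C) * A1 := by positivity
            have h8 : 0 ≤ (6 * K + C * (32 * K)) * A2 := by positivity
            nlinarith

theorem Fam2.second (hf : Fam2 a b) (hξ : ∀ i, Measurable (ξ i)) (hind : iIndepFun ξ P) {q : ℕ → ℝ}
    (hq0 : ∀ s, 1 ≤ s → 0 ≤ q s) (hanti : ∀ s s', 1 ≤ s → s ≤ s' → q s' ≤ q s)
    (hq1 : ∀ s, 1 ≤ s → q s ≤ pr P ξ s) (hq2 : ∀ s, 1 ≤ s → q s ≤ 1 - pr P ξ s)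
    {u : ℕ → ℝ} (hu : ∀ n, |u n| ≤ 1) {h N : ℕ} (hh : 1 ≤ h) :
    ∫ ω, (∑ n ∈ Finset.range N, u n * sg (a n (at' ξ ω))) ^ 2 ∂P ≤
      4 * h * N + N ^ 2 * Lam P ξ b h (2 * q N) := by
  classical
  set ε : ℝ := Lam P ξ b h (2 * q N) with hε
  have hε0 : 0 ≤ ε := integral_nonneg fun ω => WP_nonneg (Real.exp_pos _).le _ _
  let cr : ℕ → ℕ → ℝ := fun n m => ∫ ω, sg (a n (at' ξ ω)) * sg (a m (at' ξ ω)) ∂P
  have hint : ∀ n m, Integrable (fun ω => sg (a n (at' ξ ω)) * sg (a m (at' ξ ω))) P := by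
    intro n m
    exact Dep.integrable (N := max n m + 1)
      ((hf.depSg n (by omega)).mul (hf.depSg m (by omega))) hξ
  have hsymm : ∀ n m, cr n m = cr m n := by
    intro n m
    refine integral_congr_ae (Eventually.of_forall fun ω => ?_)
    show _ * _ = _ * _
    ring
  have hcr1 : ∀ n m, |cr n m| ≤ 1 := by
    intro n m
    have h1 : ‖∫ ω, sg (a n (at' ξ ω)) * sg (a m (at' ξ ω)) ∂P‖ ≤ ∫ _ω, (1 : ℝ) ∂P :=
      norm_integral_le_of_norm_le (integrable_const _) (Eventually.of_forall fun ω => by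
        rw [norm_mul, Real.norm_eq_abs, Real.norm_eq_abs, abs_sg, abs_sg, one_mul])
    simpa using h1
  let bad : ℕ → ℕ → Prop := fun n m => (n < 2 * h ∧ m < 2 * h) ∨ (n < m + h ∧ m < n + h)
  have hgood1 : ∀ n m, n ∈ Finset.range N → m < n → ¬ bad n m → |cr n m| ≤ ε := by
    intro n m hn hmn hb
    rw [Finset.mem_range] at hn
    have h1 : m + h ≤ n ∧ 2 * h ≤ n := by
      simp only [bad, not_or, not_and_or, not_lt] at hb
      omega
    have h2 := hf.corrW (n := n) (m := m) (M := max m (n / 2)) hξ hind hq0 hanti hq1 hq2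
      (le_max_left _ _) (by omega) (by omega)
    refine h2.trans ?_
    have hqn := hanti n N (by omega) hn.le
    have h3 := hq1 n (by omega)
    have h4 := hq2 n (by omega)
    have h5 := hq0 N (by omega)
    refine integral_mono ?_ ?_ fun ω => ?_
    · have hD : Dep (n - max m (n / 2)) (WP b (1 - 2 * q n) (Finset.range (n - max m (n / 2)))) :=
        hf.depWPb fun j hj => Finset.mem_range.mp hj
      exact hD.integrable hξ
    · exact (hf.depWPb (K := h) fun j hj => Finset.mem_range.mp hj).integrable hξ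
    · have h6 : 1 - 2 * q n ≤ Real.exp (-(2 * q N)) := by
        have := Real.add_one_le_exp (-(2 * q N))
        linarith
      exact WP_mono (a := b) (by linarith) h6 (Real.exp_le_one_iff.mpr (by linarith))
        (Finset.range_mono (by omega)) (at' ξ ω)
  have hgood : ∀ n m, n ∈ Finset.range N → m ∈ Finset.range N → |cr n m| ≤
      (if bad n m then 1 else 0) + ε := by
    intro n m hn hm
    by_cases hb : bad n m
    · rw [if_pos hb]
      linarith [hcr1 n m]
    · rw [if_neg hb, zero_add]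
      rcases lt_trichotomy m n with h1 | h1 | h1
      · exact hgood1 n m hn h1 hb
      · exfalso
        exact hb (Or.inr (by omega))
      · rw [hsymm]
        refine hgood1 m n hm h1 fun hb' => hb ?_
        rcases hb' with h2 | h2
        · exact Or.inl ⟨h2.2, h2.1⟩
        · exact Or.inr ⟨h2.2, h2.1⟩
  have e : ∀ ω, (∑ n ∈ Finset.range N, u n * sg (a n (at' ξ ω))) ^ 2 =
      ∑ n ∈ Finset.range N, ∑ m ∈ Finset.range N,
        (u n * u m) * (sg (a n (at' ξ ω)) * sg (a m (at' ξ ω))) := by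
    intro ω
    rw [sq, Finset.sum_mul_sum]
    refine Finset.sum_congr rfl fun n _ => Finset.sum_congr rfl fun m _ => ?_
    ring
  rw [integral_congr_ae (Eventually.of_forall e), integral_finsetSum _ fun n _ =>
    integrable_finsetSum _ fun m _ => (hint n m).const_mul _]
  have h2 : ∀ n ∈ Finset.range N, ∫ ω, ∑ m ∈ Finset.range N,
        (u n * u m) * (sg (a n (at' ξ ω)) * sg (a m (at' ξ ω))) ∂P ≤ 4 * h + N * ε := by
    intro n hn
    rw [integral_finsetSum _ fun m _ => (hint n m).const_mul _]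
    have h3 : ∀ m ∈ Finset.range N, ∫ ω, (u n * u m) * (sg (a n (at' ξ ω)) * sg (a m (at' ξ ω))) ∂P ≤
        (if bad n m then 1 else 0) + ε := by
      intro m hm
      rw [integral_const_mul]
      calc (u n * u m) * cr n m ≤ |(u n * u m) * cr n m| := le_abs_self _
        _ = (|u n| * |u m|) * |cr n m| := by rw [abs_mul, abs_mul]
        _ ≤ 1 * |cr n m| := by
            refine mul_le_mul_of_nonneg_right ?_ (abs_nonneg _)
            calc |u n| * |u m| ≤ 1 * 1 := mul_le_mul (hu n) (hu m) (abs_nonneg _) zero_le_one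
              _ = 1 := one_mul 1
        _ ≤ _ := by rw [one_mul]; exact hgood n m hn hm
    refine (Finset.sum_le_sum h3).trans ?_
    rw [Finset.sum_add_distrib, Finset.sum_const, Finset.card_range, nsmul_eq_mul,
      ← Finset.sum_filter, Finset.sum_const, nsmul_eq_mul, mul_one]
    have h4 : ((Finset.range N).filter (bad n)).card ≤ 4 * h := by
      have h5 : (Finset.range N).filter (bad n) ⊆ Finset.range (2 * h) ∪ Finset.Ico (n + 1 - h) (n + h) := by
        intro m hm
        rw [Finset.mem_filter] at hm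
        rw [Finset.mem_union, Finset.mem_range, Finset.mem_Ico]
        rcases hm.2 with h6 | h6
        · exact Or.inl h6.2
        · exact Or.inr (by omega)
      refine (Finset.card_le_card h5).trans ((Finset.card_union_le _ _).trans ?_)
      rw [Finset.card_range, Nat.card_Ico]
      omega
    have h5 : (((Finset.range N).filter (bad n)).card : ℝ) ≤ 4 * h := by exact_mod_cast h4
    linarith
  refine (Finset.sum_le_sum h2).trans (le_of_eq ?_)
  rw [Finset.sum_const, Finset.card_range, nsmul_eq_mul]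
  ring

/-- almost surely, the averages of the signs with weights converge to 0 -/
theorem FamC.ae {C0 : PowerSeries (ZMod 2)} (hC0 : coeff 0 C0 = 1)
    {A : (ℕ → Bool) → PowerSeries (ZMod 2)} (hA : FamC C0 A) (hξ : ∀ i, Measurable (ξ i)) (hind : iIndepFun ξ P) {c κ : ℝ}
    (hc0 : 0 < c) (hc : c < 1) (hκ : 0 < κ)
    (hq1 : ∀ s : ℕ, 1 ≤ s → κ * (s : ℝ) ^ (-c) ≤ pr P ξ s)
    (hq2 : ∀ s : ℕ, 1 ≤ s → κ * (s : ℝ) ^ (-c) ≤ 1 - pr P ξ s)
    {u : ℕ → ℝ} (hu : ∀ n, |u n| ≤ 1) :
    ∀ᵐ ω ∂P, Tendsto (fun N : ℕ => (∑ n ∈ Finset.range N, u n * sg (bt A n (at' ξ ω))) / N)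
      atTop (𝓝 0) := by
  set q : ℕ → ℝ := fun s => κ * (s : ℝ) ^ (-c) with hq
  have hq0 : ∀ s, 1 ≤ s → 0 ≤ q s := fun s _ => by positivity
  have hanti : ∀ s s', 1 ≤ s → s ≤ s' → q s' ≤ q s := by
    intro s s' hs hss
    have h1 : (0 : ℝ) < s := by exact_mod_cast hs
    have h2 : (s : ℝ) ≤ s' := by exact_mod_cast hss
    exact mul_le_mul_of_nonneg_left (Real.rpow_le_rpow_of_nonpos h1 h2 (by linarith)) hκ.le
  obtain ⟨r, hr⟩ := exists_pow_lt_of_lt_one (show 0 < (1 - c) / 2 by linarith) hc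
  have hf := hA.pair
  obtain ⟨C, hC, hLam'⟩ := lam_pow (P := P) C0 hC0 hξ hind hc0 hc hκ hq1 hq2 r
  have hLam := hLam' (fun x => C0 * A x) (hA.mul hC0)
  have hcr : 0 < c ^ r := by positivity
  set η0 : ℝ := (1 - c) / 4 with hη0
  set γ : ℝ := (1 - c) * c ^ r with hγ
  have hγ0 : 0 < γ := mul_pos (by linarith) hcr
  set η : ℝ := min η0 ((1 - η0) * γ) with hη
  have hη00 : 0 < η0 := by linarith
  have hη01 : η0 < 1 := by linarith
  have hηpos : 0 < η := lt_min hη00 (mul_pos (by linarith) hγ0)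
  refine ae_lln (C := 8 + C * ((2 * κ)⁻¹ + 1)) (η := η) (fun n => ?_) (fun n ω => ?_) hηpos
    fun N hN => ?_
  · exact ((hf.depSg n (Nat.lt_succ_self n)).meas hξ).const_mul _
  · rw [abs_mul, abs_sg, mul_one]
    exact hu n
  have hN0 : (0 : ℝ) < N := by exact_mod_cast hN
  have hN1 : (1 : ℝ) ≤ N := by exact_mod_cast hN
  have hNp : (1 : ℝ) ≤ (N : ℝ) ^ (1 - η0) := Real.one_le_rpow hN1 (by linarith)
  set h : ℕ := ⌈(N : ℝ) ^ (1 - η0)⌉₊ with hh
  have hle : (N : ℝ) ^ (1 - η0) ≤ h := Nat.le_ceil _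
  have hlt : (h : ℝ) < (N : ℝ) ^ (1 - η0) + 1 := Nat.ceil_lt_add_one (by positivity)
  have hh0 : (0 : ℝ) < h := by linarith
  have hh1 : 1 ≤ h := by exact_mod_cast hh0
  refine (hf.second hξ hind hq0 hanti hq1 hq2 hu (h := h) (N := N) hh1).trans ?_
  have hqN : 0 < 2 * q N := by
    show 0 < 2 * (κ * (N : ℝ) ^ (-c))
    positivity
  have h1 := hLam h hh1 (2 * q N) hqN
  have hmono : ∀ e : ℝ, e ≤ -η → (N : ℝ) ^ e ≤ (N : ℝ) ^ (-η) := fun e he =>
    Real.rpow_le_rpow_of_exponent_le hN1 he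
  have h2 : (2 * q N)⁻¹ * (h : ℝ) ^ (-(1 - c ^ r)) ≤ (2 * κ)⁻¹ * (N : ℝ) ^ (-η) := by
    have e1 : (2 * q N)⁻¹ = (2 * κ)⁻¹ * (N : ℝ) ^ c := by
      show (2 * (κ * (N : ℝ) ^ (-c)))⁻¹ = _
      rw [← mul_assoc, mul_inv, Real.rpow_neg hN0.le, inv_inv]
    have e2 : (h : ℝ) ^ (-(1 - c ^ r)) ≤ (N : ℝ) ^ (-((1 - η0) * (1 - c ^ r))) := by
      calc (h : ℝ) ^ (-(1 - c ^ r)) ≤ ((N : ℝ) ^ (1 - η0)) ^ (-(1 - c ^ r)) :=
            Real.rpow_le_rpow_of_nonpos (by positivity) hle (by linarith)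
        _ = _ := by rw [← Real.rpow_mul hN0.le]; congr 1; ring
    rw [e1, mul_assoc]
    refine mul_le_mul_of_nonneg_left ?_ (by positivity)
    calc (N : ℝ) ^ c * (h : ℝ) ^ (-(1 - c ^ r)) ≤
          (N : ℝ) ^ c * (N : ℝ) ^ (-((1 - η0) * (1 - c ^ r))) :=
          mul_le_mul_of_nonneg_left e2 (by positivity)
      _ = (N : ℝ) ^ (c + -((1 - η0) * (1 - c ^ r))) := by rw [Real.rpow_add hN0]
      _ ≤ (N : ℝ) ^ (-η) := by
          refine hmono _ ?_
          have h3 : η ≤ η0 := min_le_left _ _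
          have h4 : (1 - η0) * ((1 + c) / 2) ≤ (1 - η0) * (1 - c ^ r) :=
            mul_le_mul_of_nonneg_left (by linarith) (by linarith)
          nlinarith
  have h3 : (h : ℝ) ^ (-γ) ≤ (N : ℝ) ^ (-η) := by
    calc (h : ℝ) ^ (-γ) ≤ ((N : ℝ) ^ (1 - η0)) ^ (-γ) :=
          Real.rpow_le_rpow_of_nonpos (by positivity) hle (by linarith)
      _ = (N : ℝ) ^ (-((1 - η0) * γ)) := by rw [← Real.rpow_mul hN0.le]; congr 1; ring
      _ ≤ _ := by
          refine hmono _ ?_
          have : η ≤ (1 - η0) * γ := min_le_right _ _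
          linarith
  have h4 : (N : ℝ) ^ (1 - η0) * N ≤ (N : ℝ) ^ (2 - η) := by
    rw [← Real.rpow_add_one hN0.ne']
    refine Real.rpow_le_rpow_of_exponent_le hN1 ?_
    have h3 : η ≤ η0 := min_le_left _ _
    linarith
  have h5 : (N : ℝ) ^ 2 * (N : ℝ) ^ (-η) = (N : ℝ) ^ (2 - η) := by
    rw [← Real.rpow_two, ← Real.rpow_add hN0]
    congr 1
  calc 4 * (h : ℝ) * N + (N : ℝ) ^ 2 * Lam P ξ (bt fun x => C0 * A x) h (2 * q N)
      ≤ 4 * (2 * (N : ℝ) ^ (1 - η0)) * N + (N : ℝ) ^ 2 * (C * ((2 * κ)⁻¹ * (N : ℝ) ^ (-η) +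
          (N : ℝ) ^ (-η))) := by
        refine add_le_add (mul_le_mul_of_nonneg_right (by linarith) hN0.le)
          (mul_le_mul_of_nonneg_left (h1.trans (mul_le_mul_of_nonneg_left (add_le_add h2 h3) hC.le))
            (by positivity))
    _ = 8 * ((N : ℝ) ^ (1 - η0) * N) + C * ((2 * κ)⁻¹ + 1) * ((N : ℝ) ^ 2 * (N : ℝ) ^ (-η)) := by ring
    _ ≤ 8 * (N : ℝ) ^ (2 - η) + C * ((2 * κ)⁻¹ + 1) * (N : ℝ) ^ (2 - η) := by
        rw [h5]
        linarith
    _ = _ := by ring

end Pool.Agent.N493.PG
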