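import Mathlib
import Pool.Agent.N493.PG7
import Pool.Agent.N493.PF9

/-!
# Moved parts
-/

set_option autoImplicit false

open Filter Topology MeasureTheory ProbabilityTheory PowerSeries unitInterval
open scoped ENNReal

noncomputable section

namespace Pool.Agent.N493.PG

open Pool.Agent.N493.PF

/-- the number of the ways to write `n = l_1 + ⋯ + l_n` with `l_s ≥ 0` divisible by `a s` -/
def ways (a : ℕ → ℕ) (n : ℕ) : ℕ :=
  (((Finset.Icc 1 n).finsuppAntidiag n).filter fun l : ℕ →₀ ℕ => ∀ s ∈ Finset.Icc 1 n, a s ∣ l s).card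

/-- the part `s` is replaced by `s + d` for `s ∈ M` -/
def moved (d : ℕ) (M : Set ℕ) (s : ℕ) : ℕ := by
  classical
  exact if s ∈ M then s + d else s

/-- coefficient of `X ^ n` in `G (∑ ways a k X ^ k) ^ t` -/
def cfW (G : PowerSeries ℤ) (a : ℕ → ℕ) (t n : ℕ) : ℤ :=
  coeff n (G * (PowerSeries.mk fun k => (ways a k : ℤ)) ^ t)

/-- geometric series -/
def geo (k : ℕ) : PowerSeries (ZMod 2) := PowerSeries.mk fun j => if k ∣ j then 1 else 0

theorem geo_mul {k : ℕ} (hk : 1 ≤ k) : geo k * (1 + X ^ k) = 1 := by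
  ext n
  rw [mul_add, mul_one, map_add, coeff_mul_X_pow', coeff_one]
  unfold geo
  rw [coeff_mk]
  by_cases h : k ≤ n
  · rw [if_pos h, coeff_mk, if_neg (by omega : ¬ n = 0)]
    have h1 : k ∣ n - k ↔ k ∣ n := by
      constructor
      · intro h2
        have := Nat.dvd_add h2 (dvd_refl k)
        rwa [Nat.sub_add_cancel h] at this
      · intro h2
        exact Nat.dvd_sub h2 (dvd_refl k)
    by_cases h2 : k ∣ n
    · rw [if_pos h2, if_pos (h1.mpr h2)]
      decide
    · rw [if_neg h2, if_neg (fun h3 => h2 (h1.mp h3)), add_zero]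
  · rw [if_neg h, add_zero]
    by_cases hn : n = 0
    · subst hn
      simp
    · rw [if_neg hn, if_neg]
      intro h2
      exact h (Nat.le_of_dvd (by omega) h2)

/-- finite product -/
def T (a : ℕ → ℕ) (m : ℕ) : PowerSeries (ZMod 2) := ∏ s ∈ Finset.Icc 1 m, geo (a s)

theorem coeff_T (a : ℕ → ℕ) (n : ℕ) : coeff n (T a n) = (ways a n : ZMod 2) := by
  classical
  unfold T ways
  rw [coeff_prod, Finset.card_filter, Nat.cast_sum]
  refine Finset.sum_congr rfl fun l _ => ?_
  unfold geo
  simp only [coeff_mk]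
  rw [Finset.prod_ite_zero]
  simp

theorem coeff_T_of_le {a : ℕ → ℕ} (ha : ∀ s, s ≤ a s) {k m : ℕ} (hkm : k ≤ m) :
    coeff k (T a m) = coeff k (T a k) := by
  induction m, hkm using Nat.le_induction with
  | base => rfl
  | succ m hm ih =>
    unfold T at ih ⊢
    rw [Finset.prod_Icc_succ_top (by omega)]
    have h1 : ∀ j ≤ k, coeff j (geo (a (m + 1))) = coeff j (1 : PowerSeries (ZMod 2)) := by
      intro j hj
      have := ha (m + 1)
      unfold geo
      rw [coeff_mk, coeff_one]
      by_cases hj0 : j = 0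
      · subst hj0; simp
      · rw [if_neg hj0, if_neg]
        intro h2
        have := Nat.le_of_dvd (by omega) h2
        omega
    have h2 := coeff_congr (A := ∏ s ∈ Finset.Icc 1 m, geo (a s))
      (B := ∏ s ∈ Finset.Icc 1 m, geo (a s)) (fun _ _ => rfl) h1 k le_rfl
    rw [h2, mul_one]
    exact ih

/-- generating function modulo 2 -/
def W (a : ℕ → ℕ) : PowerSeries (ZMod 2) := PowerSeries.mk fun n => (ways a n : ZMod 2)

theorem W_congr {a : ℕ → ℕ} (ha : ∀ s, s ≤ a s) (n : ℕ) : ∀ k ≤ n, coeff k (W a) = coeff k (T a n) := by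
  intro k hk
  unfold W
  rw [coeff_mk, coeff_T_of_le ha hk, coeff_T]

/-- the parts for a configuration of the coins -/
def part (d : ℕ) (x : ℕ → Bool) (s : ℕ) : ℕ := if x s = true then s + d else s

theorem le_part (d : ℕ) (x : ℕ → Bool) (s : ℕ) : s ≤ part d x s := by
  unfold part; split_ifs <;> omega

theorem two_eq_zero : (2 : PowerSeries (ZMod 2)) = 0 := by
  have : (2 : ZMod 2) = 0 := by decide
  calc (2 : PowerSeries (ZMod 2)) = PowerSeries.C (R := ZMod 2) 2 :=
        (map_ofNat (PowerSeries.C (R := ZMod 2)) 2).symm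
    _ = PowerSeries.C (R := ZMod 2) 0 := by rw [this]
    _ = 0 := map_zero _

theorem sq_add (y : PowerSeries (ZMod 2)) : (1 + y) ^ 2 = 1 + y ^ 2 := by
  linear_combination y * two_eq_zero

theorem T_flip {d n s : ℕ} (hs : 1 ≤ s) (hsn : s ≤ n) (x : ℕ → Bool) :
    T (part d (Function.update x s true)) n * (1 + X ^ (s + d)) =
      T (part d (Function.update x s false)) n * (1 + X ^ s) := by
  classical
  unfold T
  have hmem : s ∈ Finset.Icc 1 n := Finset.mem_Icc.mpr ⟨hs, hsn⟩
  rw [← Finset.mul_prod_erase _ _ hmem, ← Finset.mul_prod_erase _ _ hmem]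
  have h1 : ∀ β : Bool, ∏ i ∈ (Finset.Icc 1 n).erase s, geo (part d (Function.update x s β) i) =
      ∏ i ∈ (Finset.Icc 1 n).erase s, geo (part d x i) := by
    intro β
    refine Finset.prod_congr rfl fun i hi => ?_
    have : i ≠ s := Finset.ne_of_mem_erase hi
    unfold part
    rw [Function.update_of_ne this]
  rw [h1, h1]
  have h2 : part d (Function.update x s true) s = s + d := by unfold part; simp
  have h3 : part d (Function.update x s false) s = s := by unfold part; simp
  rw [h2, h3]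
  have h4 := geo_mul (k := s + d) (by omega)
  have h5 := geo_mul (k := s) hs
  linear_combination (∏ i ∈ (Finset.Icc 1 n).erase s, geo (part d x i)) * h4 -
    (∏ i ∈ (Finset.Icc 1 n).erase s, geo (part d x i)) * h5

theorem part_famC {G : PowerSeries (ZMod 2)} (hG : coeff 0 G = 1) {t : ℕ} (ht : Odd t) {d : ℕ}
    (hd : 1 ≤ d) : FamC (1 + X ^ d) (fun x => G * W (part d x) ^ t) := by
  have hdep : ∀ (n : ℕ) (x y : ℕ → Bool), (∀ i, 1 ≤ i → i ≤ n → x i = y i) →
      coeff n (G * W (part d x) ^ t) = coeff n (G * W (part d y) ^ t) := by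
    intro n x y h
    refine coeff_congr (fun _ _ => rfl) (coeff_congr_pow (n := n) (fun k hk => ?_) t) n le_rfl
    rw [W_congr (le_part d x) k k le_rfl, W_congr (le_part d y) k k le_rfl]
    unfold T
    congr 1
    refine Finset.prod_congr rfl fun i hi => ?_
    rw [Finset.mem_Icc] at hi
    unfold part
    rw [h i hi.1 (by omega)]
  refine ⟨hdep, fun x => ?_, fun n s x hn hs => ?_⟩
  · refine coeff_zero_mul hG ?_
    have h1 : constantCoeff (W (part d x)) = 1 := by
      rw [← coeff_zero_eq_constantCoeff_apply, W_congr (le_part d x) 0 0 le_rfl]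
      unfold T
      simp
    rw [coeff_zero_eq_constantCoeff_apply, map_pow, h1, one_pow]
  · obtain ⟨j, rfl⟩ := ht
    have hs1 : 1 ≤ s := by omega
    set xp := Function.update x s true with hxp
    set xm := Function.update x s false with hxm
    set Bp := G * T (part d xp) n ^ (2 * j + 1) with hBp
    set Bm := G * T (part d xm) n ^ (2 * j + 1) with hBm
    have hWp : ∀ k ≤ n, coeff k (G * W (part d xp) ^ (2 * j + 1)) = coeff k Bp :=
      coeff_congr (fun _ _ => rfl) (coeff_congr_pow (W_congr (le_part d xp) n) _)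
    have hWm : ∀ k ≤ n, coeff k (G * W (part d xm) ^ (2 * j + 1)) = coeff k Bm :=
      coeff_congr (fun _ _ => rfl) (coeff_congr_pow (W_congr (le_part d xm) n) _)
    have hT := T_flip (d := d) (n := n) hs1 hs x
    have hone : ∀ (e i : ℕ), n < e → ∀ k ≤ n, coeff k ((1 + X ^ e : PowerSeries (ZMod 2)) ^ i) =
        coeff k (1 : PowerSeries (ZMod 2)) := by
      intro e i he k hk
      have h1 := coeff_congr_pow (A := 1 + X ^ e) (B := (1 : PowerSeries (ZMod 2))) (n := n)
        (fun k hk => by rw [map_add, coeff_X_pow, if_neg (by omega), add_zero]) i k hk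
      rw [h1, one_pow]
    have e1 : Bp * (1 + X ^ (2 * (s + d))) ^ (j + 1) =
        (Bm * (1 + X ^ s) * (1 + X ^ (s + d))) * (1 + X ^ (2 * s)) ^ j := by
      have h1 : (1 + X ^ (2 * (s + d)) : PowerSeries (ZMod 2)) = (1 + X ^ (s + d)) ^ 2 := by
        rw [sq_add, ← pow_mul, mul_comm]
      have h2 : (1 + X ^ (2 * s) : PowerSeries (ZMod 2)) = (1 + X ^ s) ^ 2 := by
        rw [sq_add, ← pow_mul, mul_comm]
      have h3 := congrArg (fun z => z ^ (2 * j + 1)) hT
      simp only [mul_pow] at h3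
      rw [h1, h2, ← pow_mul, ← pow_mul, hBp, hBm]
      have h4 : (1 + X ^ (s + d) : PowerSeries (ZMod 2)) ^ (2 * (j + 1)) =
          (1 + X ^ (s + d)) ^ (2 * j + 1) * (1 + X ^ (s + d)) := by
        rw [← pow_succ]
        congr 1
      have h5 : (1 + X ^ s : PowerSeries (ZMod 2)) ^ (2 * j + 1) = (1 + X ^ s) * (1 + X ^ s) ^ (2 * j) := by
        rw [pow_succ, mul_comm]
      rw [h4]
      rw [h5] at h3
      linear_combination G * (1 + X ^ (s + d)) * h3
    have h1 : coeff n Bp = coeff n (Bp * (1 + X ^ (2 * (s + d))) ^ (j + 1)) := by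
      have := coeff_congr (A := Bp) (B := Bp) (fun _ _ => rfl)
        (hone (2 * (s + d)) (j + 1) (by omega)) n le_rfl
      rw [this, mul_one]
    have h2 : coeff n ((Bm * (1 + X ^ s) * (1 + X ^ (s + d))) * (1 + X ^ (2 * s)) ^ j) =
        coeff n (Bm * (1 + X ^ s) * (1 + X ^ (s + d))) := by
      have := coeff_congr (A := Bm * (1 + X ^ s) * (1 + X ^ (s + d)))
        (B := Bm * (1 + X ^ s) * (1 + X ^ (s + d))) (fun _ _ => rfl)
        (hone (2 * s) j (by omega)) n le_rfl
      rw [this, mul_one]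
    have h3 : Bm * (1 + X ^ s) * (1 + X ^ (s + d)) =
        Bm + X ^ s * ((1 + X ^ d) * Bm) + X ^ (s + (s + d)) * Bm := by
      rw [pow_add X s (s + d), pow_add X s d]
      ring
    have h4 : coeff n (X ^ (s + (s + d)) * Bm) = 0 := by
      rw [coeff_X_pow_mul', if_neg (by omega)]
    have h5 : coeff n (X ^ s * ((1 + X ^ d) * Bm)) = coeff (n - s) ((1 + X ^ d) * Bm) := by
      rw [coeff_X_pow_mul', if_pos hs]
    have h6 : coeff (n - s) ((1 + X ^ d) * Bm) =
        coeff (n - s) ((1 + X ^ d) * (G * W (part d x) ^ (2 * j + 1))) := by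
      refine coeff_congr (n := n - s) (fun _ _ => rfl) (fun k hk => ?_) _ le_rfl
      rw [← hWm k (by omega)]
      refine hdep k _ _ fun i _ hi => ?_
      rw [hxm, Function.update_of_ne (by omega)]
    show coeff n (G * W (part d xp) ^ (2 * j + 1)) = coeff n (G * W (part d xm) ^ (2 * j + 1)) +
      coeff (n - s) ((1 + X ^ d) * (G * W (part d x) ^ (2 * j + 1)))
    rw [hWp n le_rfl, hWm n le_rfl, h1, e1, h2, h3, map_add, map_add, h4, add_zero, h5, h6]

end Pool.Agent.N493.PG
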