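import Mathlib
import Pool.Agent.N493.PG8

/-!
# Moved parts: blocks, random sets, existence
-/

set_option autoImplicit false

open Filter Topology MeasureTheory ProbabilityTheory PowerSeries
open scoped ENNReal

noncomputable section

namespace Pool.Agent.N493.PG

open Pool.Agent.N493.PF

/-- reduction of the generating function modulo 2 -/
theorem cfW_bits (G : PowerSeries ℤ) (a : ℕ → ℕ) (t n : ℕ) :
    ((cfW G a t n : ℤ) : ZMod 2) = coeff n (PowerSeries.map (Int.castRingHom (ZMod 2)) G * W a ^ t) := by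
  unfold cfW
  have h1 : PowerSeries.map (Int.castRingHom (ZMod 2))
      (PowerSeries.mk fun k => (ways a k : ℤ)) = W a := by
    ext k
    rw [coeff_map, coeff_mk]
    unfold W
    rw [coeff_mk]
    simp
  rw [← h1, ← map_pow, ← map_mul, coeff_map]
  rfl

section

variable {Ω : Type*} [MeasurableSpace Ω] {P : Measure Ω} [IsProbabilityMeasure P]
  {ξ : ℕ → Ω → Bool}

/-- one linear pattern -/
theorem ae_patternC {C0 : PowerSeries (ZMod 2)} (hC0 : coeff 0 C0 = 1)
    {A : (ℕ → Bool) → PowerSeries (ZMod 2)} (hA : FamC C0 A)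
    (hξ : ∀ i, Measurable (ξ i)) (hind : iIndepFun ξ P) {c κ : ℝ}
    (hc0 : 0 < c) (hc : c < 1) (hκ : 0 < κ)
    (hq1 : ∀ s : ℕ, 1 ≤ s → κ * (s : ℝ) ^ (-c) ≤ pr P ξ s)
    (hq2 : ∀ s : ℕ, 1 ≤ s → κ * (s : ℝ) ^ (-c) ≤ 1 - pr P ξ s)
    (B : Set ℕ) {I : Finset ℕ} (hI : I.Nonempty) :
    ∀ᵐ ω ∂P, Tendsto (fun N : ℕ => (∑ n ∈ Finset.range N,
      (B.indicator (fun _ => (1 : ℝ)) n) * sg (∑ i ∈ I, coeff (n + i) (A (at' ξ ω)))) / N)
      atTop (𝓝 0) := by
  classical
  set m : ℕ := I.max' hI with hm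
  have him : ∀ i ∈ I, i ≤ m := fun i hi => I.le_max' i hi
  set C : PowerSeries (ZMod 2) := ∑ i ∈ I, X ^ (m - i) with hC
  have hC1 : coeff 0 C = 1 := by
    rw [coeff_zero_eq_constantCoeff_apply, hC, map_sum, Finset.sum_eq_single m]
    · simp
    · intro i hi him'
      have : m - i ≠ 0 := by
        have := him i hi
        omega
      simp [this]
    · intro h
      exact absurd (I.max'_mem hI) h
  have hb : ∀ (x : ℕ → Bool) (n : ℕ), bt (fun x => C * A x) (n + m) x = ∑ i ∈ I, coeff (n + i) (A x) := by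
    intro x n
    show coeff (n + m) (C * A x) = _
    rw [hC, Finset.sum_mul, map_sum]
    refine Finset.sum_congr rfl fun i hi => ?_
    have := him i hi
    rw [coeff_X_pow_mul', if_pos (by omega)]
    congr 2
    omega
  set u : ℕ → ℝ := fun n => if m ≤ n then B.indicator (fun _ => (1 : ℝ)) (n - m) else 0 with hu
  have hu1 : ∀ n, |u n| ≤ 1 := by
    intro n
    simp only [hu, Set.indicator]
    split_ifs <;> simp
  filter_upwards [(hA.mul hC1).ae hC0 hξ hind hc0 hc hκ hq1 hq2 hu1] with ω hω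
  have h1 : ∀ N : ℕ, ∑ n ∈ Finset.range (N + m), u n * sg (bt (fun x => C * A x) n (at' ξ ω)) =
      ∑ n ∈ Finset.range N, (B.indicator (fun _ => (1 : ℝ)) n) *
        sg (∑ i ∈ I, coeff (n + i) (A (at' ξ ω))) := by
    intro N
    rw [add_comm N m, Finset.sum_range_add]
    have h2 : ∑ n ∈ Finset.range m, u n * sg (bt (fun x => C * A x) n (at' ξ ω)) = 0 := by
      refine Finset.sum_eq_zero fun n hn => ?_
      rw [Finset.mem_range] at hn
      simp only [hu]
      rw [if_neg (by omega), zero_mul]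
    rw [h2, zero_add]
    refine Finset.sum_congr rfl fun n _ => ?_
    rw [add_comm m n, hb]
    simp only [hu]
    rw [if_pos (by omega), Nat.add_sub_cancel]
  have h2 := hω.comp (tendsto_add_atTop_nat m)
  have h3 : Tendsto (fun N : ℕ => ((N + m : ℕ) : ℝ) / N) atTop (𝓝 1) := by
    have h4 := (tendsto_const_div_atTop_nhds_zero_nat (m : ℝ)).const_add 1
    rw [add_zero] at h4
    refine h4.congr' ?_
    filter_upwards [eventually_gt_atTop 0] with N hN
    have : (N : ℝ) ≠ 0 := by exact_mod_cast hN.ne'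
    push_cast
    field_simp
  have h4 := h2.mul h3
  rw [zero_mul] at h4
  refine h4.congr' ?_
  filter_upwards [eventually_gt_atTop 0] with N hN
  have hN0 : (N : ℝ) ≠ 0 := by exact_mod_cast hN.ne'
  have hNm : ((N + m : ℕ) : ℝ) ≠ 0 := by positivity
  simp only [Function.comp_apply]
  rw [h1]
  field_simp

theorem ae_equiW (hξ : ∀ i, Measurable (ξ i)) (hind : iIndepFun ξ P) {c κ : ℝ}
    (hc : c < 1) (hκ : 0 < κ)
    (hq1 : ∀ s : ℕ, 1 ≤ s → κ * (s : ℝ) ^ (-c) ≤ pr P ξ s)
    (hq2 : ∀ s : ℕ, 1 ≤ s → κ * (s : ℝ) ^ (-c) ≤ 1 - pr P ξ s) {d : ℕ} (hd : 1 ≤ d)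
    {G : PowerSeries ℤ} (hG : Odd (constantCoeff G)) (B : Set ℕ) :
    ∀ᵐ ω ∂P, ∀ t : ℕ, Odd t → Equi B (cfW G (part d (at' ξ ω)) t) := by
  set c' : ℝ := max c (1 / 2) with hc'
  have hc'0 : 0 < c' := lt_of_lt_of_le (by norm_num) (le_max_right _ _)
  have hc'1 : c' < 1 := max_lt hc (by norm_num)
  have hle : ∀ s : ℕ, 1 ≤ s → κ * (s : ℝ) ^ (-c') ≤ κ * (s : ℝ) ^ (-c) := by
    intro s hs
    refine mul_le_mul_of_nonneg_left (Real.rpow_le_rpow_of_exponent_le (by exact_mod_cast hs) ?_) hκ.le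
    have : c ≤ c' := le_max_left _ _
    linarith
  set G' : PowerSeries (ZMod 2) := PowerSeries.map (Int.castRingHom (ZMod 2)) G with hG'
  have hG'0 : coeff 0 G' = 1 := by
    rw [hG', coeff_map, coeff_zero_eq_constantCoeff_apply]
    obtain ⟨k, hk⟩ := hG
    rw [hk]
    have h2 : (2 : ZMod 2) = 0 := by decide
    simp [h2]
  have hC0 : coeff 0 (1 + X ^ d : PowerSeries (ZMod 2)) = 1 := by
    rw [map_add, coeff_X_pow, if_neg (by omega), add_zero]
    simp
  have h1 : ∀ (t : ℕ) (I : Finset ℕ), ∀ᵐ ω ∂P, Odd t → I.Nonempty → Tendsto (fun N : ℕ =>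
      (∑ n ∈ Finset.range N, (B.indicator (fun _ => (1 : ℝ)) n) *
        sg (∑ i ∈ I, coeff (n + i) (G' * W (part d (at' ξ ω)) ^ t))) / N) atTop (𝓝 0) := by
    intro t I
    by_cases ht : Odd t
    · by_cases hI : I.Nonempty
      · filter_upwards [ae_patternC hC0 (part_famC hG'0 ht hd) hξ hind hc'0 hc'1 hκ
          (fun s hs => (hle s hs).trans (hq1 s hs))
          (fun s hs => (hle s hs).trans (hq2 s hs)) B hI] with ω hω _ _
        exact hω
      · exact Eventually.of_forall fun ω _ h => absurd h hI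
    · exact Eventually.of_forall fun ω h => absurd h ht
  have h2 : ∀ᵐ ω ∂P, ∀ (t : ℕ) (I : Finset ℕ), Odd t → I.Nonempty → Tendsto (fun N : ℕ =>
      (∑ n ∈ Finset.range N, (B.indicator (fun _ => (1 : ℝ)) n) *
        sg (∑ i ∈ I, coeff (n + i) (G' * W (part d (at' ξ ω)) ^ t))) / N) atTop (𝓝 0) :=
    ae_all_iff.mpr fun t => ae_all_iff.mpr fun I => h1 t I
  filter_upwards [h2] with ω hω t ht
  refine equi_of fun I hI => ?_
  have h3 := hω t I ht hI
  refine h3.congr fun N => ?_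
  congr 1
  refine Finset.sum_congr rfl fun n _ => ?_
  congr 2
  refine Finset.sum_congr rfl fun i _ => ?_
  exact (cfW_bits G _ t (n + i)).symm

end

theorem randomMoved {Ω : Type*} [MeasurableSpace Ω] (P : Measure Ω) [IsProbabilityMeasure P]
    (S : Ω → Set ℕ) (hS : ∀ s, MeasurableSet {ω | s ∈ S ω})
    (hind : iIndepSet (fun s => {ω | s ∈ S ω}) P) {c κ : ℝ} (hc : c < 1) (hκ : 0 < κ)
    (h1 : ∀ s : ℕ, 1 ≤ s → κ * (s : ℝ) ^ (-c) ≤ P.real {ω | s ∈ S ω})
    (h2 : ∀ s : ℕ, 1 ≤ s → κ * (s : ℝ) ^ (-c) ≤ P.real {ω | s ∉ S ω}) {d : ℕ} (hd : 1 ≤ d)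
    {G : PowerSeries ℤ} (hG : Odd (constantCoeff G)) (B : Set ℕ) :
    ∀ᵐ ω ∂P, ∀ t : ℕ, Odd t → Equi B (cfW G (moved d (S ω)) t) := by
  classical
  let ξ : ℕ → Ω → Bool := fun s ω => decide (s ∈ S ω)
  have hi1 := hind.iIndepFun_indicator (β := ℕ) (m := inferInstance)
  have hi2 : iIndepFun ξ P := by
    have h3 := hi1.comp (fun _ (k : ℕ) => decide (k = 1)) (fun _ => Measurable.of_discrete)
    refine h3.congr fun s => Eventually.of_forall fun ω => ?_
    show decide (Set.indicator {ω | s ∈ S ω} (fun _ => 1) ω = 1) = decide (s ∈ S ω)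
    by_cases h : s ∈ S ω
    · simp [Set.indicator, h]
    · simp [Set.indicator, h]
  have hm : ∀ s, Measurable (ξ s) := by
    intro s
    refine measurable_to_bool ?_
    have : ξ s ⁻¹' {true} = {ω | s ∈ S ω} := by
      ext ω; simp [ξ]
    rw [this]
    exact hS s
  have hset : ∀ s, {ω | ξ s ω = true} = {ω | s ∈ S ω} := by
    intro s; ext ω; simp [ξ]
  have hcompl : ∀ s, P.real {ω | s ∉ S ω} = 1 - pr P ξ s := by
    intro s
    have h3 : {ω | s ∉ S ω} = {ω | s ∈ S ω}ᶜ := rfl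
    rw [h3, measureReal_compl (hS s)]
    unfold pr
    rw [hset]
    simp
  have h4 := ae_equiW (P := P) hm hi2 hc hκ (fun s hs => by
    show _ ≤ P.real {ω | ξ s ω = true}
    rw [hset]
    exact h1 s hs) (fun s hs => by rw [← hcompl]; exact h2 s hs) hd hG B
  filter_upwards [h4] with ω hω t ht
  have h5 : part d (at' ξ ω) = moved d (S ω) := by
    funext s
    unfold part moved
    by_cases h : s ∈ S ω
    · simp [at', ξ, h]
    · simp [at', ξ, h]
  have h6 := hω t ht
  rwa [h5] at h6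

/-- from random to sparse deterministic sets -/
theorem exists_of_random {ε : ℝ} (hε : 0 < ε) (Q : Set ℕ → Prop)
    (hQ : ∀ (Ω : Type) [MeasurableSpace Ω] (P : Measure Ω) [IsProbabilityMeasure P] (S : Ω → Set ℕ),
      (∀ s, MeasurableSet {ω | s ∈ S ω}) → iIndepSet (fun s => {ω | s ∈ S ω}) P →
      ∀ c κ : ℝ, c < 1 → 0 < κ →
      (∀ s : ℕ, 1 ≤ s → κ * (s : ℝ) ^ (-c) ≤ P.real {ω | s ∈ S ω} ∧
        κ * (s : ℝ) ^ (-c) ≤ P.real {ω | s ∉ S ω}) → ∀ᵐ ω ∂P, Q (S ω)) :
    ∃ R : Set ℕ, Summable (fun r : R => ((r : ℕ) : ℝ) ^ (-ε)) ∧ Q R := by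
  classical
  set c : ℝ := max (1 / 2) (1 - ε / 2) with hc
  have hc0 : 0 < c := lt_of_lt_of_le (by norm_num) (le_max_left _ _)
  have hc1 : c < 1 := max_lt (by norm_num) (by linarith)
  have hcε : 1 < c + ε := by
    have : 1 - ε / 2 ≤ c := le_max_right _ _
    linarith
  have hq : ∀ s : ℕ, (1 / 2 : ℝ) * (s : ℝ) ^ (-c) ≤ 1 / 2 := by
    intro s
    rcases Nat.eq_zero_or_pos s with rfl | hs
    · rw [Nat.cast_zero, Real.zero_rpow (by linarith)]
      norm_num
    · have : (s : ℝ) ^ (-c) ≤ 1 :=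
        Real.rpow_le_one_of_one_le_of_nonpos (by exact_mod_cast hs) (by linarith)
      linarith
  have hq0 : ∀ s : ℕ, 0 ≤ (1 / 2 : ℝ) * (s : ℝ) ^ (-c) := fun s => by positivity
  let p : ℕ → unitInterval := fun s => ⟨(1 / 2 : ℝ) * (s : ℝ) ^ (-c), hq0 s, by linarith [hq s]⟩
  let P : Measure (ℕ → Bool) := Measure.infinitePi fun s => bernoulliMeasure false true (p s)
  have hPp : IsProbabilityMeasure P := by infer_instance
  have hbm : ∀ s (b : Bool), MeasurableSet {x : ℕ → Bool | x s = b} := fun s b =>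
    measurable_pi_apply (X := fun _ : ℕ => Bool) s (measurableSet_singleton b)
  have hval : ∀ s (b : Bool), P.real {x | x s = b} = (bernoulliMeasure false true (p s)).real {b} := by
    intro s b
    have h3 : (P.map (fun x : ℕ → Bool => x s)) = bernoulliMeasure false true (p s) :=
      Measure.infinitePi_map_eval _ s
    rw [← h3, map_measureReal_apply (measurable_pi_apply s) (measurableSet_singleton b)]
    rfl
  have hfalse : ∀ s, P.real {x | x s = false} = (1 / 2 : ℝ) * (s : ℝ) ^ (-c) := by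
    intro s
    rw [hval, bernoulliMeasure_real_apply _ (measurableSet_singleton _)]
    simp [p]
  have htrue : ∀ s, P.real {x | x s = true} = 1 - (1 / 2 : ℝ) * (s : ℝ) ^ (-c) := by
    intro s
    rw [hval, bernoulliMeasure_real_apply _ (measurableSet_singleton _)]
    simp [p]
  have hindf : iIndepFun (fun s (x : ℕ → Bool) => x s) P :=
    iIndepFun_infinitePi (X := fun _ b => b) (fun _ => measurable_id)
  let S : (ℕ → Bool) → Set ℕ := fun x => {s | x s = false}
  have hSm : ∀ s, MeasurableSet {x | s ∈ S x} := fun s => hbm s false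
  have hind : iIndepSet (fun s => {x | s ∈ S x}) P := by
    rw [iIndepSet_iff_meas_biInter hSm]
    intro T
    exact hindf.measure_inter_preimage_eq_mul T (sets := fun _ => {false})
      (fun _ _ => measurableSet_singleton false)
  have h1 : ∀ᵐ x ∂P, Q (S x) := by
    refine hQ (ℕ → Bool) P S hSm hind c (1 / 2) hc1 (by norm_num) fun s _ => ⟨?_, ?_⟩
    · show _ ≤ P.real {x | x s = false}
      rw [hfalse]
    · have h3 : {x | s ∉ S x} = {x : ℕ → Bool | x s = true} := by
        ext x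
        simp [S]
      rw [h3, htrue]
      linarith [hq s]
  let f : ℕ → (ℕ → Bool) → ℝ≥0∞ := fun s x =>
    if x s = false then ENNReal.ofReal ((s : ℝ) ^ (-ε)) else 0
  have hfm : ∀ s, Measurable (f s) := fun s =>
    Measurable.ite (hbm s false) measurable_const measurable_const
  have hfint : ∀ s, ∫⁻ x, f s x ∂P = ENNReal.ofReal ((1 / 2 : ℝ) * (s : ℝ) ^ (-c) * (s : ℝ) ^ (-ε)) := by
    intro s
    have h3 : f s = Set.indicator {x : ℕ → Bool | x s = false} (fun _ => ENNReal.ofReal ((s : ℝ) ^ (-ε))) := by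
      funext x; simp [f, Set.indicator]
    rw [h3, lintegral_indicator_const (hbm s false),
      mul_comm, ENNReal.ofReal_mul (hq0 s), ← hfalse s, ofReal_measureReal]
  have hsum : ∫⁻ x, ∑' s, f s x ∂P ≠ ∞ := by
    rw [lintegral_tsum fun s => (hfm s).aemeasurable]
    simp only [hfint]
    have h3 : Summable fun s : ℕ => (1 / 2 : ℝ) * (s : ℝ) ^ (-c) * (s : ℝ) ^ (-ε) := by
      have h4 : Summable fun s : ℕ => (s : ℝ) ^ (-(c + ε)) := Real.summable_nat_rpow.mpr (by linarith)
      refine Summable.of_nonneg_of_le (fun s => by positivity) (fun s => ?_) h4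
      rcases Nat.eq_zero_or_pos s with rfl | hs
      · rw [Nat.cast_zero, Real.zero_rpow (by linarith)]
        simp only [mul_zero, zero_mul]
        positivity
      · have hs0 : (0 : ℝ) < s := by exact_mod_cast hs
        rw [mul_assoc, ← Real.rpow_add hs0, show -c + -ε = -(c + ε) by ring]
        have : 0 ≤ (s : ℝ) ^ (-(c + ε)) := by positivity
        linarith
    rw [← ENNReal.ofReal_tsum_of_nonneg (fun s => by positivity) h3]
    exact ENNReal.ofReal_ne_top
  have h2 := ae_lt_top (Measurable.ennreal_tsum hfm) hsum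
  obtain ⟨x, hx1, hx2⟩ := (h1.and h2).exists
  refine ⟨S x, ?_, hx1⟩
  have h3 := ENNReal.summable_toReal hx2.ne
  have h4 : Summable (Set.indicator (S x) fun s : ℕ => (s : ℝ) ^ (-ε)) := by
    refine h3.congr fun s => ?_
    by_cases hs : x s = false
    · rw [Set.indicator_of_mem (by exact hs)]
      simp only [f, if_pos hs]
      exact ENNReal.toReal_ofReal (by positivity)
    · rw [Set.indicator_of_notMem (by exact hs)]
      simp only [f, if_neg hs]
      rfl
  exact summable_subtype_iff_indicator.mpr h4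

/-- existence -/
theorem exists_moved {ε : ℝ} (hε : 0 < ε) {G : ℕ → PowerSeries ℤ}
    (hG : ∀ j, Odd (constantCoeff (G j))) (B : ℕ → Set ℕ) :
    ∃ R : Set ℕ, Summable (fun r : R => ((r : ℕ) : ℝ) ^ (-ε)) ∧
      ∀ d j k t : ℕ, 1 ≤ d → Odd t → Equi (B k) (cfW (G j) (moved d R) t) := by
  refine exists_of_random hε _ fun Ω _ P _ S hS hind c κ hc hκ h => ?_
  rw [ae_all_iff]
  intro d
  rw [ae_all_iff]
  intro j
  rw [ae_all_iff]
  intro k
  by_cases hd : 1 ≤ d
  · filter_upwards [randomMoved P S hS hind hc hκ (fun s hs => (h s hs).1) (fun s hs => (h s hs).2)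
      hd (hG j) (B k)] with ω hω t _ ht
    exact hω t ht
  · exact Eventually.of_forall fun ω t h _ => absurd h hd

end Pool.Agent.N493.PG
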