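import Pool.Agent.W472.AC.EMeas2

/-!
# Near relations `P(e) + Q(e) ξ`
-/

set_option autoImplicit false

namespace Pool.Agent.N493.RF

open Polynomial Finset Filter Topology

/-- the value `P(e) + Q(e) ξ` -/
noncomputable def val (ξ : ℝ) (v : ℤ[X] × ℤ[X]) : ℝ :=
  aeval (Real.exp 1) v.1 + aeval (Real.exp 1) v.2 * ξ

/-- degrees at most `K`, coefficients at most `H` -/
def Bd (K : ℕ) (H : ℝ) (v : ℤ[X] × ℤ[X]) : Prop :=
  (v.1.natDegree ≤ K ∧ ∀ j, |(v.1.coeff j : ℝ)| ≤ H) ∧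
    (v.2.natDegree ≤ K ∧ ∀ j, |(v.2.coeff j : ℝ)| ≤ H)

/-- the same fraction -/
def Same (u v : ℤ[X] × ℤ[X]) : Prop := u.1 * v.2 = v.1 * u.2

/-- a bound for the values -/
noncomputable def M (K : ℕ) : ℝ := (K + 1) * Real.exp 1 ^ K

lemma M_pos (K : ℕ) : 0 < M K := by unfold M; positivity

lemma eval_le (K : ℕ) (P : ℤ[X]) (H : ℝ) (h1 : P.natDegree ≤ K)
    (h2 : ∀ j, |(P.coeff j : ℝ)| ≤ H) : |aeval (Real.exp 1) P| ≤ M K * H := by
  have he : 1 ≤ Real.exp 1 := Real.one_le_exp (by norm_num)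
  have hH : 0 ≤ H := (abs_nonneg _).trans (h2 0)
  rw [aeval_eq_sum_range' (show P.natDegree < K + 1 by omega)]
  calc |∑ i ∈ range (K + 1), P.coeff i • Real.exp 1 ^ i|
      ≤ ∑ i ∈ range (K + 1), |P.coeff i • Real.exp 1 ^ i| := abs_sum_le_sum_abs _ _
    _ ≤ ∑ _i ∈ range (K + 1), H * Real.exp 1 ^ K := by
        refine Finset.sum_le_sum fun i hi => ?_
        rw [zsmul_eq_mul, abs_mul, abs_of_pos (show 0 < Real.exp 1 ^ i by positivity)]
        have hi' : i ≤ K := by have := mem_range.1 hi; omega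
        exact mul_le_mul (h2 i) (pow_le_pow_right₀ he hi') (by positivity) hH
    _ = M K * H := by
        rw [sum_const, card_range, nsmul_eq_mul]
        unfold M
        push_cast
        ring

lemma coeff_mul_le (K : ℕ) (P Q : ℤ[X]) (H H' : ℝ) (h1 : P.natDegree ≤ K)
    (h2 : ∀ j, |(P.coeff j : ℝ)| ≤ H) (h3 : ∀ j, |(Q.coeff j : ℝ)| ≤ H') (j : ℕ) :
    |((P * Q).coeff j : ℝ)| ≤ (K + 1) * (H * H') := by
  have hH : 0 ≤ H := (abs_nonneg _).trans (h2 0)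
  have hH' : 0 ≤ H' := (abs_nonneg _).trans (h3 0)
  rw [coeff_mul, Finset.Nat.sum_antidiagonal_eq_sum_range_succ_mk]
  push_cast
  calc |∑ i ∈ range (j + 1), (P.coeff i : ℝ) * (Q.coeff (j - i) : ℝ)|
      ≤ ∑ i ∈ range (j + 1), |(P.coeff i : ℝ) * (Q.coeff (j - i) : ℝ)| := abs_sum_le_sum_abs _ _
    _ ≤ ∑ i ∈ range (j + 1), if i ∈ range (K + 1) then H * H' else 0 := by
        refine Finset.sum_le_sum fun i hi => ?_
        rw [abs_mul]
        split_ifs with h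
        · exact mul_le_mul (h2 i) (h3 _) (abs_nonneg _) hH
        · rw [mem_range] at h
          rw [coeff_eq_zero_of_natDegree_lt (by omega : P.natDegree < i)]
          simp
    _ = ∑ i ∈ (range (j + 1)).filter (· ∈ range (K + 1)), H * H' := by
        rw [Finset.sum_filter]
    _ ≤ ∑ _i ∈ range (K + 1), H * H' := by
        apply Finset.sum_le_sum_of_subset_of_nonneg
        · intro i hi
          exact (mem_filter.1 hi).2
        · intro i _ _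
          positivity
    _ = (K + 1) * (H * H') := by
        rw [sum_const, card_range, nsmul_eq_mul]
        push_cast
        ring

/-- the basic inequality -/
theorem cross (K : ℕ) (η : ℝ) (hη : 0 < η) : ∃ c : ℝ, 0 < c ∧ ∀ (ξ H H' : ℝ) (u v : ℤ[X] × ℤ[X]),
    1 ≤ H → 1 ≤ H' → Bd K H u → Bd K H' v → ¬ Same u v →
    c ≤ (2 * (K + 1) * (H * H')) ^ (2 * (K : ℝ) + η) * (M K * (H' * |val ξ u| + H * |val ξ v|)) := by
  obtain ⟨c, hc, h⟩ := Pool.Agent.W472.AC.e_measP (2 * K) η hη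
  refine ⟨c, hc, fun ξ H H' u v hH hH' hu hv hs => ?_⟩
  obtain ⟨R, hR⟩ : ∃ R : ℤ[X], R = u.1 * v.2 - v.1 * u.2 := ⟨_, rfl⟩
  have hR0 : R ≠ 0 := by
    intro h0
    apply hs
    unfold Same
    rw [hR] at h0
    exact sub_eq_zero.1 h0
  have hdeg : R.natDegree ≤ 2 * K := by
    rw [hR]
    refine (natDegree_sub_le _ _).trans (max_le ?_ ?_)
    · refine natDegree_mul_le.trans ?_
      have := hu.1.1
      have := hv.2.1
      omega
    · refine natDegree_mul_le.trans ?_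
      have := hv.1.1
      have := hu.2.1
      omega
  have hHH : 1 ≤ H * H' := by nlinarith
  have hK0 : (0 : ℝ) ≤ K := Nat.cast_nonneg K
  have hco : ∀ j, |(R.coeff j : ℝ)| ≤ 2 * (K + 1) * (H * H') := by
    intro j
    rw [hR, coeff_sub]
    push_cast
    refine (abs_sub _ _).trans ?_
    have h1 := coeff_mul_le K u.1 v.2 H H' hu.1.1 hu.1.2 hv.2.2 j
    have h2 := coeff_mul_le K v.1 u.2 H' H hv.1.1 hv.1.2 hu.2.2 j
    have h3 : H' * H = H * H' := mul_comm _ _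
    rw [h3] at h2
    linarith
  have h1 := h R hR0 hdeg (2 * (K + 1) * (H * H')) (by nlinarith) hco
  have hexp : (((2 * K : ℕ) : ℝ) + η) = 2 * (K : ℝ) + η := by push_cast; ring
  rw [hexp] at h1
  refine h1.trans ?_
  apply mul_le_mul_of_nonneg_left _ (by positivity)
  have e1 : aeval (Real.exp 1) R = aeval (Real.exp 1) v.2 * val ξ u -
      aeval (Real.exp 1) u.2 * val ξ v := by
    rw [hR]
    unfold val
    simp only [map_sub, map_mul]
    ring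
  rw [e1]
  refine (abs_sub _ _).trans ?_
  rw [abs_mul, abs_mul]
  have h3 := mul_le_mul_of_nonneg_right (eval_le K v.2 H' hv.2.1 hv.2.2) (abs_nonneg (val ξ u))
  have h4 := mul_le_mul_of_nonneg_right (eval_le K u.2 H hu.2.1 hu.2.2) (abs_nonneg (val ξ v))
  linarith

/-- near relations at one scale -/
theorem scale (K : ℕ) (ε : ℝ) (hε : 0 < ε) : ∃ c : ℝ, 0 < c ∧ ∀ (ξ X : ℝ) (u v : ℤ[X] × ℤ[X]),
    1 ≤ X → Bd K X u → Bd K X v → |val ξ u| ≤ c * X ^ (-(4 * (K : ℝ) + 1) - ε) →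
    |val ξ v| ≤ c * X ^ (-(4 * (K : ℝ) + 1) - ε) → Same u v := by
  obtain ⟨c, hc, h⟩ := cross K (ε / 2) (by linarith)
  obtain ⟨A, hA⟩ : ∃ A : ℝ, A = (2 * ((K : ℝ) + 1)) ^ (2 * (K : ℝ) + ε / 2) * (M K * 2) := ⟨_, rfl⟩
  have hA0 : 0 < A := by rw [hA]; have := M_pos K; positivity
  refine ⟨c / (2 * A), by positivity, fun ξ X u v hX hu hv h1 h2 => ?_⟩
  by_contra hs
  have h3 := h ξ X X u v hX hX hu hv hs
  have hX0 : 0 < X := by linarith
  obtain ⟨c', hc'⟩ : ∃ c' : ℝ, c' = c / (2 * A) := ⟨_, rfl⟩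
  rw [← hc'] at h1 h2
  have hc'A : c' * (2 * A) = c := by rw [hc']; field_simp
  have hc'0 : 0 < c' := by rw [hc']; positivity
  have e1 : X * X ^ (-(4 * (K : ℝ) + 1) - ε) = X ^ (-(4 * (K : ℝ)) - ε) := by
    nth_rewrite 1 [← Real.rpow_one X]
    rw [← Real.rpow_add hX0]; congr 1; ring
  have h4 : X * |val ξ u| + X * |val ξ v| ≤ 2 * c' * X ^ (-(4 * (K : ℝ)) - ε) := by
    have a1 := mul_le_mul_of_nonneg_left h1 hX0.le
    have a2 := mul_le_mul_of_nonneg_left h2 hX0.le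
    rw [← e1]
    linarith
  have h5 : (2 * (K + 1) * (X * X)) ^ (2 * (K : ℝ) + ε / 2) =
      (2 * ((K : ℝ) + 1)) ^ (2 * (K : ℝ) + ε / 2) * X ^ (4 * (K : ℝ) + ε) := by
    rw [Real.mul_rpow (by positivity) (by positivity)]
    congr 1
    have : X * X = X ^ (2 : ℝ) := by
      rw [← Real.rpow_one X, ← Real.rpow_add (by positivity)]
      norm_num
    rw [this, ← Real.rpow_mul hX0.le]
    congr 1
    ring
  rw [h5] at h3
  have hM := M_pos K
  have h6 : c ≤ (2 * ((K : ℝ) + 1)) ^ (2 * (K : ℝ) + ε / 2) * X ^ (4 * (K : ℝ) + ε) *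
      (M K * (2 * c' * X ^ (-(4 * (K : ℝ)) - ε))) := by
    refine h3.trans (mul_le_mul_of_nonneg_left (mul_le_mul_of_nonneg_left h4 hM.le) (by positivity))
  have e2 : X ^ (4 * (K : ℝ) + ε) * X ^ (-(4 * (K : ℝ)) - ε) = 1 := by
    rw [← Real.rpow_add hX0]
    have : 4 * (K : ℝ) + ε + (-(4 * (K : ℝ)) - ε) = 0 := by ring
    rw [this, Real.rpow_zero]
  have e3 : (2 * ((K : ℝ) + 1)) ^ (2 * (K : ℝ) + ε / 2) * X ^ (4 * (K : ℝ) + ε) *
      (M K * (2 * c' * X ^ (-(4 * (K : ℝ)) - ε))) = c' * A := by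
    rw [hA]
    linear_combination ((2 * ((K : ℝ) + 1)) ^ (2 * (K : ℝ) + ε / 2) * M K * 2 * c') * e2
  rw [e3] at h6
  nlinarith [mul_pos hc'0 hA0]

/-- near relations at neighbouring scales, and the nonvanishing of the denominator -/
theorem step (K : ℕ) (w η : ℝ) (hw : 4 * (K : ℝ) + 1 < w) (hη : 0 < η) :
    ∃ Y₀ : ℝ, 1 ≤ Y₀ ∧
      (∀ (ξ X X' : ℝ) (u v : ℤ[X] × ℤ[X]), Y₀ ≤ X → X ≤ X' → X' ≤ 2 * X → Bd K X u → Bd K X' v →
        |val ξ u| ≤ X ^ (-w) → |val ξ v| ≤ X' ^ (-w) → Same u v) ∧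
      (∀ (ξ X : ℝ) (v : ℤ[X] × ℤ[X]), Y₀ ≤ X → Bd K X v → v ≠ 0 → |val ξ v| ≤ X ^ (-w) →
        v.2 ≠ 0) ∧
      (∀ (X : ℝ) (Q : ℤ[X]), Y₀ ≤ X → Q.natDegree ≤ K → (∀ j, |(Q.coeff j : ℝ)| ≤ X) → Q ≠ 0 →
        M K * X ^ (-((K : ℝ) + η)) ≤ |aeval (Real.exp 1) Q|) := by
  obtain ⟨θ, hθ⟩ : ∃ θ : ℝ, θ = w - (4 * (K : ℝ) + 1) := ⟨_, rfl⟩
  have hθ0 : 0 < θ := by rw [hθ]; linarith
  have hK0 : (0 : ℝ) ≤ K := Nat.cast_nonneg K
  obtain ⟨c, hc, h⟩ := cross K (θ / 4) (by linarith)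
  obtain ⟨c₂, hc₂, h₂⟩ := Pool.Agent.W472.AC.e_measP K (η / 2) (by linarith)
  obtain ⟨c₃, hc₃, h₃⟩ := Pool.Agent.W472.AC.e_measP K 1 one_pos
  have hM := M_pos K
  obtain ⟨A, hA⟩ : ∃ A : ℝ, A = (4 * ((K : ℝ) + 1)) ^ (2 * (K : ℝ) + θ / 4) * (M K * 3) := ⟨_, rfl⟩
  have hA0 : 0 < A := by rw [hA]; positivity
  have t1 : ∀ᶠ X : ℝ in atTop, X ^ (-(θ / 2)) < c / A :=
    (tendsto_rpow_neg_atTop (by linarith : 0 < θ / 2)).eventually_lt_const (by positivity)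
  have t2 : ∀ᶠ X : ℝ in atTop, X ^ (-(η / 2)) < c₂ / M K :=
    (tendsto_rpow_neg_atTop (by linarith : 0 < η / 2)).eventually_lt_const (by positivity)
  have t3 : ∀ᶠ X : ℝ in atTop, X ^ (-(w - (K + 1))) < c₃ :=
    (tendsto_rpow_neg_atTop (by linarith : 0 < w - (K + 1))).eventually_lt_const hc₃
  obtain ⟨Y, hY⟩ := eventually_atTop.1 ((t1.and t2).and t3)
  refine ⟨max Y 1, le_max_right _ _, ?_, ?_, ?_⟩
  · intro ξ X X' u v hX hXX hXX2 hu hv h1 h2
    have hX1 : 1 ≤ X := (le_max_right _ _).trans hX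
    have hX0 : 0 < X := by linarith
    have hX'0 : 0 < X' := by linarith
    by_contra hs
    have h3 := h ξ X X' u v hX1 (by linarith) hu hv hs
    have h4 : (2 * (K + 1) * (X * X')) ^ (2 * (K : ℝ) + θ / 4) ≤
        (4 * ((K : ℝ) + 1)) ^ (2 * (K : ℝ) + θ / 4) * X ^ (4 * (K : ℝ) + θ / 2) := by
      have a1 : 2 * ((K : ℝ) + 1) * (X * X') ≤ (4 * ((K : ℝ) + 1)) * (X * X) := by
        have a0 := mul_le_mul_of_nonneg_left hXX2 hX0.le
        nlinarith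
      have a2 := Real.rpow_le_rpow (by positivity) a1 (show 0 ≤ 2 * (K : ℝ) + θ / 4 by linarith)
      refine a2.trans (le_of_eq ?_)
      rw [Real.mul_rpow (by positivity) (by positivity)]
      congr 1
      have : X * X = X ^ (2 : ℝ) := by
        rw [← Real.rpow_one X, ← Real.rpow_add (by positivity)]
        norm_num
      rw [this, ← Real.rpow_mul hX0.le]
      congr 1
      ring
    have e1 : X * X ^ (-w) = X ^ (1 - w) := by
      nth_rewrite 1 [← Real.rpow_one X]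
      rw [← Real.rpow_add hX0]; congr 1
    have h5 : X' * |val ξ u| + X * |val ξ v| ≤ 3 * X ^ (1 - w) := by
      have a1 := mul_le_mul hXX2 h1 (abs_nonneg _) (by linarith)
      have a3 : X' ^ (-w) ≤ X ^ (-w) := Real.rpow_le_rpow_of_nonpos hX0 hXX (by linarith)
      have a2 := mul_le_mul_of_nonneg_left (h2.trans a3) hX0.le
      rw [← e1]
      linarith
    have h6 : c ≤ (4 * ((K : ℝ) + 1)) ^ (2 * (K : ℝ) + θ / 4) * X ^ (4 * (K : ℝ) + θ / 2) *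
        (M K * (3 * X ^ (1 - w))) :=
      h3.trans (mul_le_mul h4 (mul_le_mul_of_nonneg_left h5 hM.le) (by positivity) (by positivity))
    have e2 : X ^ (4 * (K : ℝ) + θ / 2) * X ^ (1 - w) = X ^ (-(θ / 2)) := by
      rw [← Real.rpow_add hX0]
      congr 1
      rw [hθ]; ring
    have e3 : (4 * ((K : ℝ) + 1)) ^ (2 * (K : ℝ) + θ / 4) * X ^ (4 * (K : ℝ) + θ / 2) *
        (M K * (3 * X ^ (1 - w))) = A * X ^ (-(θ / 2)) := by
      rw [hA]
      linear_combination ((4 * ((K : ℝ) + 1)) ^ (2 * (K : ℝ) + θ / 4) * M K * 3) * e2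
    rw [e3] at h6
    have h7 := (hY X ((le_max_left _ _).trans hX)).1.1
    rw [lt_div_iff₀ hA0] at h7
    linarith
  · intro ξ X v hX hv hv0 h1 hv2
    have hX1 : 1 ≤ X := (le_max_right _ _).trans hX
    have hX0 : 0 < X := by linarith
    have hv1 : v.1 ≠ 0 := by
      intro h0
      exact hv0 (Prod.ext h0 hv2)
    have h3 := h₃ v.1 hv1 hv.1.1 X hX1 hv.1.2
    have e1 : val ξ v = aeval (Real.exp 1) v.1 := by
      unfold val
      rw [hv2]
      simp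
    rw [← e1] at h3
    have h4 : c₃ ≤ X ^ ((K : ℝ) + 1) * X ^ (-w) :=
      h3.trans (mul_le_mul_of_nonneg_left h1 (by positivity))
    rw [← Real.rpow_add hX0] at h4
    have h5 := (hY X ((le_max_left _ _).trans hX)).2
    have e2 : (K : ℝ) + 1 + -w = -(w - (K + 1)) := by ring
    rw [e2] at h4
    linarith
  · intro X Q hX hQ1 hQ2 hQ0
    have hX1 : 1 ≤ X := (le_max_right _ _).trans hX
    have hX0 : 0 < X := by linarith
    have h3 := h₂ Q hQ0 hQ1 X hX1 hQ2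
    have h4 := (hY X ((le_max_left _ _).trans hX)).1.2
    rw [lt_div_iff₀ hM] at h4
    have e1 : X ^ (-((K : ℝ) + η)) = X ^ (-(η / 2)) * X ^ (-((K : ℝ) + η / 2)) := by
      rw [← Real.rpow_add hX0]
      congr 1
      ring
    have h5 : X ^ (-(η / 2)) * M K ≤ X ^ ((K : ℝ) + η / 2) * |aeval (Real.exp 1) Q| := h4.le.trans h3
    have e2 : X ^ (-((K : ℝ) + η / 2)) * X ^ ((K : ℝ) + η / 2) = 1 := by
      rw [← Real.rpow_add hX0]
      have : -((K : ℝ) + η / 2) + ((K : ℝ) + η / 2) = 0 := by ring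
      rw [this, Real.rpow_zero]
    calc M K * X ^ (-((K : ℝ) + η)) = X ^ (-((K : ℝ) + η / 2)) * (X ^ (-(η / 2)) * M K) := by
          rw [e1]; ring
      _ ≤ X ^ (-((K : ℝ) + η / 2)) * (X ^ ((K : ℝ) + η / 2) * |aeval (Real.exp 1) Q|) :=
          mul_le_mul_of_nonneg_left h5 (by positivity)
      _ = |aeval (Real.exp 1) Q| := by rw [← mul_assoc, e2, one_mul]

/-- near relations at all scales of an interval -/
theorem interval (K : ℕ) (w η : ℝ) (hw : 4 * (K : ℝ) + 1 < w) (hη : 0 < η) :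
    ∃ Y₀ : ℝ, 1 ≤ Y₀ ∧ ∀ ξ Y Z : ℝ, Y₀ ≤ Y → Y ≤ Z →
      (∀ X : ℝ, Y ≤ X → X ≤ Z → ∃ v : ℤ[X] × ℤ[X], v ≠ 0 ∧ Bd K X v ∧ |val ξ v| ≤ X ^ (-w)) →
      ∀ v : ℤ[X] × ℤ[X], v ≠ 0 → Bd K Y v → |val ξ v| ≤ Y ^ (-w) →
        v.2 ≠ 0 ∧ |val ξ v| ≤ Y * Z ^ (-(w - K) + η) := by
  obtain ⟨Y₀, hY₀, hstep, hne, hlow⟩ := step K w η hw hη
  have hK0 : (0 : ℝ) ≤ K := Nat.cast_nonneg K
  have hM := M_pos K
  refine ⟨Y₀, hY₀, fun ξ Y Z hY hYZ hU u hu0 hu hu1 => ?_⟩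
  have hu2 := hne ξ Y u hY hu hu0 hu1
  refine ⟨hu2, ?_⟩
  have key : ∀ n : ℕ, ∀ X : ℝ, Y ≤ X → X ≤ Z → X ≤ 2 ^ n * Y → ∀ v : ℤ[X] × ℤ[X], v ≠ 0 →
      Bd K X v → |val ξ v| ≤ X ^ (-w) → Same u v := by
    intro n
    induction n with
    | zero =>
      intro X h1 h2 h3 v hv0 hv hv1
      rw [pow_zero, one_mul] at h3
      exact hstep ξ Y X u v hY h1 (by linarith) hu hv hu1 hv1
    | succ n ih =>
      intro X h1 h2 h3 v hv0 hv hv1
      obtain ⟨X', hX'⟩ : ∃ X' : ℝ, X' = max Y (X / 2) := ⟨_, rfl⟩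
      have hX1 : Y ≤ X' := by rw [hX']; exact le_max_left _ _
      have hX2 : X / 2 ≤ X' := by rw [hX']; exact le_max_right _ _
      have hY1 : 1 ≤ Y := hY₀.trans hY
      have hX3 : X' ≤ X := by rw [hX']; exact max_le h1 (by linarith)
      have hX4 : X' ≤ 2 ^ n * Y := by
        rw [hX']
        apply max_le
        · have : (1 : ℝ) ≤ 2 ^ n := one_le_pow₀ (by norm_num)
          nlinarith
        · rw [pow_succ] at h3
          linarith
      obtain ⟨v', hv'0, hv', hv'1⟩ := hU X' hX1 (hX3.trans h2)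
      have h4 := ih X' hX1 (hX3.trans h2) hX4 v' hv'0 hv' hv'1
      have h5 := hstep ξ X' X v' v (hY.trans hX1) hX3 (by linarith) hv' hv hv'1 hv1
      have h6 := hne ξ X' v' (hY.trans hX1) hv' hv'0 hv'1
      unfold Same at h4 h5 ⊢
      apply mul_left_cancel₀ h6
      linear_combination v.2 * h4 + u.2 * h5
  obtain ⟨v, hv0, hv, hv1⟩ := hU Z hYZ le_rfl
  have hY1 : 1 ≤ Y := hY₀.trans hY
  obtain ⟨n, hn⟩ : ∃ n : ℕ, Z ≤ 2 ^ n * Y := by
    obtain ⟨n, hn⟩ := exists_nat_ge Z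
    refine ⟨n, ?_⟩
    have h1 : (n : ℝ) ≤ 2 ^ n := by exact_mod_cast (Nat.lt_two_pow_self (n := n)).le
    have h2 : (0 : ℝ) ≤ 2 ^ n := by positivity
    nlinarith
  have hs := key n Z hYZ le_rfl hn v hv0 hv hv1
  have hv2 := hne ξ Z v (hY.trans hYZ) hv hv0 hv1
  have h1 := hlow Z v.2 (hY.trans hYZ) hv.2.1 hv.2.2 hv2
  have hZ0 : 0 < Z := by linarith
  have e1 : val ξ u * aeval (Real.exp 1) v.2 = val ξ v * aeval (Real.exp 1) u.2 := by
    unfold Same at hs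
    have h2 := congrArg (aeval (Real.exp 1)) hs
    simp only [map_mul] at h2
    unfold val
    linear_combination h2
  have h2 : |val ξ u| * |aeval (Real.exp 1) v.2| = |val ξ v| * |aeval (Real.exp 1) u.2| := by
    rw [← abs_mul, ← abs_mul, e1]
  have h3 : |val ξ u| * (M K * Z ^ (-((K : ℝ) + η))) ≤ Z ^ (-w) * (M K * Y) := by
    calc |val ξ u| * (M K * Z ^ (-((K : ℝ) + η))) ≤ |val ξ u| * |aeval (Real.exp 1) v.2| :=
          mul_le_mul_of_nonneg_left h1 (abs_nonneg _)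
      _ = |val ξ v| * |aeval (Real.exp 1) u.2| := h2
      _ ≤ Z ^ (-w) * (M K * Y) :=
          mul_le_mul hv1 (eval_le K u.2 Y hu.2.1 hu.2.2) (abs_nonneg _) (by positivity)
  have h4 : |val ξ u| * Z ^ (-((K : ℝ) + η)) ≤ Z ^ (-w) * Y := by
    have h5 : M K * (|val ξ u| * Z ^ (-((K : ℝ) + η))) ≤ M K * (Z ^ (-w) * Y) := by linarith
    exact le_of_mul_le_mul_left h5 hM
  have e2 : Z ^ (-((K : ℝ) + η)) * Z ^ ((K : ℝ) + η) = 1 := by
    rw [← Real.rpow_add hZ0]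
    have : -((K : ℝ) + η) + ((K : ℝ) + η) = 0 := by ring
    rw [this, Real.rpow_zero]
  calc |val ξ u| = |val ξ u| * Z ^ (-((K : ℝ) + η)) * Z ^ ((K : ℝ) + η) := by
        rw [mul_assoc, e2, mul_one]
    _ ≤ Z ^ (-w) * Y * Z ^ ((K : ℝ) + η) := mul_le_mul_of_nonneg_right h4 (by positivity)
    _ = Y * Z ^ (-(w - K) + η) := by
        have : Z ^ (-(w - K) + η) = Z ^ (-w) * Z ^ ((K : ℝ) + η) := by
          rw [← Real.rpow_add hZ0]
          congr 1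
          ring
        rw [this]
        ring

end Pool.Agent.N493.RF
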