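import Pool.Agent.N493.NRNu
import Pool.Agent.TH817.Z3.Z
import Pool.Agent.TH250.Z3.Arch

/-!
# The measure of irrationality of `ζ(3)`
-/

set_option autoImplicit false

namespace Pool.Agent.N493

/-- `Q ^ 3.68 |Q ζ(3) - m| ≥ c` -/
theorem nu_zeta3 : ∃ c : ℝ, 0 < c ∧ NRNu.Nu (∑' n : ℕ, 1 / ((n : ℝ) + 1) ^ 3) 3.68 c := by
  have hZ : ∃ c : ℝ, 0 < c ∧ ∀ (p : ℤ) (q : ℕ), 0 < q →
      c / (q : ℝ) ^ ((468 : ℝ) / 100) ≤ |(∑' n : ℕ, 1 / ((n : ℝ) + 1) ^ 3) - (p : ℝ) / q| :=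
    Pool.Agent.TH817.Z3.Z_pre Pool.Agent.TH250.Z3.AM
  obtain ⟨c, hc, h⟩ := hZ
  refine ⟨c, hc, fun Q hQ m => ?_⟩
  have hQ0 : (0 : ℝ) < Q := by exact_mod_cast hQ
  have h1 := h m Q hQ
  have e1 : (∑' n : ℕ, 1 / ((n : ℝ) + 1) ^ 3) - (m : ℝ) / Q =
      ((Q : ℝ) * (∑' n : ℕ, 1 / ((n : ℝ) + 1) ^ 3) - m) / Q := by
    field_simp
  rw [e1, abs_div, abs_of_pos hQ0, div_le_div_iff₀ (by positivity) hQ0] at h1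
  have e2 : (Q : ℝ) ^ ((468 : ℝ) / 100) = (Q : ℝ) ^ (3.68 : ℝ) * Q := by
    nth_rewrite 3 [← Real.rpow_one (Q : ℝ)]
    rw [← Real.rpow_add hQ0]
    norm_num
  rw [e2] at h1
  have h2 : c * Q ≤ ((Q : ℝ) ^ (3.68 : ℝ) * |(Q : ℝ) * (∑' n : ℕ, 1 / ((n : ℝ) + 1) ^ 3) - m|) * Q := by
    linarith
  exact le_of_mul_le_mul_right h2 hQ0

end Pool.Agent.N493
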