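import Pool.Agent.N493.NRNu3
import Pool.Agent.N493.Z3Nu
import Pool.Agent.Results.MP_c2395a_nt.NearRelationsZeta357

/-!
# Separation of `ζ(5)` and `ζ(7)` relative to `ζ(3)`
-/

set_option autoImplicit false

namespace Pool.Agent.N493

/-- `ζ(5)` and `ζ(7)` have no near relations at the same scale -/
theorem sep_57 : ∃ c' : ℝ, 0 < c' ∧ NRNu.Sep (∑' n : ℕ, 1 / ((n : ℝ) + 1) ^ 3)
    (∑' n : ℕ, 1 / ((n : ℝ) + 1) ^ 5) (∑' n : ℕ, 1 / ((n : ℝ) + 1) ^ 7) 2141 c' := by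
  obtain ⟨c, hc, hNu⟩ := nu_zeta3
  obtain ⟨c₀, hc₀, h⟩ := Pool.Agent.Results.MP_c2395a_nt.NearRelationsZeta357.result.1 0
  refine NRNu.sep_four _ _ _ 3.68 c 2141 c₀ (by norm_num) hc hNu (by norm_num) hc₀ ?_
  intro X hX v hv hvX
  obtain ⟨k, hk⟩ := h Fin.elim0 X hX (fun k => (v k, 0))
    (hv.map' (LinearMap.inl ℤ (Fin 4 → ℤ) (Fin 0 → ℤ)) (LinearMap.ker_eq_bot.2 LinearMap.inl_injective))
    (fun k => by
      rw [Prod.norm_def, norm_zero]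
      exact max_le (hvX k) (by linarith))
  refine ⟨k, ?_⟩
  rw [Fin.sum_univ_zero, add_zero] at hk
  have e : (-(2142 * ((0 : ℕ) : ℝ) + 2141)) = (-2141 : ℝ) := by norm_num
  rw [e] at hk
  exact hk

end Pool.Agent.N493
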