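import Pool.Agent.N493.SimU4
import Pool.Agent.N493.NRNu3

/-!
# Intervals of scales without good simultaneous approximations
-/

set_option autoImplicit false

namespace Pool.Agent.N493.Sim

open Filter Topology Pool.Agent.N493.NRNu Pool.Agent.N493.NR

/-- two separated numbers have no good simultaneous approximations on a long interval -/
theorem gap_sim (t ν c : ℝ) (hν : 0 < ν) (hc0 : 0 < c) (hc : Nu t ν c) (l κ η : ℝ)
    (hl0 : 0 < l) (hl1 : l ≤ 1) (hl : ν * ((1 - l) / l) < l) (hκ1 : 1 ≤ κ) (hκ : ν < κ * l)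
    (hη : ν * ((1 - l) / l) < η) (ξ₁ ξ₂ m c' : ℝ) (hc' : 0 < c') (hS : Sep t ξ₁ ξ₂ m c')
    (M : ℝ) (hM1 : κ ≤ M) (hM : η * (m + 1) < M * (l + l / ν))
    (ι : Type) [Finite ι] (θ : ι → ℝ) (i0 i1 i2 : ι) (h0 : θ i0 = t) (h1 : θ i1 = ξ₁)
    (h2 : θ i2 = ξ₂) :
    ∃ Y1 : ℝ, ∀ Y : ℝ, Y1 ≤ Y → ∃ X : ℝ, Y ≤ X ∧ X ≤ Y ^ M ∧ ¬ Uni θ l X := by
  obtain ⟨Y0, hY0, h⟩ := local_sim t ν c hν hc0 hc l κ η hl0 hl1 hl hκ1 hκ hη
  have htend := tendsto_rpow_neg_atTop (show (0 : ℝ) < M * (l + l / ν) - η * (m + 1) by linarith)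
  obtain ⟨Y1, hY1⟩ := eventually_atTop.1 (htend.eventually_lt_const hc')
  have hη0 : 0 < η := by
    refine lt_of_le_of_lt ?_ hη
    exact mul_nonneg hν.le (div_nonneg (by linarith) hl0.le)
  refine ⟨max Y0 Y1, fun Y hY => ?_⟩
  have hYY0 := (le_max_left _ _).trans hY
  have hY2 : 2 ≤ Y := hY0.trans hYY0
  have hYp : 0 < Y := by linarith
  by_contra hI
  push Not at hI
  have hYM : Y ^ κ ≤ Y ^ M := Real.rpow_le_rpow_of_exponent_le (by linarith) hM1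
  obtain ⟨d, hd0, hd1, hd2⟩ := h ι θ i0 h0 Y (Y ^ M) hYY0 hYM fun X h1 h2 => hI X h1 h2
  obtain ⟨a, b, hb, hab⟩ := hd2 i1
  obtain ⟨a', b', hb', hab'⟩ := hd2 i2
  rw [h1] at hab
  rw [h2] at hab'
  have hht : ∀ a b : ℤ, |(b : ℝ)| ≤ Y ^ η → ((ht (a, b, d) : ℕ) : ℝ) ≤ Y ^ η := by
    intro a b hb
    unfold ht
    rw [Nat.cast_max, Nat.cast_natAbs, Nat.cast_natAbs, Int.cast_abs, Int.cast_abs]
    exact max_le hb hd1
  have hYη : 1 ≤ Y ^ η := Real.one_le_rpow (by linarith) hη0.le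
  have hne : ∀ a b : ℤ, ((a, b, d) : ℤ × ℤ × ℤ) ≠ 0 := by
    intro a b h0
    rw [Prod.ext_iff, Prod.ext_iff] at h0
    exact hd0 h0.2.2
  have h3 := hS (Y ^ η) hYη (a, b, d) (a', b', d) (hne _ _) (hne _ _) (hht _ _ hb) (hht _ _ hb')
  have h4 := h3.trans (max_le (show |L t ξ₁ (a, b, d)| ≤ _ from hab)
    (show |L t ξ₂ (a', b', d)| ≤ _ from hab'))
  rw [← Real.rpow_mul hYp.le, ← Real.rpow_mul hYp.le] at h4
  have h5 := hY1 Y ((le_max_right _ _).trans hY)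
  have e1 : Y ^ (-(M * (l + l / ν) - η * (m + 1))) =
      Y ^ η * Y ^ (M * -(l + l / ν)) * Y ^ (η * m) := by
    rw [← Real.rpow_add hYp, ← Real.rpow_add hYp]
    congr 1
    ring
  have e2 : Y ^ (η * -m) * Y ^ (η * m) = 1 := by
    rw [← Real.rpow_add hYp, show η * -m + η * m = 0 by ring, Real.rpow_zero]
  rw [e1] at h5
  have h6 := mul_le_mul_of_nonneg_right h4 (Real.rpow_nonneg hYp.le (η * m))
  rw [mul_assoc, e2, mul_one] at h6
  linarith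

end Pool.Agent.N493.Sim
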