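import Pool.Agent.N493.NRNu

/-!
# Simultaneous approximation of a number of given irrationality measure and of other numbers
-/

set_option autoImplicit false

namespace Pool.Agent.N493.Sim

open Filter Topology Pool.Agent.N493.NRNu

/-- nearest integers -/
noncomputable def y {ι : Type} (θ : ι → ℝ) (q : ℕ) (j : ι) : ℤ := round ((q : ℝ) * θ j)

/-- the quality of the denominator `q` -/
noncomputable def E {ι : Type} (θ : ι → ℝ) (q : ℕ) : ℝ := ⨆ j, |(q : ℝ) * θ j - y θ q j|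

lemma le_E {ι : Type} [Finite ι] (θ : ι → ℝ) (q : ℕ) (j : ι) : |(q : ℝ) * θ j - y θ q j| ≤ E θ q :=
  le_ciSup (f := fun j => |(q : ℝ) * θ j - y θ q j|) (Set.finite_range _).bddAbove j

lemma E_le {ι : Type} [Nonempty ι] (θ : ι → ℝ) (q : ℕ) (δ : ℝ)
    (h : ∀ j, ∃ r : ℤ, |(q : ℝ) * θ j - r| ≤ δ) : E θ q ≤ δ := by
  refine ciSup_le fun j => ?_
  obtain ⟨r, hr⟩ := h j
  exact (round_le _ _).trans hr

lemma E_nonneg {ι : Type} [Finite ι] [Nonempty ι] (θ : ι → ℝ) (q : ℕ) : 0 ≤ E θ q :=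
  (abs_nonneg _).trans (le_E θ q (Classical.arbitrary ι))

/-- the minimum of the quality -/
lemma exists_best {ι : Type} (θ : ι → ℝ) (N : ℕ) (hN : 1 ≤ N) :
    ∃ q : ℕ, 1 ≤ q ∧ q ≤ N ∧ ∀ q' : ℕ, 1 ≤ q' → q' ≤ N → E θ q ≤ E θ q' := by
  obtain ⟨q, hq, h⟩ := Finset.exists_min_image (Finset.Icc 1 N) (E θ) ⟨1, by simp [hN]⟩
  rw [Finset.mem_Icc] at hq
  exact ⟨q, hq.1, hq.2, fun q' h1 h2 => h q' (Finset.mem_Icc.2 ⟨h1, h2⟩)⟩

/-- two denominators of different quality are independent -/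
lemma indep {ι : Type} [Finite ι] [Nonempty ι] (θ : ι → ℝ) (w v : ℕ) (hw : 1 ≤ w) (hwv : w < v)
    (hE : E θ v < E θ w) : ∃ j, (w : ℤ) * y θ v j - v * y θ w j ≠ 0 := by
  by_contra hI
  push Not at hI
  have hw0 : (0 : ℝ) < w := by exact_mod_cast hw
  have hv0 : (0 : ℝ) < v := by exact_mod_cast hw.trans hwv.le
  have : E θ w ≤ E θ v := by
    refine ciSup_le fun j => ?_
    have h1 : (w : ℝ) * y θ v j - v * y θ w j = 0 := by exact_mod_cast hI j
    have h2 : (v : ℝ) * ((w : ℝ) * θ j - y θ w j) = w * ((v : ℝ) * θ j - y θ v j) := by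
      linear_combination h1
    have h3 : (v : ℝ) * |(w : ℝ) * θ j - y θ w j| = w * |(v : ℝ) * θ j - y θ v j| := by
      have := congrArg abs h2
      rwa [abs_mul, abs_mul, abs_of_pos hw0, abs_of_pos hv0] at this
    have h4 := le_E θ v j
    have h5 : (w : ℝ) ≤ v := by exact_mod_cast hwv.le
    have h6 := abs_nonneg ((v : ℝ) * θ j - y θ v j)
    nlinarith
  linarith

/-- three good denominators: the determinant is small -/
lemma det_small {ι : Type} [Finite ι] [Nonempty ι] (θ : ι → ℝ) (w v n : ℕ) (hwv : w < v) (hvn : v < n)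
    (hE1 : E θ v < E θ w) (hE2 : E θ n < E θ v) (i j : ι) :
    |(((w : ℤ) * (y θ v i * y θ n j - y θ v j * y θ n i) - v * (y θ w i * y θ n j - y θ w j * y θ n i) +
      n * (y θ w i * y θ v j - y θ w j * y θ v i) : ℤ) : ℝ)| ≤ 6 * n * (E θ w * E θ v) := by
  obtain ⟨ε, hε⟩ : ∃ ε : ℕ → ι → ℝ, ε = fun (q : ℕ) j => (q : ℝ) * θ j - y θ q j := ⟨_, rfl⟩
  have hεE : ∀ q j, |ε q j| ≤ E θ q := by intro q j; rw [hε]; exact le_E θ q j
  have hy : ∀ q j, (y θ q j : ℝ) = q * θ j - ε q j := by intro q j; rw [hε]; ring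
  have e : (((w : ℤ) * (y θ v i * y θ n j - y θ v j * y θ n i) -
      v * (y θ w i * y θ n j - y θ w j * y θ n i) +
      n * (y θ w i * y θ v j - y θ w j * y θ v i) : ℤ) : ℝ) =
      w * (ε v i * ε n j - ε v j * ε n i) - v * (ε w i * ε n j - ε w j * ε n i) +
      n * (ε w i * ε v j - ε w j * ε v i) := by
    push_cast
    rw [hy, hy, hy, hy, hy, hy]
    ring
  rw [e]
  have hE0 := E_nonneg θ n
  have hwv' : (w : ℝ) ≤ v := by exact_mod_cast hwv.le
  have hvn' : (v : ℝ) ≤ n := by exact_mod_cast hvn.le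
  have hw0 : (0 : ℝ) ≤ w := Nat.cast_nonneg _
  have h2 : ∀ a b : ℕ, |ε a i * ε b j - ε a j * ε b i| ≤ 2 * (E θ a * E θ b) := by
    intro a b
    refine (abs_sub _ _).trans ?_
    rw [abs_mul, abs_mul]
    have h1 := mul_le_mul (hεE a i) (hεE b j) (abs_nonneg _) ((abs_nonneg _).trans (hεE a i))
    have h2 := mul_le_mul (hεE a j) (hεE b i) (abs_nonneg _) ((abs_nonneg _).trans (hεE a j))
    linarith
  have h3 : E θ v * E θ n ≤ E θ w * E θ v := by nlinarith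
  have h4 : E θ w * E θ n ≤ E θ w * E θ v := by nlinarith
  have h5 : 0 ≤ E θ w * E θ v := by nlinarith
  have a1 : |(w : ℝ) * (ε v i * ε n j - ε v j * ε n i)| ≤ n * (2 * (E θ w * E θ v)) := by
    rw [abs_mul, abs_of_nonneg hw0]
    exact mul_le_mul (by linarith) ((h2 v n).trans (by linarith)) (abs_nonneg _) (by linarith)
  have a2 : |(v : ℝ) * (ε w i * ε n j - ε w j * ε n i)| ≤ n * (2 * (E θ w * E θ v)) := by
    rw [abs_mul, abs_of_nonneg (by linarith)]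
    exact mul_le_mul (by linarith) ((h2 w n).trans (by linarith)) (abs_nonneg _) (by linarith)
  have a3 : |(n : ℝ) * (ε w i * ε v j - ε w j * ε v i)| ≤ n * (2 * (E θ w * E θ v)) := by
    rw [abs_mul, abs_of_nonneg (by linarith)]
    exact mul_le_mul le_rfl (h2 w v) (abs_nonneg _) (by linarith)
  have a4 := abs_add_le ((w : ℝ) * (ε v i * ε n j - ε v j * ε n i) -
    v * (ε w i * ε n j - ε w j * ε n i)) ((n : ℝ) * (ε w i * ε v j - ε w j * ε v i))
  have a5 := abs_sub ((w : ℝ) * (ε v i * ε n j - ε v j * ε n i)) (v * (ε w i * ε n j - ε w j * ε n i))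
  linarith

/-- the point of `x` lies in the plane of those of `x0`, `x1` -/
def InP {ι : Type} (θ : ι → ℝ) (x0 x1 x : ℕ) : Prop :=
  ∃ m A B : ℤ, m ≠ 0 ∧ m * x = A * x0 + B * x1 ∧ ∀ j, m * y θ x j = A * y θ x0 j + B * y θ x1 j

lemma inP_left {ι : Type} (θ : ι → ℝ) (x0 x1 : ℕ) : InP θ x0 x1 x0 :=
  ⟨1, 1, 0, one_ne_zero, by ring, fun j => by ring⟩

lemma inP_right {ι : Type} (θ : ι → ℝ) (x0 x1 : ℕ) : InP θ x0 x1 x1 :=
  ⟨1, 0, 1, one_ne_zero, by ring, fun j => by ring⟩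

lemma inP_step {ι : Type} (θ : ι → ℝ) (x0 x1 w v n : ℕ) (hw : InP θ x0 x1 w) (hv : InP θ x0 x1 v)
    (hi : ∃ j, (w : ℤ) * y θ v j - v * y θ w j ≠ 0)
    (hdet : ∀ i j, (w : ℤ) * (y θ v i * y θ n j - y θ v j * y θ n i) -
      v * (y θ w i * y θ n j - y θ w j * y θ n i) + n * (y θ w i * y θ v j - y θ w j * y θ v i) = 0) :
    InP θ x0 x1 n := by
  obtain ⟨i, hi⟩ := hi
  obtain ⟨mw, Aw, Bw, hmw, hw1, hw2⟩ := hw
  obtain ⟨mv, Av, Bv, hmv, hv1, hv2⟩ := hv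
  refine ⟨mw * mv * ((w : ℤ) * y θ v i - v * y θ w i),
    mv * (n * y θ v i - v * y θ n i) * Aw + mw * (w * y θ n i - n * y θ w i) * Av,
    mv * (n * y θ v i - v * y θ n i) * Bw + mw * (w * y θ n i - n * y θ w i) * Bv,
    mul_ne_zero (mul_ne_zero hmw hmv) hi, ?_, fun j => ?_⟩
  · linear_combination mv * (n * y θ v i - v * y θ n i) * hw1 + mw * (w * y θ n i - n * y θ w i) * hv1
  · linear_combination mv * (n * y θ v i - v * y θ n i) * hw2 j +
      mw * (w * y θ n i - n * y θ w i) * hv2 j + mw * mv * hdet i j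

/-- the relation of the plane -/
lemma plane_rel {ι : Type} (θ : ι → ℝ) (x0 x1 x : ℕ) (h : InP θ x0 x1 x) (i j : ι) :
    (y θ x0 i * y θ x1 j - y θ x1 i * y θ x0 j) * x - (x0 * y θ x1 j - x1 * y θ x0 j) * y θ x i +
      (x0 * y θ x1 i - x1 * y θ x0 i) * y θ x j = 0 := by
  obtain ⟨m, A, B, hm, h1, h2⟩ := h
  have h3 := h2 i
  have h4 := h2 j
  have : m * ((y θ x0 i * y θ x1 j - y θ x1 i * y θ x0 j) * x -
      (x0 * y θ x1 j - x1 * y θ x0 j) * y θ x i + (x0 * y θ x1 i - x1 * y θ x0 i) * y θ x j) = 0 := by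
    linear_combination (y θ x0 i * y θ x1 j - y θ x1 i * y θ x0 j) * h1 -
      (x0 * y θ x1 j - x1 * y θ x0 j) * h3 + (x0 * y θ x1 i - x1 * y θ x0 i) * h4
  rcases mul_eq_zero.1 this with h | h
  · exact absurd h hm
  · exact h

lemma cross_le {ι : Type} [Finite ι] [Nonempty ι] (θ : ι → ℝ) (w v : ℕ) (hwv : w < v)
    (hE : E θ v < E θ w) (j : ι) :
    |(((w : ℤ) * y θ v j - v * y θ w j : ℤ) : ℝ)| ≤ 2 * v * E θ w := by
  have e : (((w : ℤ) * y θ v j - v * y θ w j : ℤ) : ℝ) =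
      v * ((w : ℝ) * θ j - y θ w j) - w * ((v : ℝ) * θ j - y θ v j) := by
    push_cast; ring
  rw [e]
  refine (abs_sub _ _).trans ?_
  rw [abs_mul, abs_mul, Nat.abs_cast, Nat.abs_cast]
  have h1 := mul_le_mul_of_nonneg_left (le_E θ w j) (Nat.cast_nonneg (α := ℝ) v)
  have h2 := mul_le_mul_of_nonneg_left (le_E θ v j) (Nat.cast_nonneg (α := ℝ) w)
  have h3 : (w : ℝ) ≤ v := by exact_mod_cast hwv.le
  have h4 := E_nonneg θ v
  nlinarith

end Pool.Agent.N493.Sim
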