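import Pool.Agent.N493.SimU

/-!
# Simultaneous approximation on an interval of scales: the plane
-/

set_option autoImplicit false

namespace Pool.Agent.N493.Sim

open Filter Topology Pool.Agent.N493.NRNu

lemma growth (c K l ν : ℝ) (hc : 0 < c) (hK : 0 < K) (hl0 : 0 < l) (hl1 : l ≤ 1) (n v : ℝ)
    (hn : 0 < n) (hv : 0 < v) (h : c * n ^ l ≤ K * v ^ ν) :
    n ^ (1 - l) ≤ (K / c) ^ ((1 - l) / l) * v ^ (ν * ((1 - l) / l)) := by
  have hσ : 0 ≤ (1 - l) / l := div_nonneg (by linarith) hl0.le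
  have h1 : n ^ l ≤ K / c * v ^ ν := by
    rw [div_mul_eq_mul_div, le_div_iff₀ hc]
    linarith
  have h2 := Real.rpow_le_rpow (by positivity) h1 hσ
  rw [← Real.rpow_mul hn.le, Real.mul_rpow (by positivity) (by positivity),
    ← Real.rpow_mul hv.le, mul_div_cancel₀ _ hl0.ne'] at h2
  exact h2

/-- on an interval of scales all good approximations lie in one plane -/
theorem plane (t ν c : ℝ) (hc0 : 0 < c) (hc : Nu t ν c) (l κ : ℝ)
    (hl0 : 0 < l) (hl1 : l ≤ 1) (hl : ν * ((1 - l) / l) < l) (hκ1 : 1 ≤ κ) (hκ : ν < κ * l) :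
    ∃ Y0 : ℝ, 2 ≤ Y0 ∧ ∀ (ι : Type) [Finite ι] (θ : ι → ℝ) (i0 : ι), θ i0 = t →
      ∀ Y Z : ℝ, Y0 ≤ Y → Y ^ κ ≤ Z →
      (∀ X : ℝ, Y ≤ X → X ≤ Z →
        ∃ q : ℕ, 1 ≤ q ∧ (q : ℝ) ≤ X ∧ ∀ j, ∃ r : ℤ, |(q : ℝ) * θ j - r| ≤ X ^ (-l)) →
      ∃ x0 x1 x : ℕ, 1 ≤ x0 ∧ (x0 : ℝ) ≤ Y ∧ Y < x1 ∧ x1 ≤ x ∧ (x : ℝ) ≤ Z ∧ E θ x1 < E θ x0 ∧
        E θ x0 ≤ 2 ^ l * (x1 : ℝ) ^ (-l) ∧ E θ x ≤ Z ^ (-l) ∧ InP θ x0 x1 x := by
  obtain ⟨K, hK⟩ : ∃ K : ℝ, K = (2 : ℝ) ^ l := ⟨_, rfl⟩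
  have hK0 : 0 < K := by rw [hK]; positivity
  obtain ⟨σ, hσ⟩ : ∃ σ : ℝ, σ = (1 - l) / l := ⟨_, rfl⟩
  have t1 := tendsto_rpow_neg_atTop (show (0 : ℝ) < κ * l - ν by linarith)
  have t2 := (tendsto_rpow_neg_atTop (show (0 : ℝ) < l - ν * σ by rw [hσ]; linarith)).const_mul
    (6 * K ^ 2 * (K / c) ^ σ)
  rw [mul_zero] at t2
  obtain ⟨B1, hB1⟩ := eventually_atTop.1 (t1.eventually_lt_const hc0)
  obtain ⟨B2, hB2⟩ := eventually_atTop.1 (t2.eventually_lt_const one_pos)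
  refine ⟨max 2 (max B1 B2), le_max_left _ _, ?_⟩
  intro ι _ θ i0 hi0 Y Z hY hYZ hU
  have : Nonempty ι := ⟨i0⟩
  have hY2 : 2 ≤ Y := (le_max_left _ _).trans hY
  have hYB1 : B1 ≤ Y := ((le_max_left _ _).trans (le_max_right _ _)).trans hY
  have hYB2 : B2 ≤ Y := ((le_max_right _ _).trans (le_max_right _ _)).trans hY
  have hYκ : Y ≤ Y ^ κ := by
    nth_rewrite 1 [← Real.rpow_one Y]
    exact Real.rpow_le_rpow_of_exponent_le (by linarith) hκ1
  have hYZ' : Y ≤ Z := hYκ.trans hYZ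
  have hZ0 : 0 < Z := by linarith
  -- the measure of irrationality
  have hNu : ∀ x : ℕ, 1 ≤ x → c ≤ (x : ℝ) ^ ν * E θ x := by
    intro x hx
    refine (hc x hx (y θ x i0)).trans ?_
    refine mul_le_mul_of_nonneg_left ?_ (by positivity)
    have := le_E θ x i0
    rwa [hi0] at this
  -- uniform approximation
  have lemU : ∀ n : ℕ, Y < n → (n : ℝ) ≤ Z → ∀ e : ℝ, (∀ q : ℕ, 1 ≤ q → q < n → e ≤ E θ q) →
      e ≤ K * (n : ℝ) ^ (-l) := by
    intro n hn1 hn2 e he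
    have hn2' : (2 : ℝ) < n := by linarith
    obtain ⟨q, hq1, hq2, hq3⟩ := hU (max Y (n - 1 / 2)) (le_max_left _ _)
      (max_le hYZ' (by linarith))
    have h1 : max Y ((n : ℝ) - 1 / 2) < n := max_lt hn1 (by linarith)
    have h2 : q < n := by exact_mod_cast hq2.trans_lt h1
    refine (he q hq1 h2).trans ((E_le θ q _ hq3).trans ?_)
    have h3 : (n : ℝ) / 2 ≤ max Y ((n : ℝ) - 1 / 2) := le_max_of_le_right (by linarith)
    refine (Real.rpow_le_rpow_of_nonpos (by linarith) h3 (by linarith)).trans (le_of_eq ?_)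
    rw [Real.div_rpow (by linarith) (by norm_num), hK, Real.rpow_neg (by norm_num : (0 : ℝ) ≤ 2)]
    field_simp
  have lemZ : ∀ e : ℝ, (∀ q : ℕ, 1 ≤ q → (q : ℝ) ≤ Z → e ≤ E θ q) → e ≤ Z ^ (-l) := by
    intro e he
    obtain ⟨q, hq1, hq2, hq3⟩ := hU Z hYZ' le_rfl
    exact (he q hq1 hq2).trans (E_le θ q _ hq3)
  -- the first point
  obtain ⟨N0, hN0⟩ : ∃ N0 : ℕ, N0 = ⌊Y⌋₊ := ⟨_, rfl⟩
  have hN01 : 1 ≤ N0 := by
    rw [hN0]; exact Nat.le_floor (by push_cast; linarith)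
  have hN0Y : (N0 : ℝ) ≤ Y := by rw [hN0]; exact Nat.floor_le (by linarith)
  have hN0Y' : Y < N0 + 1 := by rw [hN0]; exact Nat.lt_floor_add_one _
  obtain ⟨x0, hx01, hx02, hx0⟩ := exists_best θ N0 hN01
  have hx0Y : (x0 : ℝ) ≤ Y := (by exact_mod_cast hx02 : (x0 : ℝ) ≤ N0).trans hN0Y
  -- the second point
  have hex : ∃ n : ℕ, 1 ≤ n ∧ E θ n < E θ x0 ∧ (n : ℝ) ≤ Z := by
    by_contra hI
    push Not at hI
    have h1 : E θ x0 ≤ Z ^ (-l) := by
      refine lemZ _ fun q hq1 hq2 => ?_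
      by_contra hlt
      push Not at hlt
      exact absurd hq2 (not_le.2 (hI q hq1 hlt))
    have h2 := hNu x0 hx01
    have h3 : (x0 : ℝ) ^ ν * E θ x0 ≤ Y ^ ν * Z ^ (-l) := by
      by_cases hν : 0 ≤ ν
      · exact mul_le_mul (Real.rpow_le_rpow (Nat.cast_nonneg _) hx0Y hν) h1 (E_nonneg _ _)
          (by positivity)
      · exfalso
        push Not at hν
        -- impossible: a negative exponent
        have h4 := hc 1 le_rfl (round t)
        obtain ⟨j, k, hk0, hk1, hk2⟩ := Real.exists_int_int_abs_mul_sub_le t (n := ⌈2 / c⌉₊ + 1)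
          (Nat.succ_pos _)
        have h5 := hc k.natAbs (Int.natAbs_pos.2 hk0.ne') j
        have hkc : ((k.natAbs : ℕ) : ℝ) = k := by
          rw [Nat.cast_natAbs, Int.cast_abs, abs_of_pos (by exact_mod_cast hk0)]
        rw [hkc] at h5
        have h6 : (k : ℝ) ^ ν ≤ 1 :=
          Real.rpow_le_one_of_one_le_of_nonpos (by exact_mod_cast hk0) hν.le
        have h7 : c ≤ 1 * (1 / (((⌈2 / c⌉₊ + 1 : ℕ) : ℝ) + 1)) :=
          h5.trans (mul_le_mul h6 hk2 (abs_nonneg _) zero_le_one)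
        have h8 : 2 / c ≤ (⌈2 / c⌉₊ : ℝ) := Nat.le_ceil _
        rw [one_mul, le_div_iff₀ (by positivity)] at h7
        push_cast at h7
        rw [div_le_iff₀ hc0] at h8
        nlinarith
    have h4 : Z ^ (-l) ≤ (Y ^ κ) ^ (-l) :=
      Real.rpow_le_rpow_of_nonpos (by positivity) hYZ (by linarith)
    rw [← Real.rpow_mul (by linarith)] at h4
    have h5 : Y ^ ν * Z ^ (-l) ≤ Y ^ (-(κ * l - ν)) := by
      refine (mul_le_mul_of_nonneg_left h4 (by positivity)).trans (le_of_eq ?_)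
      rw [← Real.rpow_add (by linarith)]
      congr 1
      ring
    have h6 := hB1 Y hYB1
    linarith
  classical
  obtain ⟨x1, hx1⟩ : ∃ x1, x1 = Nat.find hex := ⟨_, rfl⟩
  have hx1s : 1 ≤ x1 ∧ E θ x1 < E θ x0 ∧ (x1 : ℝ) ≤ Z := by rw [hx1]; exact Nat.find_spec hex
  obtain ⟨hx11, hx1E, hx1Z⟩ := hx1s
  have hx1m : ∀ q : ℕ, 1 ≤ q → q < x1 → E θ x0 ≤ E θ q := by
    intro q hq1 hq2
    by_contra hlt
    push Not at hlt
    rw [hx1] at hq2
    have hq3 : (q : ℝ) ≤ x1 := by rw [hx1]; exact_mod_cast hq2.le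
    exact Nat.find_min hex hq2 ⟨hq1, hlt, hq3.trans hx1Z⟩
  have hx1N : N0 < x1 := by
    by_contra hle
    push Not at hle
    have := hx0 x1 hx11 hle
    linarith
  have hYx1 : Y < x1 := by
    have : (N0 : ℝ) + 1 ≤ x1 := by exact_mod_cast hx1N
    linarith
  have hE0 := lemU x1 hYx1 hx1Z (E θ x0) hx1m
  -- the induction
  have main : ∀ N : ℕ, x1 ≤ N → (N : ℝ) ≤ Z → ∃ w v : ℕ, 1 ≤ w ∧ w < v ∧ x1 ≤ v ∧ v ≤ N ∧
      E θ v < E θ w ∧ (∀ q : ℕ, 1 ≤ q → q < v → E θ w ≤ E θ q) ∧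
      (∀ q : ℕ, 1 ≤ q → q ≤ N → E θ v ≤ E θ q) ∧ InP θ x0 x1 w ∧ InP θ x0 x1 v := by
    intro N hN
    induction N, hN using Nat.le_induction with
    | base =>
      intro _
      refine ⟨x0, x1, hx01, by omega, le_rfl, le_rfl, hx1E, hx1m, ?_, inP_left _ _ _,
        inP_right _ _ _⟩
      intro q hq1 hq2
      rcases hq2.lt_or_eq with h | h
      · exact hx1E.le.trans (hx1m q hq1 h)
      · rw [h]
    | succ N hN ih =>
      intro hNZ
      push_cast at hNZ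
      obtain ⟨w, v, hw1, hwv, hxv, hvN, hE1, hw, hv, hpw, hpv⟩ := ih (by linarith)
      by_cases hlt : E θ (N + 1) < E θ v
      · refine ⟨v, N + 1, by omega, by omega, by omega, le_rfl, hlt, fun q hq1 hq2 =>
          hv q hq1 (by omega), ?_, hpv, ?_⟩
        · intro q hq1 hq2
          rcases hq2.lt_or_eq with h | h
          · exact hlt.le.trans (hv q hq1 (by omega))
          · rw [h]
        · refine inP_step θ x0 x1 w v (N + 1) hpw hpv (indep θ w v hw1 hwv hE1) ?_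
          intro i j
          have hd := det_small θ w v (N + 1) hwv (by omega) hE1 hlt i j
          have hYv : Y < v := hYx1.trans_le (by exact_mod_cast hxv)
          have hv0 : (0 : ℝ) < v := by linarith
          have hn0 : (0 : ℝ) < ((N + 1 : ℕ) : ℝ) := by positivity
          have hvZ : (v : ℝ) ≤ Z := (by exact_mod_cast hvN : (v : ℝ) ≤ N).trans (by linarith)
          have hYn : Y < ((N + 1 : ℕ) : ℝ) := hYv.trans (by exact_mod_cast Nat.lt_succ_of_le hvN)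
          have e1 := lemU v hYv hvZ (E θ w) hw
          have e2 := lemU (N + 1) hYn (by push_cast; exact hNZ) (E θ v)
            fun q hq1 hq2 => hv q hq1 (by omega)
          have e3 := hNu v (by omega)
          have e4 : c * ((N + 1 : ℕ) : ℝ) ^ l ≤ K * (v : ℝ) ^ ν := by
            have h1 : c ≤ (v : ℝ) ^ ν * (K * ((N + 1 : ℕ) : ℝ) ^ (-l)) :=
              e3.trans (mul_le_mul_of_nonneg_left e2 (by positivity))
            have h2 := mul_le_mul_of_nonneg_right h1 (show 0 ≤ ((N + 1 : ℕ) : ℝ) ^ l by positivity)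
            have h3 : ((N + 1 : ℕ) : ℝ) ^ (-l) * ((N + 1 : ℕ) : ℝ) ^ l = 1 := by
              rw [← Real.rpow_add hn0, neg_add_cancel, Real.rpow_zero]
            calc c * ((N + 1 : ℕ) : ℝ) ^ l ≤ _ := h2
              _ = K * (v : ℝ) ^ ν * (((N + 1 : ℕ) : ℝ) ^ (-l) * ((N + 1 : ℕ) : ℝ) ^ l) := by ring
              _ = _ := by rw [h3, mul_one]
          have e5 := growth c K l ν hc0 hK0 hl0 hl1 _ _ hn0 hv0 e4
          rw [← hσ] at e5
          have hEw := E_nonneg θ w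
          have hEv := E_nonneg θ v
          have e6 : 6 * ((N + 1 : ℕ) : ℝ) * (E θ w * E θ v) ≤
              6 * K ^ 2 * (K / c) ^ σ * (v : ℝ) ^ (-(l - ν * σ)) := by
            have h1 : E θ w * E θ v ≤ (K * (v : ℝ) ^ (-l)) * (K * ((N + 1 : ℕ) : ℝ) ^ (-l)) :=
              mul_le_mul e1 e2 hEv (by positivity)
            have h2 : ((N + 1 : ℕ) : ℝ) * ((N + 1 : ℕ) : ℝ) ^ (-l) = ((N + 1 : ℕ) : ℝ) ^ (1 - l) := by
              nth_rewrite 1 [← Real.rpow_one ((N + 1 : ℕ) : ℝ)]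
              rw [← Real.rpow_add hn0]
              congr 1
            calc 6 * ((N + 1 : ℕ) : ℝ) * (E θ w * E θ v) ≤
                6 * ((N + 1 : ℕ) : ℝ) * ((K * (v : ℝ) ^ (-l)) * (K * ((N + 1 : ℕ) : ℝ) ^ (-l))) :=
                  mul_le_mul_of_nonneg_left h1 (by positivity)
              _ = 6 * K ^ 2 * (v : ℝ) ^ (-l) * (((N + 1 : ℕ) : ℝ) * ((N + 1 : ℕ) : ℝ) ^ (-l)) := by
                  ring
              _ = 6 * K ^ 2 * (v : ℝ) ^ (-l) * ((N + 1 : ℕ) : ℝ) ^ (1 - l) := by rw [h2]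
              _ ≤ 6 * K ^ 2 * (v : ℝ) ^ (-l) * ((K / c) ^ σ * (v : ℝ) ^ (ν * σ)) :=
                  mul_le_mul_of_nonneg_left e5 (by positivity)
              _ = 6 * K ^ 2 * (K / c) ^ σ * ((v : ℝ) ^ (-l) * (v : ℝ) ^ (ν * σ)) := by ring
              _ = _ := by
                  rw [← Real.rpow_add hv0]
                  congr 2
                  ring
          have e7 := hB2 v (hYB2.trans hYv.le)
          have e8 := (hd.trans e6).trans_lt e7
          have e9 : |((w : ℤ) * (y θ v i * y θ (N + 1) j - y θ v j * y θ (N + 1) i) -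
              v * (y θ w i * y θ (N + 1) j - y θ w j * y θ (N + 1) i) +
              ((N + 1 : ℕ) : ℤ) * (y θ w i * y θ v j - y θ w j * y θ v i))| < 1 := by
            exact_mod_cast e8
          exact Int.abs_lt_one_iff.1 e9
      · push Not at hlt
        refine ⟨w, v, hw1, hwv, hxv, by omega, hE1, hw, ?_, hpw, hpv⟩
        intro q hq1 hq2
        rcases hq2.lt_or_eq with h | h
        · exact hv q hq1 (by omega)
        · rw [h]; exact hlt
  have hx1fl : x1 ≤ ⌊Z⌋₊ := Nat.le_floor hx1Z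
  obtain ⟨w, v, hw1, hwv, hxv, hvN, hE1, hw, hv, hpw, hpv⟩ := main ⌊Z⌋₊ hx1fl (Nat.floor_le hZ0.le)
  refine ⟨x0, x1, v, hx01, hx0Y, hYx1, hxv, ?_, hx1E, by rw [← hK]; exact hE0, ?_, hpv⟩
  · exact (by exact_mod_cast hvN : (v : ℝ) ≤ (⌊Z⌋₊ : ℝ)).trans (Nat.floor_le hZ0.le)
  · exact lemZ _ fun q hq1 hq2 => hv q hq1 (Nat.le_floor hq2)

end Pool.Agent.N493.Sim
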