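import Pool.Agent.N493.SimU2

/-!
# Simultaneous approximation on an interval of scales: relations with a common denominator
-/

set_option autoImplicit false

namespace Pool.Agent.N493.Sim

open Filter Topology Pool.Agent.N493.NRNu

/-- all numbers `θ j` are simultaneously well approximable with denominators up to `X` -/
def Uni {ι : Type} (θ : ι → ℝ) (l X : ℝ) : Prop :=
  ∃ q : ℕ, 1 ≤ q ∧ (q : ℝ) ≤ X ∧ ∀ j, ∃ r : ℤ, |(q : ℝ) * θ j - r| ≤ X ^ (-l)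

theorem local_sim (t ν c : ℝ) (hν : 0 < ν) (hc0 : 0 < c) (hc : Nu t ν c) (l κ η : ℝ)
    (hl0 : 0 < l) (hl1 : l ≤ 1) (hl : ν * ((1 - l) / l) < l) (hκ1 : 1 ≤ κ) (hκ : ν < κ * l)
    (hη : ν * ((1 - l) / l) < η) :
    ∃ Y0 : ℝ, 2 ≤ Y0 ∧ ∀ (ι : Type) [Finite ι] (θ : ι → ℝ) (i0 : ι), θ i0 = t →
      ∀ Y Z : ℝ, Y0 ≤ Y → Y ^ κ ≤ Z → (∀ X : ℝ, Y ≤ X → X ≤ Z → Uni θ l X) →
      ∃ d : ℤ, d ≠ 0 ∧ |(d : ℝ)| ≤ Y ^ η ∧ ∀ j, ∃ a b : ℤ, |(b : ℝ)| ≤ Y ^ η ∧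
        |(a : ℝ) + b * t + d * θ j| ≤ Y ^ η * Z ^ (-(l + l / ν)) := by
  obtain ⟨Y0, hY0, hP⟩ := plane t ν c hc0 hc l κ hl0 hl1 hl hκ1 hκ
  obtain ⟨K, hK⟩ : ∃ K : ℝ, K = (2 : ℝ) ^ l := ⟨_, rfl⟩
  have hK0 : 0 < K := by rw [hK]; positivity
  obtain ⟨σ, hσ⟩ : ∃ σ : ℝ, σ = (1 - l) / l := ⟨_, rfl⟩
  have hσ0 : 0 ≤ σ := by rw [hσ]; exact div_nonneg (by linarith) hl0.le
  obtain ⟨C, hC⟩ : ∃ C : ℝ, C = 2 * K * (K / c) ^ σ := ⟨_, rfl⟩
  have hC0 : 0 < C := by rw [hC]; positivity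
  obtain ⟨C', hC'⟩ : ∃ C' : ℝ, C' = 2 * C * c ^ (-(1 / ν)) := ⟨_, rfl⟩
  have hC'0 : 0 < C' := by rw [hC']; positivity
  have hγ : 0 < 2 * l - ν * (1 - l) := by
    have h1 : ν * (1 - l) < l * l := by
      rw [← mul_div_assoc, div_lt_iff₀ hl0] at hl
      exact hl
    nlinarith
  have t1 := (tendsto_rpow_neg_atTop (show (0 : ℝ) < η - ν * σ by rw [hσ]; linarith)).const_mul
    (C + C')
  rw [mul_zero] at t1
  have t2 := (tendsto_rpow_neg_atTop hγ).const_mul ((2 * K) ^ ν * (2 * K))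
  rw [mul_zero] at t2
  obtain ⟨B1, hB1⟩ := eventually_atTop.1 (t1.eventually_lt_const one_pos)
  obtain ⟨B2, hB2⟩ := eventually_atTop.1 (t2.eventually_lt_const hc0)
  refine ⟨max Y0 (max B1 B2), hY0.trans (le_max_left _ _), ?_⟩
  intro ι _ θ i0 hi0 Y Z hY hYZ hU
  have : Nonempty ι := ⟨i0⟩
  have hYY0 : Y0 ≤ Y := (le_max_left _ _).trans hY
  have hY2 : 2 ≤ Y := hY0.trans hYY0
  have hYB1 : B1 ≤ Y := ((le_max_left _ _).trans (le_max_right _ _)).trans hY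
  have hYB2 : B2 ≤ Y := ((le_max_right _ _).trans (le_max_right _ _)).trans hY
  have hYp : 0 < Y := by linarith
  obtain ⟨x0, x1, x, hx01, hx0Y, hYx1, hx1x, hxZ, hE1, hE0, hEx, hIn⟩ :=
    hP ι θ i0 hi0 Y Z hYY0 hYZ hU
  have hx1p : (0 : ℝ) < x1 := by linarith
  have hx0p : (0 : ℝ) < x0 := by exact_mod_cast hx01
  have hx1x' : (x1 : ℝ) ≤ x := by exact_mod_cast hx1x
  have hxp : (0 : ℝ) < x := by linarith
  have hZp : 0 < Z := by linarith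
  have hx0x1 : x0 < x1 := by exact_mod_cast hx0Y.trans_lt hYx1
  -- the measure of irrationality
  have hNu : ∀ x : ℕ, 1 ≤ x → c ≤ (x : ℝ) ^ ν * E θ x := by
    intro x hx
    refine (hc x hx (y θ x i0)).trans ?_
    refine mul_le_mul_of_nonneg_left ?_ (by positivity)
    have := le_E θ x i0
    rwa [hi0] at this
  rw [← hK] at hE0
  have e4 : c * (x1 : ℝ) ^ l ≤ K * (x0 : ℝ) ^ ν := by
    have h1 : c ≤ (x0 : ℝ) ^ ν * (K * (x1 : ℝ) ^ (-l)) :=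
      (hNu x0 hx01).trans (mul_le_mul_of_nonneg_left hE0 (by positivity))
    have h2 := mul_le_mul_of_nonneg_right h1 (show 0 ≤ (x1 : ℝ) ^ l by positivity)
    have h3 : (x1 : ℝ) ^ (-l) * (x1 : ℝ) ^ l = 1 := by
      rw [← Real.rpow_add hx1p, neg_add_cancel, Real.rpow_zero]
    calc c * (x1 : ℝ) ^ l ≤ _ := h2
      _ = K * (x0 : ℝ) ^ ν * ((x1 : ℝ) ^ (-l) * (x1 : ℝ) ^ l) := by ring
      _ = _ := by rw [h3, mul_one]
  have e5 := growth c K l ν hc0 hK0 hl0 hl1 _ _ hx1p hx0p e4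
  rw [← hσ] at e5
  have e6 : (x0 : ℝ) ^ (ν * σ) ≤ Y ^ (ν * σ) :=
    Real.rpow_le_rpow hx0p.le hx0Y (mul_nonneg hν.le hσ0)
  -- the size of the coefficients
  have hx1pow : 2 * (x1 : ℝ) * E θ x0 ≤ 2 * K * (x1 : ℝ) ^ (1 - l) := by
    have h2 : (x1 : ℝ) * (x1 : ℝ) ^ (-l) = (x1 : ℝ) ^ (1 - l) := by
      nth_rewrite 1 [← Real.rpow_one (x1 : ℝ)]
      rw [← Real.rpow_add hx1p]
      congr 1
    calc 2 * (x1 : ℝ) * E θ x0 ≤ 2 * (x1 : ℝ) * (K * (x1 : ℝ) ^ (-l)) :=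
        mul_le_mul_of_nonneg_left hE0 (by positivity)
      _ = 2 * K * ((x1 : ℝ) * (x1 : ℝ) ^ (-l)) := by ring
      _ = _ := by rw [h2]
  have hG : ∀ j, |(((x0 : ℤ) * y θ x1 j - x1 * y θ x0 j : ℤ) : ℝ)| ≤ 2 * K * (x1 : ℝ) ^ (1 - l) :=
    fun j => (cross_le θ x0 x1 hx0x1 hE1 j).trans hx1pow
  have hG2 : 2 * K * (x1 : ℝ) ^ (1 - l) ≤ C * Y ^ (ν * σ) := by
    calc 2 * K * (x1 : ℝ) ^ (1 - l) ≤ 2 * K * ((K / c) ^ σ * (x0 : ℝ) ^ (ν * σ)) :=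
        mul_le_mul_of_nonneg_left e5 (by positivity)
      _ ≤ 2 * K * ((K / c) ^ σ * Y ^ (ν * σ)) := by
        refine mul_le_mul_of_nonneg_left ?_ (by positivity)
        exact mul_le_mul_of_nonneg_left e6 (by positivity)
      _ = _ := by rw [hC]; ring
  have hηpow : Y ^ (-(η - ν * σ)) * Y ^ η = Y ^ (ν * σ) := by
    rw [← Real.rpow_add hYp]
    congr 1
    ring
  have hsmall : (C + C') * Y ^ (ν * σ) ≤ Y ^ η := by
    have h1 := hB1 Y hYB1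
    have h2 := mul_le_mul_of_nonneg_right h1.le (show 0 ≤ Y ^ η by positivity)
    rw [mul_assoc, hηpow, one_mul] at h2
    exact h2
  have hνσ : 0 < Y ^ (ν * σ) := by positivity
  have hCη : C * Y ^ (ν * σ) ≤ Y ^ η := by nlinarith
  have hC'η : C' * Y ^ (ν * σ) ≤ Y ^ η := by nlinarith
  -- the values
  have hxinv : 1 / (x : ℝ) ≤ c ^ (-(1 / ν)) * Z ^ (-(l / ν)) := by
    have h1 : c ≤ (x : ℝ) ^ ν * Z ^ (-l) := (hNu x (by omega)).trans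
      (mul_le_mul_of_nonneg_left hEx (by positivity))
    have h2 : c * Z ^ l ≤ (x : ℝ) ^ ν := by
      have h2 := mul_le_mul_of_nonneg_right h1 (show 0 ≤ Z ^ l by positivity)
      have h3 : Z ^ (-l) * Z ^ l = 1 := by
        rw [← Real.rpow_add hZp, neg_add_cancel, Real.rpow_zero]
      rwa [mul_assoc, h3, mul_one] at h2
    have h3 := Real.rpow_le_rpow (by positivity) h2 (show 0 ≤ 1 / ν by positivity)
    rw [← Real.rpow_mul hxp.le, mul_one_div_cancel hν.ne', Real.rpow_one,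
      Real.mul_rpow hc0.le (by positivity), ← Real.rpow_mul hZp.le, mul_one_div] at h3
    rw [Real.rpow_neg hc0.le, Real.rpow_neg hZp.le, ← mul_inv, one_div]
    exact inv_anti₀ (by positivity) h3
  have hval : ∀ j, |((y θ x0 i0 * y θ x1 j - y θ x1 i0 * y θ x0 j : ℤ) : ℝ) +
      ((-((x0 : ℤ) * y θ x1 j - x1 * y θ x0 j) : ℤ) : ℝ) * t +
      ((x0 : ℤ) * y θ x1 i0 - x1 * y θ x0 i0 : ℤ) * θ j| ≤
      (|(((x0 : ℤ) * y θ x1 j - x1 * y θ x0 j : ℤ) : ℝ)| +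
        |(((x0 : ℤ) * y θ x1 i0 - x1 * y θ x0 i0 : ℤ) : ℝ)|) * (E θ x * (1 / x)) := by
    intro j
    have h1 := plane_rel θ x0 x1 x hIn i0 j
    have h2 : ((y θ x0 i0 * y θ x1 j - y θ x1 i0 * y θ x0 j : ℤ) : ℝ) * x -
      (((x0 : ℤ) * y θ x1 j - x1 * y θ x0 j : ℤ) : ℝ) * y θ x i0 +
      (((x0 : ℤ) * y θ x1 i0 - x1 * y θ x0 i0 : ℤ) : ℝ) * y θ x j = 0 := by exact_mod_cast h1
    have e : ((y θ x0 i0 * y θ x1 j - y θ x1 i0 * y θ x0 j : ℤ) : ℝ) +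
      ((-((x0 : ℤ) * y θ x1 j - x1 * y θ x0 j) : ℤ) : ℝ) * t +
      ((x0 : ℤ) * y θ x1 i0 - x1 * y θ x0 i0 : ℤ) * θ j =
      ((((x0 : ℤ) * y θ x1 i0 - x1 * y θ x0 i0 : ℤ) : ℝ) * (x * θ j - y θ x j) -
      (((x0 : ℤ) * y θ x1 j - x1 * y θ x0 j : ℤ) : ℝ) * (x * θ i0 - y θ x i0)) * (1 / x) := by
      rw [hi0, mul_one_div, eq_div_iff hxp.ne', Int.cast_neg]
      linear_combination h2
    rw [e, abs_mul, abs_of_nonneg (show 0 ≤ 1 / (x : ℝ) by positivity), ← mul_assoc]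
    refine mul_le_mul_of_nonneg_right ?_ (by positivity)
    refine (abs_sub _ _).trans ?_
    rw [abs_mul, abs_mul]
    have h3 := mul_le_mul_of_nonneg_left (le_E θ x j)
      (abs_nonneg (((x0 : ℤ) * y θ x1 i0 - x1 * y θ x0 i0 : ℤ) : ℝ))
    have h4 := mul_le_mul_of_nonneg_left (le_E θ x i0)
      (abs_nonneg (((x0 : ℤ) * y θ x1 j - x1 * y θ x0 j : ℤ) : ℝ))
    linarith
  have hE0x := E_nonneg θ x
  refine ⟨(x0 : ℤ) * y θ x1 i0 - x1 * y θ x0 i0, ?_, ((hG i0).trans hG2).trans hCη, fun j =>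
    ⟨y θ x0 i0 * y θ x1 j - y θ x1 i0 * y θ x0 j, -((x0 : ℤ) * y θ x1 j - x1 * y θ x0 j), ?_, ?_⟩⟩
  · intro hd
    obtain ⟨j, hj⟩ := indep θ x0 x1 hx01 hx0x1 hE1
    have h1 := hval j
    rw [hd, Int.cast_zero, zero_mul, add_zero, abs_zero, add_zero] at h1
    obtain ⟨D, hD⟩ : ∃ D : ℤ, D = (x0 : ℤ) * y θ x1 j - x1 * y θ x0 j := ⟨_, rfl⟩
    obtain ⟨a, ha⟩ : ∃ a : ℤ, a = y θ x0 i0 * y θ x1 j - y θ x1 i0 * y θ x0 j := ⟨_, rfl⟩
    have hGj := hG j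
    rw [← hD] at h1 hj hGj
    rw [← ha] at h1
    obtain ⟨n, hn⟩ : ∃ n : ℤ, |((D.natAbs : ℕ) : ℝ) * t - n| = |(a : ℝ) + ((-D : ℤ) : ℝ) * t| := by
      have hn : ((D.natAbs : ℕ) : ℝ) = |(D : ℝ)| := by
        rw [Nat.cast_natAbs, Int.cast_abs]
      rcases abs_cases (D : ℝ) with ⟨h1, _⟩ | ⟨h1, _⟩
      · refine ⟨a, ?_⟩
        rw [hn, h1, ← abs_neg]
        congr 1
        push_cast
        ring
      · refine ⟨-a, ?_⟩
        rw [hn, h1]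
        congr 1
        push_cast
        ring
    have h2 := hc D.natAbs (Int.natAbs_pos.2 hj) n
    rw [hn, Nat.cast_natAbs, Int.cast_abs] at h2
    have h3 : E θ x * (1 / x) ≤ (x1 : ℝ) ^ (-l) * (1 / x1) := by
      refine mul_le_mul (hEx.trans ?_) ?_ (by positivity) (by positivity)
      · exact Real.rpow_le_rpow_of_nonpos hx1p (hx1x'.trans hxZ) (by linarith)
      · exact one_div_le_one_div_of_le hx1p hx1x'
    have h4 : c ≤ (2 * K * (x1 : ℝ) ^ (1 - l)) ^ ν *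
        (2 * K * (x1 : ℝ) ^ (1 - l) * ((x1 : ℝ) ^ (-l) * (1 / x1))) := by
      refine h2.trans (mul_le_mul (Real.rpow_le_rpow (abs_nonneg _) hGj hν.le) (h1.trans ?_)
        (abs_nonneg _) (by positivity))
      exact mul_le_mul hGj h3 (by positivity) (by positivity)
    have h5 : (2 * K * (x1 : ℝ) ^ (1 - l)) ^ ν *
        (2 * K * (x1 : ℝ) ^ (1 - l) * ((x1 : ℝ) ^ (-l) * (1 / x1))) =
        (2 * K) ^ ν * (2 * K) * (x1 : ℝ) ^ (-(2 * l - ν * (1 - l))) := by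
      rw [Real.mul_rpow (by positivity) (by positivity), ← Real.rpow_mul hx1p.le, one_div,
        ← Real.rpow_neg_one (x1 : ℝ)]
      have : (x1 : ℝ) ^ (-(2 * l - ν * (1 - l))) =
          (x1 : ℝ) ^ ((1 - l) * ν) * ((x1 : ℝ) ^ (1 - l) * ((x1 : ℝ) ^ (-l) * (x1 : ℝ) ^ (-1 : ℝ))) := by
        rw [← Real.rpow_add hx1p, ← Real.rpow_add hx1p, ← Real.rpow_add hx1p]
        congr 1
        ring
      rw [this]
      ring
    have h6 := hB2 x1 (hYB2.trans hYx1.le)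
    rw [h5] at h4
    linarith
  · rw [Int.cast_neg, abs_neg]
    exact ((hG j).trans hG2).trans hCη
  · refine (hval j).trans ?_
    have h1 : |(((x0 : ℤ) * y θ x1 j - x1 * y θ x0 j : ℤ) : ℝ)| +
        |(((x0 : ℤ) * y θ x1 i0 - x1 * y θ x0 i0 : ℤ) : ℝ)| ≤ 2 * (C * Y ^ (ν * σ)) := by
      rw [two_mul]
      exact add_le_add ((hG j).trans hG2) ((hG i0).trans hG2)
    have h2 : E θ x * (1 / x) ≤ Z ^ (-l) * (c ^ (-(1 / ν)) * Z ^ (-(l / ν))) :=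
      mul_le_mul hEx hxinv (by positivity) (by positivity)
    refine (mul_le_mul h1 h2 (by positivity) (by positivity)).trans ?_
    have e : 2 * (C * Y ^ (ν * σ)) * (Z ^ (-l) * (c ^ (-(1 / ν)) * Z ^ (-(l / ν)))) =
        C' * Y ^ (ν * σ) * Z ^ (-(l + l / ν)) := by
      rw [hC', neg_add, Real.rpow_add hZp]
      ring
    rw [e]
    exact mul_le_mul_of_nonneg_right hC'η (by positivity)

end Pool.Agent.N493.Sim
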