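import Pool.Agent.N493.SimU3

/-!
# Simultaneous approximation at all large scales: exact relations
-/

set_option autoImplicit false

namespace Pool.Agent.N493.Sim

open Filter Topology Pool.Agent.N493.NRNu

lemma finite_int (H : ℝ) : {b : ℤ | |(b : ℝ)| ≤ H}.Finite := by
  refine (Set.finite_Icc (-⌈H⌉) ⌈H⌉).subset fun b hb => ?_
  have h1 := abs_le.1 (show |(b : ℝ)| ≤ H from hb)
  have h2 := Int.le_ceil H
  constructor
  · have : ((-⌈H⌉ : ℤ) : ℝ) ≤ b := by push_cast; linarith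
    exact_mod_cast this
  · have : (b : ℝ) ≤ (⌈H⌉ : ℤ) := by linarith
    exact_mod_cast this

/-- simultaneous approximation at all large scales: exact relations with a common denominator -/
theorem exact_sim (t ν c : ℝ) (hν : 0 < ν) (hc0 : 0 < c) (hc : Nu t ν c) (l η : ℝ)
    (hl0 : 0 < l) (hl1 : l ≤ 1) (hl : ν * ((1 - l) / l) < l) (hη : ν * ((1 - l) / l) < η) :
    ∃ Y0 : ℝ, 2 ≤ Y0 ∧ ∀ (ι : Type) [Finite ι] (θ : ι → ℝ) (i0 : ι), θ i0 = t →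
      ∀ Y : ℝ, Y0 ≤ Y → (∀ X : ℝ, Y ≤ X → Uni θ l X) →
      ∃ d : ℤ, d ≠ 0 ∧ |(d : ℝ)| ≤ Y ^ η ∧ ∀ j, ∃ a b : ℤ, |(b : ℝ)| ≤ Y ^ η ∧
        (a : ℝ) + b * t + d * θ j = 0 := by
  obtain ⟨κ, hκ⟩ : ∃ κ : ℝ, κ = ν / l + 1 := ⟨_, rfl⟩
  have hνl : 0 < ν / l := by positivity
  obtain ⟨Y0, hY0, hP⟩ := local_sim t ν c hν hc0 hc l κ η hl0 hl1 hl (by rw [hκ]; linarith)
    (by rw [hκ, add_mul, div_mul_cancel₀ _ hl0.ne']; linarith) hη
  refine ⟨Y0, hY0, ?_⟩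
  intro ι _ θ i0 hi0 Y hY hU
  by_contra hI
  push Not at hI
  have hY2 : 2 ≤ Y := hY0.trans hY
  have hev : ∀ᶠ Z : ℝ in atTop, ∀ d : ℤ, d ∈ {b : ℤ | |(b : ℝ)| ≤ Y ^ η} → d ≠ 0 →
      ∃ j, ∀ a : ℤ, ∀ b : ℤ, b ∈ {b : ℤ | |(b : ℝ)| ≤ Y ^ η} →
        Y ^ η * Z ^ (-(l + l / ν)) < |(a : ℝ) + b * t + d * θ j| := by
    refine (eventually_all_finite (finite_int _)).2 fun d hd => ?_
    by_cases hd0 : d = 0
    · exact Eventually.of_forall fun Z h => absurd hd0 h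
    obtain ⟨j, hj⟩ := hI d hd0 hd
    have h1 : ∀ᶠ Z : ℝ in atTop, ∀ b : ℤ, b ∈ {b : ℤ | |(b : ℝ)| ≤ Y ^ η} →
        Y ^ η * Z ^ (-(l + l / ν)) < |(b * t + d * θ j) - round ((b : ℝ) * t + d * θ j)| := by
      refine (eventually_all_finite (finite_int _)).2 fun b hb => ?_
      have h2 := (tendsto_rpow_neg_atTop (show (0 : ℝ) < l + l / ν by positivity)).const_mul
        (Y ^ η)
      rw [mul_zero] at h2
      refine h2.eventually_lt_const ?_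
      rw [abs_pos]
      intro h0
      refine hj (-round ((b : ℝ) * t + d * θ j)) b hb ?_
      push_cast
      linarith
    refine h1.mono fun Z hZ _ => ⟨j, fun a b hb => ?_⟩
    refine (hZ b hb).trans_le ?_
    have h3 := round_le ((b : ℝ) * t + d * θ j) (-a)
    refine h3.trans (le_of_eq ?_)
    congr 1
    push_cast
    ring
  obtain ⟨Z, hZ1, hZ2⟩ := (hev.and (eventually_ge_atTop (Y ^ κ))).exists
  obtain ⟨d, hd0, hd1, hd2⟩ := hP ι θ i0 hi0 Y Z hY hZ2 fun X hX _ => hU X hX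
  obtain ⟨j, hj⟩ := hZ1 d hd1 hd0
  obtain ⟨a, b, hb, hab⟩ := hd2 j
  have := hj a b hb
  linarith

/-- Dirichlet -/
theorem dirichlet_uni {ι : Type} [Finite ι] (θ : ι → ℝ) (t : ℝ)
    (h : ∀ j, ∃ a b : ℚ, θ j = a + b * t) (l : ℝ) (hl1 : l < 1) :
    ∃ Y : ℝ, 1 ≤ Y ∧ ∀ X : ℝ, Y ≤ X → Uni θ l X := by
  classical
  have := Fintype.ofFinite ι
  choose a b hab using h
  obtain ⟨D, hD⟩ : ∃ D : ℕ, D = ∏ j, ((a j).den * (b j).den) := ⟨_, rfl⟩
  have hD0 : 0 < D := by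
    rw [hD]; exact Finset.prod_pos fun j _ => Nat.mul_pos (a j).pos (b j).pos
  have hAB : ∀ j, ∃ A B : ℤ, (D : ℝ) * θ j = A + B * t := by
    intro j
    obtain ⟨m, hm⟩ : (a j).den * (b j).den ∣ D := by
      rw [hD]; exact Finset.dvd_prod_of_mem _ (Finset.mem_univ j)
    refine ⟨(a j).num * (b j).den * m, (b j).num * (a j).den * m, ?_⟩
    have e1 : ((a j).den : ℝ) * (a j : ℝ) = (a j).num := by
      have := Rat.den_mul_eq_num (a j)
      exact_mod_cast congrArg (fun z : ℚ => (z : ℝ)) this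
    have e2 : ((b j).den : ℝ) * (b j : ℝ) = (b j).num := by
      have := Rat.den_mul_eq_num (b j)
      exact_mod_cast congrArg (fun z : ℚ => (z : ℝ)) this
    rw [hm, hab j]
    push_cast
    rw [← e1, ← e2]
    ring
  choose A B hAB using hAB
  obtain ⟨M, hM⟩ : ∃ M : ℝ, M = 1 + ∑ j, |(B j : ℝ)| := ⟨_, rfl⟩
  have hMB : ∀ j, |(B j : ℝ)| ≤ M := by
    intro j
    have := Finset.single_le_sum (f := fun j => |(B j : ℝ)|) (fun j _ => abs_nonneg _)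
      (Finset.mem_univ j)
    rw [hM]
    linarith
  have hM0 : 0 ≤ M := by rw [hM]; positivity
  have hev := tendsto_rpow_atTop (show (0 : ℝ) < 1 - l by linarith)
  obtain ⟨Y, hY⟩ := eventually_atTop.1 (hev.eventually_ge_atTop (M * D))
  refine ⟨max (max Y D) 1, le_max_right _ _, fun X hX => ?_⟩
  have hXY : Y ≤ X := ((le_max_left _ _).trans (le_max_left _ _)).trans hX
  have hXD : (D : ℝ) ≤ X := ((le_max_right _ _).trans (le_max_left _ _)).trans hX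
  have hX1 : 1 ≤ X := (le_max_right _ _).trans hX
  have hX0 : 0 < X := by linarith
  have hD0' : (0 : ℝ) < D := by exact_mod_cast hD0
  obtain ⟨n, hn⟩ : ∃ n : ℕ, n = ⌊X / D⌋₊ := ⟨_, rfl⟩
  have hn0 : 0 < n := by
    rw [hn]; exact Nat.floor_pos.2 (by rw [le_div_iff₀ hD0']; linarith)
  have hn1 : (n : ℝ) * D ≤ X := by
    rw [← le_div_iff₀ hD0', hn]; exact Nat.floor_le (by positivity)
  have hn2 : X < (n + 1) * D := by
    rw [← div_lt_iff₀ hD0', hn]; exact Nat.lt_floor_add_one _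
  obtain ⟨m, k, hk0, hkn, hk⟩ := Real.exists_int_int_abs_mul_sub_le t hn0
  obtain ⟨K, rfl⟩ := Int.eq_ofNat_of_zero_le hk0.le
  have hK0 : 1 ≤ K := by exact_mod_cast hk0
  have hKn : (K : ℝ) ≤ n := by exact_mod_cast hkn
  refine ⟨K * D, Nat.mul_pos (by omega) hD0, ?_, fun j => ⟨K * A j + B j * m, ?_⟩⟩
  · push_cast
    nlinarith
  · have e : (((K * D : ℕ) : ℝ)) * θ j - ((K * A j + B j * m : ℤ) : ℝ) =
        B j * (((K : ℤ) : ℝ) * t - m) := by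
      push_cast
      linear_combination (K : ℝ) * hAB j
    rw [e, abs_mul]
    have h1 : |(B j : ℝ)| * |((K : ℤ) : ℝ) * t - m| ≤ M * (1 / (n + 1)) :=
      mul_le_mul (hMB j) hk (abs_nonneg _) hM0
    refine h1.trans ?_
    have h2 := hY X hXY
    have h3 : X ^ (1 - l) = X ^ (-l) * X := by
      nth_rewrite 3 [← Real.rpow_one X]
      rw [← Real.rpow_add hX0]
      congr 1
      ring
    rw [h3] at h2
    rw [mul_one_div, div_le_iff₀ (by positivity)]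
    have h4 : (0 : ℝ) ≤ X ^ (-l) := by positivity
    have h5 : M * D ≤ X ^ (-l) * ((n + 1) * D) := h2.trans (mul_le_mul_of_nonneg_left hn2.le h4)
    have h6 : M * D ≤ (X ^ (-l) * (n + 1)) * D := by linarith
    exact le_of_mul_le_mul_right h6 hD0'

lemma Uni.mono {ι : Type} (θ : ι → ℝ) (l l' X : ℝ) (hX : 1 ≤ X) (hl : l' ≤ l) (h : Uni θ l X) :
    Uni θ l' X := by
  obtain ⟨q, h1, h2, h3⟩ := h
  refine ⟨q, h1, h2, fun j => ?_⟩
  obtain ⟨r, hr⟩ := h3 j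
  exact ⟨r, hr.trans (Real.rpow_le_rpow_of_exponent_le hX (by linarith))⟩

/-- the dichotomy for the uniform exponent -/
theorem iff_sim (t ν c : ℝ) (hν : 0 < ν) (hc0 : 0 < c) (hc : Nu t ν c) (l : ℝ)
    (hl0 : 0 < l) (hl1 : l < 1) (hl : ν * ((1 - l) / l) < l)
    {ι : Type} [Finite ι] (θ : ι → ℝ) (i0 : ι) (hi0 : θ i0 = t) :
    (∀ j, ∃ a b : ℚ, θ j = a + b * t) ↔ ∃ Y : ℝ, ∀ X : ℝ, Y ≤ X → Uni θ l X := by
  constructor
  · intro h
    obtain ⟨Y, -, hY⟩ := dirichlet_uni θ t h l hl1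
    exact ⟨Y, hY⟩
  · rintro ⟨Y, hY⟩ j
    obtain ⟨Y0, hY0, h⟩ := exact_sim t ν c hν hc0 hc l l hl0 hl1.le hl hl
    obtain ⟨d, hd0, -, hd⟩ := h ι θ i0 hi0 (max Y0 Y) (le_max_left _ _)
      fun X hX => hY X ((le_max_right _ _).trans hX)
    obtain ⟨a, b, -, hab⟩ := hd j
    refine ⟨-a / d, -b / d, ?_⟩
    have hd0' : (d : ℝ) ≠ 0 := by exact_mod_cast hd0
    push_cast
    field_simp
    linarith

end Pool.Agent.N493.Sim
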